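import Mathlib

section

/-! A plane configuration of `2p+3` points and lines that forces characteristic `p`. -/

namespace Pool.Agent.MP_eba2ed_ag

open Matrix

/-- An affine realisation of an incidence structure in which no two points share a coordinate. -/
structure Aff (k : Type) [Field k] {Pt Ln : Type} (inc : Pt → Ln → Prop) where
  X : Pt → k
  Y : Pt → k
  a : Ln → k
  b : Ln → k
  c : Ln → k
  hX : Function.Injective X
  hY : Function.Injective Y
  ha : ∀ l, a l ≠ 0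
  hc : ∀ l, c l ≠ 0
  inc_iff : ∀ P l, inc P l ↔ c l * Y P = a l * X P + b l

def Aff.Good {k : Type} [Field k] {Pt Ln : Type} {inc : Pt → Ln → Prop} (F : Aff k inc) : Prop :=
  Function.Injective F.a ∧ Function.Injective F.c

def Aff.map {k k' : Type} [Field k] [Field k'] {Pt Ln : Type} {inc : Pt → Ln → Prop}
    (F : Aff k inc) (φ : k →+* k') : Aff k' inc where
  X := φ ∘ F.X
  Y := φ ∘ F.Y
  a := φ ∘ F.a
  b := φ ∘ F.b
  c := φ ∘ F.c
  hX := φ.injective.comp F.hX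
  hY := φ.injective.comp F.hY
  ha := fun l => by simpa using F.ha l
  hc := fun l => by simpa using F.hc l
  inc_iff := fun P l => by
    rw [F.inc_iff, ← φ.injective.eq_iff]
    simp

lemma Aff.Good.map {k k' : Type} [Field k] [Field k'] {Pt Ln : Type} {inc : Pt → Ln → Prop}
    {F : Aff k inc} (h : F.Good) (φ : k →+* k') : (F.map φ).Good :=
  ⟨φ.injective.comp h.1, φ.injective.comp h.2⟩

lemma exists_dot_ne {k : Type} [Field k] [Infinite k] {J σ : Type} [Finite J] [Fintype σ]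
    (n : J → σ → k) (hn : ∀ j, n j ≠ 0) : ∃ x : σ → k, ∀ j, x ⬝ᵥ n j ≠ 0 := by
  classical
  let f : J → Module.Dual k (σ → k) := fun j =>
    { toFun := fun x => x ⬝ᵥ n j
      map_add' := fun x y => add_dotProduct _ _ _
      map_smul' := fun c x => smul_dotProduct _ _ _ }
  refine Module.Dual.exists_forall_ne_zero_of_forall_exists f (fun j => ?_)
  obtain ⟨i, hi⟩ := Function.ne_iff.1 (hn j)
  exact ⟨Pi.single i 1, by simpa [f] using hi⟩

lemma exists_aff {k : Type} [Field k] [Infinite k] {Pt Ln : Type} [Finite Pt] [Fintype Ln]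
    [Nonempty Ln] (v : Pt → Fin 3 → k) (w : Ln → Fin 3 → k) (inc : Pt → Ln → Prop)
    (hinc : ∀ P l, inc P l ↔ w l ⬝ᵥ v P = 0) (hv0 : ∀ P, v P ≠ 0)
    (hv : ∀ P Q, P ≠ Q → ∀ s t : k, s • v P = t • v Q → s = 0) (hw : ∀ l, w l ≠ 0)
    (hl : ∀ l, ∃ P, inc P l) : ∃ F : Aff k inc, F.Good := by
  classical
  obtain ⟨z, hz⟩ := exists_dot_ne v hv0
  let d : {q : Pt × Pt // q.1 ≠ q.2} → Fin 3 → k :=
    fun q => (z ⬝ᵥ v q.1.2) • v q.1.1 - (z ⬝ᵥ v q.1.1) • v q.1.2
  have hd : ∀ q, d q ≠ 0 := fun q h => hz _ (hv _ _ q.2 _ _ (sub_eq_zero.1 h))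
  have hwz : ∀ l, w l ⨯₃ z ≠ 0 := by
    intro l h
    obtain ⟨P, hP⟩ := hl l
    have h0 := (hinc P l).1 hP
    have h1 := congrFun h 0
    have h2 := congrFun h 1
    have h3 := congrFun h 2
    have h4 := hz P
    simp [cross_apply] at h1 h2 h3
    simp only [dotProduct, Fin.sum_univ_three] at h0 h4
    apply hw l
    ext i
    apply mul_right_cancel₀ h4
    fin_cases i
    · simp; left; apply mul_right_cancel₀ h4
      linear_combination z 0 * h0 + v P 1 * h3 - v P 2 * h2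
    · simp; left; apply mul_right_cancel₀ h4
      linear_combination z 1 * h0 - v P 0 * h3 + v P 2 * h1
    · simp; left; apply mul_right_cancel₀ h4
      linear_combination z 2 * h0 + v P 0 * h2 - v P 1 * h1
  obtain ⟨x, hx⟩ := exists_dot_ne (Sum.elim d (fun l => w l ⨯₃ z)) (by
    rintro (q | l)
    exacts [hd q, hwz l])
  have hB : ∀ l, w l ⬝ᵥ (z ⨯₃ x) ≠ 0 := by
    intro l
    have := hx (Sum.inr l)
    rwa [triple_product_permutation, triple_product_permutation]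
  have hzx : z ⨯₃ x ≠ 0 := by
    intro h
    have := hB (Classical.arbitrary Ln)
    simp [h] at this
  obtain ⟨y, hy⟩ := exists_dot_ne (Sum.elim d (Sum.elim (fun l => w l ⨯₃ z)
    (fun _ : Unit => z ⨯₃ x))) (by
    rintro (q | l | u)
    exacts [hd q, hwz l, hzx])
  have hA : ∀ l, w l ⬝ᵥ (z ⨯₃ y) ≠ 0 := by
    intro l
    have := hy (Sum.inr (Sum.inl l))
    rwa [triple_product_permutation, triple_product_permutation]
  have hΔ : y ⬝ᵥ (z ⨯₃ x) ≠ 0 := hy (Sum.inr (Sum.inr ()))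
  have hinj : ∀ u : Fin 3 → k, (∀ q, u ⬝ᵥ d q ≠ 0) →
      Function.Injective (fun P => u ⬝ᵥ v P / z ⬝ᵥ v P) := by
    intro u hu P Q h
    by_contra hne
    apply hu ⟨(P, Q), hne⟩
    simp only at h
    rw [div_eq_div_iff (hz P) (hz Q)] at h
    simp only [d, dotProduct_sub, dotProduct_smul, smul_eq_mul]
    linear_combination h
  let sp : (Ln → k) → {q : Ln × Ln // q.1 ≠ q.2} → Ln → k :=
    fun A q => Pi.single q.1.1 (A q.1.1) - Pi.single q.1.2 (A q.1.2)
  have hsp : ∀ A : Ln → k, (∀ l, A l ≠ 0) → ∀ q, sp A q ≠ 0 := by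
    intro A hA q h
    have := congrFun h q.1.1
    simp [sp, Pi.single_eq_of_ne q.2] at this
    exact hA _ this
  obtain ⟨t, ht⟩ := exists_dot_ne (Sum.elim (fun l : Ln => Pi.single l (1 : k))
    (Sum.elim (sp fun l => w l ⬝ᵥ (z ⨯₃ y)) (sp fun l => w l ⬝ᵥ (z ⨯₃ x)))) (by
    rintro (l | q | q)
    · simp
    · exact hsp _ hA q
    · exact hsp _ hB q)
  have ht0 : ∀ l, t l ≠ 0 := fun l => by simpa using ht (Sum.inl l)
  refine ⟨⟨fun P => x ⬝ᵥ v P / z ⬝ᵥ v P, fun P => y ⬝ᵥ v P / z ⬝ᵥ v P,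
    fun l => t l * (w l ⬝ᵥ (z ⨯₃ y)), fun l => - (t l * (w l ⬝ᵥ (x ⨯₃ y))),
    fun l => t l * (w l ⬝ᵥ (z ⨯₃ x)), hinj x (fun q => hx (Sum.inl q)),
    hinj y (fun q => hy (Sum.inl q)), fun l => mul_ne_zero (ht0 l) (hA l),
    fun l => mul_ne_zero (ht0 l) (hB l), fun P l => ?_⟩, ?_, ?_⟩
  · rw [hinc]
    have key : y ⬝ᵥ (z ⨯₃ x) * (w l ⬝ᵥ v P) = (w l ⬝ᵥ (z ⨯₃ x)) * (y ⬝ᵥ v P) -
        (w l ⬝ᵥ (z ⨯₃ y)) * (x ⬝ᵥ v P) + (w l ⬝ᵥ (x ⨯₃ y)) * (z ⬝ᵥ v P) := by
      simp [cross_apply, dotProduct, Fin.sum_univ_three]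
      ring
    have h1 := hz P
    have h2 := ht0 l
    constructor
    · intro h
      rw [h, mul_zero] at key
      field_simp
      linear_combination -key
    · intro h
      field_simp at h
      apply mul_left_cancel₀ hΔ
      linear_combination key + h
  · intro l m h
    by_contra hne
    apply ht (Sum.inr (Sum.inl ⟨(l, m), hne⟩))
    simpa [sp, sub_eq_zero] using h
  · intro l m h
    by_contra hne
    apply ht (Sum.inr (Sum.inr ⟨(l, m), hne⟩))
    simpa [sp, sub_eq_zero] using h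

/-- index type of the points and of the lines -/
abbrev Ix (p : ℕ) : Type := Fin 3 ⊕ ZMod p ⊕ ZMod p

/-- the points -/
def ptv (p : ℕ) : Ix p → Fin 3 → ZMod p
  | .inl i => ![![1, 0, 0], ![0, 1, 0], ![1, 1, 0]] i
  | .inr (.inl n) => ![n, 0, 1]
  | .inr (.inr n) => ![n, 1, 1]

/-- the lines -/
def lnv (p : ℕ) : Ix p → Fin 3 → ZMod p
  | .inl i => ![![0, 0, 1], ![0, 1, 0], ![0, 1, -1]] i
  | .inr (.inl n) => ![1, 0, -n]
  | .inr (.inr n) => ![1, -1, -n]

def incp (p : ℕ) (P l : Ix p) : Prop := lnv p l ⬝ᵥ ptv p P = 0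

theorem exists_aff_char (p : ℕ) [Fact p.Prime] (k : Type) [Field k] [Infinite k] [CharP k p] :
    ∃ F : Aff k (incp p), F.Good := by
  let φ : ZMod p →+* k := ZMod.castHom (dvd_refl p) k
  have hφ := φ.injective
  refine exists_aff (fun P => φ ∘ ptv p P) (fun l => φ ∘ lnv p l) _ (fun P l => ?_) ?_ ?_ ?_ ?_
  · rw [← RingHom.map_dotProduct, map_eq_zero_iff φ hφ, incp]
  · rintro (i | n | n) h
    · fin_cases i
      · simpa [ptv] using congrFun h 0
      · simpa [ptv] using congrFun h 1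
      · simpa [ptv] using congrFun h 0
    · simpa [ptv] using congrFun h 2
    · simpa [ptv] using congrFun h 2
  · intro P Q hPQ s t h
    have h0 := congrFun h 0
    have h1 := congrFun h 1
    have h2 := congrFun h 2
    clear h
    rcases P with i | n | n <;> rcases Q with j | m | m
    · fin_cases i <;> fin_cases j <;> simp [ptv] at h0 h1 h2 hPQ <;> grind
    · fin_cases i <;> simp [ptv] at h0 h1 h2 <;> grind
    · fin_cases i <;> simp [ptv] at h0 h1 h2 <;> grind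
    · fin_cases j <;> simp [ptv] at h0 h1 h2 <;> grind
    · simp only [ptv, Pi.smul_apply, Function.comp_apply, smul_eq_mul] at h0 h2
      simp at h0 h2
      subst h2
      by_contra hs
      exact hPQ (by rw [hφ (mul_left_cancel₀ hs h0)])
    · simp [ptv] at h0 h1 h2; grind
    · fin_cases j <;> simp [ptv] at h0 h1 h2 <;> grind
    · simp [ptv] at h0 h1 h2; grind
    · simp only [ptv, Pi.smul_apply, Function.comp_apply, smul_eq_mul] at h0 h2
      simp at h0 h2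
      subst h2
      by_contra hs
      exact hPQ (by rw [hφ (mul_left_cancel₀ hs h0)])
  · rintro (i | n | n) h
    · fin_cases i
      · simpa [lnv] using congrFun h 2
      · simpa [lnv] using congrFun h 1
      · simpa [lnv] using congrFun h 1
    · simpa [lnv] using congrFun h 0
    · simpa [lnv] using congrFun h 0
  · rintro (i | n | n)
    · refine ⟨.inl 0, ?_⟩
      fin_cases i <;> simp [incp, lnv, ptv]
    · exact ⟨.inl 1, by simp [incp, lnv, ptv]⟩
    · exact ⟨.inl 2, by simp [incp, lnv, ptv]⟩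

theorem char_of_aff (p : ℕ) [Fact p.Prime] {K : Type} [Field K] (F : Aff K (incp p)) :
    (p : K) = 0 := by
  let f : Ix p → Ix p → K := fun l P => F.c l * F.Y P - F.a l * F.X P - F.b l
  have hf : ∀ P l, incp p P l ↔ f l P = 0 := by
    intro P l
    rw [F.inc_iff]
    simp only [f]
    constructor <;> intro h <;> linear_combination h
  let x := f (.inr (.inl 0))
  let y := f (.inl 1)
  let z := f (.inl 0)
  have hdet : ∀ l P Q R, incp p P l → incp p Q l → incp p R l →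
      x P * (y Q * z R - y R * z Q) - y P * (x Q * z R - x R * z Q) +
        z P * (x Q * y R - x R * y Q) = 0 := by
    intro l P Q R hP hQ hR
    rw [F.inc_iff] at hP hQ hR
    have h : (F.X Q - F.X P) * (F.Y R - F.Y P) - (F.X R - F.X P) * (F.Y Q - F.Y P) = 0 := by
      apply mul_left_cancel₀ (F.hc l)
      linear_combination (F.X Q - F.X P) * hR - (F.X R - F.X P) * hQ + (F.X R - F.X Q) * hP
    simp only [x, y, z, f]
    linear_combination (-F.a (.inr (.inl 0)) * (F.c (.inl 1) * (-F.b (.inl 0)) -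
        (-F.b (.inl 1)) * F.c (.inl 0)) -
      F.c (.inr (.inl 0)) * ((-F.a (.inl 1)) * (-F.b (.inl 0)) - (-F.b (.inl 1)) * (-F.a (.inl 0))) +
      (-F.b (.inr (.inl 0))) * ((-F.a (.inl 1)) * F.c (.inl 0) - F.c (.inl 1) * (-F.a (.inl 0)))) * h
  have x1 : x (.inl 0) ≠ 0 := fun h => by simpa [incp, lnv, ptv] using (hf _ _).2 h
  have y1 : y (.inl 0) = 0 := (hf _ _).1 (by simp [incp, lnv, ptv])
  have z1 : z (.inl 0) = 0 := (hf _ _).1 (by simp [incp, lnv, ptv])
  have x2 : x (.inl 1) = 0 := (hf _ _).1 (by simp [incp, lnv, ptv])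
  have y2 : y (.inl 1) ≠ 0 := fun h => by simpa [incp, lnv, ptv] using (hf _ _).2 h
  have z2 : z (.inl 1) = 0 := (hf _ _).1 (by simp [incp, lnv, ptv])
  have x3 : x (.inl 2) ≠ 0 := fun h => by simpa [incp, lnv, ptv] using (hf _ _).2 h
  have y3 : y (.inl 2) ≠ 0 := fun h => by simpa [incp, lnv, ptv] using (hf _ _).2 h
  have z3 : z (.inl 2) = 0 := (hf _ _).1 (by simp [incp, lnv, ptv])
  have ya : ∀ n, y (.inr (.inl n)) = 0 := fun n => (hf _ _).1 (by simp [incp, lnv, ptv])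
  have za : ∀ n, z (.inr (.inl n)) ≠ 0 := fun n h => by simpa [incp, lnv, ptv] using (hf _ _).2 h
  have yb : ∀ n, y (.inr (.inr n)) ≠ 0 := fun n h => by simpa [incp, lnv, ptv] using (hf _ _).2 h
  have zb : ∀ n, z (.inr (.inr n)) ≠ 0 := fun n h => by simpa [incp, lnv, ptv] using (hf _ _).2 h
  let s : ZMod p → K := fun n => x (.inr (.inl n)) / z (.inr (.inl n))
  let δ : K := x (.inl 2) * y (.inr (.inr 0)) / (y (.inl 2) * z (.inr (.inr 0)))
  have hδ : δ ≠ 0 := div_ne_zero (mul_ne_zero x3 (yb 0)) (mul_ne_zero y3 (zb 0))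
  have hstep : ∀ n, s (n + 1) = s n + δ := by
    intro n
    have h1 := hdet (.inl 2) (.inl 0) (.inr (.inr (n + 1))) (.inr (.inr 0))
      (by simp [incp, lnv, ptv]) (by simp [incp, lnv, ptv]) (by simp [incp, lnv, ptv])
    have h2 := hdet (.inr (.inl (n + 1))) (.inl 1) (.inr (.inl (n + 1))) (.inr (.inr (n + 1)))
      (by simp [incp, lnv, ptv]) (by simp [incp, lnv, ptv]) (by simp [incp, lnv, ptv])
    have h3 := hdet (.inr (.inr n)) (.inl 2) (.inr (.inl n)) (.inr (.inr (n + 1)))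
      (by simp [incp, lnv, ptv]) (by simp [incp, lnv, ptv]) (by simp [incp, lnv, ptv])
    rw [y1, z1] at h1
    rw [x2, z2] at h2
    rw [z3, ya] at h3
    have e1 : y (.inr (.inr (n + 1))) * z (.inr (.inr 0)) =
        y (.inr (.inr 0)) * z (.inr (.inr (n + 1))) := by
      apply mul_left_cancel₀ x1
      linear_combination h1
    have e2 : x (.inr (.inl (n + 1))) * z (.inr (.inr (n + 1))) =
        x (.inr (.inr (n + 1))) * z (.inr (.inl (n + 1))) := by
      apply mul_left_cancel₀ y2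
      linear_combination -h2
    have a1 := za n
    have a2 := za (n + 1)
    have a3 := zb 0
    have a4 := zb (n + 1)
    simp only [s, δ]
    field_simp
    apply mul_left_cancel₀ a4
    linear_combination (z (.inr (.inl n)) * y (.inl 2) * z (.inr (.inr 0))) * e2 +
      (z (.inr (.inl (n + 1))) * z (.inr (.inr 0))) * h3 +
      (x (.inl 2) * z (.inr (.inl n)) * z (.inr (.inl (n + 1)))) * e1
  have hsum := Equiv.sum_comp (Equiv.addRight (1 : ZMod p)) s
  simp only [Equiv.coe_addRight, hstep, Finset.sum_add_distrib, Finset.sum_const,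
    Finset.card_univ, ZMod.card, nsmul_eq_mul, add_eq_left] at hsum
  exact (mul_eq_zero.1 hsum).resolve_right hδ

end Pool.Agent.MP_eba2ed_ag

end

section

/-! Affine charts of a functor on commutative rings. -/

namespace Pool.Agent.MP_eba2ed_ag.Rep

open CategoryTheory AlgebraicGeometry Limits

/-- A set valued functor on commutative rings, in unbundled form. -/
structure Fn where
  obj : CommRingCat.{0} → Type
  mp : ∀ {R R' : CommRingCat.{0}}, (R ⟶ R') → obj R → obj R'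
  mp_id : ∀ (R : CommRingCat.{0}) (c : obj R), mp (𝟙 R) c = c
  mp_comp : ∀ {R R' R'' : CommRingCat.{0}} (φ : R ⟶ R') (ψ : R' ⟶ R'') (c : obj R),
    mp (φ ≫ ψ) c = mp ψ (mp φ c)

abbrev Aw {R : CommRingCat.{0}} (g : R) : CommRingCat.{0} := .of (Localization.Away g)

noncomputable abbrev aw {R : CommRingCat.{0}} (g : R) : R ⟶ Aw g :=
  CommRingCat.ofHom (algebraMap R (Localization.Away g))

noncomputable def lft {R R' : CommRingCat.{0}} {g : R} (φ : R ⟶ R') (h : IsUnit (φ g)) :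
    Aw g ⟶ R' :=
  CommRingCat.ofHom (IsLocalization.Away.lift (S := Localization.Away g) (g := φ.hom) g h)

@[reassoc (attr := simp)]
lemma aw_lft {R R' : CommRingCat.{0}} {g : R} (φ : R ⟶ R') (h : IsUnit (φ g)) :
    aw g ≫ lft φ h = φ := by
  ext a
  simp [lft]

lemma aw_ext {R R' : CommRingCat.{0}} {g : R} {φ ψ : Aw g ⟶ R'} (h : aw g ≫ φ = aw g ≫ ψ) :
    φ = ψ := by
  ext1
  exact IsLocalization.ringHom_ext (Submonoid.powers g) (congrArg CommRingCat.Hom.hom h)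

lemma aw_unit {R : CommRingCat.{0}} (g : R) : IsUnit (aw g g) :=
  IsLocalization.Away.algebraMap_isUnit (S := Localization.Away g) g

/-- Every element of `R[1/g]` is a unit multiple of an element of `R`. -/
lemma exists_num {R : CommRingCat.{0}} {g : R} (z : Aw g) : ∃ a : R,
    ∀ (R' : CommRingCat.{0}) (φ : Aw g ⟶ R'), IsUnit (φ z) ↔ IsUnit ((aw g ≫ φ) a) := by
  obtain ⟨n, a, h⟩ := IsLocalization.Away.surj (S := Localization.Away g) g z
  refine ⟨a, fun R' φ => ?_⟩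
  have h1 : (aw g ≫ φ) a = φ z * φ (aw g g) ^ n := by
    rw [← map_pow, ← map_mul]
    exact congrArg φ h.symm
  rw [h1, IsUnit.mul_iff]
  exact ⟨fun h2 => ⟨h2, ((aw_unit g).map φ.hom).pow n⟩, fun h2 => h2.1⟩

instance (R : CommRingCat.{0}) (g : R) : IsOpenImmersion (Spec.map (aw g)) :=
  Scheme.instIsOpenImmersionMapOfHomAwayAlgebraMap g

lemma iso_open {R R' : CommRingCat.{0}} (i : R ≅ R') {X : Scheme.{0}} (f : Spec R ⟶ X)
    [IsOpenImmersion f] : IsOpenImmersion (Spec.map i.hom ≫ f) := inferInstance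

lemma unit_iff {K : CommRingCat.{0}} (hK : IsField K) (a : K) : IsUnit a ↔ a ≠ 0 := by
  let := hK.toField
  exact isUnit_iff_ne_zero

variable (F : Fn)

/-- `(B, ξ)` represents an open subfunctor of `F`. -/
structure IsChart (B : CommRingCat.{0}) (ξ : F.obj B) : Prop where
  mono : ∀ (R : CommRingCat.{0}) (φ ψ : B ⟶ R), F.mp φ ξ = F.mp ψ ξ → φ = ψ
  loc : ∀ (R K : CommRingCat.{0}) (_ : IsField K) (c : F.obj R) (φ : R ⟶ K) (ψ : B ⟶ K),
    F.mp φ c = F.mp ψ ξ → ∃ g : R, φ g ≠ 0 ∧ ∃ χ : B ⟶ Aw g, F.mp (aw g) c = F.mp χ ξ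

variable {F}

lemma IsChart.away {B : CommRingCat.{0}} {ξ : F.obj B} (h : IsChart F B ξ) (f : B) :
    IsChart F (Aw f) (F.mp (aw f) ξ) where
  mono R φ ψ e := by
    rw [← F.mp_comp, ← F.mp_comp] at e
    exact aw_ext (h.mono R _ _ e)
  loc R K hK c φ ψ e := by
    rw [← F.mp_comp] at e
    obtain ⟨g, hg, χ, hχ⟩ := h.loc R K hK c φ _ e
    obtain ⟨a, ha⟩ := exists_num (χ f)
    have hg' : IsUnit (φ g) := (unit_iff hK _).2 hg
    have e1 : χ ≫ lft φ hg' = aw f ≫ ψ := by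
      apply h.mono
      rw [F.mp_comp, ← hχ, ← F.mp_comp, aw_lft, e]
    have h1 : IsUnit (φ a) := by
      have := (ha K (lft φ hg')).1 (by
        rw [← CommRingCat.comp_apply, e1]
        exact (aw_unit f).map ψ.hom)
      rwa [aw_lft] at this
    have h2 : IsUnit (aw (g * a) g) ∧ IsUnit (aw (g * a) a) := by
      rw [← IsUnit.mul_iff, ← map_mul]; exact aw_unit _
    refine ⟨g * a, ?_, lft (χ ≫ lft (aw (g * a)) h2.1) ?_, ?_⟩
    · rw [← unit_iff hK, map_mul]; exact hg'.mul h1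
    · rw [CommRingCat.comp_apply, ha, aw_lft]; exact h2.2
    · rw [← F.mp_comp, aw_lft, F.mp_comp, ← hχ, ← F.mp_comp, aw_lft]

/-- Two charts through a common field valued point are locally isomorphic there. -/
lemma IsChart.key {B B' K : CommRingCat.{0}} {ξ : F.obj B} {ξ' : F.obj B'} (h : IsChart F B ξ)
    (h' : IsChart F B' ξ') (hK : IsField K) (a : B ⟶ K) (b : B' ⟶ K)
    (e : F.mp a ξ = F.mp b ξ') :
    ∃ w : B, a w ≠ 0 ∧ ∃ v : B' ⟶ Aw w, F.mp v ξ' = F.mp (aw w) ξ ∧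
      IsOpenImmersion (Spec.map v) := by
  obtain ⟨g1, hg1, χ1, hχ1⟩ := h'.loc B K hK ξ a b e
  obtain ⟨g2, hg2, χ2, hχ2⟩ := h.loc B' K hK ξ' b a e.symm
  have hg1' : IsUnit (a g1) := (unit_iff hK _).2 hg1
  obtain ⟨a1, ha1⟩ := exists_num (χ1 g2)
  have e1 : χ1 ≫ lft a hg1' = b := by
    apply h'.mono
    rw [F.mp_comp, ← hχ1, ← F.mp_comp, aw_lft, e]
  have h1 : IsUnit (a a1) := by
    have := (ha1 K (lft a hg1')).1 (by
      rw [← CommRingCat.comp_apply, e1]
      exact (unit_iff hK _).2 hg2)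
    rwa [aw_lft] at this
  let w := g1 * a1
  have hw : IsUnit (aw w g1) ∧ IsUnit (aw w a1) := by
    rw [← IsUnit.mul_iff, ← map_mul]; exact aw_unit _
  let v : B' ⟶ Aw w := χ1 ≫ lft (aw w) hw.1
  have hv : F.mp v ξ' = F.mp (aw w) ξ := by
    rw [F.mp_comp, ← hχ1, ← F.mp_comp, aw_lft]
  have hvg : IsUnit (v g2) := by
    rw [CommRingCat.comp_apply, ha1, aw_lft]; exact hw.2
  obtain ⟨b1, hb1⟩ := exists_num (χ2 w)
  have e2 : χ2 ≫ lft v hvg = aw w := by
    apply h.mono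
    rw [F.mp_comp, ← hχ2, ← F.mp_comp, aw_lft, hv]
  have hvb : IsUnit (v b1) := by
    have := (hb1 _ (lft v hvg)).1 (by
      rw [← CommRingCat.comp_apply, e2]
      exact aw_unit w)
    rwa [aw_lft] at this
  let w' := g2 * b1
  have hw' : IsUnit (aw w' g2) ∧ IsUnit (aw w' b1) := by
    rw [← IsUnit.mul_iff, ← map_mul]; exact aw_unit _
  have hvw : IsUnit (v w') := by rw [map_mul]; exact hvg.mul hvb
  let u0 : B ⟶ Aw w' := χ2 ≫ lft (aw w') hw'.1
  have hu0 : F.mp u0 ξ = F.mp (aw w') ξ' := by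
    rw [F.mp_comp, ← hχ2, ← F.mp_comp, aw_lft]
  have huw : IsUnit (u0 w) := by
    rw [CommRingCat.comp_apply, hb1, aw_lft]; exact hw'.2
  let i : Aw w' ≅ Aw w :=
    { hom := lft v hvw
      inv := lft u0 huw
      hom_inv_id := by
        apply aw_ext
        apply h'.mono
        rw [aw_lft_assoc, Category.comp_id, F.mp_comp, hv, ← F.mp_comp, aw_lft, hu0]
      inv_hom_id := by
        apply aw_ext
        apply h.mono
        rw [aw_lft_assoc, Category.comp_id, F.mp_comp, hu0, ← F.mp_comp, aw_lft, hv] }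
  refine ⟨w, ?_, v, hv, ?_⟩
  · rw [← unit_iff hK, map_mul]; exact hg1'.mul h1
  · have : v = aw w' ≫ i.hom := (aw_lft v hvw).symm
    rw [this, Spec.map_comp]
    exact iso_open i _

/-- An iterated localisation is a localisation. -/
lemma exists_iso {B : CommRingCat.{0}} (f : B) (w : Aw f) :
    ∃ (f' : B) (i : Aw w ≅ Aw f'), aw f ≫ aw w ≫ i.hom = aw f' := by
  obtain ⟨a, ha⟩ := exists_num w
  have h1 : IsUnit (aw (f * a) f) ∧ IsUnit (aw (f * a) a) := by
    rw [← IsUnit.mul_iff, ← map_mul]; exact aw_unit _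
  have h2 : IsUnit (lft (aw (f * a)) h1.1 w) := by
    rw [ha, aw_lft]; exact h1.2
  have h3 : IsUnit ((aw f ≫ aw w) (f * a)) := by
    rw [map_mul]
    exact ((aw_unit f).map (aw w).hom).mul ((ha _ (aw w)).1 (aw_unit w))
  refine ⟨f * a, ⟨lft _ h2, lft _ h3, ?_, ?_⟩, by simp⟩
  · apply aw_ext
    apply aw_ext
    simp
  · apply aw_ext
    simp

end Pool.Agent.MP_eba2ed_ag.Rep

end

section

/-! A Zariski sheaf on commutative rings covered by affine charts is represented by a scheme. -/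

namespace Pool.Agent.MP_eba2ed_ag.Rep

open CategoryTheory AlgebraicGeometry Limits

lemma range_aw {R : CommRingCat.{0}} (g : R) (q : Spec R) :
    q ∈ Set.range (Spec.map (aw g)) ↔ g ∉ q.asIdeal := by
  have := PrimeSpectrum.localization_away_comap_range (Localization.Away g) g
  exact eq_iff_iff.mp congr(q ∈ $this)

lemma exists_lift {R : CommRingCat.{0}} {X Y : Scheme.{0}} (s : Spec R ⟶ X) (j : Y ⟶ X)
    [IsOpenImmersion j] (q : Spec R) (h : s q ∈ Set.range j) :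
    ∃ g : R, g ∉ q.asIdeal ∧ ∃ t : Spec (Aw g) ⟶ Y, t ≫ j = Spec.map (aw g) ≫ s := by
  have ho : IsOpen (s ⁻¹' Set.range j) := j.isOpenEmbedding.isOpen_range.preimage s.continuous
  obtain ⟨_, ⟨g, rfl⟩, hq, hg⟩ :=
    PrimeSpectrum.isTopologicalBasis_basic_opens.exists_subset_of_mem_open (a := q) h ho
  refine ⟨g, hq, IsOpenImmersion.lift j (Spec.map (aw g) ≫ s) ?_, IsOpenImmersion.lift_fac _ _ _⟩
  rintro _ ⟨x, rfl⟩
  rw [Scheme.Hom.comp_apply]
  exact hg ((range_aw g _).1 ⟨x, rfl⟩)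

lemma span_top_of {R : CommRingCat.{0}} (g : Spec R → R) (hg : ∀ q, g q ∉ q.asIdeal) :
    Ideal.span (Set.range g) = ⊤ := by
  by_contra h
  obtain ⟨M, hM, hle⟩ := Ideal.exists_le_maximal _ h
  exact hg ⟨M, hM.isPrime⟩ (hle (Ideal.subset_span ⟨_, rfl⟩))

lemma hom_ext_aw {R : CommRingCat.{0}} {X : Scheme.{0}} (s t : Spec R ⟶ X)
    (h : ∀ q : Spec R, ∃ g : R, g ∉ q.asIdeal ∧ Spec.map (aw g) ≫ s = Spec.map (aw g) ≫ t) :
    s = t := by
  choose g hg h using h
  exact (Scheme.affineOpenCoverOfSpanRangeEqTop g (span_top_of g hg)).openCover.hom_ext _ _ h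

lemma hom_ext_spec {P X : Scheme.{0}} (f f' : P ⟶ X)
    (h : ∀ (R : CommRingCat.{0}) (u : Spec R ⟶ P), u ≫ f = u ≫ f') : f = f' :=
  P.affineOpenCover.openCover.hom_ext _ _ (fun z => h _ (P.affineOpenCover.f z))

lemma exists_pt {R : CommRingCat.{0}} (q : Spec R) : ∃ (K : CommRingCat.{0}) (_ : IsField K)
    (r : R ⟶ K) (y : Spec K), Spec.map r y = q ∧ (∀ z : Spec K, z = y) ∧
      ∀ a, r a = 0 ↔ a ∈ q.asIdeal := by
  let K := q.asIdeal.ResidueField
  refine ⟨.of K, Field.toIsField K, CommRingCat.ofHom (algebraMap R K),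
    IsLocalRing.closedPoint K, ?_, fun z => Subsingleton.elim (α := PrimeSpectrum K) _ _,
    fun a => Ideal.algebraMap_residueField_eq_zero⟩
  apply PrimeSpectrum.ext
  ext a
  change algebraMap R K a ∈ IsLocalRing.maximalIdeal K ↔ _
  rw [IsLocalRing.maximalIdeal_eq_bot, Ideal.mem_bot]
  exact Ideal.algebraMap_residueField_eq_zero

variable {F : Fn} {ι : Type} {A : ι → CommRingCat.{0}} (ξ : ∀ α, F.obj (A α))

/-- Index type: basic opens of the given charts. -/
structure Idx (ξ : ∀ α, F.obj (A α)) : Type where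
  α : ι
  f : A α

variable {ξ}

abbrev Idx.B (j : Idx ξ) : CommRingCat.{0} := Aw j.f

noncomputable def Idx.η (j : Idx ξ) : F.obj j.B := F.mp (aw j.f) (ξ j.α)

instance : Preorder (Idx ξ) where
  le i j := ∃ φ : j.B ⟶ i.B, F.mp φ j.η = i.η ∧ IsOpenImmersion (Spec.map φ)
  le_refl i := ⟨𝟙 _, F.mp_id _ _, by rw [Spec.map_id]; infer_instance⟩
  le_trans i j k := by
    rintro ⟨φ, h1, h2⟩ ⟨ψ, h3, h4⟩
    exact ⟨ψ ≫ φ, by rw [F.mp_comp, h3, h1], by rw [Spec.map_comp]; infer_instance⟩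

noncomputable def tr {i j : Idx ξ} (h : i ≤ j) : j.B ⟶ i.B := h.choose

lemma tr_η {i j : Idx ξ} (h : i ≤ j) : F.mp (tr h) j.η = i.η := h.choose_spec.1

instance tr_open {i j : Idx ξ} (h : i ≤ j) : IsOpenImmersion (Spec.map (tr h)) := h.choose_spec.2

variable (hc : ∀ α, IsChart F (A α) (ξ α))
include hc

lemma Idx.chart (j : Idx ξ) : IsChart F j.B j.η := (hc j.α).away j.f

lemma key1 (i j : Idx ξ) {K : CommRingCat.{0}} (hK : IsField K) (a : i.B ⟶ K) (b : j.B ⟶ K)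
    (e : F.mp a i.η = F.mp b j.η) :
    ∃ (l : Idx ξ) (hi : l ≤ i) (hj : l ≤ j) (c : l.B ⟶ K), tr hi ≫ c = a ∧ tr hj ≫ c = b := by
  obtain ⟨w, hw, v, hv, hvo⟩ := (i.chart hc).key (j.chart hc) hK a b e
  obtain ⟨f', u, hu⟩ := exists_iso i.f w
  let l : Idx ξ := ⟨i.α, f'⟩
  have h1 : F.mp (aw w ≫ u.hom) i.η = l.η := by
    rw [Idx.η, ← F.mp_comp, hu]; rfl
  have hi : l ≤ i := ⟨aw w ≫ u.hom, h1, by rw [Spec.map_comp]; exact iso_open u _⟩
  have hj : l ≤ j := ⟨v ≫ u.hom, by rw [F.mp_comp, hv, ← F.mp_comp, h1],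
    by rw [Spec.map_comp]; exact iso_open u _⟩
  have h2 : F.mp (u.inv ≫ lft a ((unit_iff hK _).2 hw)) l.η = F.mp a i.η := by
    rw [← h1, ← F.mp_comp]; simp
  refine ⟨l, hi, hj, u.inv ≫ lft a ((unit_iff hK _).2 hw), ?_, ?_⟩
  · apply (i.chart hc).mono
    rw [F.mp_comp, tr_η, h2]
  · apply (j.chart hc).mono
    rw [F.mp_comp, tr_η, h2, e]

/-- The diagram of all basic opens of all charts. -/
noncomputable def Dg : Idx ξ ⥤ Scheme.{0} where
  obj j := Spec j.B
  map h := Spec.map (tr h.le)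
  map_id j := by
    rw [← Spec.map_id]
    congr 1
    apply (j.chart hc).mono
    rw [tr_η, F.mp_id]
  map_comp {i j k} f g := by
    rw [← Spec.map_comp]
    congr 1
    apply (k.chart hc).mono
    rw [F.mp_comp, tr_η, tr_η, tr_η]

instance {i j : Idx ξ} (f : i ⟶ j) : IsOpenImmersion ((Dg hc).map f) := tr_open f.le

instance : (Dg hc ⋙ Scheme.forget).IsLocallyDirected where
  cond {i j k} fi fj xi xj h := by
    have h' : Spec.map (tr fi.le) xi = Spec.map (tr fj.le) xj := h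
    obtain ⟨K, hK, a, y, hy, hy', -⟩ := exists_pt (R := i.B) xi
    have hr : Set.range (Spec.map a ≫ Spec.map (tr fi.le)) ⊆ Set.range (Spec.map (tr fj.le)) := by
      rintro _ ⟨z, rfl⟩
      exact ⟨xj, by rw [Scheme.Hom.comp_apply, hy' z, hy, h']⟩
    let b : j.B ⟶ K := Spec.preimage (IsOpenImmersion.lift (Spec.map (tr fj.le)) _ hr)
    have hb : Spec.map b ≫ Spec.map (tr fj.le) = Spec.map a ≫ Spec.map (tr fi.le) := by
      simp [b]
    have hb' : tr fj.le ≫ b = tr fi.le ≫ a := by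
      apply Spec.map_injective
      rw [Spec.map_comp, Spec.map_comp, hb]
    have hby : Spec.map b y = xj := by
      apply (Spec.map (tr fj.le)).isOpenEmbedding.injective
      rw [← Scheme.Hom.comp_apply, hb, Scheme.Hom.comp_apply, hy, h']
    obtain ⟨l, hi, hj, c, h1, h2⟩ := key1 hc i j hK a b (by
      rw [← tr_η fi.le, ← tr_η fj.le, ← F.mp_comp, ← F.mp_comp, hb'])
    refine ⟨l, hi.hom, hj.hom, Spec.map c y, ?_, ?_⟩
    · change Spec.map (tr hi) (Spec.map c y) = xi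
      rw [← Scheme.Hom.comp_apply, ← Spec.map_comp, h1, hy]
    · change Spec.map (tr hj) (Spec.map c y) = xj
      rw [← Scheme.Hom.comp_apply, ← Spec.map_comp, h2, hby]

noncomputable abbrev Gl : Scheme.{0} := colimit (Dg hc)

noncomputable def inc (j : Idx ξ) : Spec j.B ⟶ Gl hc := colimit.ι (Dg hc) j

instance (j : Idx ξ) : IsOpenImmersion (inc hc j) :=
  inferInstanceAs (IsOpenImmersion (colimit.ι (Dg hc) j))

lemma tr_inc {i j : Idx ξ} (h : i ≤ j) : Spec.map (tr h) ≫ inc hc j = inc hc i :=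
  colimit.w (Dg hc) h.hom

lemma key2 {R : CommRingCat.{0}} {i j : Idx ξ} (a : i.B ⟶ R) (b : j.B ⟶ R)
    (e : F.mp a i.η = F.mp b j.η) : Spec.map a ≫ inc hc i = Spec.map b ≫ inc hc j := by
  apply hom_ext_aw
  intro q
  obtain ⟨K, hK, r, y, hy, -, -⟩ := exists_pt q
  obtain ⟨l, hi, hj, c, h1, h2⟩ := key1 hc i j hK (a ≫ r) (b ≫ r) (by
    rw [F.mp_comp, F.mp_comp, e])
  obtain ⟨g, hg, t, ht⟩ := exists_lift (Spec.map a) (Spec.map (tr hi)) q ⟨Spec.map c y, by
    rw [← Scheme.Hom.comp_apply, ← Spec.map_comp, h1, Spec.map_comp, Scheme.Hom.comp_apply, hy]⟩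
  obtain ⟨τ, rfl⟩ := Spec.map_surjective t
  rw [← Spec.map_comp, ← Spec.map_comp] at ht
  have ht' := Spec.map_injective ht
  have h3 : tr hj ≫ τ = b ≫ aw g := by
    apply (j.chart hc).mono
    rw [F.mp_comp, F.mp_comp, tr_η, ← e, ← F.mp_comp, ← ht', F.mp_comp, tr_η]
  refine ⟨g, hg, ?_⟩
  rw [← Category.assoc, ← Category.assoc, ← Spec.map_comp, ← Spec.map_comp, ← ht', ← h3,
    Spec.map_comp, Spec.map_comp, Category.assoc, Category.assoc, tr_inc, tr_inc]

lemma exists_chart {R : CommRingCat.{0}} (s : Spec R ⟶ Gl hc) (q : Spec R) :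
    ∃ g : R, g ∉ q.asIdeal ∧ ∃ (j : Idx ξ) (a : j.B ⟶ Aw g),
      Spec.map a ≫ inc hc j = Spec.map (aw g) ≫ s := by
  obtain ⟨j, x, hx⟩ := Scheme.IsLocallyDirected.ι_jointly_surjective (Dg hc) (s q)
  obtain ⟨g, hg, t, ht⟩ := exists_lift s (inc hc j) q ⟨x, hx⟩
  obtain ⟨a, rfl⟩ := Spec.map_surjective t
  exact ⟨g, hg, j, a, ht⟩

variable (sep : ∀ (R : CommRingCat.{0}) (c c' : F.obj R),
  (∀ q : Spec R, ∃ g : R, g ∉ q.asIdeal ∧ F.mp (aw g) c = F.mp (aw g) c') → c = c')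
include sep

lemma key3 {R : CommRingCat.{0}} {i j : Idx ξ} (a : i.B ⟶ R) (b : j.B ⟶ R)
    (e : Spec.map a ≫ inc hc i = Spec.map b ≫ inc hc j) : F.mp a i.η = F.mp b j.η := by
  apply sep
  intro q
  have h0 : inc hc i (Spec.map a q) = inc hc j (Spec.map b q) := by
    rw [← Scheme.Hom.comp_apply, e, Scheme.Hom.comp_apply]
  obtain ⟨l, fi, fj, x, hx, -⟩ := (Scheme.IsLocallyDirected.ι_eq_ι_iff (Dg hc)).1 h0
  obtain ⟨g, hg, t, ht⟩ := exists_lift (Spec.map a) (Spec.map (tr fi.le)) q ⟨x, hx⟩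
  obtain ⟨τ, rfl⟩ := Spec.map_surjective t
  have h3 : tr fj.le ≫ τ = b ≫ aw g := by
    apply Spec.map_injective
    rw [← cancel_mono (inc hc j), Spec.map_comp, Spec.map_comp, Category.assoc, Category.assoc,
      tr_inc, ← e, ← Category.assoc, ← ht, Category.assoc, tr_inc]
  rw [← Spec.map_comp, ← Spec.map_comp] at ht
  have ht' := Spec.map_injective ht
  refine ⟨g, hg, ?_⟩
  rw [← F.mp_comp, ← F.mp_comp, ← ht', ← h3, F.mp_comp, F.mp_comp, tr_η, tr_η]

omit sep in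
/-- The section `c` corresponds to the morphism `s`. -/
def Assoc {R : CommRingCat.{0}} (s : Spec R ⟶ Gl hc) (c : F.obj R) : Prop :=
  ∀ (R' : CommRingCat.{0}) (φ : R ⟶ R') (j : Idx ξ) (a : j.B ⟶ R'),
    Spec.map a ≫ inc hc j = Spec.map φ ≫ s → F.mp φ c = F.mp a j.η

lemma assoc_unique {R : CommRingCat.{0}} {s : Spec R ⟶ Gl hc} {c c' : F.obj R}
    (h : Assoc hc s c) (h' : Assoc hc s c') : c = c' := by
  apply sep
  intro q
  obtain ⟨g, hg, j, a, ha⟩ := exists_chart hc s q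
  exact ⟨g, hg, (h _ _ j a ha).trans (h' _ _ j a ha).symm⟩

lemma assoc_of_local {R : CommRingCat.{0}} {s : Spec R ⟶ Gl hc} {c : F.obj R}
    (h : ∀ q : Spec R, ∃ g : R, g ∉ q.asIdeal ∧ ∃ (j : Idx ξ) (a : j.B ⟶ Aw g),
      Spec.map a ≫ inc hc j = Spec.map (aw g) ≫ s ∧ F.mp (aw g) c = F.mp a j.η) :
    Assoc hc s c := by
  intro R' φ j a ha
  apply sep
  intro q'
  obtain ⟨g, hg, j0, a0, h1, h2⟩ := h (Spec.map φ q')
  have hu : IsUnit ((φ ≫ aw (φ g)) g) := aw_unit _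
  refine ⟨φ g, hg, ?_⟩
  rw [← F.mp_comp, ← F.mp_comp, ← aw_lft _ hu, F.mp_comp, h2, ← F.mp_comp]
  apply key3 hc sep
  rw [Spec.map_comp, Spec.map_comp, Category.assoc, Category.assoc, h1, ha, ← Category.assoc,
    ← Category.assoc, ← Spec.map_comp, ← Spec.map_comp, aw_lft]

omit hc in
theorem exists_rep (hc : ∀ α, IsChart F (A α) (ξ α))
    (cover : ∀ (K : CommRingCat.{0}) (_ : IsField K) (c : F.obj K),
      ∃ (α : ι) (ψ : A α ⟶ K), c = F.mp ψ (ξ α))
    (glue : ∀ (R : CommRingCat.{0}) (T : Type) [Finite T] (g : T → R),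
      Ideal.span (Set.range g) = ⊤ → ∀ c : ∀ t, F.obj (Aw (g t)),
      (∀ (t t' : T) (R' : CommRingCat.{0}) (φ : Aw (g t) ⟶ R') (φ' : Aw (g t') ⟶ R'),
        aw (g t) ≫ φ = aw (g t') ≫ φ' → F.mp φ (c t) = F.mp φ' (c t')) →
      ∃ c0 : F.obj R, ∀ t, F.mp (aw (g t)) c0 = c t) :
    ∃ (H : Scheme.{0}) (fam : ∀ R : CommRingCat.{0}, (Spec R ⟶ H) → F.obj R),
      (∀ (R R' : CommRingCat.{0}) (φ : R ⟶ R') (s : Spec R ⟶ H),
        fam R' (Spec.map φ ≫ s) = F.mp φ (fam R s)) ∧ ∀ R, Function.Bijective (fam R) := by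
  have hex : ∀ (R : CommRingCat.{0}) (s : Spec R ⟶ Gl hc), ∃ c, Assoc hc s c := by
    intro R s
    choose g hg j a ha using exists_chart hc s
    have h1 : (1 : R) ∈ Ideal.span (Set.range g) := by rw [span_top_of g hg]; trivial
    obtain ⟨T, hT, h1⟩ := Submodule.mem_span_finite_of_mem_span h1
    choose p hp using fun t : T => hT t.2
    have h2 : Ideal.span (Set.range (fun t : T => g (p t))) = ⊤ := by
      rw [Ideal.eq_top_iff_one]
      refine Submodule.span_mono ?_ h1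
      intro x hx
      exact ⟨⟨x, hx⟩, hp _⟩
    obtain ⟨c0, hc0⟩ := glue R T (fun t => g (p t)) h2 (fun t => F.mp (a (p t)) (j (p t)).η) (by
      intro t t' R' φ φ' e
      rw [← F.mp_comp, ← F.mp_comp]
      apply key3 hc sep
      rw [Spec.map_comp, Spec.map_comp, Category.assoc, Category.assoc, ha, ha, ← Category.assoc,
        ← Category.assoc, ← Spec.map_comp, ← Spec.map_comp, e])
    refine ⟨c0, assoc_of_local hc sep fun q => ?_⟩
    have : ∃ t : T, g (p t) ∉ q.asIdeal := by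
      by_contra h
      push Not at h
      apply q.2.ne_top
      rw [← top_le_iff, ← h2, Ideal.span_le, Set.range_subset_iff]
      exact h
    obtain ⟨t, ht⟩ := this
    exact ⟨g (p t), ht, j (p t), a (p t), ha _, hc0 t⟩
  choose fam hfam using hex
  refine ⟨Gl hc, fam, fun R R' φ s => ?_, fun R => ⟨fun s t e => ?_, fun c => ?_⟩⟩
  · refine assoc_unique hc sep (hfam R' _) ?_
    intro R'' ψ j a ha
    rw [← F.mp_comp]
    apply hfam R s
    rw [ha, Spec.map_comp, Category.assoc]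
  · apply hom_ext_aw
    intro q
    obtain ⟨g1, hg1, j1, a1, h1⟩ := exists_chart hc s q
    obtain ⟨g2, hg2, j2, a2, h2⟩ := exists_chart hc t q
    have hu : IsUnit (aw (g1 * g2) g1) ∧ IsUnit (aw (g1 * g2) g2) := by
      rw [← IsUnit.mul_iff, ← map_mul]; exact aw_unit _
    have h1' : Spec.map (a1 ≫ lft _ hu.1) ≫ inc hc j1 = Spec.map (aw (g1 * g2)) ≫ s := by
      rw [Spec.map_comp, Category.assoc, h1, ← Category.assoc, ← Spec.map_comp, aw_lft]
    have h2' : Spec.map (a2 ≫ lft _ hu.2) ≫ inc hc j2 = Spec.map (aw (g1 * g2)) ≫ t := by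
      rw [Spec.map_comp, Category.assoc, h2, ← Category.assoc, ← Spec.map_comp, aw_lft]
    refine ⟨g1 * g2, fun h => (q.2.mem_or_mem h).elim hg1 hg2, ?_⟩
    rw [← h1', ← h2']
    apply key2
    rw [← hfam R s _ _ _ _ h1', ← hfam R t _ _ _ _ h2', e]
  · have hl : ∀ q : Spec R, ∃ g : R, g ∉ q.asIdeal ∧ ∃ (j : Idx ξ) (a : j.B ⟶ Aw g),
        F.mp (aw g) c = F.mp a j.η := by
      intro q
      obtain ⟨K, hK, r, -, -, -, hr⟩ := exists_pt q
      obtain ⟨α, ψ, hψ⟩ := cover K hK (F.mp r c)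
      obtain ⟨g, hg, χ, hχ⟩ := (hc α).loc R K hK c r ψ hψ
      refine ⟨g, fun h => hg ((hr g).2 h), ⟨α, 1⟩, lft χ (by simp), ?_⟩
      rw [Idx.η, ← F.mp_comp, aw_lft, hχ]
    choose g hg j a ha using hl
    let 𝒰 := (Scheme.affineOpenCoverOfSpanRangeEqTop g (span_top_of g hg)).openCover
    have hgen : ∀ (x y : Spec R) (P : Scheme.{0}) (p1 : P ⟶ Spec (Aw (g x)))
        (p2 : P ⟶ Spec (Aw (g y))), p1 ≫ Spec.map (aw (g x)) = p2 ≫ Spec.map (aw (g y)) →
        p1 ≫ (Spec.map (a x) ≫ inc hc (j x)) = p2 ≫ (Spec.map (a y) ≫ inc hc (j y)) := by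
      intro x y P p1 p2 hp
      apply hom_ext_spec
      intro R' u
      obtain ⟨φ, hφ⟩ := Spec.map_surjective (u ≫ p1)
      obtain ⟨φ', hφ'⟩ := Spec.map_surjective (u ≫ p2)
      have e : aw (g x) ≫ φ = aw (g y) ≫ φ' := by
        apply Spec.map_injective
        rw [Spec.map_comp, Spec.map_comp, hφ, hφ', Category.assoc, Category.assoc, hp]
      have := key2 hc (a x ≫ φ) (a y ≫ φ') (by
        rw [F.mp_comp, F.mp_comp, ← ha, ← ha, ← F.mp_comp, ← F.mp_comp, e])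
      rw [Spec.map_comp, Spec.map_comp, hφ, hφ'] at this
      simpa using this
    have hcomp : ∀ x y, pullback.fst (𝒰.f x) (𝒰.f y) ≫ (Spec.map (a x) ≫ inc hc (j x)) =
        pullback.snd _ _ ≫ (Spec.map (a y) ≫ inc hc (j y)) :=
      fun x y => hgen x y _ _ _ pullback.condition
    let s := 𝒰.glueMorphisms (fun x => Spec.map (a x) ≫ inc hc (j x)) hcomp
    refine ⟨s, assoc_unique hc sep (hfam R s) (assoc_of_local hc sep fun q => ?_)⟩
    exact ⟨g q, hg q, j q, a q, (𝒰.ι_glueMorphisms _ hcomp q).symm, ha q⟩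

end Pool.Agent.MP_eba2ed_ag.Rep

end
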