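import Pool.Agent.Mg.Feba2ed.Gaccdfb
import Pool.Agent.Mg.Feba2ed.G70a764

section

/-! Lines and double lines in projective three-space. -/

namespace Pool.Agent.MP_eba2ed_ag

open MvPolynomial Module

variable {k : Type} [Field k]

abbrev B (R : Type) [CommRing R] : Type := MvPolynomial (Fin 2) R

lemma finrank_Hn_one : finrank k (Hn k 1) = 4 := by
  rw [Hn, homogeneousSubmodule_one_eq_span_X, finrank_span_eq_card (linearIndependent_X _ _)]
  simp

lemma finrank_Bn (n : ℕ) : finrank k (homogeneousSubmodule (Fin 2) k n) = n + 1 := by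
  classical
  let d : Fin (n + 1) → (Fin 2 →₀ ℕ) := fun j =>
    Finsupp.single (0 : Fin 2) (j : ℕ) + Finsupp.single (1 : Fin 2) (n - (j : ℕ))
  have hd : Function.Injective d := by
    intro a b h
    have := DFunLike.congr_fun h 0
    simp [d] at this
    exact Fin.ext this
  have hli : LinearIndependent k (fun j => (monomial (d j) (1 : k) : B k)) :=
    (basisMonomials (Fin 2) k).linearIndependent.comp d hd
  have : homogeneousSubmodule (Fin 2) k n =
      Submodule.span k (Set.range fun j => (monomial (d j) (1 : k) : B k)) := by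
    rw [homogeneousSubmodule_eq_finsupp_supported, AddMonoidAlgebra.supported_eq_span_single]
    congr 1
    ext f
    simp only [Set.mem_image, Set.mem_ofPred_eq, Set.mem_range]
    constructor
    · rintro ⟨m, hm, rfl⟩
      have hm' : m 0 + m 1 = n := by
        rw [← hm, Finsupp.degree_eq_sum]; simp
      refine ⟨⟨m 0, by omega⟩, ?_⟩
      have : d ⟨m 0, by omega⟩ = m := by
        ext i
        fin_cases i <;> simp [d]
        omega
      rw [this]; rfl
    · rintro ⟨j, rfl⟩
      refine ⟨d j, ?_, rfl⟩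
      have := j.2
      simp only [d, map_add, Finsupp.degree_single]
      omega
  rw [this, finrank_span_eq_card hli]
  simp

lemma finrank_submodule_prod {M N : Type*} [AddCommGroup M] [AddCommGroup N] [Module k M]
    [Module k N] (p : Submodule k M) (q : Submodule k N) [Module.Finite k p] [Module.Finite k q] :
    finrank k (p.prod q) = finrank k p + finrank k q := by
  have h : LinearMap.range (p.subtype.prodMap q.subtype) = p.prod q := by
    rw [LinearMap.range_prodMap]; simp
  rw [← h, LinearMap.finrank_range_of_inj, finrank_prod]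
  exact (Submodule.subtype_injective p).prodMap (Submodule.subtype_injective q)

/-- A line `P` with a multiplicity structure `Q` (a double structure of genus `-1-e` if `dbl`). -/
structure MLine (k : Type) [Field k] (e : ℕ) where
  P : Ideal (A k)
  Q : Ideal (A k)
  dbl : Prop
  primeP : P.IsPrime
  homP : IsHomog P
  homQ : IsHomog Q
  QleP : Q ≤ P
  sq : ∀ a ∈ P, ∀ b ∈ P, a * b ∈ Q
  primary : ∀ u f, u * f ∈ Q → u ∉ P → f ∈ Q
  hfP : ∀ n, hilbFun P n = n + 1
  hfQ : dbl → ∀ n, e + 1 ≤ n → hilbFun Q n = 2 * n + e + 2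
  ndbl : ¬ dbl → Q = P
  gen : P ≤ Ideal.span (pc P 1 : Set (A k))
  loc : ∀ n, ∀ f ∈ P, f.IsHomogeneous n → f ∉ Q →
    ∃ (m : ℕ) (u : A k), u.IsHomogeneous m ∧ u ∉ P ∧ ∀ g ∈ P, g * u ∈ Q ⊔ Ideal.span {f}

lemma MLine.finrank_one {e : ℕ} (L : MLine k e) : finrank k (pc L.P 1) = 2 := by
  have h1 := hf_add_dm L.P 1
  rw [L.hfP, finrank_Hn_one] at h1
  omega

lemma MLine.exists_X_notMem {e : ℕ} (L : MLine k e) : ∃ i, X i ∉ L.P := by
  by_contra hall
  push Not at hall
  have := hf_eq_zero_of_irr_pow_le (I := L.P) (M := 1) (n := 1)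
    (by simpa using irr_le_iff.2 hall) le_rfl
  rw [L.hfP] at this
  omega

section explicit

variable {R : Type} [CommRing R]

/-- restriction to the line spanned by the first two columns of `M` -/
noncomputable def psi (M : Matrix (Fin 4) (Fin 4) R) : A R →ₐ[R] B R :=
  aeval (fun i => C (M i 0) * X 0 + C (M i 1) * X 1)

/-- the normal direction of the double structure -/
noncomputable def nrm (M : Matrix (Fin 4) (Fin 4) R) (e : ℕ) (b : Bool) (i : Fin 4) : B R :=
  if b then C (M i 2) * X 0 ^ (e + 1) + C (M i 3) * X 1 ^ (e + 1) else 0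

/-- the normal derivative -/
noncomputable def der (M : Matrix (Fin 4) (Fin 4) R) (e : ℕ) (b : Bool) : A R →ₗ[R] B R :=
  ∑ i, (LinearMap.mulRight R (nrm M e b i)) ∘ₗ (psi M).toLinearMap ∘ₗ
    (pderiv i : Derivation R (A R) (A R)).toLinearMap

lemma der_apply (M : Matrix (Fin 4) (Fin 4) R) (e : ℕ) (b : Bool) (f : A R) :
    der M e b f = ∑ i, psi M (pderiv i f) * nrm M e b i := by
  simp [der, LinearMap.sum_apply]

lemma der_mul (M : Matrix (Fin 4) (Fin 4) R) (e : ℕ) (b : Bool) (f g : A R) :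
    der M e b (f * g) = psi M f * der M e b g + psi M g * der M e b f := by
  simp only [der_apply, Derivation.leibniz, smul_eq_mul, map_add, map_mul, Finset.mul_sum,
    ← Finset.sum_add_distrib]
  exact Finset.sum_congr rfl (fun i _ => by ring)

lemma der_X (M : Matrix (Fin 4) (Fin 4) R) (e : ℕ) (b : Bool) (j : Fin 4) :
    der M e b (X j) = nrm M e b j := by
  classical
  rw [der_apply, Finset.sum_eq_single j]
  · simp
  · intro i _ hi
    rw [pderiv_X_of_ne (Ne.symm hi)]; simp
  · simp

lemma der_C (M : Matrix (Fin 4) (Fin 4) R) (e : ℕ) (b : Bool) (c : R) :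
    der M e b (C c) = 0 := by
  simp [der_apply]

lemma psi_homog (M : Matrix (Fin 4) (Fin 4) R) {n : ℕ} {f : A R} (hf : f.IsHomogeneous n) :
    (psi M f).IsHomogeneous n := by
  have := hf.aeval (fun i => (C (M i 0) * X 0 + C (M i 1) * X 1 : B R)) (n := 1)
    (fun i => (isHomogeneous_C_mul_X _ _).add (isHomogeneous_C_mul_X _ _))
  rwa [one_mul] at this

lemma nrm_homog (M : Matrix (Fin 4) (Fin 4) R) (e : ℕ) (b : Bool) (i : Fin 4) :
    (nrm M e b i).IsHomogeneous (e + 1) := by
  unfold nrm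
  split_ifs
  · exact (isHomogeneous_C_mul_X_pow _ _ _).add (isHomogeneous_C_mul_X_pow _ _ _)
  · exact isHomogeneous_zero _ _ _

lemma der_homog (M : Matrix (Fin 4) (Fin 4) R) (e : ℕ) (b : Bool) {n : ℕ} {f : A R}
    (hf : f.IsHomogeneous n) : (der M e b f).IsHomogeneous (n + e) := by
  rcases n with _ | n
  · have : f = C (coeff 0 f) := by
      rw [← homogeneousComponent_zero, homogeneousComponent_eq_self hf]
    rw [this, der_C]
    exact isHomogeneous_zero _ _ _
  · rw [der_apply]
    refine IsHomogeneous.sum _ _ _ (fun i _ => ?_)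
    have := (psi_homog M (hf.pderiv (i := i))).mul (nrm_homog M e b i)
    have e1 : n + 1 - 1 + (e + 1) = n + 1 + e := by omega
    rwa [e1] at this

/-- the ideal of the multiple line -/
noncomputable def mult (M : Matrix (Fin 4) (Fin 4) R) (e : ℕ) (b : Bool) : Ideal (A R) where
  carrier := {f | psi M f = 0 ∧ der M e b f = 0}
  add_mem' := by
    rintro f g ⟨h1, h2⟩ ⟨h3, h4⟩
    exact ⟨by rw [map_add, h1, h3, add_zero], by rw [map_add, h2, h4, add_zero]⟩
  zero_mem' := ⟨map_zero _, map_zero _⟩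
  smul_mem' := by
    rintro c f ⟨h1, h2⟩
    rw [smul_eq_mul]
    exact ⟨by rw [map_mul, h1, mul_zero], by rw [der_mul, h1, h2]; simp⟩

lemma mem_mult {M : Matrix (Fin 4) (Fin 4) R} {e : ℕ} {b : Bool} {f : A R} :
    f ∈ mult M e b ↔ psi M f = 0 ∧ der M e b f = 0 := Iff.rfl

/-- the dual coordinates -/
noncomputable def yy (N : Matrix (Fin 4) (Fin 4) R) (j : Fin 4) : A R := ∑ i, C (N j i) * X i

lemma yy_homog (N : Matrix (Fin 4) (Fin 4) R) (j : Fin 4) : (yy N j).IsHomogeneous 1 :=
  IsHomogeneous.sum _ _ _ (fun _ _ => isHomogeneous_C_mul_X _ _)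

lemma psi_yy (M N : Matrix (Fin 4) (Fin 4) R) (j : Fin 4) :
    psi M (yy N j) = C ((N * M) j 0) * X 0 + C ((N * M) j 1) * X 1 := by
  simp only [yy, psi, map_sum, map_mul, aeval_C, aeval_X, Matrix.mul_apply, Finset.sum_mul,
    ← Finset.sum_add_distrib, algebraMap_eq]
  exact Finset.sum_congr rfl (fun i _ => by ring)

lemma der_yy (M N : Matrix (Fin 4) (Fin 4) R) (e : ℕ) (b : Bool) (j : Fin 4) :
    der M e b (yy N j) =
      if b then C ((N * M) j 2) * X 0 ^ (e + 1) + C ((N * M) j 3) * X 1 ^ (e + 1) else 0 := by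
  simp only [yy, map_sum, ← smul_eq_C_mul, map_smul, der_X, nrm, Matrix.mul_apply]
  split_ifs
  · simp only [Finset.sum_mul, ← Finset.sum_add_distrib, smul_add, smul_smul, ← smul_eq_C_mul]
  · simp

/-- a section of `psi` -/
noncomputable def sec (N : Matrix (Fin 4) (Fin 4) R) : B R →ₐ[R] A R :=
  aeval ![yy N 0, yy N 1]

lemma sec_homog (N : Matrix (Fin 4) (Fin 4) R) {n : ℕ} {f : B R} (hf : f.IsHomogeneous n) :
    (sec N f).IsHomogeneous n := by
  have := hf.aeval ![yy N 0, yy N 1] (n := 1)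
    (fun i => by fin_cases i <;> exact yy_homog N _)
  rwa [one_mul] at this

lemma psi_sec {M N : Matrix (Fin 4) (Fin 4) R} (h : N * M = 1) (f : B R) :
    psi M (sec N f) = f := by
  have : (psi M).comp (sec N) = AlgHom.id R (B R) := by
    ext1 i
    fin_cases i <;> simp [sec, psi_yy, h]
  exact DFunLike.congr_fun this f

lemma der_sec {M N : Matrix (Fin 4) (Fin 4) R} (h : N * M = 1) (e : ℕ) (b : Bool) (f : B R) :
    der M e b (sec N f) = 0 := by
  induction f using MvPolynomial.induction_on with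
  | C a => simp [sec, der_C]
  | add p q hp hq => rw [map_add, map_add, hp, hq, add_zero]
  | mul_X p i hp =>
    rw [map_mul, der_mul, hp]
    have : der M e b (sec N (X i)) = 0 := by
      fin_cases i <;> simp [sec, der_yy, h]
    rw [this]; simp

lemma sub_sec_mem {M N : Matrix (Fin 4) (Fin 4) R} (h : M * N = 1) (f : A R) :
    f - sec N (psi M f) ∈ Ideal.span {yy N 2, yy N 3} := by
  rw [← Ideal.Quotient.eq]
  have : (Ideal.Quotient.mkₐ R (Ideal.span {yy N 2, yy N 3})) =
      (Ideal.Quotient.mkₐ R (Ideal.span {yy N 2, yy N 3})).comp ((sec N).comp (psi M)) := by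
    ext1 i
    simp only [Ideal.Quotient.mkₐ_eq_mk, AlgHom.comp_apply]
    rw [Ideal.Quotient.eq]
    have h1 : (X i : A R) = ∑ j, C (M i j) * yy N j := by
      simp only [yy, Finset.mul_sum, ← mul_assoc, ← map_mul]
      rw [Finset.sum_comm]
      simp only [← Finset.sum_mul, ← map_sum, ← Matrix.mul_apply, h, Matrix.one_apply]
      simp [apply_ite C]
    have h2 : sec N (psi M (X i)) = C (M i 0) * yy N 0 + C (M i 1) * yy N 1 := by
      simp [psi, sec]
    rw [h2]
    nth_rewrite 1 [h1]
    rw [Fin.sum_univ_four, Ideal.mem_span_pair]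
    exact ⟨C (M i 2), C (M i 3), by ring⟩
  exact DFunLike.congr_fun this f

lemma map_psi {S : Type} [CommRing S] (φ : R →+* S) (M : Matrix (Fin 4) (Fin 4) R) (f : A R) :
    MvPolynomial.map φ (psi M f) = psi (M.map φ) (MvPolynomial.map φ f) := by
  induction f using MvPolynomial.induction_on with
  | C a => simp [psi]
  | add p q hp hq => simp only [map_add, hp, hq]
  | mul_X p i hp =>
    simp only [map_mul, hp, map_X]
    simp [psi]

lemma map_der {S : Type} [CommRing S] (φ : R →+* S) (M : Matrix (Fin 4) (Fin 4) R) (e : ℕ)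
    (b : Bool) (f : A R) :
    MvPolynomial.map φ (der M e b f) = der (M.map φ) e b (MvPolynomial.map φ f) := by
  simp only [der_apply, map_sum, map_mul, map_psi, pderiv_map]
  refine Finset.sum_congr rfl (fun i _ => ?_)
  congr 1
  unfold nrm
  split_ifs <;> simp

end explicit

lemma exists_split {e n : ℕ} (hn : e + 1 ≤ n) {g : B k} (hg : g.IsHomogeneous (n + e)) :
    ∃ a b : B k, a.IsHomogeneous (n - 1) ∧ b.IsHomogeneous (n - 1) ∧
      g = a * X 0 ^ (e + 1) + b * X 1 ^ (e + 1) := by
  classical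
  rw [g.as_sum]
  refine Finset.sum_induction _ (fun g : B k => ∃ a b : B k, a.IsHomogeneous (n - 1) ∧
    b.IsHomogeneous (n - 1) ∧ g = a * X 0 ^ (e + 1) + b * X 1 ^ (e + 1)) ?_ ?_ ?_
  · rintro _ _ ⟨a, b, ha, hb, rfl⟩ ⟨a', b', ha', hb', rfl⟩
    exact ⟨a + a', b + b', ha.add ha', hb.add hb', by ring⟩
  · exact ⟨0, 0, isHomogeneous_zero _ _ _, isHomogeneous_zero _ _ _, by simp⟩
  · intro d hd
    have hdeg : d.degree = n + e := by
      by_contra hne
      exact (mem_support_iff.1 hd) (hg.coeff_eq_zero hne)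
    have hdeg' : d 0 + d 1 = n + e := by
      rw [← hdeg, Finsupp.degree_eq_sum]; simp
    have key : ∀ i : Fin 2, e + 1 ≤ d i → ∃ a : B k, a.IsHomogeneous (n - 1) ∧
        monomial d (coeff d g) = a * X i ^ (e + 1) := by
      intro i hi
      have hle : Finsupp.single i (e + 1) ≤ d := by
        rw [Finsupp.single_le_iff]; exact hi
      obtain ⟨d', hd'⟩ := le_iff_exists_add'.1 hle
      refine ⟨monomial d' (coeff d g), isHomogeneous_monomial _ ?_, ?_⟩
      · have := congrArg Finsupp.degree hd'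
        rw [map_add, Finsupp.degree_single, hdeg] at this
        omega
      · rw [← monomial_add_single, ← hd']
    by_cases h0 : e + 1 ≤ d 0
    · obtain ⟨a, ha, h⟩ := key 0 h0
      exact ⟨a, 0, ha, isHomogeneous_zero _ _ _, by rw [h]; simp⟩
    · obtain ⟨a, ha, h⟩ := key 1 (by omega)
      exact ⟨0, a, isHomogeneous_zero _ _ _, ha, by rw [h]; simp⟩

/-- The multiple line attached to an invertible matrix. -/
noncomputable def mkLine (M N : Matrix (Fin 4) (Fin 4) k) (h : M * N = 1) (e : ℕ) (b : Bool) :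
    MLine k e where
  P := RingHom.ker (psi M)
  Q := mult M e b
  dbl := b = true
  primeP := RingHom.ker_isPrime _
  homP := by
    intro f hf n
    rw [RingHom.mem_ker] at hf ⊢
    have := comp_shift (psi M).toRingHom.toAddMonoidHom 0
      (fun _ _ hg => by simpa using psi_homog M hg) f n
    simp only [add_zero, AlgHom.toRingHom_eq_coe, RingHom.toAddMonoidHom_eq_coe,
      AddMonoidHom.coe_coe, RingHom.coe_coe] at this
    rw [← this, hf, map_zero]
  homQ := by
    rintro f ⟨h1, h2⟩ n
    have e1 := comp_shift (psi M).toRingHom.toAddMonoidHom 0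
      (fun _ _ hg => by simpa using psi_homog M hg) f n
    have e2 := comp_shift (der M e b).toAddMonoidHom e (fun _ _ hg => der_homog M e b hg) f n
    simp only [add_zero, AlgHom.toRingHom_eq_coe, RingHom.toAddMonoidHom_eq_coe,
      AddMonoidHom.coe_coe, RingHom.coe_coe, LinearMap.toAddMonoidHom_coe] at e1 e2
    exact ⟨by rw [← e1, h1, map_zero], by rw [← e2, h2, map_zero]⟩
  QleP := fun _ hf => hf.1
  sq := by
    intro a ha c hc
    rw [RingHom.mem_ker] at ha hc
    exact ⟨by rw [map_mul, ha, zero_mul], by rw [der_mul, ha, hc]; simp⟩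
  primary := by
    rintro u f ⟨h1, h2⟩ hu
    rw [RingHom.mem_ker] at hu
    have h3 : psi M f = 0 := by
      rw [map_mul] at h1
      exact (mul_eq_zero.1 h1).resolve_left hu
    rw [der_mul, h3, zero_mul, add_zero] at h2
    exact ⟨h3, (mul_eq_zero.1 h2).resolve_left hu⟩
  hfP := by
    intro n
    rw [hf_eq_of_map (psi M).toLinearMap (RingHom.ker (psi M)) n (fun f _ => Iff.rfl),
      ← finrank_Bn (k := k) n]
    have : (Hn k n).map (psi M).toLinearMap = homogeneousSubmodule (Fin 2) k n := by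
      apply le_antisymm
      · rintro _ ⟨f, hf, rfl⟩
        exact psi_homog M hf
      · intro g hg
        exact ⟨sec N g, sec_homog N hg, psi_sec (mul_eq_one_comm.1 h) g⟩
    rw [this]
  hfQ := by
    intro hb n hn
    have h' := mul_eq_one_comm.1 h
    rw [hf_eq_of_map ((psi M).toLinearMap.prod (der M e b)) _ n
      (fun f _ => by simp [mem_mult, Prod.ext_iff])]
    have : (Hn k n).map ((psi M).toLinearMap.prod (der M e b)) =
        (homogeneousSubmodule (Fin 2) k n).prod (homogeneousSubmodule (Fin 2) k (n + e)) := by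
      apply le_antisymm
      · rintro _ ⟨f, hf, rfl⟩
        exact ⟨psi_homog M hf, der_homog M e b hf⟩
      · rintro ⟨g1, g2⟩ ⟨hg1, hg2⟩
        obtain ⟨a, c, ha, hc, rfl⟩ := exists_split hn hg2
        refine ⟨sec N g1 + (sec N a * yy N 2 + sec N c * yy N 3), ?_, ?_⟩
        · have e1 : n - 1 + 1 = n := by omega
          refine IsHomogeneous.add (sec_homog N hg1) (IsHomogeneous.add ?_ ?_)
          · simpa [e1] using (sec_homog N ha).mul (yy_homog N 2)
          · simpa [e1] using (sec_homog N hc).mul (yy_homog N 3)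
        · simp [psi_sec h', der_sec h', der_mul, psi_yy, der_yy, h', hb]
    rw [this]
    have : Module.Finite k (homogeneousSubmodule (Fin 2) k n) :=
      Module.Finite.iff_fg.2 (homogeneousSubmodule_fg _ _ _)
    have : Module.Finite k (homogeneousSubmodule (Fin 2) k (n + e)) :=
      Module.Finite.iff_fg.2 (homogeneousSubmodule_fg _ _ _)
    rw [finrank_submodule_prod, finrank_Bn, finrank_Bn]
    omega
  ndbl := by
    intro hb
    ext f
    simp [mem_mult, RingHom.mem_ker, der_apply, nrm, hb]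
  gen := by
    intro f hf
    have h1 := sub_sec_mem h f
    rw [RingHom.mem_ker] at hf
    rw [hf, map_zero, sub_zero] at h1
    refine Ideal.span_mono ?_ h1
    have h' := mul_eq_one_comm.1 h
    rintro _ (rfl | rfl)
    · exact ⟨by simp [RingHom.mem_ker, psi_yy, h'], yy_homog N _⟩
    · exact ⟨by simp [RingHom.mem_ker, psi_yy, h'], yy_homog N _⟩
  loc := by
    intro n f hf hn hQ
    have h' := mul_eq_one_comm.1 h
    rw [RingHom.mem_ker] at hf
    refine ⟨n + e, sec N (der M e b f), sec_homog N (der_homog M e b hn), ?_, ?_⟩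
    · rw [RingHom.mem_ker, psi_sec h']
      exact fun h0 => hQ ⟨hf, h0⟩
    · intro g hg
      rw [RingHom.mem_ker] at hg
      have : g * sec N (der M e b f) =
          (g * sec N (der M e b f) - sec N (der M e b g) * f) + sec N (der M e b g) * f := by ring
      rw [this]
      refine Submodule.add_mem_sup ⟨?_, ?_⟩
        (Ideal.mul_mem_left _ _ (Ideal.mem_span_singleton_self f))
      · simp [hf, hg]
      · simp [der_mul, hf, hg, psi_sec h', der_sec h', mul_comm]

end Pool.Agent.MP_eba2ed_ag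

end

section

/-! Hilbert functions of subschemes of a finite union of multiple lines. -/

set_option linter.unusedSectionVars false

namespace Pool.Agent.MP_eba2ed_ag

open MvPolynomial Module

variable {k : Type} [Field k] {e : ℕ}

namespace MLine

/-- the structure of multiplicity `m` on a line -/
noncomputable def Qm (l : MLine k e) (m : ℕ) : Ideal (A k) :=
  if m = 0 then ⊤ else if m = 1 then l.P else l.Q

open Classical in
/-- generic multiplicity of `V(c)` along the line -/
noncomputable def mu (l : MLine k e) (c : Ideal (A k)) : ℕ :=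
  if l.dbl ∧ c ≤ l.Q then 2 else if c ≤ l.P then 1 else 0

def Valid (l : MLine k e) (m : ℕ) : Prop := m ≤ 2 ∧ (m = 2 → l.dbl)

lemma mu_valid (l : MLine k e) (c : Ideal (A k)) : l.Valid (l.mu c) := by
  unfold mu Valid
  split_ifs with h1 h2
  · exact ⟨le_rfl, fun _ => h1.1⟩
  · simp
  · simp

lemma le_Qm_mu (l : MLine k e) (c : Ideal (A k)) : c ≤ l.Qm (l.mu c) := by
  unfold mu Qm
  split_ifs with h1 h2 <;> simp_all

lemma mu_pos_iff (l : MLine k e) (c : Ideal (A k)) : 1 ≤ l.mu c ↔ c ≤ l.P := by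
  unfold mu
  split_ifs with h1 h2
  · simpa using h1.2.trans l.QleP
  · simpa using h2
  · simpa using h2

lemma mu_eq_two_iff (l : MLine k e) (c : Ideal (A k)) : l.mu c = 2 ↔ l.dbl ∧ c ≤ l.Q := by
  unfold mu
  split_ifs with h1 h2 <;> simp_all

lemma Qm_hom (l : MLine k e) (m : ℕ) : IsHomog (l.Qm m) := by
  unfold Qm
  split_ifs
  exacts [isHomog_top, l.homP, l.homQ]

lemma Q_le_Qm (l : MLine k e) (m : ℕ) : l.Q ≤ l.Qm m := by
  unfold Qm
  split_ifs
  exacts [le_top, l.QleP, le_rfl]

lemma Qm_primary (l : MLine k e) (m : ℕ) {u f : A k} (h : f * u ∈ l.Qm m) (hu : u ∉ l.P) :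
    f ∈ l.Qm m := by
  unfold Qm at h ⊢
  split_ifs at h ⊢
  · trivial
  · exact (l.primeP.mem_or_mem h).resolve_right hu
  · exact l.primary u f (by rwa [mul_comm]) hu

end MLine

def cst (e m : ℕ) : ℕ := if m = 0 then 0 else if m = 1 then 1 else e + 2

lemma MLine.hf_Qm (l : MLine k e) {m : ℕ} (hm : l.Valid m) {n : ℕ} (hn : e + 1 ≤ n) :
    hilbFun (l.Qm m) n = m * n + cst e m := by
  unfold Qm cst
  split_ifs with h1 h2
  · simp [h1, hf_top]
  · simp [h2, l.hfP]
  · have h3 : m = 2 := by have := hm.1; omega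
    rw [l.hfQ (hm.2 h3) n hn, h3]; ring

variable {ι : Type} [Fintype ι] [DecidableEq ι] (L : ι → MLine k e)

/-- The lines are pairwise distinct. -/
def Distinct : Prop := ∀ i j, i ≠ j → ∃ w ∈ pc (L j).P 1, w ∉ (L i).P

/-- the ideal of the union -/
noncomputable def I0 : Ideal (A k) := ⨅ i, (L i).Q

noncomputable def deg (c : Ideal (A k)) : ℕ := ∑ i, (L i).mu c

lemma I0_hom : IsHomog (I0 L) := isHomog_iInf (fun i => (L i).homQ)

lemma I0_le_Q (i : ι) : I0 L ≤ (L i).Q := iInf_le _ i

lemma I0_le_P (i : ι) : I0 L ≤ (L i).P := (I0_le_Q L i).trans (L i).QleP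

lemma mem_I0 {f : A k} : f ∈ I0 L ↔ ∀ i, f ∈ (L i).Q := Ideal.mem_iInf

lemma I0_nzd {u f : A k} (hu : ∀ i, u ∉ (L i).P) (h : f * u ∈ I0 L) : f ∈ I0 L := by
  rw [mem_I0] at h ⊢
  exact fun i => (L i).primary u f (by rw [mul_comm]; exact h i) (hu i)

variable {L}

lemma exists_sep (hd : Distinct L) (a : ι) (s : Finset ι) (ha : a ∉ s) :
    ∃ g : A k, g.IsHomogeneous (2 * s.card) ∧ g ∉ (L a).P ∧ ∀ j ∈ s, g ∈ (L j).Q := by
  have hd' : ∀ j, j ≠ a → ∃ w ∈ pc (L j).P 1, w ∉ (L a).P := fun j hj => hd a j (Ne.symm hj)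
  choose! w hw hw' using hd'
  have hne : ∀ j ∈ s, j ≠ a := fun j hj h => ha (h ▸ hj)
  refine ⟨∏ j ∈ s, (w j * w j), ?_, ?_, ?_⟩
  · have := IsHomogeneous.prod s (fun j => w j * w j) (fun _ => 1 + 1)
      (fun j hj => IsHomogeneous.mul (hw j (hne j hj)).2 (hw j (hne j hj)).2)
    simpa [mul_comm] using this
  · have := (L a).primeP
    rw [Ideal.IsPrime.prod_mem_iff]
    rintro ⟨j, hj, h⟩
    exact hw' j (hne j hj) ((this.mem_or_mem h).elim id id)
  · intro j hj
    rw [← Finset.mul_prod_erase s _ hj]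
    exact Ideal.mul_mem_right _ _ ((L j).sq _ (hw j (hne j hj)).1 _ (hw j (hne j hj)).1)

lemma hf_inf_lower (hd : Distinct L) (m : ι → ℕ) (hm : ∀ i, (L i).Valid (m i)) {n : ℕ}
    (hn : e + 1 + 2 * Fintype.card ι ≤ n) (s : Finset ι) :
    ∑ i ∈ s, (m i * n + cst e (m i)) ≤
      hilbFun (s.inf fun i => (L i).Qm (m i)) n + 4 * Fintype.card ι * s.card := by
  induction s using Finset.induction_on with
  | empty => simp
  | insert a s ha ih =>
    rw [Finset.sum_insert ha, Finset.inf_insert, Finset.card_insert_of_notMem ha]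
    have h1 := hf_inf_add_sup ((L a).Qm_hom (m a))
      (isHomog_finset_inf s (fun i _ => (L i).Qm_hom (m i))) n
    obtain ⟨g, hg, hga, hgs⟩ := exists_sep hd a s ha
    have hs : s.card ≤ Fintype.card ι := Finset.card_le_univ s
    obtain ⟨n', rfl⟩ : ∃ n', n = n' + 2 * s.card := ⟨n - 2 * s.card, by omega⟩
    have h2 := hf_nzd ((L a).Qm_hom (m a)) hg (fun u hu => (L a).Qm_primary _ hu hga) n'
    have h3 : hilbFun ((L a).Qm (m a) ⊔ s.inf fun i => (L i).Qm (m i)) (n' + 2 * s.card) ≤
        hilbFun ((L a).Qm (m a) ⊔ Ideal.span {g}) (n' + 2 * s.card) := by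
      apply hf_anti
      refine sup_le_sup_left ?_ _
      rw [Ideal.span_singleton_le_iff_mem, Submodule.mem_finsetInf]
      exact fun j hj => (L j).Q_le_Qm _ (hgs j hj)
    rw [(L a).hf_Qm (hm a) (by omega), (L a).hf_Qm (hm a) (by omega)] at h2
    rw [(L a).hf_Qm (hm a) (by omega)] at h1
    have h4 := (hm a).1
    have h5 : m a * (2 * s.card) ≤ 2 * (2 * Fintype.card ι) := by gcongr
    nlinarith

lemma hf_inf_upper {κ : Type*} (s : Finset κ) (Q : κ → Ideal (A k)) (hQ : ∀ i, IsHomog (Q i))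
    (n : ℕ) : hilbFun (s.inf Q) n ≤ ∑ i ∈ s, hilbFun (Q i) n := by
  classical
  induction s using Finset.induction_on with
  | empty => simp [hf_top]
  | insert a s ha ih =>
    rw [Finset.sum_insert ha, Finset.inf_insert]
    have := hf_inf_le (hQ a) (isHomog_finset_inf s (fun i _ => hQ i)) n
    omega

lemma hf_hull_upper (m : ι → ℕ) (hm : ∀ i, (L i).Valid (m i)) {n : ℕ} (hn : e + 1 ≤ n) :
    hilbFun (Finset.univ.inf fun i => (L i).Qm (m i)) n ≤
      (∑ i, m i) * n + ∑ i, cst e (m i) := by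
  refine (hf_inf_upper _ _ (fun i => (L i).Qm_hom (m i)) n).trans (le_of_eq ?_)
  rw [Finset.sum_mul, ← Finset.sum_add_distrib]
  exact Finset.sum_congr rfl (fun i _ => (L i).hf_Qm (hm i) hn)

lemma le_hull (c : Ideal (A k)) : c ≤ Finset.univ.inf fun i => (L i).Qm ((L i).mu c) :=
  Finset.le_inf (fun i _ => (L i).le_Qm_mu c)

lemma hf_lower (hd : Distinct L) (c : Ideal (A k)) {n : ℕ}
    (hn : e + 1 + 2 * Fintype.card ι ≤ n) :
    deg L c * n + ∑ i, cst e ((L i).mu c) ≤ hilbFun c n + 4 * Fintype.card ι ^ 2 := by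
  have h1 := hf_inf_lower hd (fun i => (L i).mu c) (fun i => (L i).mu_valid c) hn Finset.univ
  have h2 := hf_anti (le_hull (L := L) c) n
  rw [Finset.sum_add_distrib, ← Finset.sum_mul, Finset.card_univ] at h1
  unfold deg
  nlinarith

lemma hf_lower3 (hd : Distinct L) (c : Ideal (A k)) {n : ℕ}
    (hn : e + 1 + 2 * Fintype.card ι ≤ n) :
    deg L c * n ≤ hilbFun c n + 4 * Fintype.card ι ^ 2 := by
  have := hf_lower hd c hn
  omega

lemma hf_lower1 (hd : Distinct L) (c : Ideal (A k)) {n : ℕ}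
    (hn : e + 1 + 2 * Fintype.card ι ≤ n) {i : ι} (hi : (L i).mu c = 2) :
    deg L c * n + e + 2 ≤ hilbFun c n + 4 * Fintype.card ι ^ 2 := by
  have h1 := hf_lower hd c hn
  have h2 : cst e ((L i).mu c) ≤ ∑ i, cst e ((L i).mu c) :=
    Finset.single_le_sum (f := fun i => cst e ((L i).mu c)) (fun _ _ => Nat.zero_le _)
      (Finset.mem_univ i)
  rw [hi] at h2
  simp only [cst] at h2
  simp only [cst] at h1
  norm_num at h2
  omega

lemma I0_eq_hull : I0 L = Finset.univ.inf fun i => (L i).Qm ((L i).mu (I0 L)) := by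
  apply le_antisymm (le_hull (I0 L))
  · intro f hf
    rw [mem_I0]
    intro i
    have h := Submodule.mem_finsetInf.1 hf i (Finset.mem_univ i)
    by_cases hdbl : (L i).dbl
    · rw [((L i).mu_eq_two_iff _).2 ⟨hdbl, I0_le_Q L i⟩] at h
      simpa [MLine.Qm] using h
    · have h1 := ((L i).mu_pos_iff _).2 (I0_le_P L i)
      rw [(L i).ndbl hdbl]
      unfold MLine.Qm at h
      split_ifs at h
      · omega
      · exact h
      · exact (L i).QleP h

lemma hf_I0_step (hd : Distinct L) (t : ℕ) :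
    ∃ C N, ∀ n, N ≤ n → hilbFun (I0 L) (n + t) ≤ hilbFun (I0 L) n + C := by
  refine ⟨deg L (I0 L) * t + ∑ i, cst e ((L i).mu (I0 L)) + 4 * Fintype.card ι ^ 2,
    e + 1 + 2 * Fintype.card ι, fun n hn => ?_⟩
  have h1 := hf_lower3 hd (I0 L) hn
  have h2 := hf_hull_upper (fun i => (L i).mu (I0 L)) (fun i => (L i).mu_valid _)
    (n := n + t) (by omega)
  rw [← I0_eq_hull] at h2
  unfold deg at *
  nlinarith

/-- homogeneous prime avoidance for the lines -/
lemma exists_avoid (hd : Distinct L) (b : Ideal (A k))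
    (h : ∀ i, ∃ (m : ℕ) (u : A k), u.IsHomogeneous m ∧ u ∈ b ∧ u ∉ (L i).P) :
    ∃ (m : ℕ) (u : A k), u.IsHomogeneous m ∧ u ∈ b ∧ ∀ i, u ∉ (L i).P := by
  choose m u hu hub huP using h
  choose g hg hgP hgQ using fun i => exists_sep hd i (Finset.univ.erase i) (by simp)
  choose t ht using fun i => (L i).exists_X_notMem
  let E := Finset.univ.sup m
  have hE : ∀ i, m i ≤ E := fun i => Finset.le_sup (f := m) (Finset.mem_univ i)
  refine ⟨E + 2 * (Fintype.card ι - 1), ∑ i, u i * X (t i) ^ (E - m i) * g i, ?_, ?_, ?_⟩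
  · refine IsHomogeneous.sum _ _ _ (fun i _ => ?_)
    have := ((hu i).mul (isHomogeneous_X_pow (t i) (E - m i))).mul (hg i)
    have e1 : m i + (E - m i) + 2 * (Finset.univ.erase i).card = E + 2 * (Fintype.card ι - 1) := by
      have := hE i
      rw [Finset.card_erase_of_mem (Finset.mem_univ i), Finset.card_univ]
      omega
    rwa [e1] at this
  · exact Ideal.sum_mem _ (fun i _ => Ideal.mul_mem_right _ _ (Ideal.mul_mem_right _ _ (hub i)))
  · intro i hi
    rw [← Finset.add_sum_erase _ _ (Finset.mem_univ i)] at hi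
    have h1 : ∑ j ∈ Finset.univ.erase i, u j * X (t j) ^ (E - m j) * g j ∈ (L i).P :=
      Ideal.sum_mem _ (fun j hj => Ideal.mul_mem_left _ _ ((L i).QleP (hgQ j i
        (Finset.mem_erase.2 ⟨(Finset.ne_of_mem_erase hj).symm, Finset.mem_univ i⟩))))
    have h2 := (Ideal.add_mem_iff_left _ h1).1 hi
    rcases (L i).primeP.mem_or_mem h2 with h3 | h3
    · rcases (L i).primeP.mem_or_mem h3 with h4 | h4
      · exact huP i h4
      · exact ht i ((L i).primeP.mem_of_pow_mem _ h4)
    · exact hgP i h3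

lemma hf_upper (hd : Distinct L) {c : Ideal (A k)} (hc : IsHomog c) {N : ℕ}
    (hI : ∀ n, N ≤ n → ∀ f ∈ I0 L, f.IsHomogeneous n → f ∈ c) :
    ∃ C N', ∀ n, N' ≤ n → hilbFun c n ≤ deg L c * n + C := by
  let H := Finset.univ.inf fun i => (L i).Qm ((L i).mu c)
  have hH : ∀ f ∈ H, ∀ i, f ∈ (L i).Qm ((L i).mu c) :=
    fun f hf i => Submodule.mem_finsetInf.1 hf i (Finset.mem_univ i)
  have hI' := irr_pow_mul_le (I0_hom L) hI
  have hu : ∃ (m : ℕ) (u : A k), u.IsHomogeneous m ∧ u ∈ Submodule.colon c (H : Set (A k)) ∧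
      ∀ i, u ∉ (L i).P := by
    apply exists_avoid hd
    intro i
    obtain ⟨g, hg, hgP, hgQ⟩ := exists_sep hd i (Finset.univ.erase i) (by simp)
    obtain ⟨t, ht⟩ := (L i).exists_X_notMem
    have hG : (X t ^ N * g).IsHomogeneous (N + 2 * (Finset.univ.erase i).card) :=
      (isHomogeneous_X_pow t N).mul hg
    have hGP : X t ^ N * g ∉ (L i).P := fun h =>
      ((L i).primeP.mem_or_mem h).elim (fun h => ht ((L i).primeP.mem_of_pow_mem _ h)) hgP
    have hGQ : ∀ f ∈ (L i).Q, X t ^ N * g * f ∈ c := by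
      intro f hf
      apply hI'
      rw [mul_assoc]
      refine Ideal.mul_mem_mul (Ideal.pow_mem_pow (X_mem_irr t) N) ((mem_I0 L).2 fun j => ?_)
      by_cases hj : j = i
      · subst hj; exact Ideal.mul_mem_left _ _ hf
      · exact Ideal.mul_mem_right _ _ (hgQ j (by simp [hj]))
    by_cases hcQ : c ≤ (L i).Q
    · refine ⟨_, _, hG, Submodule.mem_colon.2 (fun f hf => hGQ f ?_), hGP⟩
      have h := hH f hf i
      by_cases hdbl : (L i).dbl
      · rw [((L i).mu_eq_two_iff _).2 ⟨hdbl, hcQ⟩] at h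
        simpa [MLine.Qm] using h
      · have h1 := ((L i).mu_pos_iff _).2 (hcQ.trans (L i).QleP)
        rw [(L i).ndbl hdbl]
        unfold MLine.Qm at h
        split_ifs at h
        · omega
        · exact h
        · exact (L i).QleP h
    · by_cases hcP : c ≤ (L i).P
      · obtain ⟨n, f, hfc, hfn, hfQ⟩ := hc.exists_homog_notMem hcQ
        obtain ⟨m, u, hu, huP, hu'⟩ := (L i).loc n f (hcP hfc) hfn hfQ
        refine ⟨_, _, hG.mul hu, Submodule.mem_colon.2 (fun h hh => ?_), fun h =>
          ((L i).primeP.mem_or_mem h).elim hGP huP⟩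
        have h1 : h ∈ (L i).P := by
          have h0 := hH h hh i
          have h1 := ((L i).mu_pos_iff _).2 hcP
          unfold MLine.Qm at h0
          split_ifs at h0
          · omega
          · exact h0
          · exact (L i).QleP h0
        obtain ⟨a, ha, b, hb, hab⟩ := Submodule.mem_sup.1 (hu' h h1)
        obtain ⟨r, rfl⟩ := Ideal.mem_span_singleton'.1 hb
        have : (X t ^ N * g * u) • h = X t ^ N * g * a + (X t ^ N * g * r) * f := by
          rw [smul_eq_mul, mul_assoc _ u h, mul_comm u h, ← hab]; ring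
        rw [this]
        exact Ideal.add_mem _ (hGQ a ha) (Ideal.mul_mem_left _ _ hfc)
      · obtain ⟨n, f, hfc, hfn, hfP⟩ := hc.exists_homog_notMem hcP
        exact ⟨n, f, hfn, Submodule.mem_colon.2 (fun h _ => Ideal.mul_mem_right _ _ hfc), hfP⟩
  obtain ⟨m, u, hu, huc, huP⟩ := hu
  obtain ⟨C, N1, hC⟩ := hf_I0_step hd m
  refine ⟨C + ∑ i, cst e ((L i).mu c), N + N1 + (e + 1) + m, fun n hn => ?_⟩
  obtain ⟨n', rfl⟩ : ∃ n', n = n' + m := ⟨n - m, by omega⟩
  have h1 := hf_sandwich (I := I0 L) (H := H) (C := c)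
    (Finset.le_inf fun i _ => (I0_le_Q L i).trans ((L i).Q_le_Qm _)) hu
    (fun f hf => I0_nzd L huP hf) n' (hI _ (by omega))
    (fun f hf => by rw [mul_comm]; exact Submodule.mem_colon.1 huc f hf)
  have h2 := hC n' (by omega)
  have h3 := hf_hull_upper (fun i => (L i).mu c) (fun i => (L i).mu_valid _) (n := n') (by omega)
  unfold deg
  have h4 : (∑ i, (L i).mu c) * n' ≤ (∑ i, (L i).mu c) * (n' + m) := by gcongr; omega
  simp only [H] at h1
  omega

lemma sup_eq_of_skew {U W : Submodule k (A k)} (hU : U ≤ Hn k 1) (hW : W ≤ Hn k 1)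
    (h2 : finrank k U = 2) (h2' : finrank k W = 2) (h : U ⊓ W = ⊥) : U ⊔ W = Hn k 1 := by
  have : Module.Finite k U := Submodule.finiteDimensional_of_le hU
  have : Module.Finite k W := Submodule.finiteDimensional_of_le hW
  apply Submodule.eq_of_le_of_finrank_eq (sup_le hU hW)
  have := Submodule.finrank_sup_add_finrank_inf_eq U W
  rw [h, finrank_bot] at this
  rw [finrank_Hn_one]
  omega

lemma irr_le_of_sup_eq {I J : Ideal (A k)} (h : pc I 1 ⊔ pc J 1 = Hn k 1) : irr k ≤ I ⊔ J := by
  rw [irr_le_iff]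
  intro i
  have : (X i : A k) ∈ pc I 1 ⊔ pc J 1 := by rw [h]; exact isHomogeneous_X k i
  obtain ⟨a, ha, b, hb, hab⟩ := Submodule.mem_sup.1 this
  rw [← hab]
  exact Submodule.add_mem_sup ha.1 hb.1

lemma irr_pow_le_sup_inf {κ : Type*} (s : Finset κ) (I : Ideal (A k)) (Q : κ → Ideal (A k))
    (h : ∀ j ∈ s, irr k ≤ I ⊔ Q j) : irr k ^ s.card ≤ I ⊔ s.inf Q := by
  classical
  induction s using Finset.induction_on with
  | empty => simp
  | insert a s ha ih =>
    rw [Finset.card_insert_of_notMem ha, pow_succ, Finset.inf_insert]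
    refine (Ideal.mul_mono (ih fun j hj => h j (Finset.mem_insert_of_mem hj))
      (h a (Finset.mem_insert_self a s))).trans ?_
    rw [Ideal.sup_mul, Ideal.mul_sup, Ideal.mul_sup]
    refine sup_le (sup_le ?_ ?_) (sup_le ?_ ?_)
    · exact Ideal.mul_le_left.trans le_sup_left
    · exact Ideal.mul_le_left.trans le_sup_left
    · exact Ideal.mul_le_right.trans le_sup_left
    · exact (Ideal.mul_le_inf.trans (inf_comm _ _).le).trans le_sup_right

lemma hf_lower2 (s : Finset ι)
    (hs : ∀ i ∈ s, ∀ j ∈ s, i ≠ j → pc (L i).P 1 ⊓ pc (L j).P 1 = ⊥) {n : ℕ} (hn : s.card ≤ n) :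
    s.card * (n + 1) ≤ hilbFun (s.inf fun i => (L i).P) n := by
  induction s using Finset.induction_on with
  | empty => simp
  | insert a s ha ih =>
    rw [Finset.card_insert_of_notMem ha] at hn ⊢
    rw [Finset.inf_insert]
    have h1 := hf_inf_add_sup (L a).homP (isHomog_finset_inf s (fun i _ => (L i).homP)) n
    have h2 := ih (fun i hi j hj => hs i (Finset.mem_insert_of_mem hi) j
      (Finset.mem_insert_of_mem hj)) (by omega)
    have h3 := hf_eq_zero_of_irr_pow_le (irr_pow_le_sup_inf s (L a).P (fun i => (L i).P)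
      (fun j hj => irr_le_of_sup_eq (sup_eq_of_skew (pc_le _ _) (pc_le _ _) (L a).finrank_one
        (L j).finrank_one (hs a (Finset.mem_insert_self a s) j (Finset.mem_insert_of_mem hj)
          (fun h => ha (h ▸ hj)))))) (n := n) (by omega)
    rw [h3, (L a).hfP] at h1
    nlinarith

end Pool.Agent.MP_eba2ed_ag

end

section

/-! A bipartite configuration of lines in space encoding a plane configuration. -/

namespace Pool.Agent.MP_eba2ed_ag

open MvPolynomial Module

variable {k : Type} [Field k] {Pt Ln : Type} {inc : Pt → Ln → Prop}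

/-- index set of the lines in space -/
abbrev Jx (Pt Ln : Type) : Type := Option Pt ⊕ Bool ⊕ Ln

variable (inc) in
/-- The incidence pattern. -/
structure Pattern (U : Jx Pt Ln → Submodule k (A k)) : Prop where
  bb : ∀ b b' : Option Pt, b ≠ b' → U (.inl b) ⊓ U (.inl b') = ⊥
  aa : ∀ a a' : Bool ⊕ Ln, a ≠ a' → U (.inr a) ⊓ U (.inr a') = ⊥
  b0 : ∀ b t, U (.inl b) ⊓ U (.inr (.inl t)) ≠ ⊥
  inf : ∀ l, U (.inl none) ⊓ U (.inr (.inr l)) ≠ ⊥
  pl : ∀ P l, inc P l ↔ U (.inl (some P)) ⊓ U (.inr (.inr l)) ≠ ⊥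

lemma Pattern.transfer {K : Type} [Field K] {U : Jx Pt Ln → Submodule k (A k)}
    (h : Pattern inc U) {U' : Jx Pt Ln → Submodule K (A K)}
    (hU : ∀ i j, i ≠ j → (U' i ⊓ U' j = ⊥ ↔ U i ⊓ U j = ⊥)) : Pattern inc U' where
  bb := fun b b' hb => (hU _ _ (by simpa using hb)).2 (h.bb b b' hb)
  aa := fun a a' ha => (hU _ _ (by simpa using ha)).2 (h.aa a a' ha)
  b0 := fun b t h' => h.b0 b t ((hU _ _ (by simp)).1 h')
  inf := fun l h' => h.inf l ((hU _ _ (by simp)).1 h')
  pl := fun P l => (h.pl P l).trans (not_congr (hU _ _ (by simp))).symm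

lemma exists_coeffs {E : Type*} [AddCommGroup E] [Module k E] {U : Submodule k E}
    [Module.Finite k U] (h2 : finrank k U = 2) {a b : E} (ha : a ∈ U) (hb : b ∈ U)
    (hab : ∀ s t : k, s • a + t • b = 0 → s = 0 ∧ t = 0) {x : E} (hx : x ∈ U) :
    ∃ s t : k, s • a + t • b = x := by
  have hli : LinearIndependent k ![a, b] := LinearIndependent.pair_iff.2 hab
  have h1 : Submodule.span k (Set.range ![a, b]) = U := by
    apply Submodule.eq_of_le_of_finrank_eq
    · rw [Submodule.span_le]
      rintro _ ⟨i, rfl⟩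
      fin_cases i
      exacts [ha, hb]
    · rw [finrank_span_eq_card hli, h2]; simp
  rw [← h1] at hx
  rw [Submodule.mem_span_range_iff_exists_fun] at hx
  obtain ⟨c, hc⟩ := hx
  exact ⟨c 0, c 1, by simpa [Fin.sum_univ_two] using hc⟩

theorem Pattern.aff [Nonempty Pt] {U : Jx Pt Ln → Submodule k (A k)} (h : Pattern inc U)
    (hU : ∀ i, U i ≤ Hn k 1) (h2 : ∀ i, finrank k (U i) = 2) : Nonempty (Aff k inc) := by
  have hfin : ∀ i, Module.Finite k (U i) := fun i => Submodule.finiteDimensional_of_le (hU i)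
  have hbot : ∀ {i j : Jx Pt Ln}, U i ⊓ U j = ⊥ → ∀ x, x ∈ U i → x ∈ U j → x = 0 := by
    intro i j hij x hi hj
    rw [← Submodule.mem_bot k, ← hij]; exact ⟨hi, hj⟩
  have hex : ∀ b t, ∃ x ∈ U (.inl b) ⊓ U (.inr (.inl t)), x ≠ 0 :=
    fun b t => Submodule.exists_mem_ne_zero_of_ne_bot (h.b0 b t)
  choose α hα hα0 using hex
  obtain ⟨P0⟩ := ‹Nonempty Pt›
  have hind : ∀ t (b b' : Option Pt), b ≠ b' → ∀ s u : k, s • α b t + u • α b' t = 0 →
      s = 0 ∧ u = 0 := by
    intro t b b' hb s u hsu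
    have h1 : s • α b t = 0 := by
      refine hbot (h.bb b b' hb) _ (Submodule.smul_mem _ _ (hα b t).1) ?_
      rw [eq_neg_of_add_eq_zero_left hsu]
      exact neg_mem (Submodule.smul_mem _ _ (hα b' t).1)
    rw [h1, zero_add] at hsu
    exact ⟨(smul_eq_zero.1 h1).resolve_right (hα0 b t),
      (smul_eq_zero.1 hsu).resolve_right (hα0 b' t)⟩
  have hnorm : ∀ t (P : Pt), ∃ x : k, x • α none t + α (some P0) t ∈ U (.inl (some P)) := by
    intro t P
    obtain ⟨s, u, hsu⟩ := exists_coeffs (h2 _) (hα none t).2 (hα (some P0) t).2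
      (hind t _ _ (by simp)) (hα (some P) t).2
    have hu : u ≠ 0 := by
      rintro rfl
      have := (hind t none (some P) (by simp) s (-1) (by rw [← hsu]; simp)).2
      simp at this
    refine ⟨s / u, ?_⟩
    have : (s / u) • α none t + α (some P0) t = u⁻¹ • α (some P) t := by
      rw [← hsu, smul_add, smul_smul, smul_smul, inv_mul_cancel₀ hu, one_smul, div_eq_inv_mul]
    rw [this]
    exact Submodule.smul_mem _ _ (hα _ t).1
  choose Z hZ using hnorm
  have hZinj : ∀ t, Function.Injective (Z t) := by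
    intro t P Q hPQ
    by_contra hne
    have h1 := hbot (h.bb (some P) (some Q) (by simpa using hne)) _ (hZ t P) (hPQ ▸ hZ t Q)
    have := (hind t none (some P0) (by simp) (Z t P) 1 (by simpa using h1)).2
    simp at this
  set e1 := α none false
  set e2 := α (some P0) false
  set e3 := α none true
  set e4 := α (some P0) true
  have hE : U (.inr (.inl false)) ⊓ U (.inr (.inl true)) = ⊥ := h.aa _ _ (by simp)
  have m1 : e1 ∈ U (.inr (.inl false)) := (hα _ _).2
  have m2 : e2 ∈ U (.inr (.inl false)) := (hα _ _).2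
  have m3 : e3 ∈ U (.inr (.inl true)) := (hα _ _).2
  have m4 : e4 ∈ U (.inr (.inl true)) := (hα _ _).2
  have hsplit : ∀ x y : A k, x ∈ U (.inr (.inl false)) → y ∈ U (.inr (.inl true)) → x + y = 0 →
      x = 0 ∧ y = 0 := by
    intro x y hx hy hxy
    have : x = 0 := hbot hE x hx (by rw [eq_neg_of_add_eq_zero_left hxy]; exact neg_mem hy)
    exact ⟨this, by simpa [this] using hxy⟩
  have hind4 : ∀ c1 c2 c3 c4 : k, c1 • e1 + c2 • e2 + (c3 • e3 + c4 • e4) = 0 →
      c1 = 0 ∧ c2 = 0 ∧ c3 = 0 ∧ c4 = 0 := by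
    intro c1 c2 c3 c4 hc
    obtain ⟨h1, h3⟩ := hsplit _ _ (add_mem (Submodule.smul_mem _ _ m1) (Submodule.smul_mem _ _ m2))
      (add_mem (Submodule.smul_mem _ _ m3) (Submodule.smul_mem _ _ m4)) hc
    obtain ⟨a1, a2⟩ := hind false _ _ (by simp) _ _ h1
    obtain ⟨a3, a4⟩ := hind true _ _ (by simp) _ _ h3
    exact ⟨a1, a2, a3, a4⟩
  have hspan : ∀ r ∈ Hn k 1, ∃ c1 c2 c3 c4 : k, c1 • e1 + c2 • e2 + (c3 • e3 + c4 • e4) = r := by
    intro r hr
    rw [← sup_eq_of_skew (hU _) (hU _) (h2 _) (h2 _) hE] at hr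
    obtain ⟨x, hx, y, hy, rfl⟩ := Submodule.mem_sup.1 hr
    obtain ⟨c1, c2, rfl⟩ := exists_coeffs (h2 _) m1 m2 (hind false _ _ (by simp)) hx
    obtain ⟨c3, c4, rfl⟩ := exists_coeffs (h2 _) m3 m4 (hind true _ _ (by simp)) hy
    exact ⟨c1, c2, c3, c4, rfl⟩
  have hline : ∀ l : Ln, ∃ a b c : k, a ≠ 0 ∧ c ≠ 0 ∧
      ∀ P, inc P l ↔ c * Z true P = a * Z false P + b := by
    intro l
    have n0 : ∀ x, x ∈ U (.inr (.inr l)) → x ∈ U (.inr (.inl false)) → x = 0 :=
      hbot (h.aa _ _ (by simp))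
    have n1 : ∀ x, x ∈ U (.inr (.inr l)) → x ∈ U (.inr (.inl true)) → x = 0 :=
      hbot (h.aa _ _ (by simp))
    obtain ⟨q, hq, hq0⟩ := Submodule.exists_mem_ne_zero_of_ne_bot (h.inf l)
    obtain ⟨σ, τ, rfl⟩ := exists_coeffs (h2 _) (hα none false).1 (hα none true).1
      (fun s t hst => by
        have := hind4 s 0 t 0 (by simpa using hst)
        exact ⟨this.1, this.2.2.1⟩) hq.1
    have hσ : σ ≠ 0 := by
      rintro rfl
      exact hq0 (n1 _ hq.2 (by simpa using Submodule.smul_mem _ _ m3))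
    have hτ : τ ≠ 0 := by
      rintro rfl
      exact hq0 (n0 _ hq.2 (by simpa using Submodule.smul_mem _ _ m1))
    obtain ⟨r, hr, hrq⟩ : ∃ r ∈ U (.inr (.inr l)), r ∉ Submodule.span k {σ • e1 + τ • e3} := by
      by_contra hall
      push Not at hall
      have h3 := Submodule.finrank_mono (show U (.inr (.inr l)) ≤ _ from hall)
      rw [h2, finrank_span_singleton hq0] at h3
      omega
    obtain ⟨r1, r2, r3, r4, rfl⟩ := hspan r (hU _ hr)
    have hr2 : r2 ≠ 0 := by
      rintro rfl
      apply hrq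
      rw [Submodule.mem_span_singleton]
      refine ⟨r1 / σ, ?_⟩
      have := n1 _ (sub_mem hr (Submodule.smul_mem _ (r1 / σ) hq.2)) (by
        have : r1 • e1 + (0 : k) • e2 + (r3 • e3 + r4 • e4) - (r1 / σ) • (σ • e1 + τ • e3) =
            (r3 - r1 / σ * τ) • e3 + r4 • e4 := by
          match_scalars <;> field_simp <;> ring
        rw [this]
        exact add_mem (Submodule.smul_mem _ _ m3) (Submodule.smul_mem _ _ m4))
      exact (sub_eq_zero.1 this).symm
    have hr4 : r4 ≠ 0 := by
      rintro rfl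
      apply hrq
      rw [Submodule.mem_span_singleton]
      refine ⟨r3 / τ, ?_⟩
      have := n0 _ (sub_mem hr (Submodule.smul_mem _ (r3 / τ) hq.2)) (by
        have : r1 • e1 + r2 • e2 + (r3 • e3 + (0 : k) • e4) - (r3 / τ) • (σ • e1 + τ • e3) =
            (r1 - r3 / τ * σ) • e1 + r2 • e2 := by
          match_scalars <;> field_simp <;> ring
        rw [this]
        exact add_mem (Submodule.smul_mem _ _ m1) (Submodule.smul_mem _ _ m2))
      exact (sub_eq_zero.1 this).symm
    refine ⟨τ * r2, σ * r3 - τ * r1, σ * r4, mul_ne_zero hτ hr2, mul_ne_zero hσ hr4, fun P => ?_⟩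
    rw [h.pl]
    constructor
    · intro hne
      obtain ⟨w, hw, hw0⟩ := Submodule.exists_mem_ne_zero_of_ne_bot hne
      obtain ⟨s, t, hst⟩ := exists_coeffs (h2 _) (hZ false P) (hZ true P) (fun s t hst => by
        have := hind4 (s * Z false P) s (t * Z true P) t (by rw [← hst]; module)
        exact ⟨this.2.1, this.2.2.2⟩) hw.1
      obtain ⟨u, v, huv⟩ := exists_coeffs (h2 _) hq.2 hr (fun u v huv => by
        have := hind4 (u * σ + v * r1) (v * r2) (u * τ + v * r3) (v * r4) (by rw [← huv]; module)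
        have hv : v = 0 := (mul_eq_zero.1 this.2.1).resolve_right hr2
        have hu := this.1
        rw [hv, zero_mul, add_zero] at hu
        exact ⟨(mul_eq_zero.1 hu).resolve_right hσ, hv⟩) hw.2
      obtain ⟨a1, a2, a3, a4⟩ := hind4 (u * σ + v * r1 - s * Z false P) (v * r2 - s)
        (u * τ + v * r3 - t * Z true P) (v * r4 - t) (by
          rw [← sub_self w]
          nth_rewrite 1 [← huv]
          rw [← hst]
          module)
      have hv : v ≠ 0 := by
        rintro rfl
        have hs : s = 0 := by linear_combination -a2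
        have ht : t = 0 := by linear_combination -a4
        exact hw0 (by rw [← hst, hs, ht]; simp)
      apply mul_left_cancel₀ hv
      linear_combination τ * a1 - σ * a3 - τ * Z false P * a2 + σ * Z true P * a4
    · intro heq hb
      have hw : r2 • (Z false P • e1 + e2) + r4 • (Z true P • e3 + e4) =
          ((r2 * Z false P - r1) / σ) • (σ • e1 + τ • e3) +
            (r1 • e1 + r2 • e2 + (r3 • e3 + r4 • e4)) := by
        match_scalars
        · field_simp; ring
        · ring
        · field_simp; linear_combination heq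
        · ring
      have h0 := hbot hb _ (add_mem (Submodule.smul_mem _ r2 (hZ false P))
        (Submodule.smul_mem _ r4 (hZ true P)))
        (by rw [hw]; exact add_mem (Submodule.smul_mem _ _ hq.2) hr)
      exact hr2 (hind4 (r2 * Z false P) r2 (r4 * Z true P) r4 (by rw [← h0]; module)).2.1
  choose a b c ha hc hinc using hline
  exact ⟨⟨Z false, Z true, a, b, c, hZinj false, hZinj true, ha, hc, fun P l => hinc l P⟩⟩

/-- the linear form with given coefficients -/
noncomputable def lin (w : Fin 4 → k) : A k := ∑ i, C (w i) * X i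

lemma lin_homog (w : Fin 4 → k) : (lin w).IsHomogeneous 1 := yy_homog (fun _ => w) 0

lemma lin_eq_zero {w : Fin 4 → k} (h : lin w = 0) : w = 0 := by
  have := Fintype.linearIndependent_iff.1 (linearIndependent_X (Fin 4) k) w
    (by simpa [lin, smul_eq_C_mul] using h)
  exact funext this

lemma exists_lin {f : A k} (hf : f.IsHomogeneous 1) : ∃ w, lin w = f := by
  have : f ∈ Hn k 1 := hf
  rw [Hn, homogeneousSubmodule_one_eq_span_X, Submodule.mem_span_range_iff_exists_fun] at this
  obtain ⟨w, hw⟩ := this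
  exact ⟨w, by simpa [lin, smul_eq_C_mul] using hw⟩

lemma psi_lin_eq_zero (M : Matrix (Fin 4) (Fin 4) k) (w : Fin 4 → k) :
    psi M (lin w) = 0 ↔ ∑ i, w i * M i 0 = 0 ∧ ∑ i, w i * M i 1 = 0 := by
  have := psi_yy M (Matrix.of fun _ => w) 0
  change psi M (lin w) = _ at this
  rw [this]
  simp only [Matrix.mul_apply, Matrix.of_apply]
  constructor
  · intro h
    have h' := LinearIndependent.pair_iff.1
      (show LinearIndependent k ![(X 0 : B k), X 1] by
        have e : ![(X 0 : B k), X 1] = X := by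
          ext1 i
          fin_cases i <;> rfl
        rw [e]
        exact linearIndependent_X (Fin 2) k) _ _ (by simpa only [smul_eq_C_mul] using h)
    exact h'
  · rintro ⟨h1, h2⟩
    simp [h1, h2]

lemma skew_iff (M M' : Matrix (Fin 4) (Fin 4) k) :
    pc (RingHom.ker (psi M)) 1 ⊓ pc (RingHom.ker (psi M')) 1 = ⊥ ↔
      ∀ w : Fin 4 → k, ∑ i, w i * M i 0 = 0 → ∑ i, w i * M i 1 = 0 →
        ∑ i, w i * M' i 0 = 0 → ∑ i, w i * M' i 1 = 0 → w = 0 := by
  constructor
  · intro h w h1 h2 h3 h4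
    apply lin_eq_zero
    rw [← Submodule.mem_bot k, ← h]
    exact ⟨⟨(psi_lin_eq_zero M w).2 ⟨h1, h2⟩, lin_homog w⟩,
      ⟨(psi_lin_eq_zero M' w).2 ⟨h3, h4⟩, lin_homog w⟩⟩
  · intro h
    rw [eq_bot_iff]
    rintro f ⟨hf, hf'⟩
    obtain ⟨w, rfl⟩ := exists_lin hf.2
    obtain ⟨h1, h2⟩ := (psi_lin_eq_zero M w).1 hf.1
    obtain ⟨h3, h4⟩ := (psi_lin_eq_zero M' w).1 hf'.1
    simp [h w h1 h2 h3 h4, lin]

/-- the matrices of the lines -/
def Mx (F : Aff k inc) : Jx Pt Ln → Matrix (Fin 4) (Fin 4) k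
  | .inl none => !![1, 0, 0, 0; 0, 0, 1, 0; 0, 1, 0, 0; 0, 0, 0, 1]
  | .inl (some P) => !![F.X P, 0, 1, 0; 1, 0, 0, 0; 0, F.Y P, 0, 1; 0, 1, 0, 0]
  | .inr (.inl false) => !![1, 0, 0, 0; 0, 1, 0, 0; 0, 0, 1, 0; 0, 0, 0, 1]
  | .inr (.inl true) => !![0, 0, 1, 0; 0, 0, 0, 1; 1, 0, 0, 0; 0, 1, 0, 0]
  | .inr (.inr l) => !![1, 0, 0, 0; 0, 1, 0, 0; F.a l, F.b l, 1, 0; 0, F.c l, 0, 1]

/-- their inverses -/
def Nx (F : Aff k inc) : Jx Pt Ln → Matrix (Fin 4) (Fin 4) k
  | .inl none => !![1, 0, 0, 0; 0, 0, 1, 0; 0, 1, 0, 0; 0, 0, 0, 1]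
  | .inl (some P) => !![0, 1, 0, 0; 0, 0, 0, 1; 1, -F.X P, 0, 0; 0, 0, 1, -F.Y P]
  | .inr (.inl false) => !![1, 0, 0, 0; 0, 1, 0, 0; 0, 0, 1, 0; 0, 0, 0, 1]
  | .inr (.inl true) => !![0, 0, 1, 0; 0, 0, 0, 1; 1, 0, 0, 0; 0, 1, 0, 0]
  | .inr (.inr l) => !![1, 0, 0, 0; 0, 1, 0, 0; -F.a l, -F.b l, 1, 0; 0, -F.c l, 0, 1]

lemma Mx_mul_Nx (F : Aff k inc) (i : Jx Pt Ln) : Mx F i * Nx F i = 1 := by
  rcases i with (_ | P) | (_ | _) | l <;>
  · ext a b
    fin_cases a <;> fin_cases b <;> simp [Mx, Nx, Matrix.mul_apply, Fin.sum_univ_four]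

lemma Mx_map {k' : Type} [Field k'] (F : Aff k inc) (φ : k →+* k') (i : Jx Pt Ln) :
    Mx (F.map φ) i = (Mx F i).map φ := by
  rcases i with (_ | P) | (_ | _) | l <;>
  · ext a b
    fin_cases a <;> fin_cases b <;> simp [Mx, Aff.map]

/-- The configuration of multiple lines. -/
noncomputable def cfg (F : Aff k inc) (e : ℕ) (i : Jx Pt Ln) : MLine k e :=
  mkLine (Mx F i) (Nx F i) (Mx_mul_Nx F i) e i.isRight

lemma cfg_P (F : Aff k inc) (e : ℕ) (i : Jx Pt Ln) :
    (cfg F e i).P = RingHom.ker (psi (Mx F i)) := rfl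

lemma cfg_Q (F : Aff k inc) (e : ℕ) (i : Jx Pt Ln) :
    (cfg F e i).Q = mult (Mx F i) e i.isRight := rfl

lemma cfg_dbl (F : Aff k inc) (e : ℕ) (i : Jx Pt Ln) :
    (cfg F e i).dbl ↔ i.isRight = true := Iff.rfl

theorem cfg_pattern {F : Aff k inc} (hF : F.Good) (e : ℕ) :
    Pattern inc (fun i => pc (cfg F e i).P 1) where
  bb := by
    intro b b' hb
    simp only [cfg_P, skew_iff]
    intro w h1 h2 h3 h4
    rcases b with _ | P <;> rcases b' with _ | Q
    · exact absurd rfl hb
    · simp [Mx, Fin.sum_univ_four] at h1 h2 h3 h4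
      ext i; fin_cases i <;> simp <;> grind
    · simp [Mx, Fin.sum_univ_four] at h1 h2 h3 h4
      ext i; fin_cases i <;> simp <;> grind
    · have hX : F.X P - F.X Q ≠ 0 := sub_ne_zero.2 fun h => hb (by rw [F.hX h])
      have hY : F.Y P - F.Y Q ≠ 0 := sub_ne_zero.2 fun h => hb (by rw [F.hY h])
      simp [Mx, Fin.sum_univ_four] at h1 h2 h3 h4
      have a0 : w 0 = 0 := mul_right_cancel₀ hX (by linear_combination h1 - h3)
      have a2 : w 2 = 0 := mul_right_cancel₀ hY (by linear_combination h2 - h4)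
      ext i; fin_cases i <;> simp <;> grind
  aa := by
    intro a a' ha
    simp only [cfg_P, skew_iff]
    intro w h1 h2 h3 h4
    have key : ∀ l, w 0 = 0 → w 1 = 0 → w 0 + w 2 * F.a l = 0 →
        w 1 + w 2 * F.b l + w 3 * F.c l = 0 → w = 0 := by
      intro l h1 h2 h3 h4
      have a2 : w 2 = 0 := mul_right_cancel₀ (F.ha l) (by linear_combination h3 - h1)
      have a3 : w 3 = 0 := mul_right_cancel₀ (F.hc l)
        (by linear_combination h4 - h2 - F.b l * a2)
      ext i; fin_cases i <;> simp <;> grind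
    rcases a with (_ | _) | l <;> rcases a' with (_ | _) | l'
    · exact absurd rfl ha
    · simp [Mx, Fin.sum_univ_four] at h1 h2 h3 h4
      ext i; fin_cases i <;> simp <;> grind
    · simp [Mx, Fin.sum_univ_four] at h1 h2 h3 h4
      exact key l' h1 h2 (by linear_combination h3) (by linear_combination h4)
    · simp [Mx, Fin.sum_univ_four] at h1 h2 h3 h4
      ext i; fin_cases i <;> simp <;> grind
    · exact absurd rfl ha
    · simp [Mx, Fin.sum_univ_four] at h1 h2 h3 h4
      ext i; fin_cases i <;> simp <;> grind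
    · simp [Mx, Fin.sum_univ_four] at h1 h2 h3 h4
      exact key l h3 h4 (by linear_combination h1) (by linear_combination h2)
    · simp [Mx, Fin.sum_univ_four] at h1 h2 h3 h4
      ext i; fin_cases i <;> simp <;> grind
    · have hA : F.a l - F.a l' ≠ 0 := sub_ne_zero.2 fun h => ha (by rw [hF.1 h])
      have hC : F.c l - F.c l' ≠ 0 := sub_ne_zero.2 fun h => ha (by rw [hF.2 h])
      simp [Mx, Fin.sum_univ_four] at h1 h2 h3 h4
      have a2 : w 2 = 0 := mul_right_cancel₀ hA (by linear_combination h1 - h3)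
      have a3 : w 3 = 0 := mul_right_cancel₀ hC
        (by linear_combination h2 - h4 - (F.b l - F.b l') * a2)
      ext i; fin_cases i <;> simp <;> grind
  b0 := by
    intro b t
    simp only [cfg_P, ne_eq, skew_iff]
    intro h
    rcases b with _ | P <;> rcases t with _ | _
    · simpa using congrFun (h ![0, 0, 0, 1] (by simp [Mx, Fin.sum_univ_four])
        (by simp [Mx, Fin.sum_univ_four]) (by simp [Mx, Fin.sum_univ_four])
        (by simp [Mx, Fin.sum_univ_four])) 3
    · simpa using congrFun (h ![0, 1, 0, 0] (by simp [Mx, Fin.sum_univ_four])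
        (by simp [Mx, Fin.sum_univ_four]) (by simp [Mx, Fin.sum_univ_four])
        (by simp [Mx, Fin.sum_univ_four])) 1
    · simpa using congrFun (h ![0, 0, 1, -F.Y P] (by simp [Mx, Fin.sum_univ_four])
        (by simp [Mx, Fin.sum_univ_four]) (by simp [Mx, Fin.sum_univ_four])
        (by simp [Mx, Fin.sum_univ_four])) 2
    · simpa using congrFun (h ![1, -F.X P, 0, 0] (by simp [Mx, Fin.sum_univ_four])
        (by simp [Mx, Fin.sum_univ_four]) (by simp [Mx, Fin.sum_univ_four])
        (by simp [Mx, Fin.sum_univ_four])) 0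
  inf := by
    intro l
    simp only [cfg_P, ne_eq, skew_iff]
    intro h
    simpa using congrFun (h ![0, -F.c l, 0, 1] (by simp [Mx, Fin.sum_univ_four])
        (by simp [Mx, Fin.sum_univ_four]) (by simp [Mx, Fin.sum_univ_four])
        (by simp [Mx, Fin.sum_univ_four])) 3
  pl := by
    intro P l
    simp only [cfg_P, ne_eq, skew_iff]
    rw [F.inc_iff]
    constructor
    · intro heq h
      have := congrFun (h ![-F.a l * F.c l, F.a l * F.c l * F.X P, F.c l, -F.c l * F.Y P]
        (by simp [Mx, Fin.sum_univ_four])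
        (by simp [Mx, Fin.sum_univ_four]) (by simp [Mx, Fin.sum_univ_four]; ring)
        (by simp [Mx, Fin.sum_univ_four]; linear_combination - F.c l * heq)) 2
      exact F.hc l (by simpa using this)
    · intro h
      by_contra hne
      apply h
      intro w h1 h2 h3 h4
      simp [Mx, Fin.sum_univ_four] at h1 h2 h3 h4
      have a2 : w 2 = 0 := mul_right_cancel₀ (sub_ne_zero.2 hne)
        (by linear_combination F.c l * h2 - h4 + h1 - F.X P * h3)
      ext i; fin_cases i <;> simp <;> grind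

lemma cfg_skew {F : Aff k inc} (hF : F.Good) (e : ℕ) (i j : Jx Pt Ln) (hij : i ≠ j)
    (h : (cfg F e i).dbl ↔ (cfg F e j).dbl) : pc (cfg F e i).P 1 ⊓ pc (cfg F e j).P 1 = ⊥ := by
  rcases i with b | a <;> rcases j with b' | a'
  · exact (cfg_pattern hF e).bb b b' (by simpa using hij)
  · simp [cfg_dbl] at h
  · simp [cfg_dbl] at h
  · exact (cfg_pattern hF e).aa a a' (by simpa using hij)

lemma cfg_distinct {F : Aff k inc} (hF : F.Good) (e : ℕ) : Distinct (cfg F e) := by
  intro i j hij
  by_contra hall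
  push Not at hall
  have h1 : pc (cfg F e j).P 1 = pc (cfg F e i).P 1 := by
    have h0 : pc (cfg F e j).P 1 ≤ pc (cfg F e i).P 1 := fun w hw => ⟨hall w hw, hw.2⟩
    apply Submodule.eq_of_le_of_finrank_eq h0
    rw [MLine.finrank_one, MLine.finrank_one]
  have h2 : ∀ b a, pc (cfg F e (.inl b)).P 1 ≠ pc (cfg F e (.inr a)).P 1 := by
    intro b a h
    obtain ⟨t, ht⟩ : ∃ t : Bool, a ≠ .inl t := by
      by_cases h : a = .inl false
      · exact ⟨true, by simp [h]⟩
      · exact ⟨false, h⟩
    have := (cfg_pattern hF e).b0 b t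
    simp only [h] at this
    exact this ((cfg_pattern hF e).aa a (.inl t) ht)
  by_cases hc : (cfg F e i).dbl ↔ (cfg F e j).dbl
  · have h3 := cfg_skew hF e i j hij hc
    rw [h1, inf_idem] at h3
    have h4 := (cfg F e i).finrank_one
    rw [h3] at h4
    simp at h4
  · rcases i with b | a <;> rcases j with b' | a'
    · simp [cfg_dbl] at hc
    · exact h2 _ _ h1.symm
    · exact h2 _ _ h1
    · simp [cfg_dbl] at hc

end Pool.Agent.MP_eba2ed_ag

end

section

/-! Reduction of ideals along a valuation ring. -/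

set_option linter.unusedSectionVars false

namespace Pool.Agent.MP_eba2ed_ag

open MvPolynomial Module IsLocalRing

variable (V K : Type) [CommRing V] [IsDomain V] [ValuationRing V] [Field K] [Algebra V K]
  [IsFractionRing V K]

noncomputable abbrev up : A V →+* A K := MvPolynomial.map (algebraMap V K)

noncomputable abbrev dn : A V →+* A (ResidueField V) := MvPolynomial.map (residue V)

/-- The flat limit of an ideal of the generic fibre. -/
noncomputable def red (I : Ideal (A K)) : Ideal (A (ResidueField V)) :=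
  (I.comap (up V K)).map (dn V)

omit [IsDomain V] [ValuationRing V] in
lemma up_injective : Function.Injective (up V K) :=
  map_injective _ (IsFractionRing.injective V K)

lemma dn_surjective : Function.Surjective (dn V) :=
  map_surjective _ residue_surjective

variable {V K}

lemma exists_scale {ι : Type*} (s : Finset ι) (c : ι → K) (h : ∃ i ∈ s, c i ≠ 0) :
    ∃ j ∈ s, c j ≠ 0 ∧ ∀ i ∈ s, ∃ a : V, algebraMap V K a = c i / c j := by
  obtain ⟨i0, hi0, hc0⟩ := h
  let v := ValuationRing.valuation V K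
  obtain ⟨j, hj, hmax⟩ := Finset.exists_max_image s (fun i => v (c i)) ⟨i0, hi0⟩
  have hcj : c j ≠ 0 := by
    intro h0
    have := hmax i0 hi0
    rw [h0, map_zero, le_zero_iff, map_eq_zero] at this
    exact hc0 this
  refine ⟨j, hj, hcj, fun i hi => ?_⟩
  rw [← ValuationRing.mem_integer_iff V K, Valuation.mem_integer_iff, map_div₀]
  have hpos : 0 < v (c j) := by
    rw [zero_lt_iff, ne_eq, map_eq_zero]; exact hcj
  exact div_le_one_of_le₀ (hmax i hi) zero_le

lemma exists_primitive {w : A K} (hw : w ≠ 0) :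
    ∃ (c : K) (f : A V) (m : Fin 4 →₀ ℕ), up V K f = c • w ∧ coeff m f = 1 := by
  classical
  obtain ⟨m, hm, hc, ha⟩ := exists_scale (V := V) w.support (fun m => coeff m w) (by
    obtain ⟨m, hm⟩ := support_nonempty.2 hw
    exact ⟨m, hm, mem_support_iff.1 hm⟩)
  choose! a ha using ha
  have key : up V K (∑ d ∈ w.support, monomial d (a d)) = (coeff m w)⁻¹ • w := by
    conv_rhs => enter [2]; rw [w.as_sum]
    rw [map_sum, Finset.smul_sum]
    refine Finset.sum_congr rfl (fun d hd => ?_)
    rw [map_monomial, ha d hd, smul_monomial, smul_eq_mul, div_eq_inv_mul]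
  refine ⟨(coeff m w)⁻¹, _, m, key, ?_⟩
  apply IsFractionRing.injective V K
  rw [← coeff_map, key, coeff_smul, smul_eq_mul, inv_mul_cancel₀ hc, map_one]

lemma mem_red {I : Ideal (A K)} {g : A (ResidueField V)} :
    g ∈ red V K I ↔ ∃ f : A V, up V K f ∈ I ∧ dn V f = g := by
  rw [red, Ideal.mem_map_iff_of_surjective _ (dn_surjective V)]
  rfl

lemma dn_mem_red {I : Ideal (A K)} {f : A V} (h : up V K f ∈ I) : dn V f ∈ red V K I :=
  mem_red.2 ⟨f, h, rfl⟩

lemma mem_red_homog {I : Ideal (A K)} (hI : IsHomog I) {g : A (ResidueField V)} {n : ℕ}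
    (hg : g ∈ red V K I) (hn : g.IsHomogeneous n) :
    ∃ f : A V, f.IsHomogeneous n ∧ up V K f ∈ I ∧ dn V f = g := by
  obtain ⟨f, hf, rfl⟩ := mem_red.1 hg
  refine ⟨homogeneousComponent n f, homogeneousComponent_isHomogeneous n f, ?_, ?_⟩
  · rw [← map_comp]; exact hI _ hf n
  · rw [← map_comp]; exact homogeneousComponent_eq_self hn

lemma IsHomog.red {I : Ideal (A K)} (hI : IsHomog I) : IsHomog (red V K I) :=
  (hI.comap _).map _

lemma red_mono {I J : Ideal (A K)} (h : I ≤ J) : red V K I ≤ red V K J :=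
  Ideal.map_mono (Ideal.comap_mono h)

lemma red_top : red V K ⊤ = ⊤ := by
  rw [red, Ideal.comap_top, Ideal.map_top]

lemma mul_mem_red {I J : Ideal (A K)} {f g : A (ResidueField V)} (hf : f ∈ red V K I)
    (hg : g ∈ red V K J) : f * g ∈ red V K (I * J) := by
  obtain ⟨f, hf', rfl⟩ := mem_red.1 hf
  obtain ⟨g, hg', rfl⟩ := mem_red.1 hg
  rw [← map_mul]
  exact dn_mem_red (by rw [map_mul]; exact Ideal.mul_mem_mul hf' hg')

lemma pow_mem_red {I : Ideal (A K)} {f : A (ResidueField V)} (hf : f ∈ red V K I) (m : ℕ) :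
    f ^ m ∈ red V K (I ^ m) := by
  obtain ⟨f, hf', rfl⟩ := mem_red.1 hf
  rw [← map_pow]
  exact dn_mem_red (by rw [map_pow]; exact Ideal.pow_mem_pow hf' m)

/-- reduction of a subspace -/
def redS (W : Submodule K (A K)) : Submodule (ResidueField V) (A (ResidueField V)) where
  carrier := {g | ∃ f : A V, up V K f ∈ W ∧ dn V f = g}
  add_mem' := by
    rintro _ _ ⟨f, hf, rfl⟩ ⟨g, hg, rfl⟩
    exact ⟨f + g, by rw [map_add]; exact add_mem hf hg, map_add _ _ _⟩
  zero_mem' := ⟨0, by simp, map_zero _⟩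
  smul_mem' := by
    rintro c _ ⟨f, hf, rfl⟩
    obtain ⟨a, rfl⟩ := residue_surjective c
    refine ⟨C a * f, ?_, ?_⟩
    · rw [map_mul, map_C, ← smul_eq_C_mul]; exact W.smul_mem _ hf
    · rw [map_mul, map_C, ← smul_eq_C_mul]

lemma redS_le {W : Submodule K (A K)} {n : ℕ} (h : W ≤ Hn K n) :
    redS (V := V) W ≤ Hn (ResidueField V) n := by
  rintro _ ⟨f, hf, rfl⟩
  exact (IsHomogeneous.of_map (IsFractionRing.injective V K) (h hf)).map _

lemma finrank_le_redS (n r : ℕ) : ∀ W : Submodule K (A K), W ≤ Hn K n → finrank K W = r →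
    r ≤ finrank (ResidueField V) (redS (V := V) W) := by
  induction r with
  | zero => intros; exact Nat.zero_le _
  | succ r ih =>
    intro W hW hr
    have : Module.Finite K W := Submodule.finiteDimensional_of_le hW
    have hne : W ≠ ⊥ := by
      rintro rfl
      simp at hr
    obtain ⟨w, hw, hw0⟩ := Submodule.exists_mem_ne_zero_of_ne_bot hne
    obtain ⟨c, f, m, hf, hm⟩ := exists_primitive (V := V) hw0
    have hfW : up V K f ∈ W := by rw [hf]; exact W.smul_mem _ hw
    let W' := LinearMap.ker (lcoeff K m) ⊓ W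
    have h1 := finrank_map_add (lcoeff K m) W
    have h2 : finrank K (W.map (lcoeff K m)) = 1 := by
      have : W.map (lcoeff K m) = ⊤ := by
        rw [eq_top_iff]
        intro x _
        refine ⟨x • up V K f, W.smul_mem _ hfW, ?_⟩
        simp [coeff_map, hm]
      rw [this]; simp
    have h3 := ih W' (inf_le_right.trans hW) (by simp only [W']; omega)
    have : Module.Finite (ResidueField V) (redS (V := V) W) :=
      Submodule.finiteDimensional_of_le (redS_le hW)
    have h4 : redS (V := V) W' < redS (V := V) W := by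
      refine lt_of_le_of_ne ?_ (fun he => ?_)
      · rintro _ ⟨g, hg, rfl⟩
        exact ⟨g, hg.2, rfl⟩
      · have : dn V f ∈ redS (V := V) W := ⟨f, hfW, rfl⟩
        rw [← he] at this
        obtain ⟨g, hg, hgf⟩ := this
        have h5 : coeff m g = 0 := by
          apply IsFractionRing.injective V K
          rw [← coeff_map, map_zero]
          exact hg.1
        have h6 := congrArg (coeff m) hgf
        rw [coeff_map, coeff_map, h5, hm] at h6
        simp at h6
    have := Submodule.finrank_lt_finrank_of_lt h4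
    omega

lemma linearIndependent_up {ι : Type*} [Fintype ι] (f : ι → A V)
    (h : LinearIndependent (ResidueField V) (fun i => dn V (f i))) :
    LinearIndependent K (fun i => up V K (f i)) := by
  classical
  rw [Fintype.linearIndependent_iff] at h ⊢
  intro c hc
  by_contra hne
  push Not at hne
  obtain ⟨j, -, hj, ha⟩ := exists_scale (V := V) Finset.univ c (by simpa using hne)
  choose a ha using ha
  have h1 : ∑ i, C (a i (Finset.mem_univ i)) * f i = 0 := by
    apply up_injective V K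
    rw [map_sum, map_zero]
    have : ∀ i, up V K (C (a i (Finset.mem_univ i)) * f i) = (c j)⁻¹ • (c i • up V K (f i)) := by
      intro i
      rw [map_mul, map_C, ha, ← smul_eq_C_mul, smul_smul, div_eq_inv_mul]
    simp only [this]
    rw [← Finset.smul_sum, hc, smul_zero]
  have h2 := h (fun i => residue V (a i (Finset.mem_univ i))) (by
    have := congrArg (dn V) h1
    rw [map_sum, map_zero] at this
    rw [← this]
    refine Finset.sum_congr rfl (fun i _ => ?_)
    rw [map_mul, map_C, smul_eq_C_mul]) j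
  have h3 : a j (Finset.mem_univ j) = 1 := by
    apply IsFractionRing.injective V K
    rw [ha, div_self hj, map_one]
  simp [h3] at h2

lemma finrank_redS {n : ℕ} {W : Submodule K (A K)} (hW : W ≤ Hn K n) :
    finrank (ResidueField V) (redS (V := V) W) = finrank K W := by
  refine le_antisymm ?_ (finrank_le_redS n _ W hW rfl)
  have : Module.Finite K W := Submodule.finiteDimensional_of_le hW
  have : Module.Finite (ResidueField V) (redS (V := V) W) :=
    Submodule.finiteDimensional_of_le (redS_le hW)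
  let b := Module.finBasis (ResidueField V) (redS (V := V) W)
  have hb : ∀ i, ∃ f : A V, up V K f ∈ W ∧ dn V f = (b i : A (ResidueField V)) :=
    fun i => (b i).2
  choose f hf hfb using hb
  have h1 : LinearIndependent (ResidueField V) (fun i => dn V (f i)) := by
    simp only [hfb]
    exact b.linearIndependent.map' (Submodule.subtype _) (Submodule.ker_subtype _)
  have h2 := linearIndependent_up (K := K) f h1
  have h3 : LinearIndependent K (fun i => (⟨up V K (f i), hf i⟩ : W)) :=
    LinearIndependent.of_comp W.subtype h2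
  simpa using h3.fintype_card_le_finrank

lemma pc_red {I : Ideal (A K)} (hI : IsHomog I) (n : ℕ) :
    pc (red V K I) n = redS (V := V) (pc I n) := by
  ext g
  constructor
  · rintro ⟨hg, hn⟩
    obtain ⟨f, h1, h2, h3⟩ := mem_red_homog hI hg hn
    exact ⟨f, ⟨h2, h1.map _⟩, h3⟩
  · intro hg
    refine ⟨?_, redS_le (pc_le I n) hg⟩
    obtain ⟨f, hf, rfl⟩ := hg
    exact dn_mem_red hf.1

lemma finrank_pc_red {I : Ideal (A K)} (hI : IsHomog I) (n : ℕ) :
    finrank (ResidueField V) (pc (red V K I) n) = finrank K (pc I n) := by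
  rw [pc_red hI, finrank_redS (pc_le I n)]

lemma hf_red {I : Ideal (A K)} (hI : IsHomog I) (n : ℕ) :
    hilbFun (red V K I) n = hilbFun I n := by
  have h1 := hf_add_dm I n
  have h2 := hf_add_dm (red V K I) n
  have h3 := hf_add_dm (⊤ : Ideal (A K)) n
  have h4 := hf_add_dm (red V K ⊤) n
  have h5 := finrank_pc_red (V := V) hI n
  have h6 := finrank_pc_red (V := V) (K := K) isHomog_top n
  have h7 : hilbFun (red V K ⊤) n = 0 := by rw [red_top, hf_top]
  rw [hf_top] at h3
  omega

/-- Disjointness of the degree `n` pieces lifts from the special fibre to the generic fibre. -/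
lemma pc_inf_eq_bot_of_red {I J : Ideal (A K)} {n : ℕ}
    (h : pc (red V K I) n ⊓ pc (red V K J) n = ⊥) : pc I n ⊓ pc J n = ⊥ := by
  by_contra hne
  obtain ⟨w, hw, hw0⟩ := Submodule.exists_mem_ne_zero_of_ne_bot hne
  obtain ⟨c, f, m, hf, hm⟩ := exists_primitive (V := V) hw0
  have hf' : up V K f ∈ pc I n ⊓ pc J n := by rw [hf]; exact Submodule.smul_mem _ _ hw
  have hn : (dn V f).IsHomogeneous n :=
    (IsHomogeneous.of_map (IsFractionRing.injective V K) hf'.1.2).map _
  have : dn V f ∈ pc (red V K I) n ⊓ pc (red V K J) n :=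
    ⟨⟨dn_mem_red hf'.1.1, hn⟩, ⟨dn_mem_red hf'.2.1, hn⟩⟩
  rw [h, Submodule.mem_bot] at this
  have h6 := congrArg (coeff m) this
  rw [coeff_map, hm] at h6
  simp at h6

end Pool.Agent.MP_eba2ed_ag

end

section

/-! The components of a flat lift of a bipartite union of double lines and lines are lines. -/

set_option linter.unusedSectionVars false

namespace Pool.Agent.MP_eba2ed_ag

open MvPolynomial Module IsLocalRing

attribute [local instance] MvPolynomial.gradedAlgebra

lemma le_of_eventually_mul_le {a b C N : ℕ} (h : ∀ n, N ≤ n → a * n ≤ b * n + C) : a ≤ b := by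
  by_contra hlt
  have h1 := h (N + C + 1) (by omega)
  have h2 : (b + 1) * (N + C + 1) ≤ a * (N + C + 1) := by gcongr; omega
  nlinarith

lemma sup_pow_le_pow_sup {R : Type*} [CommRing R] (I J : Ideal R) (m : ℕ) :
    (I ⊔ J) ^ m ≤ I ^ m ⊔ J := by
  induction m with
  | zero => simp
  | succ m ih =>
    rw [pow_succ, pow_succ]
    refine (Ideal.mul_mono_left ih).trans ?_
    rw [Ideal.sup_mul, Ideal.mul_sup]
    exact sup_le (sup_le le_sup_left (Ideal.mul_le_right.trans le_sup_right))
      (Ideal.mul_le_left.trans le_sup_right)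

variable {V K : Type} [CommRing V] [IsDomain V] [ValuationRing V] [Field K] [Algebra V K]
  [IsFractionRing V K] [IsAlgClosed K]
variable {ι : Type} [Fintype ι] [DecidableEq ι] {e : ℕ}

variable (V K) in
structure Setup (L : ι → MLine (ResidueField V) e) (It : Ideal (A K)) (N : ℕ) : Prop where
  hd : Distinct L
  skew : ∀ i j, i ≠ j → ((L i).dbl ↔ (L j).dbl) → pc (L i).P 1 ⊓ pc (L j).P 1 = ⊥
  he : 4 * Fintype.card ι ^ 2 + 1 ≤ e
  hom : IsHomog It
  le : red V K It ≤ I0 L
  ge : ∀ n, N ≤ n → ∀ f ∈ I0 L, f.IsHomogeneous n → f ∈ red V K It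

lemma minimal_hom {It p : Ideal (A K)} (hI : IsHomog It) (hp : p ∈ It.minimalPrimes) :
    IsHomog p := by
  rw [isHomog_iff] at hI ⊢
  have h1 := hp.isPrime.homogeneousCore (𝒜 := homogeneousSubmodule (Fin 4) K)
  have h2 : It ≤ (p.homogeneousCore (homogeneousSubmodule (Fin 4) K)).toIdeal := by
    rw [← hI.toIdeal_homogeneousCore_eq_self]
    exact Ideal.homogeneousCore_mono _ hp.le
  have h3 := Ideal.toIdeal_homogeneousCore_le (homogeneousSubmodule (Fin 4) K) p
  rw [Ideal.IsHomogeneous.iff_eq]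
  exact le_antisymm h3 (hp.2 ⟨h1, h2⟩ h3)

lemma minimal_not_le {It p q : Ideal (A K)} (hp : p ∈ It.minimalPrimes)
    (hq : q ∈ It.minimalPrimes) (h : p ≠ q) : ¬ q ≤ p :=
  fun hle => h (le_antisymm (hp.2 hq.1 hle) hle)

lemma exists_rad_pow (It : Ideal (A K)) : ∃ m, 2 ≤ m ∧ ∀ (b : Ideal (A K)) (g : A K),
    (∀ p ∈ It.minimalPrimes, b ≤ p ∨ g ∈ p) → b ^ m ≤ Submodule.colon It {g ^ m} := by
  obtain ⟨m, hm⟩ := It.exists_radical_pow_le_of_fg (IsNoetherian.noetherian _)
  refine ⟨m + 2, by omega, fun b g h => ?_⟩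
  have h1 : b * Ideal.span {g} ≤ It.radical := by
    rw [← Ideal.sInf_minimalPrimes]
    refine le_sInf (fun p hp => ?_)
    rcases h p hp with h | h
    · exact Ideal.mul_le_left.trans h
    · exact Ideal.mul_le_right.trans ((Ideal.span_singleton_le_iff_mem _).2 h)
  have h2 : (b * Ideal.span {g}) ^ (m + 2) ≤ It :=
    (Ideal.pow_right_mono h1 _).trans ((Ideal.pow_le_pow_right (by omega)).trans hm)
  intro a ha
  rw [Submodule.mem_colon_singleton, smul_eq_mul]
  apply h2
  rw [mul_pow, Ideal.span_singleton_pow]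
  exact Ideal.mul_mem_mul ha (Ideal.mem_span_singleton_self _)

lemma exists_kill (It : Ideal (A K)) (T : Ideal (A K) → Prop)
    (Rs : Set (Ideal (A (ResidueField V)))) (hR : ∀ r ∈ Rs, r.IsPrime)
    (h : ∀ p ∈ It.minimalPrimes, T p → ∃ (t : ℕ) (w : A V), w.IsHomogeneous t ∧ up V K w ∈ p ∧
      ∀ r ∈ Rs, dn V w ∉ r) :
    ∃ (t : ℕ) (g : A V), g.IsHomogeneous t ∧ (∀ r ∈ Rs, dn V g ∉ r) ∧
      ∀ p ∈ It.minimalPrimes, T p → up V K g ∈ p := by
  classical
  choose! t w hw hwp hwr using h
  let s := (It.finite_minimalPrimes_of_isNoetherianRing).toFinset.filter T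
  have hs : ∀ p, p ∈ s ↔ p ∈ It.minimalPrimes ∧ T p := by
    intro p; simp [s]
  refine ⟨∑ p ∈ s, t p, ∏ p ∈ s, w p, ?_, ?_, ?_⟩
  · exact IsHomogeneous.prod _ _ _ (fun p hp => hw p ((hs p).1 hp).1 ((hs p).1 hp).2)
  · intro r hr hmem
    have := hR r hr
    rw [map_prod, Ideal.IsPrime.prod_mem_iff] at hmem
    obtain ⟨p, hp, hmem⟩ := hmem
    exact hwr p ((hs p).1 hp).1 ((hs p).1 hp).2 r hr hmem
  · intro p hp hT
    rw [map_prod, ← Finset.mul_prod_erase s _ ((hs p).2 ⟨hp, hT⟩)]
    exact Ideal.mul_mem_right _ _ (hwp p hp hT)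

lemma exists_lift_notMem {p : Ideal (A K)} (hp : IsHomog p) {r : Ideal (A (ResidueField V))}
    (h : ¬ red V K p ≤ r) :
    ∃ (t : ℕ) (w : A V), w.IsHomogeneous t ∧ up V K w ∈ p ∧ dn V w ∉ r := by
  obtain ⟨t, f, hf, hft, hfr⟩ := (hp.red (V := V)).exists_homog_notMem h
  obtain ⟨w, hw, hwp, rfl⟩ := mem_red_homog hp hf hft
  exact ⟨t, w, hw, hwp, hfr⟩

namespace Setup

variable {L : ι → MLine (ResidueField V) e} {It : Ideal (A K)} {N : ℕ} (S : Setup V K L It N)
include S

lemma upper {b : Ideal (A K)} (hb : IsHomog b) (hI : It ≤ b) :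
    ∃ C N', ∀ n, N' ≤ n → hilbFun b n ≤ deg L (red V K b) * n + C := by
  obtain ⟨C, N', h⟩ := hf_upper S.hd (hb.red (V := V)) (N := N)
    (fun n hn f hf hfn => red_mono hI (S.ge n hn f hf hfn))
  exact ⟨C, N', fun n hn => by rw [← hf_red (V := V) hb]; exact h n hn⟩

lemma lower {b : Ideal (A K)} (hb : IsHomog b) {n : ℕ} (hn : e + 1 + 2 * Fintype.card ι ≤ n) :
    deg L (red V K b) * n ≤ hilbFun b n + 4 * Fintype.card ι ^ 2 := by
  rw [← hf_red (V := V) hb]; exact hf_lower3 S.hd _ hn

lemma lower1 {b : Ideal (A K)} (hb : IsHomog b) {n : ℕ} (hn : e + 1 + 2 * Fintype.card ι ≤ n)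
    {i : ι} (hi : (L i).mu (red V K b) = 2) :
    deg L (red V K b) * n + 3 ≤ hilbFun b n := by
  have h1 := hf_lower1 S.hd _ hn hi
  have h2 := S.he
  rw [hf_red (V := V) hb] at h1
  omega

lemma prime_bound {p : Ideal (A K)} (hp : p ∈ It.minimalPrimes) {n : ℕ} (hn : 1 ≤ n) :
    hilbFun p n ≤ deg L (red V K p) * n + 1 := by
  obtain ⟨C, N', h⟩ := S.upper (minimal_hom S.hom hp) hp.le
  exact bezout hp.isPrime (minimal_hom S.hom hp) h hn

lemma mu_le_one {p : Ideal (A K)} (hp : p ∈ It.minimalPrimes) (i : ι) :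
    (L i).mu (red V K p) ≤ 1 := by
  by_contra h
  have h1 := ((L i).mu_valid (red V K p)).1
  have h2 := S.lower1 (minimal_hom S.hom hp) (n := e + 1 + 2 * Fintype.card ι) le_rfl (i := i)
    (by omega)
  have h3 := S.prime_bound hp (n := e + 1 + 2 * Fintype.card ι) (by omega)
  omega

lemma bounded {p : Ideal (A K)} (hp : p ∈ It.minimalPrimes) {u : A K} {t : ℕ}
    (hu : u.IsHomogeneous t) (hup : u ∉ p) :
    ∃ C N', ∀ n, N' ≤ n → hilbFun (p ⊔ Ideal.span {u}) n ≤ C := by
  refine ⟨deg L (red V K p) * t + 1 + 4 * Fintype.card ι ^ 2,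
    e + 1 + 2 * Fintype.card ι + t, fun n hn => ?_⟩
  obtain ⟨n', rfl⟩ : ∃ n', n = n' + t := ⟨n - t, by omega⟩
  have h1 := hf_nzd (minimal_hom S.hom hp) hu
    (fun a ha => (hp.isPrime.mem_or_mem ha).resolve_right hup) n'
  have h2 := S.prime_bound hp (n := n' + t) (by omega)
  have h3 := S.lower (minimal_hom S.hom hp) (n := n') (by omega)
  nlinarith

lemma not_red_sup_le {p : Ideal (A K)} (hp : p ∈ It.minimalPrimes) {u : A K} {t : ℕ}
    (hu : u.IsHomogeneous t) (hup : u ∉ p) (i : ι) :
    ¬ red V K (p ⊔ Ideal.span {u}) ≤ (L i).P := by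
  intro hle
  obtain ⟨C, N', h⟩ := S.bounded hp hu hup
  have h1 := h (N' + C) (by omega)
  have h2 := hf_anti hle (N' + C)
  rw [(L i).hfP, hf_red ((minimal_hom S.hom hp).sup (isHomog_span_singleton hu))] at h2
  omega

/-- Two different components do not specialise to the same line. -/
lemma disjoint {p q : Ideal (A K)} (hp : p ∈ It.minimalPrimes) (hq : q ∈ It.minimalPrimes)
    (hpq : p ≠ q) {i : ι} (hi : red V K p ≤ (L i).P) (hi' : red V K q ≤ (L i).P) : False := by
  have hph := minimal_hom S.hom hp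
  have hqh := minimal_hom S.hom hq
  obtain ⟨t, u, huq, hu, hup⟩ := hqh.exists_homog_notMem (minimal_not_le hp hq hpq)
  obtain ⟨C, N1, hC⟩ := S.bounded hp hu hup
  obtain ⟨C', N2, hC'⟩ := S.upper (hph.inf hqh) (le_inf hp.le hq.le)
  have hdeg : deg L (red V K p) + deg L (red V K q) ≤ deg L (red V K (p ⊓ q)) := by
    apply le_of_eventually_mul_le (C := C + C' + 8 * Fintype.card ι ^ 2)
      (N := N1 + N2 + (e + 1 + 2 * Fintype.card ι))
    intro n hn
    have h1 := hf_inf_add_sup hph hqh n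
    have h2 := S.lower hph (n := n) (by omega)
    have h3 := S.lower hqh (n := n) (by omega)
    have h4 := hC n (by omega)
    have h5 := hC' n (by omega)
    have h6 : hilbFun (p ⊔ q) n ≤ hilbFun (p ⊔ Ideal.span {u}) n :=
      hf_anti (sup_le_sup_left ((Ideal.span_singleton_le_iff_mem _).2 huq) _) n
    nlinarith
  by_cases h2 : ∃ j, (L j).mu (red V K (p ⊓ q)) = 2
  · obtain ⟨j, hj⟩ := h2
    have h1 := S.lower1 (hph.inf hqh) (n := e + 1 + 2 * Fintype.card ι) le_rfl hj
    have h3 := hf_inf_le hph hqh (e + 1 + 2 * Fintype.card ι)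
    have h4 := S.prime_bound hp (n := e + 1 + 2 * Fintype.card ι) (by omega)
    have h5 := S.prime_bound hq (n := e + 1 + 2 * Fintype.card ι) (by omega)
    have h6 : (deg L (red V K p) + deg L (red V K q)) * (e + 1 + 2 * Fintype.card ι) ≤
      deg L (red V K (p ⊓ q)) * (e + 1 + 2 * Fintype.card ι) := by gcongr
    nlinarith
  · push Not at h2
    have hle : ∀ j, (L j).mu (red V K (p ⊓ q)) ≤ 1 := by
      intro j
      have := ((L j).mu_valid (red V K (p ⊓ q))).1
      have := h2 j
      omega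
    have : deg L (red V K (p ⊓ q)) < deg L (red V K p) + deg L (red V K q) := by
      unfold deg
      rw [← Finset.sum_add_distrib]
      refine Finset.sum_lt_sum (fun j _ => ?_) ⟨i, Finset.mem_univ i, ?_⟩
      · by_cases h0 : (L j).mu (red V K (p ⊓ q)) = 0
        · omega
        · have h3 := ((L j).mu_pos_iff (red V K (p ⊓ q))).1 (by omega)
          have h4 : red V K p * red V K q ≤ (L j).P :=
            Ideal.mul_le.2 (fun a ha b hb => h3 (red_mono Ideal.mul_le_inf (mul_mem_red ha hb)))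
          have := hle j
          rcases (L j).primeP.mul_le.1 h4 with h5 | h5
          · have := ((L j).mu_pos_iff _).2 h5; omega
          · have := ((L j).mu_pos_iff _).2 h5; omega
      · have := hle i
        have := ((L i).mu_pos_iff _).2 hi
        have := ((L i).mu_pos_iff _).2 hi'
        omega
    omega

/-- Every line is the limit of some component. -/
lemma exists_min (i : ι) : ∃ p ∈ It.minimalPrimes, red V K p ≤ (L i).P := by
  by_contra hne
  push Not at hne
  obtain ⟨t, g, -, hg, hgp⟩ := exists_kill (V := V) It (fun _ => True) {(L i).P}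
    (by rintro _ rfl; exact (L i).primeP) (fun p hp _ => by
      obtain ⟨t, w, h1, h2, h3⟩ := exists_lift_notMem (minimal_hom S.hom hp) (hne p hp)
      exact ⟨t, w, h1, h2, by rintro _ rfl; exact h3⟩)
  obtain ⟨m, -, hm⟩ := exists_rad_pow It
  have h1 := hm ⊤ (up V K g) (fun p hp => Or.inr (hgp p hp trivial))
    (Ideal.pow_mem_pow (Submodule.mem_top (x := 1)) m)
  rw [Submodule.mem_colon_singleton, one_pow, one_smul, ← map_pow] at h1
  have h2 := I0_le_P L i (S.le (dn_mem_red h1))
  rw [map_pow] at h2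
  exact hg _ rfl ((L i).primeP.mem_of_pow_mem _ h2)

/-- There are no isolated points. -/
lemma exists_line_or {p : Ideal (A K)} (hp : p ∈ It.minimalPrimes) :
    (∃ i, red V K p ≤ (L i).P) ∨ irr K ≤ p := by
  classical
  by_cases hne : ∃ i, red V K p ≤ (L i).P
  · exact Or.inl hne
  right
  push Not at hne
  have hph := minimal_hom S.hom hp
  have hg : ∃ (t : ℕ) (g : A K), g.IsHomogeneous t ∧ g ∉ p ∧
      ∀ q ∈ It.minimalPrimes, q ≠ p → g ∈ q := by
    have : ∀ q ∈ It.minimalPrimes, q ≠ p → ∃ (t : ℕ) (g : A K), g ∈ q ∧ g.IsHomogeneous t ∧ g ∉ p :=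
      fun q hq hqp => by
        obtain ⟨t, g, h⟩ := (minimal_hom S.hom hq).exists_homog_notMem
          (minimal_not_le hp hq hqp.symm)
        exact ⟨t, g, h⟩
    choose! t g hgq hgt hgp using this
    let s := (It.finite_minimalPrimes_of_isNoetherianRing).toFinset.erase p
    have hs : ∀ q, q ∈ s ↔ q ≠ p ∧ q ∈ It.minimalPrimes := by
      intro q; simp [s]
    refine ⟨∑ q ∈ s, t q, ∏ q ∈ s, g q, ?_, ?_, ?_⟩
    · exact IsHomogeneous.prod _ _ _ (fun q hq => hgt q ((hs q).1 hq).2 ((hs q).1 hq).1)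
    · have := hp.isPrime
      rw [Ideal.IsPrime.prod_mem_iff]
      rintro ⟨q, hq, h⟩
      exact hgp q ((hs q).1 hq).2 ((hs q).1 hq).1 h
    · intro q hq hqp
      rw [← Finset.mul_prod_erase s _ ((hs q).2 ⟨hqp, hq⟩)]
      exact Ideal.mul_mem_right _ _ (hgq q hq hqp)
  obtain ⟨t, g, hgt, hgp, hgq⟩ := hg
  obtain ⟨m, -, hm⟩ := exists_rad_pow It
  have h1 := hm p g (fun q hq => by
    by_cases h : q = p
    · exact Or.inl h.ge
    · exact Or.inr (hgq q hq h))
  have hG := hgt.pow m
  have hI' : IsHomog (It ⊔ Ideal.span {g ^ m}) := S.hom.sup (isHomog_span_singleton hG)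
  have h2 : red V K (It ⊔ Ideal.span {g ^ m}) ≤ I0 L := by
    intro f0 hf0
    obtain ⟨f, hf, rfl⟩ := mem_red.1 hf0
    rw [mem_I0]
    intro i
    obtain ⟨s, u, -, hup, hui⟩ := exists_lift_notMem hph (hne i)
    refine (L i).primary (dn V u ^ m) _ ?_ (fun h => hui ((L i).primeP.mem_of_pow_mem _ h))
    apply I0_le_Q L i
    apply S.le
    rw [← map_pow, ← map_mul]
    apply dn_mem_red
    obtain ⟨a, ha, b, hb, hab⟩ := Submodule.mem_sup.1 hf
    obtain ⟨c, rfl⟩ := Ideal.mem_span_singleton'.1 hb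
    have h3 := h1 (Ideal.pow_mem_pow hup m)
    rw [Submodule.mem_colon_singleton, smul_eq_mul] at h3
    rw [map_mul, map_pow, ← hab, mul_add, mul_left_comm]
    exact Ideal.add_mem _ (Ideal.mul_mem_left _ _ ha) (Ideal.mul_mem_left _ _ h3)
  have h3 := hf_colon S.hom hG N
  have h4 := hf_anti h2 (N + t * m)
  have h5 := hf_le_of_pc_le (S.ge (N + t * m) (by omega))
  rw [hf_red hI'] at h4
  rw [hf_red S.hom] at h5
  have h6 : hilbFun p N ≤ hilbFun (Submodule.colon It {g ^ m}) N := by
    apply hf_anti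
    intro a ha
    rw [Submodule.mem_colon_singleton, smul_eq_mul] at ha
    exact (hp.isPrime.mem_or_mem (hp.le ha)).resolve_right
      (fun h => hgp (hp.isPrime.mem_of_pow_mem _ h))
  rw [irr_le_iff]
  intro a
  exact hp.isPrime.mem_of_pow_mem N (hf_eq_zero_iff.1 (by omega) _ (isHomogeneous_X_pow a N))

/-- A component does not specialise to both a double line and a simple line. -/
lemma no_mix {p : Ideal (A K)} (hp : p ∈ It.minimalPrimes) {i j : ι} (hi : red V K p ≤ (L i).P)
    (hj : red V K p ≤ (L j).P) (di : (L i).dbl) (dj : ¬ (L j).dbl) : False := by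
  have hph := minimal_hom S.hom hp
  obtain ⟨t, g, hgt, hg, hgp⟩ := exists_kill (V := V) It (fun q => q ≠ p) {(L i).P}
    (by rintro _ rfl; exact (L i).primeP) (fun q hq hqp => by
      obtain ⟨t, w, h1, h2, h3⟩ := exists_lift_notMem (minimal_hom S.hom hq)
        (fun h => S.disjoint hq hp hqp h hi)
      exact ⟨t, w, h1, h2, by rintro _ rfl; exact h3⟩)
  have hg := hg _ rfl
  obtain ⟨m, hm2, hm⟩ := exists_rad_pow It
  have h1 := hm p (up V K g) (fun q hq => by
    by_cases h : q = p
    · exact Or.inl h.ge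
    · exact Or.inr (hgp q hq h))
  set q := Submodule.colon It {up V K g ^ m} with hq
  have hqh : IsHomog q := S.hom.colon ((hgt.map _).pow m)
  have hIq : It ≤ q := fun a ha => by
    rw [hq, Submodule.mem_colon_singleton, smul_eq_mul]; exact Ideal.mul_mem_right _ _ ha
  have hqp : q ≤ p := by
    intro a ha
    rw [hq, Submodule.mem_colon_singleton, smul_eq_mul] at ha
    exact (hp.isPrime.mem_or_mem (hp.le ha)).resolve_right
      (fun h => hg (hi (dn_mem_red (hp.isPrime.mem_of_pow_mem _ h))))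
  have hqQ : red V K q ≤ (L i).Q := by
    intro f0 hf0
    obtain ⟨f, hf, rfl⟩ := mem_red.1 hf0
    refine (L i).primary (dn V g ^ m) _ ?_ (fun h => hg ((L i).primeP.mem_of_pow_mem _ h))
    apply I0_le_Q L i
    apply S.le
    rw [← map_pow, ← map_mul]
    apply dn_mem_red
    rw [hq, Submodule.mem_colon_singleton, smul_eq_mul] at hf
    rwa [map_mul, map_pow, mul_comm]
  have hpQ : ¬ red V K p ≤ (L i).Q := by
    intro h
    have := S.mu_le_one hp i
    have := ((L i).mu_eq_two_iff _).2 ⟨di, h⟩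
    omega
  obtain ⟨s, f, hfs, hfp, hfQ⟩ := exists_lift_notMem hph hpQ
  have hrh : IsHomog (Submodule.colon q {up V K f}) := hqh.colon (hfs.map _)
  have hrP : red V K (Submodule.colon q {up V K f}) ≤ (L i).P := by
    intro u0 hu0
    obtain ⟨u, hu, rfl⟩ := mem_red.1 hu0
    by_contra hui
    refine hfQ ((L i).primary _ _ (hqQ ?_) hui)
    rw [← map_mul]
    apply dn_mem_red
    rw [Submodule.mem_colon_singleton, smul_eq_mul] at hu
    rwa [map_mul]
  have hrp : Submodule.colon q {up V K f} ≤ p := by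
    by_contra hne
    obtain ⟨t', u, hur, hu, hup⟩ := hrh.exists_homog_notMem hne
    refine S.not_red_sup_le hp hu hup i (fun w hw => (L i).primeP.mem_of_pow_mem m (hrP ?_))
    refine red_mono ?_ (pow_mem_red hw m)
    refine (sup_pow_le_pow_sup _ _ m).trans (sup_le ?_ ((Ideal.span_singleton_le_iff_mem _).2 hur))
    intro a ha
    rw [Submodule.mem_colon_singleton, smul_eq_mul]
    exact Ideal.mul_mem_right _ _ (h1 ha)
  obtain ⟨C, N1, hC⟩ := S.upper hqh hIq
  have hdeg : 2 * deg L (red V K p) ≤ deg L (red V K q) := by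
    apply le_of_eventually_mul_le (C := C + deg L (red V K q) * s + 8 * Fintype.card ι ^ 2)
      (N := N1 + (e + 1 + 2 * Fintype.card ι))
    intro n hn
    have h2 := hf_colon hqh (hfs.map (algebraMap V K)) n
    have h3 := hf_anti hrp n
    have h4 := hf_anti (sup_le hqp ((Ideal.span_singleton_le_iff_mem _).2 hfp)) (n + s)
    have h5 := S.lower hph (n := n) (by omega)
    have h6 := S.lower hph (n := n + s) (by omega)
    have h7 := hC (n + s) (by omega)
    nlinarith [Nat.zero_le (deg L (red V K p) * s)]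
  have : deg L (red V K q) < 2 * deg L (red V K p) := by
    unfold deg
    rw [Finset.mul_sum]
    refine Finset.sum_lt_sum (fun l _ => ?_) ⟨j, Finset.mem_univ j, ?_⟩
    · by_cases h0 : (L l).mu (red V K q) = 0
      · omega
      · have h3 := ((L l).mu_pos_iff (red V K q)).1 (by omega)
        have h4 : red V K p ≤ (L l).P := fun w hw =>
          (L l).primeP.mem_of_pow_mem m (h3 (red_mono h1 (pow_mem_red hw m)))
        have := ((L l).mu_pos_iff _).2 h4
        have := ((L l).mu_valid (red V K q)).1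
        omega
    · have h3 := (L j).mu_valid (red V K q)
      have h4 := ((L j).mu_pos_iff _).2 hj
      have h5 : (L j).mu (red V K q) ≠ 2 := fun h => dj (h3.2 h)
      have := h3.1
      omega
  omega

/-- Every component is a line. -/
lemma is_line {p : Ideal (A K)} (hp : p ∈ It.minimalPrimes) {i : ι} (hi : red V K p ≤ (L i).P) :
    (∀ j, red V K p ≤ (L j).P → j = i) ∧ pc (red V K p) 1 = pc (L i).P 1 := by
  classical
  have hph := minimal_hom S.hom hp
  let s := Finset.univ.filter (fun j => red V K p ≤ (L j).P)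
  have hs : ∀ j, j ∈ s ↔ red V K p ≤ (L j).P := by intro j; simp [s]
  have hdeg : deg L (red V K p) = s.card := by
    unfold deg
    rw [Finset.card_filter]
    refine Finset.sum_congr rfl (fun j _ => ?_)
    have h1 := S.mu_le_one hp j
    have h2 := (L j).mu_pos_iff (red V K p)
    split_ifs with h
    · have := h2.2 h; omega
    · have : ¬ 1 ≤ (L j).mu (red V K p) := fun h' => h (h2.1 h')
      omega
  have h1 := hf_lower2 (L := L) s (fun a ha b hb hab => S.skew a b hab (by
    by_contra hne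
    by_cases da : (L a).dbl
    · exact S.no_mix hp ((hs a).1 ha) ((hs b).1 hb) da (by tauto)
    · exact S.no_mix hp ((hs b).1 hb) ((hs a).1 ha) (by tauto) da)) (n := s.card + 1) (by omega)
  have h2 := hf_anti (Finset.le_inf (fun j hj => (hs j).1 hj) :
    red V K p ≤ s.inf fun j => (L j).P) (s.card + 1)
  rw [hf_red hph] at h2
  have h3 := S.prime_bound hp (n := s.card + 1) (by omega)
  rw [hdeg] at h3
  have h4 : s.card ≤ 1 := by nlinarith
  refine ⟨fun j hj => Finset.card_le_one.1 h4 j ((hs j).2 hj) i ((hs i).2 hi), ?_⟩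
  have h5 := S.prime_bound hp (n := 1) le_rfl
  have h6 := hf_add_dm (red V K p) 1
  rw [hf_red hph, finrank_Hn_one] at h6
  have h7 : pc (red V K p) 1 ≤ pc (L i).P 1 := fun f hf => ⟨hi hf.1, hf.2⟩
  apply Submodule.eq_of_le_of_finrank_le h7
  rw [(L i).finrank_one]
  omega

end Setup

end Pool.Agent.MP_eba2ed_ag

end

section

/-! Incidences between the lines persist in a flat lift. -/

set_option linter.unusedSectionVars false

namespace Pool.Agent.MP_eba2ed_ag

open MvPolynomial Module IsLocalRing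

lemma exists_X_notMem_of_ne {k : Type} [Field k] {W : Submodule k (A k)} (hW : W ≤ Hn k 1)
    (hne : W ≠ Hn k 1) : ∃ a, (X a : A k) ∉ W := by
  by_contra hall
  push Not at hall
  apply hne (le_antisymm hW _)
  rw [Hn, homogeneousSubmodule_one_eq_span_X, Submodule.span_le]
  rintro _ ⟨a, rfl⟩
  exact hall a

lemma exists_point {k : Type} [Field k] {W : Submodule k (A k)} (hW : W ≤ Hn k 1)
    (hne : W ≠ Hn k 1) : ∃ (v : Fin 4 → k) (a : Fin 4), v a ≠ 0 ∧ ∀ f ∈ W, aeval v f = 0 := by
  obtain ⟨a, ha⟩ := exists_X_notMem_of_ne hW hne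
  obtain ⟨φ, hφ, hφW⟩ := Submodule.exists_dual_map_eq_bot_of_notMem ha inferInstance
  refine ⟨fun j => φ (X j), a, hφ, fun f hf => ?_⟩
  have h1 : ∀ g ∈ Hn k 1, aeval (fun j => φ (X j)) g = φ g := by
    intro g hg
    rw [Hn, homogeneousSubmodule_one_eq_span_X] at hg
    induction hg using Submodule.span_induction with
    | mem x hx => obtain ⟨j, rfl⟩ := hx; simp
    | zero => simp
    | add x y _ _ hx hy => rw [map_add, map_add, hx, hy]
    | smul c x _ hx => rw [map_smul, map_smul, hx]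
  rw [h1 f (hW hf), ← Submodule.mem_bot k, ← hφW]
  exact Submodule.mem_map_of_mem hf

variable {V K : Type} [CommRing V] [IsDomain V] [ValuationRing V] [Field K] [Algebra V K]
  [IsFractionRing V K] [IsAlgClosed K]
variable {ι : Type} [Fintype ι] [DecidableEq ι] {e : ℕ}

namespace Setup

variable {L : ι → MLine (ResidueField V) e} {It : Ideal (A K)} {N : ℕ} (S : Setup V K L It N)
include S

lemma red_le_Q {p q : Ideal (A K)} (hq : q ∈ It.minimalPrimes) {i j : ι} (hij : i ≠ j)
    (hj : red V K q ≤ (L j).P) {g : A V} (hg : dn V g ∉ (L i).P) {m : ℕ}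
    (hm : (p * q) ^ m ≤ Submodule.colon It {up V K g ^ m}) :
    red V K (Submodule.colon It {up V K g ^ m} ⊔ p ^ m) ≤ (L i).Q := by
  intro f0 hf0
  obtain ⟨f, hf, rfl⟩ := mem_red.1 hf0
  obtain ⟨h0, hh0, hh0i⟩ := S.hd i j hij
  rw [← (S.is_line hq hj).2] at hh0
  obtain ⟨h, hh, rfl⟩ := mem_red.1 hh0.1
  refine (L i).primary (dn V g ^ m * dn V h ^ m) _ ?_ (fun h' =>
    ((L i).primeP.mem_or_mem h').elim (fun h' => hg ((L i).primeP.mem_of_pow_mem _ h'))
      (fun h' => hh0i ((L i).primeP.mem_of_pow_mem _ h')))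
  apply I0_le_Q L i
  apply S.le
  rw [← map_pow, ← map_pow, ← map_mul, ← map_mul]
  apply dn_mem_red
  obtain ⟨x, hx, y, hy, hxy⟩ := Submodule.mem_sup.1 hf
  have h1 : y * up V K h ^ m ∈ Submodule.colon It {up V K g ^ m} := by
    apply hm
    rw [mul_pow]
    exact Ideal.mul_mem_mul hy (Ideal.pow_mem_pow hh m)
  rw [Submodule.mem_colon_singleton, smul_eq_mul] at hx h1
  rw [map_mul, map_mul, map_pow, map_pow, ← hxy]
  have : up V K g ^ m * up V K h ^ m * (x + y) =
      up V K h ^ m * (x * up V K g ^ m) + y * up V K h ^ m * up V K g ^ m := by ring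
  rw [this]
  exact Ideal.add_mem _ (Ideal.mul_mem_left _ _ hx) h1

theorem incidence {p q : Ideal (A K)} (hp : p ∈ It.minimalPrimes) (hq : q ∈ It.minimalPrimes)
    {i j : ι} (hij : i ≠ j) (hi : red V K p ≤ (L i).P) (hj : red V K q ≤ (L j).P)
    (hmeet : pc (L i).P 1 ⊓ pc (L j).P 1 ≠ ⊥) : pc p 1 ⊓ pc q 1 ≠ ⊥ := by
  classical
  intro hskew
  have hph := minimal_hom S.hom hp
  have hqh := minimal_hom S.hom hq
  have hp1 := (S.is_line hp hi).2
  have hq1 := (S.is_line hq hj).2
  have hirr : irr K ≤ p ⊔ q := by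
    refine irr_le_of_sup_eq (sup_eq_of_skew (pc_le _ _) (pc_le _ _) ?_ ?_ hskew)
    · rw [← finrank_pc_red (V := V) hph, hp1, (L i).finrank_one]
    · rw [← finrank_pc_red (V := V) hqh, hq1, (L j).finrank_one]
  set W := pc (L i).P 1 ⊔ pc (L j).P 1 with hWdef
  have hW : W ≤ Hn _ 1 := sup_le (pc_le _ _) (pc_le _ _)
  have hW3 : finrank (ResidueField V) W = 3 := by
    have h1 := Submodule.finrank_sup_add_finrank_inf_eq (pc (L i).P 1) (pc (L j).P 1)
    rw [(L i).finrank_one, (L j).finrank_one, ← hWdef] at h1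
    have h2 : finrank (ResidueField V) ↥(pc (L i).P 1 ⊓ pc (L j).P 1) ≠ 0 := by
      rwa [ne_eq, Submodule.finrank_eq_zero]
    have h3 : pc (L i).P 1 ⊓ pc (L j).P 1 < pc (L j).P 1 := by
      obtain ⟨w, hw, hwi⟩ := S.hd i j hij
      refine lt_of_le_of_ne inf_le_right (fun h => hwi ?_)
      rw [← h] at hw
      exact hw.1.1
    have h4 := Submodule.finrank_lt_finrank_of_lt h3
    rw [(L j).finrank_one] at h4
    omega
  have hWne : W ≠ Hn _ 1 := by
    intro h
    rw [h, finrank_Hn_one] at hW3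
    omega
  obtain ⟨v, a0, hva, hv⟩ := exists_point hW hWne
  let Rs : Set (Ideal (A (ResidueField V))) :=
    {r | r.IsPrime ∧ (L i).P ⊔ (L j).P ≤ r ∧ ¬ irr _ ≤ r}
  have hWr : ∀ r : Ideal (A (ResidueField V)), (∀ w ∈ W, w ∈ r) → (L i).P ⊔ (L j).P ≤ r := by
    intro r hr
    refine sup_le ((L i).gen.trans (Ideal.span_le.2 fun w hw => hr w ?_))
      ((L j).gen.trans (Ideal.span_le.2 fun w hw => hr w ?_))
    · exact Submodule.mem_sup_left hw
    · exact Submodule.mem_sup_right hw
  have hr0 : RingHom.ker (aeval v : A (ResidueField V) →ₐ[ResidueField V] ResidueField V) ∈ Rs := by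
    refine ⟨RingHom.ker_isPrime _, hWr _ hv, fun h => hva ?_⟩
    simpa [RingHom.mem_ker] using h (X_mem_irr a0)
  have hcol : ¬ ((L i).dbl ↔ (L j).dbl) := fun h => hmeet (S.skew i j hij h)
  obtain ⟨t, g, hgt, hgR, hgp⟩ := exists_kill (V := V) It (fun r => r ≠ p ∧ r ≠ q) Rs
    (fun r hr => hr.1) (fun p' hp' hne => by
      have hw0 : ∃ w0 ∈ pc (red V K p') 1, w0 ∉ W := by
        rcases S.exists_line_or hp' with ⟨l, hl⟩ | hl
        · have hli : l ≠ i := fun h => S.disjoint hp' hp hne.1 (h ▸ hl) hi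
          have hlj : l ≠ j := fun h => S.disjoint hp' hq hne.2 (h ▸ hl) hj
          rw [(S.is_line hp' hl).2]
          by_contra hall
          push Not at hall
          apply hWne (le_antisymm hW _)
          by_cases hc : (L l).dbl ↔ (L i).dbl
          · rw [← sup_eq_of_skew (pc_le _ _) (pc_le _ _) (L l).finrank_one (L i).finrank_one
              (S.skew l i hli hc)]
            exact sup_le hall le_sup_left
          · rw [← sup_eq_of_skew (pc_le _ _) (pc_le _ _) (L l).finrank_one (L j).finrank_one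
              (S.skew l j hlj (by tauto))]
            exact sup_le hall le_sup_right
        · obtain ⟨a, ha⟩ := exists_X_notMem_of_ne hW hWne
          refine ⟨X a, ⟨?_, isHomogeneous_X _ a⟩, ha⟩
          exact mem_red.2 ⟨X a, by simpa using hl (X_mem_irr a), by simp⟩
      obtain ⟨w0, hw0, hw0W⟩ := hw0
      obtain ⟨w, hw, hwp, rfl⟩ := mem_red_homog (minimal_hom S.hom hp') hw0.1 hw0.2
      refine ⟨1, w, hw, hwp, fun r hr hwr => hr.2.2 ?_⟩
      have h1 : W ⊔ Submodule.span _ {dn V w} = Hn _ 1 := by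
        have hle : W ⊔ Submodule.span _ {dn V w} ≤ Hn _ 1 :=
          sup_le hW ((Submodule.span_singleton_le_iff_mem _ _).2 hw0.2)
        have : Module.Finite (ResidueField V) ↥(W ⊔ Submodule.span _ {dn V w}) :=
          Submodule.finiteDimensional_of_le hle
        apply Submodule.eq_of_le_of_finrank_le hle
        have h2 : W < W ⊔ Submodule.span _ {dn V w} :=
          lt_of_le_of_ne le_sup_left (fun h => hw0W (by
            rw [h]; exact Submodule.mem_sup_right (Submodule.mem_span_singleton_self _)))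
        have h3 := Submodule.finrank_lt_finrank_of_lt h2
        rw [finrank_Hn_one]
        omega
      rw [irr_le_iff]
      intro a
      have h2 : W ⊔ Submodule.span _ {dn V w} ≤ r.restrictScalars (ResidueField V) := by
        refine sup_le (sup_le (fun x hx => hr.2.1 (Ideal.mem_sup_left hx.1))
          (fun x hx => hr.2.1 (Ideal.mem_sup_right hx.1))) ?_
        exact (Submodule.span_singleton_le_iff_mem _ _).2 hwr
      rw [h1] at h2
      exact h2 (isHomogeneous_X _ a))
  have hgi : dn V g ∉ (L i).P := fun h => hgR _ hr0 (hr0.2.1 (Ideal.mem_sup_left h))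
  have hgj : dn V g ∉ (L j).P := fun h => hgR _ hr0 (hr0.2.1 (Ideal.mem_sup_right h))
  obtain ⟨m, hm2, hm⟩ := exists_rad_pow It
  have h1 := hm (p * q) (up V K g) (fun r hr => by
    by_cases h : r = p
    · exact Or.inl (Ideal.mul_le_left.trans h.ge)
    · by_cases h' : r = q
      · exact Or.inl (Ideal.mul_le_right.trans h'.ge)
      · exact Or.inr (hgp r hr ⟨h, h'⟩))
  have hQi := S.red_le_Q hq hij hj hgi h1
  have hQj := S.red_le_Q hp hij.symm hi hgj (by rwa [mul_comm])
  set I' := Submodule.colon It {up V K g ^ m} with hI'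
  have hI'h : IsHomog I' := S.hom.colon ((hgt.map _).pow m)
  have hII' : It ≤ I' := fun a ha => by
    rw [hI', Submodule.mem_colon_singleton, smul_eq_mul]; exact Ideal.mul_mem_right _ _ ha
  set a := I' ⊔ p ^ m with ha
  set b := I' ⊔ q ^ m with hb
  have hah : IsHomog a := hI'h.sup (hph.pow m)
  have hbh : IsHomog b := hI'h.sup (hqh.pow m)
  have hab : irr K ^ (m + m) ≤ a ⊔ b :=
    (Ideal.pow_right_mono hirr _).trans (Ideal.sup_pow_add_le_pow_sup_pow.trans
      (sup_le_sup le_sup_right le_sup_right))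
  have hlt : ∀ n, m + m ≤ n →
      hilbFun (red V K a ⊓ red V K b) n + 1 ≤ hilbFun (red V K (a ⊓ b)) n := by
    intro n hn
    have e1 := hf_inf_add_sup hah hbh n
    have e2 := hf_inf_add_sup (hah.red (V := V)) (hbh.red (V := V)) n
    rw [hf_eq_zero_of_irr_pow_le hab hn] at e1
    rw [hf_red hah, hf_red hbh] at e2
    rw [hf_red (hah.inf hbh)]
    have e3 : 1 ≤ hilbFun (red V K a ⊔ red V K b) n := by
      refine hf_pos (isHomogeneous_X_pow a0 n) (fun h => ?_)
      have := hr0.2.1 (sup_le_sup (hQi.trans (L i).QleP) (hQj.trans (L j).QleP) h)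
      simp only [RingHom.mem_ker, map_pow, aeval_X] at this
      exact hva (pow_eq_zero_iff' .. |>.1 this).1
    omega
  let Ann := Submodule.colon (red V K (a ⊓ b))
    ((red V K a ⊓ red V K b : Ideal (A (ResidueField V))) : Set (A (ResidueField V)))
  have hAnn : irr _ ≤ Ann.radical := by
    rw [Ideal.radical_eq_sInf]
    refine le_sInf ?_
    rintro r ⟨hr, hrp⟩
    by_contra hnot
    have hrR : r ∈ Rs := by
      refine ⟨hrp, hWr r (fun w hw => ?_), hnot⟩
      have : W ≤ r.restrictScalars (ResidueField V) := by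
        refine sup_le (fun x hx => hrp.mem_of_pow_mem m (hr ?_))
          (fun x hx => hrp.mem_of_pow_mem m (hr ?_))
        · rw [← hp1] at hx
          refine Submodule.mem_colon.2 (fun f hf => red_mono Ideal.mul_le_inf ?_)
          exact mul_mem_red (red_mono le_sup_right (pow_mem_red hx.1 m)) hf.2
        · rw [← hq1] at hx
          refine Submodule.mem_colon.2 (fun f hf => red_mono Ideal.mul_le_inf ?_)
          rw [smul_eq_mul, mul_comm (x ^ m) f]
          exact mul_mem_red hf.1 (red_mono le_sup_right (pow_mem_red hx.1 m))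
      exact this hw
    obtain ⟨c, hc⟩ : ∃ c, X c ∉ r := by
      by_contra hall
      push Not at hall
      exact hnot (irr_le_iff.2 hall)
    have : X c ^ N * dn V g ^ m ∈ Ann := by
      refine Submodule.mem_colon.2 (fun f hf => ?_)
      apply red_mono (le_inf (hII'.trans le_sup_left) (hII'.trans le_sup_left))
      apply irr_pow_mul_le (I0_hom L) S.ge
      rw [smul_eq_mul, mul_assoc]
      refine Ideal.mul_mem_mul (Ideal.pow_mem_pow (X_mem_irr c) N) ((mem_I0 L).2 fun l => ?_)
      by_cases hli : l = i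
      · subst hli; exact Ideal.mul_mem_left _ _ (hQi hf.1)
      by_cases hlj : l = j
      · subst hlj; exact Ideal.mul_mem_left _ _ (hQj hf.2)
      obtain ⟨r', hr', hl⟩ := S.exists_min l
      have hgl : dn V g ∈ (L l).P := by
        refine hl (dn_mem_red (hgp r' hr' ⟨?_, ?_⟩))
        · rintro rfl; exact hli ((S.is_line hp hi).1 l hl)
        · rintro rfl; exact hlj ((S.is_line hq hj).1 l hl)
      obtain ⟨m', rfl⟩ : ∃ m', m = m' + 2 := ⟨m - 2, by omega⟩
      refine Ideal.mul_mem_right _ _ ?_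
      rw [pow_add, sq]
      exact Ideal.mul_mem_left _ _ ((L l).sq _ hgl _ hgl)
    rcases hrp.mem_or_mem (hr this) with h | h
    · exact hc (hrp.mem_of_pow_mem _ h)
    · exact hgR r hrR (hrp.mem_of_pow_mem _ h)
  obtain ⟨M, hM⟩ := Ideal.exists_pow_le_of_le_radical_of_fg hAnn (idealOfVars_fg _ _)
  obtain ⟨N', hN'⟩ := eventually_mem_of_irr_pow_mul_le ((hah.inf hbh).red (V := V))
    (IsNoetherian.noetherian (red V K a ⊓ red V K b)) (M := M)
    (Ideal.mul_le.2 fun x hx f hf => Submodule.mem_colon.1 (hM hx) f hf)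
  have h2 := hf_le_of_pc_le (hN' (N' + (m + m)) (by omega))
  have h3 := hlt (N' + (m + m)) (by omega)
  omega

/-- The lifting theorem: the lines lift with the same incidences. -/
theorem lift : ∃ U : ι → Submodule K (A K), (∀ i, U i ≤ Hn K 1) ∧ (∀ i, finrank K (U i) = 2) ∧
    ∀ i j, i ≠ j → (U i ⊓ U j = ⊥ ↔ pc (L i).P 1 ⊓ pc (L j).P 1 = ⊥) := by
  choose p hp hpi using S.exists_min
  refine ⟨fun i => pc (p i) 1, fun i => pc_le _ _, fun i => ?_, fun i j hij => ⟨fun h => ?_, ?_⟩⟩
  · rw [← finrank_pc_red (V := V) (minimal_hom S.hom (hp i)), (S.is_line (hp i) (hpi i)).2,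
      (L i).finrank_one]
  · by_contra hne
    exact S.incidence (hp i) (hp j) hij (hpi i) (hpi j) hne h
  · intro h
    apply pc_inf_eq_bot_of_red (V := V)
    rwa [(S.is_line (hp i) (hpi i)).2, (S.is_line (hp j) (hpi j)).2]

end Setup

end Pool.Agent.MP_eba2ed_ag

end

section

/-! Base change, the Hilbert polynomial of the curve, and its non-liftability. -/

set_option linter.unusedSectionVars false

namespace Pool.Agent.MP_eba2ed_ag

open MvPolynomial Module IsLocalRing TensorProduct

section bc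

variable {k L : Type} [Field k] [Field L] [Algebra k L]

lemma finrank_span_map (W : Submodule k (A k)) [Module.Finite k W] :
    finrank L (Submodule.span L (MvPolynomial.map (algebraMap k L) '' (W : Set (A k)))) =
      finrank k W := by
  let b := Module.finBasis k W
  have h1 : LinearIndependent k (fun i => (b i : A k)) :=
    b.linearIndependent.map' W.subtype (Submodule.ker_subtype _)
  have h2 := (Module.Flat.linearIndependent_one_tmul (S := L) h1).map'
    (algebraTensorAlgEquiv k L).toLinearMap (LinearEquiv.ker (algebraTensorAlgEquiv k L).toLinearEquiv)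
  have h3 : LinearIndependent L (fun i => MvPolynomial.map (algebraMap k L) (b i : A k)) := by
    have e : (fun i => MvPolynomial.map (algebraMap k L) (b i : A k)) =
        (algebraTensorAlgEquiv k L).toLinearMap ∘ fun x => (1 : L) ⊗ₜ[k] (b x : A k) := by
      ext1 i
      simp
    rw [e]
    exact h2
  have h4 : Submodule.span L (MvPolynomial.map (algebraMap k L) '' (W : Set (A k))) =
      Submodule.span L (Set.range fun i => MvPolynomial.map (algebraMap k L) (b i : A k)) := by
    apply le_antisymm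
    · rw [Submodule.span_le]
      rintro _ ⟨w, hw, rfl⟩
      have := congrArg (fun x : W => (x : A k)) (b.sum_repr ⟨w, hw⟩)
      simp only [AddSubmonoidClass.coe_finsetSum, SetLike.val_smul] at this
      rw [← this, map_sum]
      refine Submodule.sum_mem _ (fun i _ => ?_)
      rw [smul_eq_C_mul, map_mul, map_C, ← smul_eq_C_mul]
      exact Submodule.smul_mem _ _ (Submodule.subset_span ⟨i, rfl⟩)
    · apply Submodule.span_mono
      rintro _ ⟨i, rfl⟩
      exact ⟨_, (b i).2, rfl⟩
  rw [h4, finrank_span_eq_card h3]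
  simp

lemma mem_span_of_mem_map {I : Ideal (A k)} {f : A L}
    (hf : f ∈ I.map (MvPolynomial.map (algebraMap k L) : A k →+* A L)) :
    f ∈ Submodule.span L (MvPolynomial.map (algebraMap k L) '' (I : Set (A k))) := by
  have hX : ∀ i, ∀ x ∈ Submodule.span L (MvPolynomial.map (algebraMap k L) '' (I : Set (A k))),
      X i * x ∈ Submodule.span L (MvPolynomial.map (algebraMap k L) '' (I : Set (A k))) := by
    intro i x hx
    induction hx using Submodule.span_induction with
    | mem x hx =>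
      obtain ⟨a, ha, rfl⟩ := hx
      exact Submodule.subset_span ⟨X i * a, Ideal.mul_mem_left _ _ ha, by simp⟩
    | zero => simp
    | add x y _ _ hx hy => rw [mul_add]; exact add_mem hx hy
    | smul c x _ hx => rw [mul_smul_comm]; exact Submodule.smul_mem _ _ hx
  have hc : ∀ c : A L,
      ∀ x ∈ Submodule.span L (MvPolynomial.map (algebraMap k L) '' (I : Set (A k))),
      c * x ∈ Submodule.span L (MvPolynomial.map (algebraMap k L) '' (I : Set (A k))) := by
    intro c
    induction c using MvPolynomial.induction_on with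
    | C a => intro x hx; rw [← smul_eq_C_mul]; exact Submodule.smul_mem _ _ hx
    | add p q hp hq => intro x hx; rw [add_mul]; exact add_mem (hp x hx) (hq x hx)
    | mul_X p i hp => intro x hx; rw [mul_assoc]; exact hp _ (hX i x hx)
  induction hf using Submodule.span_induction with
  | mem x hx => exact Submodule.subset_span hx
  | zero => simp
  | add x y _ _ hx hy => exact add_mem hx hy
  | smul c x _ hx => exact hc c x hx

lemma pc_map {I : Ideal (A k)} (hI : IsHomog I) (n : ℕ) :
    pc (I.map (MvPolynomial.map (algebraMap k L) : A k →+* A L)) n =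
      Submodule.span L (MvPolynomial.map (algebraMap k L) '' (pc I n : Set (A k))) := by
  apply le_antisymm
  · rintro f ⟨hf, hn⟩
    rw [← homogeneousComponent_eq_self hn]
    have hf' := mem_span_of_mem_map hf
    clear hf hn
    induction hf' using Submodule.span_induction with
    | mem x hx =>
      obtain ⟨a, ha, rfl⟩ := hx
      rw [map_comp]
      exact Submodule.subset_span ⟨_, ⟨hI a ha n, homogeneousComponent_isHomogeneous n a⟩, rfl⟩
    | zero => simp
    | add x y _ _ hx hy => rw [map_add]; exact add_mem hx hy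
    | smul c x _ hx => rw [map_smul]; exact Submodule.smul_mem _ _ hx
  · rw [Submodule.span_le]
    rintro _ ⟨a, ha, rfl⟩
    exact ⟨Ideal.mem_map_of_mem _ ha.1, ha.2.map _⟩

lemma hf_map {I : Ideal (A k)} (hI : IsHomog I) (n : ℕ) :
    hilbFun (I.map (MvPolynomial.map (algebraMap k L) : A k →+* A L)) n = hilbFun I n := by
  have h1 := hf_add_dm I n
  have h2 := hf_add_dm (I.map (MvPolynomial.map (algebraMap k L) : A k →+* A L)) n
  have h3 := hf_add_dm (⊤ : Ideal (A k)) n
  have h4 := hf_add_dm ((⊤ : Ideal (A k)).map (MvPolynomial.map (algebraMap k L) : A k →+* A L)) n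
  rw [pc_map hI, finrank_span_map] at h2
  rw [pc_map isHomog_top, finrank_span_map, Ideal.map_top] at h4
  rw [hf_top] at h3 h4
  omega

lemma iInf_mult_le_map {ι : Type} (M : ι → Matrix (Fin 4) (Fin 4) k) (e : ℕ) (b : ι → Bool) :
    ⨅ i, mult ((M i).map (algebraMap k L)) e (b i) =
      (⨅ i, mult (M i) e (b i)).map (MvPolynomial.map (algebraMap k L) : A k →+* A L) := by
  apply le_antisymm
  · intro f hf
    let β := Basis.ofVectorSpace k L
    obtain ⟨c, hc⟩ := TensorProduct.eq_repr_basis_left β ((algebraTensorAlgEquiv k L).symm f)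
    have hf' : f = c.sum fun i n => β i • MvPolynomial.map (algebraMap k L) n := by
      apply (algebraTensorAlgEquiv k L).symm.injective
      rw [← hc, Finsupp.sum, Finsupp.sum, map_sum]
      refine Finset.sum_congr rfl (fun i _ => ?_)
      rw [← algebraTensorAlgEquiv_tmul, AlgEquiv.symm_apply_apply]
    have key : ∀ (T : A k →ₗ[k] B k) (T' : A L →ₗ[L] B L),
        (∀ g, T' (MvPolynomial.map (algebraMap k L) g) = MvPolynomial.map (algebraMap k L) (T g)) →
        T' f = 0 → ∀ i, T (c i) = 0 := by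
      intro T T' hT h0 i
      have := TensorProduct.sum_tmul_basis_left_eq_zero β (c.mapRange T (map_zero T)) (by
        apply (algebraTensorAlgEquiv k L).injective
        rw [Finsupp.sum_mapRange_index (by simp), map_zero, ← h0, hf', Finsupp.sum, Finsupp.sum,
          map_sum, map_sum]
        refine Finset.sum_congr rfl (fun i _ => ?_)
        rw [algebraTensorAlgEquiv_tmul, map_smul, hT])
      simpa using DFunLike.congr_fun this i
    rw [hf', Finsupp.sum]
    refine Ideal.sum_mem _ (fun j _ => ?_)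
    rw [smul_eq_C_mul]
    refine Ideal.mul_mem_left _ _ (Ideal.mem_map_of_mem _ (Ideal.mem_iInf.2 fun i => ?_))
    have hi := Ideal.mem_iInf.1 hf i
    exact ⟨key (psi (M i)).toLinearMap (psi _).toLinearMap (fun g => (map_psi _ _ g).symm) hi.1 j,
      key (der (M i) e (b i)) (der _ e (b i)) (fun g => (map_der _ _ _ _ g).symm) hi.2 j⟩
  · rw [Ideal.map_le_iff_le_comap]
    intro f hf
    rw [Ideal.mem_comap, Ideal.mem_iInf]
    intro i
    have hi := Ideal.mem_iInf.1 hf i
    exact ⟨by rw [← map_psi, hi.1, map_zero], by rw [← map_der, hi.2, map_zero]⟩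

end bc

lemma I0_cfg_map {k L : Type} [Field k] [Field L] {Pt Ln : Type} {inc : Pt → Ln → Prop}
    (F : Aff k inc) (φ : k →+* L) (e : ℕ) :
    I0 (cfg (F.map φ) e) = (I0 (cfg F e)).map (MvPolynomial.map φ : A k →+* A L) := by
  let := φ.toAlgebra
  have := iInf_mult_le_map (L := L) (Mx F) e (fun i => i.isRight)
  simp only [I0, cfg_Q, Mx_map]
  exact this

lemma chart_map {R S : Type} [CommRing R] [CommRing S] (φ : R →+* S) (I : Ideal (A R))
    (i : Fin 4) : (chart I i).map (MvPolynomial.map φ : A R →+* A S) =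
      chart (I.map (MvPolynomial.map φ : A R →+* A S)) i := by
  simp [chart, Ideal.map_sup, Ideal.map_span]

lemma SameSub.map {R S : Type} [CommRing R] [CommRing S] (φ : R →+* S) {I J : Ideal (A R)}
    (h : SameSub I J) : SameSub (I.map (MvPolynomial.map φ : A R →+* A S))
      (J.map (MvPolynomial.map φ : A R →+* A S)) :=
  fun i => by rw [← chart_map, ← chart_map, h i]

/-- Existence of the Hilbert polynomial of a union of multiple lines. -/
theorem exists_hilbert_poly {k : Type} [Field k] [Infinite k] {ι : Type} [Fintype ι]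
    [DecidableEq ι] [Nonempty ι] {e : ℕ} (L : ι → MLine k e) :
    ∃ (d : ℕ) (g : ℤ), 1 ≤ d ∧ ∃ N : ℕ, ∀ n : ℕ, N ≤ n →
      (hilbFun (I0 L) n : ℤ) = d * n + 1 - g := by
  have havoid : ∀ W : ι → Submodule k (A k), (∀ i, W i ≤ Hn k 1) → (∀ i, finrank k (W i) < 4) →
      ∃ u ∈ Hn k 1, ∀ i, u ∉ W i := by
    intro W hW hW4
    obtain ⟨x, hx⟩ := Submodule.exists_forall_notMem_of_forall_ne_top
      (fun i => (W i).comap (Hn k 1).subtype) (fun i h => by
        have h1 := Submodule.comap_subtype_eq_top.1 h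
        have : Module.Finite k (W i) := Submodule.finiteDimensional_of_le (hW i)
        have h2 := Submodule.finrank_mono h1
        have := hW4 i
        rw [finrank_Hn_one] at h2
        omega)
    exact ⟨x, x.2, hx⟩
  have hgrow : ∀ (W : Submodule k (A k)) (u : A k), W ≤ Hn k 1 → u ∈ Hn k 1 → u ∉ W →
      finrank k ↥(W ⊔ Submodule.span k {u}) = finrank k W + 1 := by
    intro W u hW _ huW
    have : Module.Finite k W := Submodule.finiteDimensional_of_le hW
    have h1 := Submodule.finrank_sup_add_finrank_inf_eq W (Submodule.span k {u})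
    have h2 : W ⊓ Submodule.span k {u} = ⊥ :=
      disjoint_iff.1 (Submodule.disjoint_span_singleton_of_notMem huW)
    rw [h2, finrank_bot, finrank_span_singleton (v := u) (fun h => huW (by simp [h]))] at h1
    exact h1
  obtain ⟨u, hu, huP⟩ := havoid (fun i => pc (L i).P 1) (fun i => pc_le _ _)
    (fun i => by rw [(L i).finrank_one]; omega)
  have hle : ∀ i, pc (L i).P 1 ⊔ Submodule.span k {u} ≤ Hn k 1 := fun i =>
    sup_le (pc_le _ _) ((Submodule.span_singleton_le_iff_mem _ _).2 hu)
  obtain ⟨v, hv, hvP⟩ := havoid (fun i => pc (L i).P 1 ⊔ Submodule.span k {u}) hle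
    (fun i => by rw [hgrow _ u (pc_le _ _) hu (huP i), (L i).finrank_one]; omega)
  have htop : ∀ i, pc (L i).P 1 ⊔ Submodule.span k {u} ⊔ Submodule.span k {v} = Hn k 1 := by
    intro i
    apply Submodule.eq_of_le_of_finrank_eq
      (sup_le (hle i) ((Submodule.span_singleton_le_iff_mem _ _).2 hv))
    rw [hgrow _ v (hle i) hv (hvP i), hgrow _ u (pc_le _ _) hu (huP i), (L i).finrank_one,
      finrank_Hn_one]
  have hrad : irr k ≤ (I0 L ⊔ Ideal.span {u} ⊔ Ideal.span {v}).radical := by
    rw [Ideal.radical_eq_sInf]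
    refine le_sInf ?_
    rintro r ⟨hr, hrp⟩
    have h1 : ∃ i, (L i).P ≤ r := by
      have h2 : Finset.univ.inf (fun i => (L i).Q) ≤ r := by
        refine le_trans ?_ ((le_sup_left.trans le_sup_left).trans hr)
        rw [Finset.inf_univ_eq_iInf]; rfl
      obtain ⟨i, -, hi⟩ := (hrp.inf_le').1 h2
      exact ⟨i, fun a ha => (hrp.mem_or_mem (hi ((L i).sq a ha a ha))).elim id id⟩
    obtain ⟨i, hi⟩ := h1
    have h2 : Hn k 1 ≤ r.restrictScalars k := by
      rw [← htop i]
      refine sup_le (sup_le (fun x hx => hi hx.1) ?_) ?_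
      · rw [Submodule.span_singleton_le_iff_mem]
        exact hr (Ideal.mem_sup_left (Ideal.mem_sup_right (Ideal.mem_span_singleton_self u)))
      · rw [Submodule.span_singleton_le_iff_mem]
        exact hr (Ideal.mem_sup_right (Ideal.mem_span_singleton_self v))
    exact irr_le_iff.2 (fun a => h2 (isHomogeneous_X k a))
  obtain ⟨M, hM⟩ := Ideal.exists_pow_le_of_le_radical_of_fg hrad (idealOfVars_fg _ _)
  have hb : IsHomog (I0 L ⊔ Ideal.span {u}) := (I0_hom L).sup (isHomog_span_singleton hu)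
  let a : ℕ → ℕ := fun n => hilbFun (I0 L ⊔ Ideal.span {u}) (M + n)
  have ha : Antitone a := by
    refine antitone_nat_of_succ_le (fun n => ?_)
    have h1 := hf_colon hb hv (M + n)
    rw [hf_eq_zero_of_irr_pow_le hM (by omega)] at h1
    have h2 : hilbFun (Submodule.colon (I0 L ⊔ Ideal.span {u}) {v}) (M + n) ≤
        hilbFun (I0 L ⊔ Ideal.span {u}) (M + n) := hf_anti (fun x hx => by
      rw [Submodule.mem_colon_singleton, smul_eq_mul]; exact Ideal.mul_mem_right _ _ hx) _
    simp only [a, ← add_assoc]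
    omega
  obtain ⟨n0, hn0⟩ : ∃ n0, ∀ n, n0 ≤ n → a n = a n0 := by
    obtain ⟨n0, hn0⟩ := WellFounded.has_min wellFounded_lt (Set.range a) ⟨_, 0, rfl⟩
    obtain ⟨⟨n0, rfl⟩, hmin⟩ := hn0
    exact ⟨n0, fun n hn => le_antisymm (ha hn) (not_lt.1 (hmin _ ⟨n, rfl⟩))⟩
  have hstep : ∀ n, hilbFun (I0 L) (n + 1) =
      hilbFun (I0 L ⊔ Ideal.span {u}) (n + 1) + hilbFun (I0 L) n :=
    hf_nzd (I0_hom L) hu (fun f hf => I0_nzd L (fun i h => huP i ⟨h, hu⟩) hf)
  have hlin : ∀ t, hilbFun (I0 L) (M + n0 + t) = hilbFun (I0 L) (M + n0) + a n0 * t := by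
    intro t
    induction t with
    | zero => simp
    | succ t ih =>
      have h1 := hstep (M + n0 + t)
      have h2 := hn0 (n0 + t + 1) (by omega)
      simp only [a, ← add_assoc] at h2 ih ⊢
      rw [h1, h2, ih]; ring
  refine ⟨a n0, (a n0 : ℤ) * (M + n0 : ℕ) + 1 - hilbFun (I0 L) (M + n0), ?_, M + n0,
    fun n hn => ?_⟩
  · by_contra h0
    have h1 : a n0 = 0 := by omega
    have h2 := hlin (hilbFun (I0 L) (M + n0))
    have h3 := hf_anti (I0_le_P L (Classical.arbitrary ι)) (M + n0 + hilbFun (I0 L) (M + n0))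
    rw [MLine.hfP, h2, h1] at h3
    omega
  · obtain ⟨t, rfl⟩ := Nat.exists_eq_add_of_le hn
    rw [hlin]
    push_cast
    ring

theorem isFamily_of_field {k : Type} [Field k] {I : Ideal (A k)} (hI : IsHomog I) {d : ℕ} {g : ℤ}
    {N : ℕ} (h : ∀ n : ℕ, N ≤ n → (hilbFun I n : ℤ) = d * n + 1 - g) : IsFamily d g I :=
  ⟨hI, IsNoetherian.noetherian I, fun _ => inferInstance, fun q => ⟨N, fun n hn => by
    rw [hf_map hI]; exact h n hn⟩⟩

attribute [local instance] MvPolynomial.algebraMvPolynomial in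
theorem no_lift (p : ℕ) [Fact p.Prime] {k : Type} [Field k] (F : Aff k (incp p)) (hF : F.Good)
    {e : ℕ} (he : 4 * Fintype.card (Jx (Ix p) (Ix p)) ^ 2 + 1 ≤ e)
    {V K : Type} [CommRing V] [IsDomain V] [ValuationRing V] [Field K] [Algebra V K]
    [IsFractionRing V K] [IsAlgClosed K] (φ : k →+* ResidueField V) {J : Ideal (A V)}
    (hJ : IsHomog J) (hflat : ∀ i, Module.Flat V (A V ⧸ chart J i))
    (hsame : SameSub (J.map (dn V)) ((I0 (cfg F e)).map (MvPolynomial.map φ : A k →+* A _))) :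
    (p : K) = 0 := by
  classical
  rw [← I0_cfg_map] at hsame
  set L := cfg (F.map φ) e with hL
  have hIt : IsHomog (J.map (up V K)) := hJ.map _
  have hle : red V K (J.map (up V K)) ≤ I0 L := by
    refine (hIt.red (V := V)).le_of_homog (fun n f0 hf0 hn => ?_)
    obtain ⟨f, -, hf, rfl⟩ := mem_red_homog hIt hf0 hn
    obtain ⟨_, ⟨c, hc, rfl⟩, hcf⟩ := (IsLocalization.algebraMap_mem_map_algebraMap_iff
      ((nonZeroDivisors V).map (C (σ := Fin 4))) (A K) J f).1 hf
    rw [mem_I0]
    intro l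
    obtain ⟨i, hi⟩ := (L l).exists_X_notMem
    have h1 : f ∈ chart J i := by
      have := hflat i
      have hreg := Module.Flat.isSMulRegular_of_nonZeroDivisors (M := A V ⧸ chart J i) hc
      rw [← Ideal.Quotient.eq_zero_iff_mem]
      apply hreg
      simp only [smul_zero]
      rw [← Ideal.Quotient.mkₐ_eq_mk V, ← map_smul, smul_eq_C_mul, Ideal.Quotient.mkₐ_eq_mk,
        Ideal.Quotient.eq_zero_iff_mem]
      exact Ideal.mem_sup_left hcf
    have h2 : dn V f ∈ chart (I0 L) i := by
      rw [← hsame i, ← chart_map]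
      exact Ideal.mem_map_of_mem _ h1
    obtain ⟨M, hM⟩ := exists_X_pow_mul_mem (I0_hom L) hn h2
    exact (L l).primary _ _ (I0_le_Q L l hM) (fun h => hi ((L l).primeP.mem_of_pow_mem _ h))
  have hJ0 : J.map (dn V) ≤ red V K (J.map (up V K)) :=
    Ideal.map_mono Ideal.le_comap_map
  have hJ0h : IsHomog (J.map (dn V)) := hJ.map _
  have hrad : irr _ ≤ (Submodule.colon (J.map (dn V)) (I0 L : Set (A (ResidueField V)))).radical := by
    rw [irr_le_iff]
    intro i
    have h1 : I0 L ≤ ⨆ M : ℕ, Submodule.colon (J.map (dn V)) {X i ^ M} := by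
      refine (I0_hom L).le_of_homog (fun n f hf hn => ?_)
      obtain ⟨M, hM⟩ := exists_X_pow_mul_mem hJ0h hn (i := i)
        (by rw [hsame i]; exact Ideal.mem_sup_left hf)
      refine Submodule.mem_iSup_of_mem M ?_
      rwa [Submodule.mem_colon_singleton, smul_eq_mul, mul_comm]
    have hmono : Monotone (fun M : ℕ => Submodule.colon (J.map (dn V)) {(X i : A _) ^ M}) := by
      refine monotone_nat_of_le_succ (fun M x hx => ?_)
      rw [Submodule.mem_colon_singleton, smul_eq_mul] at hx ⊢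
      rw [pow_succ, ← mul_assoc]
      exact Ideal.mul_mem_right _ _ hx
    obtain ⟨M, hM⟩ := (monotone_stabilizes_iff_noetherian.2 inferInstance) ⟨_, hmono⟩
    refine ⟨M, Submodule.mem_colon.2 (fun f hf => ?_)⟩
    have h2 : (⨆ M : ℕ, Submodule.colon (J.map (dn V)) {(X i : A _) ^ M}) ≤
        Submodule.colon (J.map (dn V)) {(X i : A _) ^ M} := by
      refine iSup_le (fun m => ?_)
      rcases le_total m M with h | h
      · exact hmono h
      · exact (hM m h).ge
    have := h2 (h1 hf)
    rwa [Submodule.mem_colon_singleton, smul_eq_mul, mul_comm] at this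
  obtain ⟨M, hM⟩ := Ideal.exists_pow_le_of_le_radical_of_fg hrad (idealOfVars_fg _ _)
  obtain ⟨N, hN⟩ := eventually_mem_of_irr_pow_mul_le hJ0h (IsNoetherian.noetherian (I0 L))
    (M := M) (Ideal.mul_le.2 fun x hx f hf => Submodule.mem_colon.1 (hM hx) f hf)
  have S : Setup V K L (J.map (up V K)) N :=
    ⟨cfg_distinct (hF.map φ) e, cfg_skew (hF.map φ) e, he, hIt, hle,
      fun n hn f hf hfn => hJ0 (hN n hn f hf hfn)⟩
  obtain ⟨U, hU, hU2, hUU⟩ := S.lift
  obtain ⟨F'⟩ := ((cfg_pattern (hF.map φ) e).transfer hUU).aff hU hU2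
  exact char_of_aff p F'

end Pool.Agent.MP_eba2ed_ag

end

section

/-! From non-liftability to a component of the Hilbert scheme in characteristic `p`. -/

namespace Pool.Agent.MP_eba2ed_ag

open CategoryTheory AlgebraicGeometry MvPolynomial IsLocalRing

lemma isAlgClosed_residueField {K : Type} [Field K] [IsAlgClosed K] (V : ValuationSubring K) :
    IsAlgClosed (ResidueField V) := by
  refine IsAlgClosed.of_exists_root _ (fun q hq hirr => ?_)
  obtain ⟨Q, hQ, hdeg, hmon⟩ := Polynomial.lifts_and_degree_eq_and_monic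
    (show q ∈ Polynomial.lifts (residue V) from
      Polynomial.map_surjective _ residue_surjective q) hq
  obtain ⟨x, hx⟩ := IsAlgClosed.exists_aeval_eq_zero K Q (by
    rw [hdeg]; exact (Polynomial.degree_pos_of_irreducible hirr).ne')
  obtain ⟨y, rfl⟩ := (IsIntegrallyClosed.isIntegral_iff (R := V) (K := K)).1 ⟨Q, hmon, hx⟩
  refine ⟨residue V y, ?_⟩
  rw [Polynomial.aeval_algebraMap_apply, map_eq_zero_iff _ (IsFractionRing.injective V K)] at hx
  rw [← hQ, Polynomial.eval_map, Polynomial.eval₂_hom]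
  simpa using congrArg (residue V) hx

lemma exists_valuation {R : Type} [CommRing R] (y' y : Ideal R) [y'.IsPrime] [y.IsPrime]
    (h : y' ≤ y) : ∃ (K : Type) (_ : Field K) (_ : IsAlgClosed K) (V : ValuationSubring K)
      (θ : R →+* V), (∀ r, residue V (θ r) = 0 ↔ r ∈ y) ∧ ∀ r, (θ r : K) = 0 → r ∈ y' := by
  let K := AlgebraicClosure (FractionRing (R ⧸ y'))
  let ρ : R →+* K := (algebraMap (FractionRing (R ⧸ y')) K).comp
    ((algebraMap (R ⧸ y') (FractionRing (R ⧸ y'))).comp (Ideal.Quotient.mk y'))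
  have hρ : ∀ r, ρ r = 0 → r ∈ y' := by
    intro r hr
    simpa [ρ, Ideal.Quotient.eq_zero_iff_mem] using hr
  let f : Localization.AtPrime y →+* K := IsLocalization.lift (M := y.primeCompl) (g := ρ)
    (fun s => Ne.isUnit (fun h0 => s.2 (h (hρ _ h0))))
  obtain ⟨V, hV, hloc⟩ := IsLocalRing.exists_factor_valuationRing f
  let f' : Localization.AtPrime y →+* V := f.codRestrict V.toSubring hV
  have hloc' : IsLocalHom f' := hloc
  refine ⟨K, inferInstance, inferInstance, V, f'.comp (algebraMap R _), fun r => ?_, fun r hr => ?_⟩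
  · rw [residue_eq_zero_iff, mem_maximalIdeal, mem_nonunits_iff, RingHom.comp_apply,
      isUnit_map_iff, IsLocalization.AtPrime.isUnit_to_map_iff _ y]
    simp
  · apply hρ
    rw [← IsLocalization.lift_eq (S := Localization.AtPrime y) (M := y.primeCompl) (g := ρ)
      (fun s => Ne.isUnit (fun h0 => s.2 (h (hρ _ h0))))]
    exact hr

lemma exists_embedding {R k κ : Type} [CommRing R] [Field k] [Field κ] [IsAlgClosed κ]
    (hk : (Int.castRingHom k).IsIntegral) (ψ : R →+* k) (χ : R →+* κ) (h : ∀ r, χ r = 0 ↔ ψ r = 0) :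
    ∃ ι : k →+* κ, ι.comp ψ = χ := by
  let R0 := R ⧸ RingHom.ker ψ
  have : (RingHom.ker ψ).IsPrime := RingHom.ker_isPrime ψ
  let a1 : Algebra R0 k := (RingHom.kerLift ψ).toAlgebra
  let a2 : Algebra R0 κ := (Ideal.Quotient.lift (RingHom.ker ψ) χ
    (fun r hr => (h r).2 hr)).toAlgebra
  have : FaithfulSMul R0 k :=
    (faithfulSMul_iff_algebraMap_injective _ _).2 (RingHom.kerLift_injective ψ)
  have : FaithfulSMul R0 κ := (faithfulSMul_iff_algebraMap_injective _ _).2
    (RingHom.lift_injective_of_ker_le_ideal _ _ (fun r hr => (h r).1 hr))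
  have hint : (algebraMap R0 k).IsIntegral :=
    RingHom.IsIntegral.tower_top (Int.castRingHom R0) _ (by
      rw [RingHom.ext_int ((algebraMap R0 k).comp (Int.castRingHom R0)) (Int.castRingHom k)]
      exact hk)
  have : Algebra.IsAlgebraic R0 k := ⟨fun a => IsIntegral.isAlgebraic (hint a)⟩
  let ι : k →ₐ[R0] κ := IsAlgClosed.lift
  refine ⟨ι.toRingHom, RingHom.ext fun r => ?_⟩
  exact ι.commutes (Ideal.Quotient.mk _ r)

theorem exists_component (p : ℕ) (hp : p.Prime) : ∃ (d : ℕ) (g : ℤ), 1 ≤ d ∧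
    ∀ H : Scheme.{0}, IsHilbertScheme d g H → ∃ Z ∈ irreducibleComponents H,
      (specZIsTerminal.from H) '' Z = {x | x.asIdeal = Ideal.span {(p : ℤ)}} := by
  classical
  have : Fact p.Prime := ⟨hp⟩
  let k := AlgebraicClosure (ZMod p)
  have hk : (Int.castRingHom k).IsIntegral := by
    rw [RingHom.ext_int (Int.castRingHom k)
      ((algebraMap (ZMod p) k).comp (Int.castRingHom (ZMod p)))]
    exact RingHom.IsIntegral.trans _ _
      (RingHom.isIntegral_of_surjective _ (ZMod.ringHom_surjective _))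
      (fun a => Algebra.IsIntegral.isIntegral a)
  obtain ⟨F, hF⟩ := exists_aff_char p k
  let e := 4 * Fintype.card (Jx (Ix p) (Ix p)) ^ 2 + 1
  obtain ⟨d, g, hd, N, hN⟩ := exists_hilbert_poly (cfg F e)
  refine ⟨d, g, hd, ?_⟩
  rintro H ⟨fam, hfam, hnat, -, hsurj⟩
  obtain ⟨s0, hs0⟩ := hsurj (.of k) (I0 (cfg F e)) (isFamily_of_field (I0_hom _) hN)
  let pt : Spec (.of k) := closedPoint k
  obtain ⟨R, j, hj, y, hy⟩ := Scheme.exists_Spec_apply_eq (s0 pt)
  have hrange : Set.range s0 ⊆ Set.range j := by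
    rintro _ ⟨z, rfl⟩
    exact ⟨y, by rw [hy, Subsingleton.elim z pt]⟩
  let ψ : R ⟶ .of k := Spec.preimage (IsOpenImmersion.lift j s0 hrange)
  have hψ : Spec.map ψ ≫ j = s0 := by simp [ψ]
  have hyψ : y = Spec.map ψ pt := by
    apply j.isOpenEmbedding.injective
    rw [hy, ← hψ]; simp
  have hker : ∀ r, r ∈ y.asIdeal ↔ ψ.hom r = 0 := by
    intro r
    rw [hyψ]
    change (ψ.hom r : k) ∈ maximalIdeal k ↔ (ψ.hom r : k) = 0
    rw [IsLocalRing.maximalIdeal_eq_bot, Ideal.mem_bot]
  let Z := irreducibleComponent (s0 pt)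
  obtain ⟨η, hη⟩ := QuasiSober.sober (isIrreducible_irreducibleComponent (x := s0 pt))
    isClosed_irreducibleComponent
  have hsp : η ⤳ s0 pt := hη.specializes mem_irreducibleComponent
  obtain ⟨y', rfl⟩ : η ∈ Set.range j :=
    hsp.mem_open j.isOpenEmbedding.isOpen_range ⟨y, hy⟩
  have hle : y'.asIdeal ≤ y.asIdeal := by
    rw [← hy, j.isOpenEmbedding.isInducing.specializes_iff] at hsp
    exact (PrimeSpectrum.le_iff_specializes y' y).2 hsp
  have hpy : (p : R) ∈ y'.asIdeal := by
    obtain ⟨K, _, _, V, θ, hθ, hθ'⟩ := exists_valuation y'.asIdeal y.asIdeal hle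
    have := isAlgClosed_residueField V
    obtain ⟨ι, hι⟩ := exists_embedding (k := k) hk ψ.hom ((residue V).comp θ)
      (fun r => (hθ r).trans (hker r))
    apply hθ'
    have hJ := hfam (.of V) (Spec.map (CommRingCat.ofHom θ) ≫ j)
    have h1 := hnat (.of V) (.of (ResidueField V)) (CommRingCat.ofHom (residue V))
      (Spec.map (CommRingCat.ofHom θ) ≫ j)
    have h2 := hnat (.of k) (.of (ResidueField V)) (CommRingCat.ofHom ι) s0
    have h3 : Spec.map (CommRingCat.ofHom (residue V)) ≫ Spec.map (CommRingCat.ofHom θ) ≫ j =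
        Spec.map (CommRingCat.ofHom ι) ≫ s0 := by
      rw [← hψ, ← Category.assoc, ← Category.assoc, ← Spec.map_comp, ← Spec.map_comp]
      congr 2
      ext1
      exact hι.symm
    rw [h3] at h1
    have h4 := no_lift p F hF (e := e) le_rfl (V := V) (K := K) ι hJ.1 hJ.2.2.1
      (fun i => (h1 i).symm.trans ((h2 i).trans (SameSub.map ι hs0 i)))
    simpa using h4
  have hmax : (Ideal.span {(p : ℤ)}).IsMaximal :=
    PrincipalIdealRing.isMaximal_of_irreducible (Nat.prime_iff_prime_int.1 hp).irreducible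
  have hπ : j ≫ specZIsTerminal.from H = Spec.map (CommRingCat.ofHom (Int.castRingHom R)) :=
    specZIsTerminal.hom_ext _ _
  have hη' : Ideal.span {(p : ℤ)} ≤ (specZIsTerminal.from H (j y')).asIdeal := by
    rw [← Scheme.Hom.comp_apply, hπ, Ideal.span_singleton_le_iff_mem]
    change Int.castRingHom R p ∈ y'.asIdeal
    simpa using hpy
  have hall : ∀ z ∈ Z, (specZIsTerminal.from H z).asIdeal = Ideal.span {(p : ℤ)} := by
    intro z hz
    have h1 := (hη.specializes hz).map (specZIsTerminal.from H).continuous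
    have h2 := (PrimeSpectrum.le_iff_specializes _ _).2 h1
    exact (hmax.eq_of_le (specZIsTerminal.from H z).isPrime.ne_top (hη'.trans h2)).symm
  refine ⟨Z, irreducibleComponent_mem_irreducibleComponents _, ?_⟩
  ext x
  constructor
  · rintro ⟨z, hz, rfl⟩
    exact hall z hz
  · intro hx
    exact ⟨s0 pt, mem_irreducibleComponent,
      PrimeSpectrum.ext ((hall _ mem_irreducibleComponent).trans hx.symm)⟩

end Pool.Agent.MP_eba2ed_ag

end
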