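import Pool.Agent.Mg.Feba2ed.Gbcc4b2
import Pool.Agent.Mg.Feba2ed.Gddec95
import Pool.Agent.Mg.Feba2ed.G70a764

section

/-! Saturation, base change and locality of families. -/

namespace Pool.Agent.MP_eba2ed_ag

open MvPolynomial Module IsLocalRing

variable {R : Type} [CommRing R]

/-- The largest homogeneous ideal contained in four given ideals. -/
noncomputable def sat (c : Fin 4 → Ideal (A R)) : Ideal (A R) :=
  Ideal.span {f | (∀ i, f ∈ c i) ∧ ∃ n, f.IsHomogeneous n}

lemma sat_homog (c : Fin 4 → Ideal (A R)) : IsHomog (sat c) := isHomog_span fun _ hf => hf.2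

lemma sat_le (c : Fin 4 → Ideal (A R)) (i : Fin 4) : sat c ≤ c i :=
  Ideal.span_le.2 fun _ hf => hf.1 i

lemma mem_sat {c : Fin 4 → Ideal (A R)} {f : A R} {n : ℕ} (hf : f.IsHomogeneous n) :
    f ∈ sat c ↔ ∀ i, f ∈ c i :=
  ⟨fun h i => sat_le c i h, fun h => Ideal.subset_span ⟨h, n, hf⟩⟩

lemma le_sat {c : Fin 4 → Ideal (A R)} {I : Ideal (A R)} (hI : IsHomog I) (h : ∀ i, I ≤ c i) :
    I ≤ sat c :=
  hI.le_of_homog fun _ _ hf hn => (mem_sat hn).2 fun i => h i hf

lemma le_chart (I : Ideal (A R)) (i : Fin 4) : I ≤ chart I i := le_sup_left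

lemma X_sub_one_mem (I : Ideal (A R)) (i : Fin 4) : X i - 1 ∈ chart I i :=
  Ideal.mem_sup_right (Ideal.subset_span rfl)

lemma mem_of_X_pow_mul {c : Ideal (A R)} {i : Fin 4} (hc : X i - 1 ∈ c) {f : A R} {M : ℕ}
    (h : X i ^ M * f ∈ c) : f ∈ c := by
  obtain ⟨u, hu⟩ := sub_one_dvd_pow_sub_one (X i : A R) M
  have : f = X i ^ M * f - (X i - 1) * (u * f) := by rw [← mul_assoc, ← hu]; ring
  rw [this]
  exact sub_mem h (Ideal.mul_mem_right _ _ hc)

lemma sat_sat (I : Ideal (A R)) {f : A R} {n : ℕ} (hf : f.IsHomogeneous n)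
    (h : ∀ i, X i * f ∈ sat (chart I)) : f ∈ sat (chart I) :=
  (mem_sat hf).2 fun i => mem_of_X_pow_mul (X_sub_one_mem I i) (M := 1)
    (by rw [pow_one]; exact sat_le _ i (h i))

lemma bc_sat_le {R' : Type} [CommRing R'] (φ : R →+* R') (I : Ideal (A R)) :
    bc φ (sat (chart I)) ≤ sat (chart (bc φ I)) :=
  le_sat ((sat_homog _).map φ) fun i => by
    rw [← chart_map]; exact Ideal.map_mono (sat_le _ i)

lemma SameSub.sat_eq {I J : Ideal (A R)} (h : SameSub I J) : sat (chart I) = sat (chart J) := by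
  rw [show chart I = chart J from funext h]

lemma mem_of_kos {J : Ideal (A R)} (hJ : IsHomog J) {m : ℕ} (hK : ∀ n, m ≤ n → Kos J n) {k : ℕ}
    (hk : m ≤ k) {f : A R} (hf : f.IsHomogeneous k) (h : f ∈ sat (chart J)) : f ∈ J := by
  have h1 : irr R ≤ (Submodule.colon J {f}).radical := by
    rw [irr_le_iff]
    intro i
    obtain ⟨M, hM⟩ := exists_X_pow_mul_mem hJ hf (sat_le _ i h)
    exact ⟨M, Submodule.mem_colon_singleton.2 hM⟩
  obtain ⟨t, ht⟩ := Ideal.exists_pow_le_of_le_radical_of_fg h1 (idealOfVars_fg _ _)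
  have h2 : ∀ a ∈ irr R ^ t, a * f ∈ J := fun a ha => Submodule.mem_colon_singleton.1 (ht ha)
  clear ht h1 h
  induction t generalizing k f with
  | zero => simpa using h2 1 (by simp)
  | succ t ih =>
    refine (hK k hk).sat hf fun i => ih (k := 1 + k) (by omega) ((isHomogeneous_X R i).mul hf) ?_
    intro a ha
    rw [← mul_assoc]
    exact h2 _ (by rw [pow_succ]; exact Ideal.mul_mem_mul ha (X_mem_irr i))

lemma sat_iff_of_kos {J : Ideal (A R)} (hJ : IsHomog J) {m : ℕ} (hK : ∀ n, m ≤ n → Kos J n)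
    {k : ℕ} (hk : m ≤ k) {f : A R} (hf : f.IsHomogeneous k) : f ∈ J ↔ f ∈ sat (chart J) :=
  ⟨fun h => le_sat hJ (le_chart J) h, mem_of_kos hJ hK hk hf⟩

lemma chart_le_of {I J : Ideal (A R)} (hI : IsHomog I) {m : ℕ}
    (h : ∀ k, m ≤ k → ∀ f ∈ I, f.IsHomogeneous k → f ∈ J) (i : Fin 4) :
    chart I i ≤ chart J i := by
  refine sup_le (hI.le_of_homog fun n f hf hn => ?_) le_sup_right
  refine mem_of_X_pow_mul (X_sub_one_mem J i) (M := m) (le_chart J i ?_)
  exact h (m + n) (by omega) _ (Ideal.mul_mem_left _ _ hf)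
    (by simpa using ((isHomogeneous_X R i).pow m).mul hn)

lemma chart_le_of_le_sat {I J : Ideal (A R)} (h : I ≤ sat (chart J)) (i : Fin 4) :
    chart I i ≤ chart J i :=
  sup_le (h.trans (sat_le _ i)) le_sup_right

/-- The Hilbert polynomial of an ideal over a field is `d t + 1 - g`. -/
def HP (d : ℕ) (g : ℤ) {K : Type} [Field K] (I : Ideal (A K)) : Prop :=
  ∃ N : ℕ, ∀ n : ℕ, N ≤ n → (hilbFun I n : ℤ) = d * n + 1 - g

lemma hf_congr {K : Type} [Field K] {I J : Ideal (A K)} {n : ℕ}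
    (h : ∀ f : A K, f.IsHomogeneous n → (f ∈ I ↔ f ∈ J)) : hilbFun I n = hilbFun J n :=
  le_antisymm (hf_le_of_pc_le fun f hf hn => (h f hn).2 hf)
    (hf_le_of_pc_le fun f hf hn => (h f hn).1 hf)

lemma HP.of_same {d : ℕ} {g : ℤ} {K : Type} [Field K] {I J : Ideal (A K)} (h : HP d g I)
    (hI : IsHomog I) (hJ : IsHomog J) (e : SameSub I J) : HP d g J := by
  obtain ⟨N, hN⟩ := h
  obtain ⟨N1, h1⟩ := kos_large hI
  obtain ⟨N2, h2⟩ := kos_large hJ
  refine ⟨N + N1 + N2, fun n hn => ?_⟩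
  rw [← hN n (by omega)]
  congr 1
  refine hf_congr fun f hf => ?_
  rw [sat_iff_of_kos hJ h2 (by omega) hf, sat_iff_of_kos hI h1 (by omega) hf, e.sat_eq]

lemma HP.map {d : ℕ} {g : ℤ} {K K' : Type} [Field K] [Field K'] {I : Ideal (A K)} (h : HP d g I)
    (hI : IsHomog I) (φ : K →+* K') : HP d g (bc φ I) := by
  let := φ.toAlgebra
  obtain ⟨N, hN⟩ := h
  exact ⟨N, fun n hn => by rw [← hN n hn]; exact congrArg _ (hf_map hI n)⟩

lemma IsFamily.hp {d : ℕ} {g : ℤ} {I : Ideal (A R)} (h : IsFamily d g I) {K : Type} [Field K]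
    (φ : R →+* K) : HP d g (bc φ I) := by
  have := RingHom.ker_isPrime φ
  let q := RingHom.ker φ
  let ι : q.ResidueField →+* K := Ideal.ResidueField.lift q φ le_rfl (fun a ha => Ne.isUnit ha)
  have h1 : ι.comp (algebraMap R _) = φ := by ext; simp [ι]
  rw [← h1, ← bc_bc]
  exact HP.map (h.2.2.2 ⟨q, this⟩) (h.1.map _) ι

lemma flat_bc {R' : Type} [CommRing R'] (φ : R →+* R') {c : Ideal (A R)}
    (h : Flat R (A R ⧸ c)) : Flat R' (A R' ⧸ bc φ c) := by
  let := φ.toAlgebra
  exact Flat.isBaseChange R R' _ _ (isBaseChange_qm R' c)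

lemma IsFamily.map {d : ℕ} {g : ℤ} {I : Ideal (A R)} (h : IsFamily d g I) {R' : Type}
    [CommRing R'] (φ : R →+* R') : IsFamily d g (bc φ I) := by
  refine ⟨h.1.map φ, h.2.1.map _, fun i => ?_, fun q => ?_⟩
  · rw [← chart_map]; exact flat_bc φ (h.2.2.1 i)
  · have := h.hp ((algebraMap R' q.asIdeal.ResidueField).comp φ)
    rwa [← bc_bc] at this

lemma flat_of_local {c : Ideal (A R)} (h : ∀ (P : Ideal R) [P.IsMaximal],
    Flat (Localization.AtPrime P) (A (Localization.AtPrime P) ⧸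
      bc (algebraMap R (Localization.AtPrime P)) c)) : Flat R (A R ⧸ c) := by
  have : ∀ (P : Ideal R) [P.IsMaximal], IsLocalizedModule.AtPrime P
      (qm (Localization.AtPrime P) c) := fun P _ =>
    (isLocalizedModule_iff_isBaseChange P.primeCompl (Localization.AtPrime P) _).2
      (isBaseChange_qm _ c)
  refine @flat_of_isLocalized_maximal R R _ _ _ _ _ _ _ _ (fun P _ => A (Localization.AtPrime P) ⧸
    bc (algebraMap R (Localization.AtPrime P)) c) _ _ _ _
    (fun P _ => qm (Localization.AtPrime P) c) this ?_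
  intro P _
  exact (flat_iff_of_isLocalization (Localization.AtPrime P) P.primeCompl _).1 (h P)

lemma exists_homogenize (J : Ideal (A R)) (i : Fin 4) (p : A R) {N : ℕ} (hN : p.totalDegree ≤ N) :
    ∃ p' : A R, p'.IsHomogeneous N ∧ p' - p ∈ chart J i := by
  refine ⟨∑ j ∈ Finset.range (p.totalDegree + 1), X i ^ (N - j) * homogeneousComponent j p,
    IsHomogeneous.sum _ _ _ fun j hj => ?_, ?_⟩
  · have := ((isHomogeneous_X R i).pow (N - j)).mul (homogeneousComponent_isHomogeneous j p)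
    rwa [show 1 * (N - j) + j = N by simp at hj; omega] at this
  · conv => enter [2, 2]; rw [← sum_homogeneousComponent p]
    rw [← Finset.sum_sub_distrib]
    refine Ideal.sum_mem _ fun j _ => ?_
    rw [← sub_one_mul]
    exact Ideal.mul_mem_right _ _ (Ideal.mem_of_dvd _ (sub_one_dvd_pow_sub_one _ _)
      (X_sub_one_mem J i))

lemma flat_chart {J : Ideal (A R)} (hJ : IsHomog J) {m : ℕ}
    (h : ∀ k, m ≤ k → Projective R (Mn J k)) (i : Fin 4) : Flat R (A R ⧸ chart J i) := by
  refine Flat.of_forall_isTrivialRelation fun {l f x} hx => ?_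
  choose p hp using fun a => Ideal.Quotient.mk_surjective (x a)
  let N := m + Finset.univ.sup fun a => (p a).totalDegree
  choose p' hp' h1 using fun a => exists_homogenize J i (p a) (N := N)
    ((Finset.le_sup (f := fun a => (p a).totalDegree) (Finset.mem_univ a)).trans
      (Nat.le_add_left _ _))
  have h2 : ∀ a, Ideal.Quotient.mk (chart J i) (p' a) = x a := fun a => by
    rw [← hp, Ideal.Quotient.eq]; exact h1 a
  have h3 : (∑ a, f a • p' a).IsHomogeneous N :=
    (Hn R N).sum_mem fun a _ => (Hn R N).smul_mem _ (hp' a)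
  obtain ⟨M, hM⟩ := exists_X_pow_mul_mem hJ (i := i) h3 (by
    rw [← Ideal.Quotient.eq_zero_iff_mem, ← hx, ← Ideal.Quotient.mkₐ_eq_mk R, map_sum]
    simp [h2])
  have := h (M + N) (by omega)
  let x' : Fin l → Mn J (M + N) := fun a => ⟨Ideal.Quotient.mk J (X i ^ M * p' a),
    mem_Mn.2 ⟨_, by simpa using ((isHomogeneous_X R i).pow M).mul (hp' a), rfl⟩⟩
  have h4 : ∑ a, f a • x' a = 0 := by
    apply Subtype.ext
    rw [← Ideal.Quotient.eq_zero_iff_mem, Finset.mul_sum, ← Ideal.Quotient.mkₐ_eq_mk R,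
      map_sum] at hM
    simpa [x'] using hM
  obtain ⟨k, a, y, h5, h6⟩ := Flat.isTrivialRelation_of_sum_smul_eq_zero h4
  let π : Mn J (M + N) →ₗ[R] (A R ⧸ chart J i) :=
    (Ideal.Quotient.factorₐ R (le_chart J i)).toLinearMap ∘ₗ (Mn J (M + N)).subtype
  refine ⟨k, a, fun j => π (y j), fun b => ?_, h6⟩
  have h7 : π (x' b) = x b := by
    rw [← h2]
    change Ideal.Quotient.mk (chart J i) (X i ^ M * p' b) = _
    rw [Ideal.Quotient.eq, ← sub_one_mul]
    exact Ideal.mul_mem_right _ _ (Ideal.mem_of_dvd _ (sub_one_dvd_pow_sub_one _ _)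
      (X_sub_one_mem J i))
  rw [← h7, h5 b, map_sum]
  simp

lemma mem_of_local {c : Ideal (A R)} {f : A R}
    (h : ∀ P : Ideal R, P.IsMaximal → ∃ t ∉ P, C t * f ∈ c) : f ∈ c := by
  let b : Ideal R := (Submodule.colon c {f}).comap C
  have : b = ⊤ := by
    by_contra hb
    obtain ⟨P, hP, hle⟩ := Ideal.exists_le_maximal b hb
    obtain ⟨t, ht, h1⟩ := h P hP
    exact ht (hle (Submodule.mem_colon_singleton.2 h1))
  have h1 : (1 : R) ∈ b := this ▸ Submodule.mem_top
  simpa using Submodule.mem_colon_singleton.1 h1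

lemma le_of_away {c c' : Ideal (A R)} (h : ∀ P : Ideal R, P.IsPrime → ∃ g ∉ P,
    bc (algebraMap R (Localization.Away g)) c ≤ bc (algebraMap R (Localization.Away g)) c') :
    c ≤ c' := by
  intro f hf
  refine mem_of_local fun P hP => ?_
  obtain ⟨g, hg, h1⟩ := h P hP.isPrime
  obtain ⟨_, ⟨n, rfl⟩, h2⟩ := spread (Submonoid.powers g) (h1 (Ideal.mem_map_of_mem _ hf))
  exact ⟨_, fun h3 => hg (hP.isPrime.mem_of_pow_mem n h3), h2⟩

/-- Monomials that are independent in the closed fibre are independent over a local ring. -/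
lemma indep_of_flat [IsLocalRing R] {I : Ideal (A R)} (hflat : ∀ i, Flat R (A R ⧸ chart I i))
    {B : Set Mono} {k : ℕ} (hB : BasisMod (sat (chart (bc (residue R) I))) B k) :
    ∀ g ∈ restrictSupport R B, g ∈ sat (chart I) → g = 0 := by
  let κ := ResidueField R
  let L : A R →ₗ[R] (∀ i, A R ⧸ chart I i) :=
    LinearMap.pi fun i => (Ideal.Quotient.mkₐ R (chart I i)).toLinearMap
  let L' : A κ →ₗ[κ] (∀ i, A κ ⧸ bc (algebraMap R κ) (chart I i)) :=
    LinearMap.pi fun i => (Ideal.Quotient.mkₐ κ _).toLinearMap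
  let ρ : (∀ i, A R ⧸ chart I i) →ₗ[R] (∀ i, A κ ⧸ bc (algebraMap R κ) (chart I i)) :=
    LinearMap.pi fun i => qm κ (chart I i) ∘ₗ LinearMap.proj i
  have h1 : LinearIndepOn κ (fun m => L' (monomial m 1)) B := by
    rw [indep_iff]
    intro g hg h0
    refine hB.indep g hg ((mem_sat (homog_of_restrict hB.deg hg)).2 fun i => ?_)
    rw [← chart_map]
    exact Ideal.Quotient.eq_zero_iff_mem.1 (congrFun h0 i)
  have h2 : Flat R (∀ i, A R ⧸ chart I i) :=
    .of_linearEquiv (DirectSum.linearEquivFunOnFintype R (Fin 4) _).symm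
  have h3 : LinearIndepOn R (fun m => L (monomial m 1)) B := by
    refine IsLocalRing.linearIndependent_of_flat _ (LinearIndependent.of_comp
      (LinearMap.liftBaseChange κ ρ) ?_)
    have e : (⇑(LinearMap.liftBaseChange κ ρ) ∘
        ⇑(TensorProduct.mk R (ResidueField R) (∀ i, A R ⧸ chart I i) 1) ∘
          fun x : B => L (monomial x.1 1)) = fun x : B => L' (monomial x.1 1) := by
      funext m i
      simp [ρ, L, L', qm_mk]
    exact e ▸ h1
  intro g hg hgI
  refine (indep_iff L B).1 h3 g hg ?_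
  funext i
  exact Ideal.Quotient.eq_zero_iff_mem.2 (sat_le _ i hgI)

lemma basis_of_lifts [IsLocalRing R] {I : Ideal (A R)} (hflat : ∀ i, Flat R (A R ⧸ chart I i))
    {B : Set Mono} {k : ℕ} (hB : BasisMod (sat (chart (bc (residue R) I))) B k)
    (hL : Lifts (sat (chart I)) (sat (chart (bc (residue R) I))) k) :
    BasisMod (sat (chart I)) B k := by
  refine ⟨hB.deg, fun f hf => ?_, indep_of_flat hflat hB⟩
  let J := sat (chart I)
  have h1 : Mn J k ≤ (restrictSupport R B).map (Ideal.Quotient.mkₐ R J).toLinearMap := by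
    refine Submodule.le_of_le_smul_of_le_jacobson_bot (I := maximalIdeal R)
      (Module.Finite.iff_fg.1 inferInstance) (maximalIdeal_le_jacobson _) ?_
    rintro _ ⟨p, hp, rfl⟩
    obtain ⟨gb, hgb, h2⟩ := hB.span _ (IsHomogeneous.map hp (residue R))
    obtain ⟨g, hg, h3⟩ : ∃ g ∈ restrictSupport R B, MvPolynomial.map (residue R) g = gb := by
      choose s hs using residue_surjective (R := R)
      refine ⟨∑ m ∈ gb.support, monomial m (s (coeff m gb)), Submodule.sum_mem _ fun m hm =>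
        (monomial_mem_restrictSupport R).2 (Or.inl (hgb hm)), ?_⟩
      rw [map_sum]
      conv_rhs => rw [gb.as_sum]
      simp [hs]
    refine Submodule.mem_sup.2 ⟨_, ⟨g, hg, rfl⟩, _, hL (p - g)
      (IsHomogeneous.sub hp (homog_of_restrict hB.deg hg)) (by rwa [map_sub, h3]), by simp [J]⟩
  obtain ⟨g, hg, h2⟩ := h1 ⟨f, hf, rfl⟩
  exact ⟨g, hg, Ideal.Quotient.eq.1 h2.symm⟩

/-- Cohomology and base change for a flat family over a local ring. -/
theorem lifts_of_kos [IsLocalRing R] {I : Ideal (A R)} (hI : IsHomog I)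
    (hflat : ∀ i, Flat R (A R ⧸ chart I i)) {m : ℕ}
    (hK : ∀ n, m ≤ n → Kos (sat (chart (bc (residue R) I))) n) :
    ∀ k, m ≤ k → Lifts (sat (chart I)) (sat (chart (bc (residue R) I))) k := by
  obtain ⟨N, hN⟩ := kos_large (hI.map (residue R))
  have key : ∀ t k, m ≤ k → N ≤ k + t →
      Lifts (sat (chart I)) (sat (chart (bc (residue R) I))) k := by
    intro t
    induction t with
    | zero =>
      intro k _ hk f hf hfb
      obtain ⟨a, h1, h2, h3⟩ := exists_lift_bc hI (hf.map _)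
        (mem_of_kos (hI.map _) hN hk (hf.map _) hfb)
      exact lifts_of hf h1 (le_sat hI (le_chart I) h2) h3
    | succ t ih =>
      intro k hk hk'
      obtain ⟨B, hB⟩ := exists_basisMod (sat (chart (bc (residue R) I))) (k + 2)
      exact lifts_down (bc_sat_le _ I) (fun f hf => sat_sat I hf) (hK k hk)
        (ih _ (by omega) (by omega))
        (basis_of_lifts hflat hB (ih _ (by omega) (by omega))).proj
  exact fun k hk => key N k hk (by omega)

end Pool.Agent.MP_eba2ed_ag

end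

section

/-! Ideals given by monomial bases in four consecutive degrees. -/

namespace Pool.Agent.MP_eba2ed_ag

open MvPolynomial Module IsLocalRing

/-- Monomials of degree between `m` and `m + 3`. -/
abbrev Mons (m : ℕ) : Type := {μ : Mono // m ≤ μ.degree ∧ μ.degree ≤ m + 3}

instance (m : ℕ) : Finite (Mons m) :=
  ((Finsupp.finite_of_degree_le (σ := Fin 4) (m + 3)).subset (fun _ h => h.2)).to_subtype

noncomputable instance (m : ℕ) : Fintype (Mons m) := Fintype.ofFinite _

def Bk (B : Set Mono) (k : ℕ) : Set Mono := {b | b ∈ B ∧ b.degree = k}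

variable {R : Type} [CommRing R] {m : ℕ}

open Classical in
/-- The normal forms of the monomials. -/
noncomputable def rr (t : Mons m × Mons m → R) (μ : Mono) : A R :=
  if h : m ≤ μ.degree ∧ μ.degree ≤ m + 3 then ∑ b : Mons m, monomial b.1 (t (⟨μ, h⟩, b)) else 0

lemma rr_mons (t : Mons m × Mons m → R) (μ : Mons m) :
    rr t μ.1 = ∑ b : Mons m, monomial b.1 (t (μ, b)) := dif_pos μ.2

lemma coeff_rr (t : Mons m × Mons m → R) (μ b : Mons m) : coeff b.1 (rr t μ.1) = t (μ, b) := by
  classical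
  rw [rr_mons, coeff_sum, Finset.sum_eq_single b]
  · simp
  · intro c _ hc
    rw [coeff_monomial, if_neg (fun h => hc (Subtype.ext h))]
  · simp

lemma map_rr {R' : Type} [CommRing R'] (φ : R →+* R') (t : Mons m × Mons m → R) (μ : Mono) :
    MvPolynomial.map φ (rr t μ) = rr (φ ∘ t) μ := by
  unfold rr
  split_ifs <;> simp

/-- The ideal generated by the relations. -/
noncomputable def Jt (t : Mons m × Mons m → R) : Ideal (A R) :=
  Ideal.span (Set.range fun μ : Mons m => monomial μ.1 1 - rr t μ.1)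

lemma bc_Jt {R' : Type} [CommRing R'] (φ : R →+* R') (t : Mons m × Mons m → R) :
    bc φ (Jt t) = Jt (φ ∘ t) := by
  rw [Jt, Jt, bc, Ideal.map_span, ← Set.range_comp]
  congr 2
  funext μ
  simp [map_rr]

lemma Jt_fg (t : Mons m × Mons m → R) : (Jt t).FG := Submodule.fg_span (Set.finite_range _)

lemma rel_mem (t : Mons m × Mons m → R) {μ : Mono} (h1 : m ≤ μ.degree) (h2 : μ.degree ≤ m + 3) :
    monomial μ 1 - rr t μ ∈ Jt t := Ideal.subset_span ⟨⟨μ, h1, h2⟩, rfl⟩

open Classical in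
/-- The equations of the chart. -/
noncomputable def eqn (B : Set Mono) (t : Mons m × Mons m → R) :
    (Mons m × Mons m) ⊕ Mons m ⊕ (Mons m × Fin 4) → A R
  | .inl p => if p.2.1 ∈ Bk B p.1.1.degree then 0 else C (t p)
  | .inr (.inl μ) => if μ.1 ∈ B then rr t μ.1 - monomial μ.1 1 else 0
  | .inr (.inr p) => if p.1.1.degree < m + 3 then
      rd (rr t) (X p.2 * (monomial p.1.1 1 - rr t p.1.1)) else 0

lemma map_eqn {R' : Type} [CommRing R'] (φ : R →+* R') (B : Set Mono) (t : Mons m × Mons m → R)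
    (e : (Mons m × Mons m) ⊕ Mons m ⊕ (Mons m × Fin 4)) :
    MvPolynomial.map φ (eqn B t e) = eqn B (φ ∘ t) e := by
  rcases e with p | μ | p <;> simp only [eqn] <;> split_ifs <;> simp [map_rr, map_rd]

def Good (B : Set Mono) (t : Mons m × Mons m → R) : Prop := ∀ e, eqn B t e = 0

lemma Good.map {B : Set Mono} {t : Mons m × Mons m → R} (h : Good B t) {R' : Type} [CommRing R']
    (φ : R →+* R') : Good B (φ ∘ t) := fun e => by rw [← map_eqn, h e, map_zero]

lemma good_iff {B : Set Mono} {t : Mons m × Mons m → R} : Good B t ↔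
    (∀ μ : Mons m, rr t μ.1 ∈ restrictSupport R (Bk B μ.1.degree)) ∧
    (∀ μ : Mons m, μ.1 ∈ B → rr t μ.1 = monomial μ.1 1) ∧
    ∀ μ : Mons m, μ.1.degree < m + 3 → ∀ i, rd (rr t) (X i * (monomial μ.1 1 - rr t μ.1)) = 0 := by
  constructor
  · intro h
    refine ⟨fun μ => ?_, fun μ hμ => ?_, fun μ hμ i => ?_⟩
    · rw [rr_mons]
      refine Submodule.sum_mem _ fun b _ => (monomial_mem_restrictSupport R).2 ?_
      by_cases hb : b.1 ∈ Bk B μ.1.degree
      · exact Or.inl hb
      · have := h (.inl (μ, b))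
        simp only [eqn, hb, if_false] at this
        exact Or.inr (by simpa using this)
    · have := h (.inr (.inl μ))
      simp only [eqn, hμ, if_true] at this
      exact sub_eq_zero.1 this
    · have := h (.inr (.inr (μ, i)))
      simpa only [eqn, hμ, if_true] using this
  · rintro ⟨h1, h2, h3⟩ e
    rcases e with ⟨μ, b⟩ | μ | ⟨μ, i⟩ <;> simp only [eqn] <;> split_ifs with h
    · rfl
    · rw [← coeff_rr t, (MvPolynomial.notMem_support_iff (p := rr t μ.1)).1
        (fun hb => h (h1 μ hb)), map_zero]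
    · rw [h2 μ h, sub_self]
    · rfl
    · exact h3 μ h i
    · rfl

lemma Good.rel_homog {B : Set Mono} {t : Mons m × Mons m → R} (h : Good B t) (μ : Mons m) :
    (monomial μ.1 1 - rr t μ.1 : A R).IsHomogeneous μ.1.degree :=
  (isHomogeneous_monomial _ rfl).sub (homog_of_restrict (fun _ hb => hb.2) ((good_iff.1 h).1 μ))

lemma Good.homog {B : Set Mono} {t : Mons m × Mons m → R} (h : Good B t) : IsHomog (Jt t) :=
  isHomog_span (by rintro _ ⟨μ, rfl⟩; exact ⟨_, h.rel_homog μ⟩)

lemma Good.kill {B : Set Mono} {t : Mons m × Mons m → R} (h : Good B t) {f : A R} (hf : f ∈ Jt t) :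
    ∀ k, k ≤ m + 3 → rd (rr t) (homogeneousComponent k f) = 0 ∧
      (k < m → homogeneousComponent k f = 0) := by
  obtain ⟨h1, h2, h3⟩ := good_iff.1 h
  let Q : A R → Prop := fun f => ∀ k, k ≤ m + 3 → rd (rr t) (homogeneousComponent k f) = 0 ∧
      (k < m → homogeneousComponent k f = 0)
  have hadd : ∀ f g, Q f → Q g → Q (f + g) := fun f g hf hg k hk =>
    ⟨by rw [map_add, map_add, (hf k hk).1, (hg k hk).1, add_zero],
      fun hm => by rw [map_add, (hf k hk).2 hm, (hg k hk).2 hm, add_zero]⟩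
  have hX : ∀ i f, Q f → Q (X i * f) := by
    intro i f hf k hk
    cases k with
    | zero =>
      have : homogeneousComponent 0 (X i * f) = 0 := comp_eq_zero_of_mem_irr_pow (M := 1)
        (by rw [pow_one]; exact Ideal.mul_mem_right _ _ (X_mem_irr i)) (by omega)
      simp [this]
    | succ k =>
      rw [mul_comm, comp_mul_homog (isHomogeneous_X R i), mul_comm]
      by_cases hm : k < m
      · simp [(hf k (by omega)).2 hm]
      · refine ⟨?_, fun h => by omega⟩
        have := sub_rd_mem (r := rr t) (f := homogeneousComponent k f)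
          (N := LinearMap.ker (rd (rr t) ∘ₗ LinearMap.mulLeft R (X i))) (fun μ hμ => by
            have hd := degree_of_mem (homogeneousComponent_isHomogeneous k f) hμ
            exact h3 ⟨μ, by omega, by omega⟩ (by simp only; omega) i)
        rw [(hf k (by omega)).1, sub_zero] at this
        exact this
  have hmul : ∀ c f, Q f → Q (c * f) := by
    intro c
    induction c using MvPolynomial.induction_on with
    | C a =>
      intro f hf k hk
      rw [← smul_eq_C_mul, map_smul, map_smul]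
      exact ⟨by rw [(hf k hk).1, smul_zero], fun hm => by rw [(hf k hk).2 hm, smul_zero]⟩
    | add p q hp hq => intro f hf; rw [add_mul]; exact hadd _ _ (hp f hf) (hq f hf)
    | mul_X p i hp => intro f hf; rw [mul_assoc]; exact hp _ (hX i f hf)
  change Q f
  induction hf using Submodule.span_induction with
  | mem x hx =>
    obtain ⟨μ, rfl⟩ := hx
    intro k hk
    rw [homogeneousComponent_of_mem (h.rel_homog μ)]
    split_ifs with hkμ
    · refine ⟨?_, fun hm => by have := μ.2.1; omega⟩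
      rw [map_sub, rd_monomial, map_one, one_mul, rd_self, sub_self]
      intro b hb
      have hb' := h1 μ hb
      have := μ.2
      exact h2 ⟨b, by rw [hb'.2]; exact this⟩ hb'.1
    · simp
  | zero => intro k _; simp
  | add x y _ _ hx hy => exact hadd _ _ hx hy
  | smul c x _ hx => exact hmul c x hx

lemma Good.basis {B : Set Mono} {t : Mons m × Mons m → R} (h : Good B t) {k : ℕ} (h1 : m ≤ k)
    (h2 : k ≤ m + 3) : BasisMod (Jt t) (Bk B k) k := by
  obtain ⟨h3, h4, -⟩ := good_iff.1 h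
  refine ⟨fun b hb => hb.2, fun f hf => ⟨rd (rr t) f, rd_mem fun μ hμ => ?_,
    sub_rd_mem (N := (Jt t).restrictScalars R) fun μ hμ => ?_⟩, fun g hg hgJ => ?_⟩
  · have hd := degree_of_mem hf hμ
    rw [← hd]
    exact h3 ⟨μ, by omega, by omega⟩
  · have hd := degree_of_mem hf hμ
    exact rel_mem t (by omega) (by omega)
  · have := (h.kill hgJ k h2).1
    rwa [homogeneousComponent_eq_self (homog_of_restrict (fun _ hb => hb.2) hg), rd_self] at this
    intro b hb
    have hb' := hg hb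
    exact h4 ⟨b, by rw [hb'.2]; omega⟩ hb'.1

lemma Good.gen {B : Set Mono} {t : Mons m × Mons m → R} (h : Good B t) {f : A R} (hf : f ∈ Jt t)
    {k : ℕ} (hk : m + 3 < k) (hfk : f.IsHomogeneous k) : f ∈ irr R * Jt t := by
  obtain ⟨c, hc⟩ := Ideal.mem_span_range_iff_exists_fun.1 hf
  rw [← homogeneousComponent_eq_self hfk, ← hc, map_sum]
  refine Ideal.sum_mem _ fun μ _ => ?_
  have := μ.2.2
  rw [show k = (k - μ.1.degree) + μ.1.degree by omega, comp_mul_homog (h.rel_homog μ)]
  refine Ideal.mul_mem_mul ?_ (rel_mem t μ.2.1 μ.2.2)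
  simpa using mem_irr_pow (M := 1) (homogeneousComponent_isHomogeneous (k - μ.1.degree) (c μ))
    (by omega)

lemma exists_good {J : Ideal (A R)} {B : Set Mono}
    (h : ∀ k, m ≤ k → k ≤ m + 3 → BasisMod J (Bk B k) k) :
    ∃ t : Mons m × Mons m → R, Good B t ∧ Jt t ≤ J := by
  choose r hr h1 using fun μ : Mons m =>
    (h _ μ.2.1 μ.2.2).span (monomial μ.1 1) (isHomogeneous_monomial _ rfl)
  let t : Mons m × Mons m → R := fun p => coeff p.2.1 (r p.1)
  have h2 : ∀ μ : Mons m, rr t μ.1 = r μ := by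
    intro μ
    ext b
    by_cases hb : m ≤ b.degree ∧ b.degree ≤ m + 3
    · exact coeff_rr t μ ⟨b, hb⟩
    · rw [(MvPolynomial.notMem_support_iff (p := r μ)).1
        (fun hb' => hb (by rw [(hr μ hb').2]; exact μ.2)),
        rr_mons, coeff_sum]
      classical
      refine Finset.sum_eq_zero fun c _ => ?_
      rw [coeff_monomial, if_neg (fun h : c.1 = b => hb (h ▸ c.2))]
  have h3 : Jt t ≤ J := Ideal.span_le.2 (by rintro _ ⟨μ, rfl⟩; simp only [h2]; exact h1 μ)
  refine ⟨t, good_iff.2 ⟨fun μ => h2 μ ▸ hr μ, fun μ hμ => ?_, fun μ hμ i => ?_⟩, h3⟩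
  · rw [h2]
    exact (sub_eq_zero.1 ((h _ μ.2.1 μ.2.2).indep _
      (sub_mem ((monomial_mem_restrictSupport R).2 (Or.inl ⟨hμ, rfl⟩)) (hr μ)) (h1 μ))).symm
  · have hm := μ.2.1
    have h4 : (X i * (monomial μ.1 1 - rr t μ.1) : A R).IsHomogeneous (1 + μ.1.degree) :=
      (isHomogeneous_X R i).mul ((isHomogeneous_monomial _ rfl).sub
        (homog_of_restrict (fun _ hb => hb.2) (h2 μ ▸ hr μ)))
    refine (h (1 + μ.1.degree) (by omega) (by omega)).indep _ (rd_mem fun ν hν => ?_) ?_
    · have hd := degree_of_mem h4 hν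
      have := hr ⟨ν, by omega, by omega⟩
      rw [← h2] at this
      rw [← hd]
      exact this
    · have h5 := sub_rd_mem (r := rr t) (N := J.restrictScalars R)
        (f := X i * (monomial μ.1 1 - rr t μ.1)) (fun ν hν => by
          have hd := degree_of_mem h4 hν
          exact h3 (rel_mem t (by omega) (by omega)))
      have h6 := sub_mem (J.mul_mem_left (X i) (h3 (rel_mem t μ.2.1 μ.2.2))) h5
      simpa using h6

lemma good_unique {J : Ideal (A R)} {B : Set Mono} {t t' : Mons m × Mons m → R}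
    (h : ∀ k, m ≤ k → k ≤ m + 3 → BasisMod J (Bk B k) k) (h1 : Good B t) (h2 : Good B t')
    (h3 : Jt t ≤ J) (h4 : Jt t' ≤ J) : t = t' := by
  funext ⟨μ, b⟩
  have h5 := sub_mem (h4 (rel_mem t' μ.2.1 μ.2.2)) (h3 (rel_mem t μ.2.1 μ.2.2))
  have h6 := (h _ μ.2.1 μ.2.2).indep _ (sub_mem ((good_iff.1 h1).1 μ) ((good_iff.1 h2).1 μ))
    (by simpa using h5)
  rw [← coeff_rr t, ← coeff_rr t', sub_eq_zero.1 h6]

/-- The ideal of equations in the universal coefficient ring. -/
noncomputable def relI (m : ℕ) (B : Set Mono) : Ideal (MvPolynomial (Mons m × Mons m) ℤ) :=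
  Ideal.span {a | ∃ e μ, a = coeff μ (eqn B X e)}

/-- The universal ring of the chart. -/
abbrev UR (m : ℕ) (B : Set Mono) : Type := MvPolynomial (Mons m × Mons m) ℤ ⧸ relI m B

noncomputable def tU (m : ℕ) (B : Set Mono) : Mons m × Mons m → UR m B :=
  Ideal.Quotient.mk (relI m B) ∘ X

lemma good_tU (m : ℕ) (B : Set Mono) : Good B (tU m B) := by
  intro e
  rw [tU, ← map_eqn]
  ext μ
  rw [coeff_map, coeff_zero, Ideal.Quotient.eq_zero_iff_mem]
  exact Ideal.subset_span ⟨e, μ, rfl⟩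

noncomputable def Good.lift {B : Set Mono} {t : Mons m × Mons m → R} (h : Good B t) :
    UR m B →+* R :=
  Ideal.Quotient.lift _ (eval₂Hom (Int.castRingHom R) t) (fun a ha => by
    refine (Ideal.span_le (I := RingHom.ker (eval₂Hom (Int.castRingHom R) t))).2 ?_ ha
    rintro _ ⟨e, μ, rfl⟩
    have e1 : (eval₂Hom (Int.castRingHom R) t) ∘ X = t := by funext p; simp
    rw [SetLike.mem_coe, RingHom.mem_ker, ← coeff_map, map_eqn, e1, h e, coeff_zero])

lemma Good.lift_tU {B : Set Mono} {t : Mons m × Mons m → R} (h : Good B t) :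
    h.lift ∘ tU m B = t := by
  funext p
  simp [Good.lift, tU]

lemma UR_ext {B : Set Mono} {φ ψ : UR m B →+* R} (h : φ ∘ tU m B = ψ ∘ tU m B) : φ = ψ := by
  refine Ideal.Quotient.ringHom_ext (MvPolynomial.ringHom_ext (fun r => by simp) fun p => ?_)
  exact congrFun h p

end Pool.Agent.MP_eba2ed_ag

end

section

/-! The families given by the charts, and the local structure of a family. -/

namespace Pool.Agent.MP_eba2ed_ag

open MvPolynomial Module IsLocalRing

variable {R : Type} [CommRing R] {m : ℕ}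

lemma isHomog_bot : IsHomog (⊥ : Ideal (A R)) := fun f hf n => by
  rw [Ideal.mem_bot] at hf ⊢
  rw [hf, map_zero]

lemma basisMod_bot (k : ℕ) : BasisMod (⊥ : Ideal (A R)) {b | b.degree = k} k where
  deg _ h := h
  span f hf := ⟨f, fun _ hb => degree_of_mem hf hb, by simp⟩
  indep _ _ h := h

/-- The Koszul complex of the polynomial ring is exact from degree `m` on. -/
def KB (m : ℕ) : Prop :=
  1 ≤ m ∧ ∀ (R : Type) [CommRing R] (n : ℕ), m ≤ n → Kos (⊥ : Ideal (A R)) n

lemma exists_KB : ∃ N, ∀ m, N ≤ m → KB m := by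
  obtain ⟨N, hN⟩ := kos_large (R := ℤ) (J := ⊥) isHomog_bot
  refine ⟨N + 1, fun m hm => ⟨by omega, fun R _ n hn => ?_⟩⟩
  have := (hN n (by omega)).baseChange (Int.castRingHom R) isHomog_bot
    (fun k _ => (basisMod_bot k).proj)
  rwa [bc, Ideal.map_bot] at this

theorem Good.proj [IsLocalRing R] (hm : KB m) {B : Set Mono} {t : Mons m × Mons m → R}
    (h : Good B t) (hK : ∀ n, m ≤ n → Kos (bc (residue R) (Jt t)) n) :
    ∀ k, m ≤ k → Projective R (Mn (Jt t) k) := by
  intro k
  induction k using Nat.strong_induction_on with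
  | _ k ih =>
    intro hk
    by_cases h1 : k ≤ m + 3
    · exact (h.basis hk h1).proj
    · have := hm.1
      obtain ⟨n, rfl⟩ : ∃ n, k = n + 5 := ⟨k - 5, by omega⟩
      exact proj_up h.homog (hm.2 R _ (by omega)) (hK _ (by omega))
        (ih _ (by omega) (by omega)) (fun f hf hfk => h.gen hf (by omega) hfk)

/-- Good coefficients all of whose fibres have exact Koszul complexes. -/
def Nice (B : Set Mono) (t : Mons m × Mons m → R) : Prop :=
  Good B t ∧ ∀ (K : Type) [Field K] (ψ : R →+* K) (n : ℕ), m ≤ n → Kos (Jt (ψ ∘ t)) n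

lemma Nice.map {B : Set Mono} {t : Mons m × Mons m → R} (h : Nice B t) {R' : Type} [CommRing R']
    (φ : R →+* R') : Nice B (φ ∘ t) :=
  ⟨h.1.map φ, fun K _ ψ n hn => h.2 K (ψ.comp φ) n hn⟩

lemma Nice.proj [IsLocalRing R] (hm : KB m) {B : Set Mono} {t : Mons m × Mons m → R}
    (h : Nice B t) : ∀ k, m ≤ k → Projective R (Mn (Jt t) k) :=
  h.1.proj hm fun n hn => by rw [bc_Jt]; exact h.2 _ _ n hn

lemma Nice.kos [IsLocalRing R] (hm : KB m) {B : Set Mono} {t : Mons m × Mons m → R}
    (h : Nice B t) : ∀ n, m ≤ n → Kos (Jt t) n := fun n hn =>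
  kos_of_fibre h.1.homog (fun k hk => h.proj hm k (by omega))
    (by rw [bc_Jt]; exact h.2 _ _ n hn)

lemma nice_of_local [IsLocalRing R] (hm : KB m) {B : Set Mono} {t : Mons m × Mons m → R}
    (h : Good B t) (hK : ∀ n, m ≤ n → Kos (Jt (residue R ∘ t)) n) : Nice B t := by
  have h1 := h.proj hm fun n hn => by rw [bc_Jt]; exact hK n hn
  refine ⟨h, fun K _ ψ n hn => ?_⟩
  rw [← bc_Jt]
  exact (kos_of_fibre h.homog (fun k hk => h1 k (by omega))
    (by rw [bc_Jt]; exact hK n hn)).baseChange ψ h.homog fun k hk => h1 k (by omega)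

/-- The numerical condition on the set of monomials. -/
def Num (d : ℕ) (g : ℤ) (m : ℕ) (B : Set Mono) : Prop :=
  ∀ k, m ≤ k → k ≤ m + 3 → (Nat.card (Bk B k) : ℤ) = d * k + 1 - g

lemma Nice.hp {K : Type} [Field K] {d : ℕ} {g : ℤ} {B : Set Mono} {t : Mons m × Mons m → K}
    (hB : Num d g m B) (h : Nice B t) : HP d g (Jt t) := by
  refine ⟨m, fun k => ?_⟩
  induction k using Nat.strong_induction_on with
  | _ k ih =>
    intro hk
    by_cases h1 : k ≤ m + 3
    · rw [(h.1.basis hk h1).hf, hB k hk h1]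
    · obtain ⟨n, rfl⟩ : ∃ n, k = n + 4 := ⟨k - 4, by omega⟩
      have h2 := congrArg (Nat.cast : ℕ → ℤ) (euler (h.2 K (RingHom.id K) n (by omega)))
      have e : (RingHom.id K) ∘ t = t := rfl
      rw [e] at h2
      have h3 := ih n (by omega) (by omega)
      have h4 := ih (n + 1) (by omega) (by omega)
      have h5 := ih (n + 2) (by omega) (by omega)
      have h6 := ih (n + 3) (by omega) (by omega)
      push_cast at h2 h3 h4 h5 h6 ⊢
      linarith

theorem Nice.family {d : ℕ} {g : ℤ} (hm : KB m) {B : Set Mono} {t : Mons m × Mons m → R}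
    (hB : Num d g m B) (h : Nice B t) : IsFamily d g (Jt t) := by
  refine ⟨h.1.homog, Jt_fg t, fun i => flat_of_local fun P _ => ?_, fun q => ?_⟩
  · have h1 := h.map (algebraMap R (Localization.AtPrime P))
    rw [bc, chart_map, ← bc, bc_Jt]
    exact flat_chart h1.1.homog (h1.proj hm) i
  · have := (h.map (algebraMap R q.asIdeal.ResidueField)).hp hB
    rwa [← bc_Jt] at this

lemma Nice.basis_sat [IsLocalRing R] (hm : KB m) {B : Set Mono} {t : Mons m × Mons m → R}
    (h : Nice B t) (k : ℕ) (h1 : m ≤ k) (h2 : k ≤ m + 3) :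
    BasisMod (sat (chart (Jt t))) (Bk B k) k :=
  (h.1.basis h1 h2).congr fun _ hf => sat_iff_of_kos h.1.homog (h.kos hm) h1 hf

theorem nice_unique (hm : KB m) {B : Set Mono} {t t' : Mons m × Mons m → R} (h : Nice B t)
    (h' : Nice B t') (e : SameSub (Jt t) (Jt t')) : t = t' := by
  funext p
  refine sub_eq_zero.1 (eq_zero_of_localization _ fun P _ => ?_)
  let α := algebraMap R (Localization.AtPrime P)
  have e1 : SameSub (Jt (α ∘ t)) (Jt (α ∘ t')) := by
    rw [← bc_Jt, ← bc_Jt]; exact e.map α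
  have h1 := h.map α
  have h2 := h'.map α
  have := good_unique (h1.basis_sat hm) h1.1 h2.1 (le_sat h1.1.homog (le_chart _))
    (by rw [e1.sat_eq]; exact le_sat h2.1.homog (le_chart _))
  rw [map_sub, sub_eq_zero]
  exact congrFun this p

lemma span_of_lifts [IsLocalRing R] {J : Ideal (A R)} {Jb : Ideal (A (ResidueField R))}
    {B : Set Mono} {k : ℕ} (hB : BasisMod Jb B k) (hL : Lifts J Jb k) (f : A R)
    (hf : f.IsHomogeneous k) : ∃ g ∈ restrictSupport R B, f - g ∈ J := by
  have h1 : Mn J k ≤ (restrictSupport R B).map (Ideal.Quotient.mkₐ R J).toLinearMap := by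
    refine Submodule.le_of_le_smul_of_le_jacobson_bot (I := maximalIdeal R)
      (Module.Finite.iff_fg.1 inferInstance) (maximalIdeal_le_jacobson _) ?_
    rintro _ ⟨p, hp, rfl⟩
    obtain ⟨gb, hgb, h2⟩ := hB.span _ (IsHomogeneous.map hp (residue R))
    obtain ⟨g, hg, h3⟩ : ∃ g ∈ restrictSupport R B, MvPolynomial.map (residue R) g = gb := by
      choose s hs using residue_surjective (R := R)
      refine ⟨∑ m ∈ gb.support, monomial m (s (coeff m gb)), Submodule.sum_mem _ fun m hm =>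
        (monomial_mem_restrictSupport R).2 (Or.inl (hgb hm)), ?_⟩
      rw [map_sum]
      conv_rhs => rw [gb.as_sum]
      simp [hs]
    refine Submodule.mem_sup.2 ⟨_, ⟨g, hg, rfl⟩, _, hL (p - g)
      (IsHomogeneous.sub hp (homog_of_restrict hB.deg hg)) (by rwa [map_sub, h3]), by simp⟩
  obtain ⟨g, hg, h2⟩ := h1 ⟨f, hf, rfl⟩
  exact ⟨g, hg, Ideal.Quotient.eq.1 h2.symm⟩

/-- A family over a local ring whose closed fibre lies in a chart lies in the chart. -/
theorem loc_local [IsLocalRing R] (hm : KB m) {B : Set Mono} {I : Ideal (A R)} (hI : IsHomog I)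
    (hflat : ∀ i, Flat R (A R ⧸ chart I i)) {t0 : Mons m × Mons m → ResidueField R}
    (h0 : Nice B t0) (e : SameSub (bc (residue R) I) (Jt t0)) :
    ∃ t : Mons m × Mons m → R, Good B t ∧ SameSub I (Jt t) ∧ residue R ∘ t = t0 := by
  have hiff : ∀ k, m ≤ k → ∀ f : A (ResidueField R), f.IsHomogeneous k →
      (f ∈ Jt t0 ↔ f ∈ sat (chart (bc (residue R) I))) := fun k hk f hf => by
    rw [e.sat_eq]; exact sat_iff_of_kos h0.1.homog (h0.kos hm) hk hf
  have hL := lifts_of_kos hI hflat (m := m) fun n hn =>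
    (h0.kos hm n hn).congr fun k hk => hiff k (by omega)
  obtain ⟨t, ht, hle⟩ := exists_good (J := sat (chart I)) (B := B) fun k h1 h2 =>
    basis_of_lifts hflat (by rw [e.sat_eq]; exact h0.basis_sat hm k h1 h2) (hL k h1)
  have e1 : residue R ∘ t = t0 := by
    refine good_unique (h0.basis_sat hm) (ht.map _) h0.1 ?_ (le_sat h0.1.homog (le_chart _))
    rw [← bc_Jt, ← e.sat_eq]
    exact (Ideal.map_mono hle).trans (bc_sat_le _ I)
  refine ⟨t, ht, fun i => le_antisymm (chart_le_of hI (m := m) (fun k hk f hf hfk => ?_) i)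
    (chart_le_of_le_sat hle i), e1⟩
  obtain ⟨B', hB'⟩ := exists_basisMod (Jt t0) k
  have h1 := basis_of_lifts hflat (hB'.congr (hiff k hk)) (hL k hk)
  obtain ⟨g, hg, h2⟩ := span_of_lifts (J := Jt t) hB'
    (by rw [← e1, ← bc_Jt]; exact lifts_bc ht.homog k) f hfk
  have h3 : g = 0 := h1.indep g hg (by
    simpa using sub_mem (le_sat hI (le_chart I) hf) (hle h2))
  simpa [h3] using h2

/-- Descent along a field extension. -/
theorem desc_field {k K : Type} [Field k] [Field K] (ι : k →+* K) (hm : KB m) {B : Set Mono}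
    {I : Ideal (A k)} {t' : Mons m × Mons m → K} (h' : Nice B t') (e : SameSub (bc ι I) (Jt t')) :
    ∃ t : Mons m × Mons m → k, Nice B t ∧ SameSub I (Jt t) ∧ ι ∘ t = t' := by
  obtain ⟨L, h1, -, h3, h4⟩ := exists_retraction ι
  obtain ⟨t, ht, hle⟩ := exists_good (J := sat (chart I)) (B := B) (m := m) fun n hn1 hn2 => by
    have hb := h'.basis_sat hm n hn1 hn2
    rw [← e.sat_eq] at hb
    refine ⟨hb.deg, fun f hf => ?_, fun g hg hgJ => ?_⟩
    · obtain ⟨g, hg, h5⟩ := hb.span _ (hf.map ι)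
      have hg' : L g ∈ restrictSupport k (Bk B n) := fun b hb => hg (h3 g hb)
      refine ⟨L g, hg', (mem_sat (hf.sub (homog_of_restrict hb.deg hg'))).2 fun i => ?_⟩
      have h6 := sat_le _ i h5
      rw [← chart_map] at h6
      have := h4 _ _ h6
      rwa [map_sub, h1] at this
    · apply map_injective ι ι.injective
      rw [map_zero]
      exact hb.indep _ (map_mem_restrict ι hg) (bc_sat_le ι I (Ideal.mem_map_of_mem _ hgJ))
  have e1 : ι ∘ t = t' := by
    refine good_unique (h'.basis_sat hm) (ht.map _) h'.1 ?_ (le_sat h'.1.homog (le_chart _))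
    rw [← bc_Jt, ← e.sat_eq]
    exact (Ideal.map_mono hle).trans (bc_sat_le _ I)
  refine ⟨t, ⟨ht, fun K' _ ψ n hn => ?_⟩, fun i => ?_, e1⟩
  · rw [← bc_Jt]
    refine (Kos.descend ι ?_).baseChange ψ ht.homog fun _ _ => inferInstance
    rw [bc_Jt, e1]
    exact h'.kos hm n hn
  · have h5 := e i
    rw [← e1, ← bc_Jt, ← chart_map, ← chart_map] at h5
    exact le_antisymm (fun f hf => mem_of_map_mem_bc ι (h5.le (Ideal.mem_map_of_mem _ hf)))
      (fun f hf => mem_of_map_mem_bc ι (h5.ge (Ideal.mem_map_of_mem _ hf)))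

lemma sameSub_sat {I : Ideal (A R)} (hI : IsHomog I) : SameSub I (sat (chart I)) := fun i =>
  le_antisymm (sup_le_sup_right (le_sat hI (le_chart I)) _) (chart_le_of_le_sat le_rfl i)

lemma isHomog_irr : IsHomog (irr R) :=
  isHomog_span (by rintro _ ⟨i, rfl⟩; exact ⟨1, isHomogeneous_X R i⟩)

/-- Every family over a field lies in a chart. -/
theorem cover_field {K : Type} [Field K] {d : ℕ} {g : ℤ} {I : Ideal (A K)} (hI : IsHomog I)
    (hP : HP d g I) : ∃ (m : ℕ) (B : Set Mono) (t : Mons m × Mons m → K), KB m ∧ Num d g m B ∧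
      Nice B t ∧ SameSub I (Jt t) := by
  let J := sat (chart I)
  have hJ : IsHomog J := sat_homog _
  obtain ⟨N0, h0⟩ := exists_KB
  obtain ⟨N1, h1⟩ := kos_large hJ
  obtain ⟨N2, h2⟩ := hP.of_same hI hJ (sameSub_sat hI)
  obtain ⟨N3, h3⟩ := eventually_mem_of_irr_pow_mul_le (C := irr K * J) (D := J) (M := 1)
    (isHomog_irr.mul hJ) (IsNoetherian.noetherian _) (by rw [pow_one])
  choose Bs hBs using exists_basisMod J
  let B : Set Mono := {b | b ∈ Bs b.degree}
  have hB : ∀ k, Bk B k = Bs k := fun k => by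
    ext b
    constructor
    · rintro ⟨hb, rfl⟩; exact hb
    · intro hb
      have := (hBs k).deg b hb
      subst this
      exact ⟨hb, rfl⟩
  let m := N0 + N1 + N2 + N3
  obtain ⟨t, ht, hle⟩ := exists_good (J := J) (B := B) (m := m) fun k _ _ => hB k ▸ hBs k
  have key : ∀ k, m ≤ k → ∀ f ∈ J, f.IsHomogeneous k → f ∈ Jt t := by
    intro k
    induction k with
    | zero =>
      intro hk f hf hfk
      obtain ⟨g, hg, h4⟩ := (ht.basis hk (by omega)).span f hfk
      have h5 : g = 0 := (hBs 0).indep g (hB 0 ▸ hg) (by simpa using sub_mem hf (hle h4))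
      simpa [h5] using h4
    | succ k ih =>
      intro hk f hf hfk
      by_cases h : k + 1 ≤ m + 3
      · obtain ⟨g, hg, h4⟩ := (ht.basis hk h).span f hfk
        have h5 : g = 0 := (hBs _).indep g (hB _ ▸ hg) (by simpa using sub_mem hf (hle h4))
        simpa [h5] using h4
      · obtain ⟨w, hw, rfl⟩ := exists_sum_X hJ hfk (h3 _ (by omega) f hf hfk)
        exact Ideal.sum_mem _ fun i _ =>
          Ideal.mul_mem_left _ _ (ih (by omega) _ (hw i).1 (hw i).2)
  refine ⟨m, B, t, h0 m (by omega), fun k hk _ => ?_, ⟨ht, fun K' _ ψ n hn => ?_⟩, fun i =>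
    le_antisymm (chart_le_of hI (fun k hk f hf => key k hk f (le_sat hI (le_chart I) hf)) i)
      (chart_le_of_le_sat hle i)⟩
  · rw [hB, ← (hBs k).hf, h2 k (by omega)]
  · rw [← bc_Jt]
    refine Kos.baseChange ψ ht.homog ?_ fun _ _ => inferInstance
    exact (h1 n (by omega)).congr fun k hk f hf =>
      ⟨fun h => key k (by omega) f h hf, fun h => hle h⟩

end Pool.Agent.MP_eba2ed_ag

end

section

/-! Spreading out from a local ring, and gluing of families. -/

namespace Pool.Agent.MP_eba2ed_ag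

open MvPolynomial Module IsLocalRing

variable {R : Type} [CommRing R] {m : ℕ}

/-- A property holds after inverting one element of `M`. -/
def Ev (M : Submonoid R) (Q : ∀ (R' : Type) [CommRing R'], (R →+* R') → Prop) : Prop :=
  ∃ s ∈ M, ∀ (R' : Type) [CommRing R'] (σ : R →+* R'), IsUnit (σ s) → Q R' σ

lemma Ev.all {M : Submonoid R} {ι : Type} [Finite ι]
    {Q : ι → ∀ (R' : Type) [CommRing R'], (R →+* R') → Prop} (h : ∀ i, Ev M (Q i)) :
    Ev M (fun R' _ σ => ∀ i, Q i R' σ) := by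
  classical
  cases nonempty_fintype ι
  choose s hs h using h
  refine ⟨∏ i, s i, prod_mem fun i _ => hs i, fun R' _ σ hσ i => h i R' σ ?_⟩
  exact isUnit_of_dvd_unit (map_dvd σ (Finset.dvd_prod_of_mem _ (Finset.mem_univ i))) hσ

lemma Ev.and {M : Submonoid R} {Q Q' : ∀ (R' : Type) [CommRing R'], (R →+* R') → Prop}
    (h : Ev M Q) (h' : Ev M Q') : Ev M (fun R' _ σ => Q R' σ ∧ Q' R' σ) := by
  obtain ⟨s, hs, h⟩ := h
  obtain ⟨s', hs', h'⟩ := h'
  refine ⟨s * s', mul_mem hs hs', fun R' _ σ hσ => ?_⟩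
  rw [map_mul, IsUnit.mul_iff] at hσ
  exact ⟨h R' σ hσ.1, h' R' σ hσ.2⟩

lemma mem_of_C_mul {a : R} (ha : IsUnit a) {J : Ideal (A R)} {f : A R} (h : C a * f ∈ J) :
    f ∈ J := (Ideal.unit_mul_mem_iff_mem J (ha.map C)).1 h

section
variable (M : Submonoid R) {L : Type} [CommRing L] [Algebra R L] [IsLocalization M L]

lemma ev_mem {J : Ideal (A R)} {f : A R}
    (h : MvPolynomial.map (algebraMap R L) f ∈ bc (algebraMap R L) J) :
    Ev M (fun _ _ σ => MvPolynomial.map σ f ∈ bc σ J) := by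
  obtain ⟨s, hs, h1⟩ := spread M h
  refine ⟨s, hs, fun R' _ σ hσ => mem_of_C_mul hσ ?_⟩
  simpa using Ideal.mem_map_of_mem (MvPolynomial.map σ : A R →+* A R') h1

lemma ev_le {I J : Ideal (A R)} (hI : I.FG)
    (h : bc (algebraMap R L) I ≤ bc (algebraMap R L) J) :
    Ev M (fun _ _ σ => bc σ I ≤ bc σ J) := by
  obtain ⟨T, rfl⟩ := hI
  obtain ⟨s, hs, h1⟩ := Ev.all fun f : T =>
    ev_mem M (h (Ideal.mem_map_of_mem _ (Ideal.subset_span f.2)))
  exact ⟨s, hs, fun R' _ σ hσ => Ideal.map_le_iff_le_comap.2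
    (Ideal.span_le.2 fun f hf => h1 R' σ hσ ⟨f, hf⟩)⟩

lemma ev_unit {w : R} (h : IsUnit (algebraMap R L w)) : Ev M (fun _ _ σ => IsUnit (σ w)) := by
  obtain ⟨s, hs, h1⟩ := (IsLocalization.algebraMap_isUnit_iff M).1 h
  exact ⟨s, hs, fun R' _ σ hσ => isUnit_of_dvd_unit (map_dvd σ h1) hσ⟩

lemma chart_fg {I : Ideal (A R)} (hI : I.FG) (i : Fin 4) : (chart I i).FG :=
  Submodule.FG.sup hI (Submodule.fg_span_singleton _)

lemma ev_same {I J : Ideal (A R)} (hI : I.FG) (hJ : J.FG)
    (h : SameSub (bc (algebraMap R L) I) (bc (algebraMap R L) J)) :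
    Ev M (fun _ _ σ => SameSub (bc σ I) (bc σ J)) := by
  have h1 : ∀ i, bc (algebraMap R L) (chart I i) = bc (algebraMap R L) (chart J i) := fun i => by
    rw [bc, bc, chart_map, chart_map]; exact h i
  obtain ⟨s, hs, h2⟩ := Ev.all fun i =>
    (ev_le M (chart_fg hI i) (h1 i).le).and (ev_le M (chart_fg hJ i) (h1 i).ge)
  refine ⟨s, hs, fun R' _ σ hσ i => ?_⟩
  rw [← chart_map, ← chart_map]
  exact le_antisymm (h2 R' σ hσ i).1 (h2 R' σ hσ i).2

lemma ev_good {B : Set Mono} {t : Mons m × Mons m → R} (h : Good B (algebraMap R L ∘ t)) :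
    Ev M (fun _ _ σ => Good B (σ ∘ t)) := by
  obtain ⟨s, hs, h1⟩ := Ev.all fun e => ev_mem (L := L) M (J := ⊥) (f := eqn B t e)
    (by rw [map_eqn, h e]; exact zero_mem _)
  refine ⟨s, hs, fun R' _ σ hσ e => ?_⟩
  have := h1 R' σ hσ e
  rwa [map_eqn, bc, Ideal.map_bot, Ideal.mem_bot] at this

end

lemma lift_mk {B : Set Mono} {t : Mons m × Mons m → R} {R' : Type} [CommRing R'] (σ : R →+* R')
    (h : Good B (σ ∘ t)) (w : MvPolynomial (Mons m × Mons m) ℤ) :
    h.lift (Ideal.Quotient.mk _ w) = σ (eval₂Hom (Int.castRingHom R) t w) := by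
  have : h.lift.comp (Ideal.Quotient.mk _) = σ.comp (eval₂Hom (Int.castRingHom R) t) :=
    MvPolynomial.ringHom_ext (fun r => by simp) fun p => by simp [Good.lift]
  exact DFunLike.congr_fun this w

theorem spread_chart {B : Set Mono} {I : Ideal (A R)} (hI : I.FG) (P : Ideal R) [P.IsPrime]
    {t : Mons m × Mons m → Localization.AtPrime P} (ht : Good B t)
    (e : SameSub (bc (algebraMap R _) I) (Jt t)) (γ : UR m B) (hγ : IsUnit (ht.lift γ)) :
    ∃ g ∉ P, ∃ (t' : Mons m × Mons m → Localization.Away g) (ht' : Good B t'),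
      SameSub (bc (algebraMap R _) I) (Jt t') ∧ IsUnit (ht'.lift γ) := by
  let L := Localization.AtPrime P
  obtain ⟨⟨u, hu⟩, h1⟩ := IsLocalization.exist_integer_multiples_of_finite P.primeCompl t
  choose a ha using h1
  let R1 := Localization.Away u
  have hle : Submonoid.powers u ≤ P.primeCompl := Submonoid.powers_le.2 hu
  let := IsLocalization.localizationAlgebraOfSubmonoidLe R1 L _ _ hle
  have := IsLocalization.localization_isScalarTower_of_submonoid_le R1 L _ _ hle
  have := IsLocalization.isLocalization_of_submonoid_le R1 L _ _ hle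
  let t1 : Mons m × Mons m → R1 := fun p => algebraMap R R1 (a p) * IsLocalization.Away.invSelf u
  have e1 : algebraMap R1 L ∘ t1 = t := by
    funext p
    have h2 := congrArg (algebraMap R1 L) (IsLocalization.Away.mul_invSelf (S := R1) u)
    rw [map_mul, map_one, ← IsScalarTower.algebraMap_apply] at h2
    simp only [t1, Function.comp_apply, map_mul, ← IsScalarTower.algebraMap_apply]
    rw [ha p, Algebra.smul_def, mul_right_comm]
    exact (congrArg (· * t p) h2).trans (one_mul _)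
  subst e1
  obtain ⟨w, rfl⟩ := Ideal.Quotient.mk_surjective γ
  rw [lift_mk] at hγ
  obtain ⟨_, ⟨s, hs, rfl⟩, h2⟩ := (ev_good (P.primeCompl.map (algebraMap R R1)) ht).and
    ((ev_same (L := L) (P.primeCompl.map (algebraMap R R1)) (I := bc (algebraMap R R1) I)
      (hI.map _) (Jt_fg t1) (by rwa [bc_bc, bc_Jt, ← IsScalarTower.algebraMap_eq])).and
      (ev_unit (P.primeCompl.map (algebraMap R R1)) hγ))
  have h3 := IsLocalization.Away.algebraMap_isUnit (S := Localization.Away (u * s)) (u * s)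
  rw [map_mul, IsUnit.mul_iff] at h3
  let σ : R1 →+* Localization.Away (u * s) := IsLocalization.Away.lift u h3.1
  have h4 : σ.comp (algebraMap R R1) = algebraMap R _ := IsLocalization.Away.lift_comp u h3.1
  obtain ⟨h5, h6, h7⟩ := h2 _ σ (by rw [← RingHom.comp_apply, h4]; exact h3.2)
  refine ⟨u * s, mul_mem hu hs, σ ∘ t1, h5, ?_, by rwa [lift_mk]⟩
  rwa [bc_bc, h4, bc_Jt] at h6

/-- A family one of whose fibres lies in a chart lies in the chart near that fibre. -/
theorem loc_chart (hm : KB m) {B : Set Mono} {d : ℕ} {g : ℤ} {I : Ideal (A R)}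
    (hI : IsFamily d g I) {K : Type} [Field K] (φ : R →+* K) {t : Mons m × Mons m → K}
    (ht : Nice B t) (e : SameSub (bc φ I) (Jt t)) (γ : UR m B) (hγ : ht.1.lift γ ≠ 0) :
    ∃ a : R, φ a ≠ 0 ∧ ∃ (t' : Mons m × Mons m → Localization.Away a) (ht' : Good B t'),
      SameSub (bc (algebraMap R _) I) (Jt t') ∧ IsUnit (ht'.lift γ) := by
  have := RingHom.ker_isPrime φ
  let P := RingHom.ker φ
  let L := Localization.AtPrime P
  let ι : ResidueField L →+* K := Ideal.ResidueField.lift P φ le_rfl (fun a ha => Ne.isUnit ha)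
  have h1 : ι.comp ((residue L).comp (algebraMap R L)) = φ := by
    ext a
    exact Ideal.ResidueField.lift_algebraMap P φ le_rfl (fun a ha => Ne.isUnit ha) a
  have hL := hI.map (algebraMap R L)
  obtain ⟨t0, h2, h3, rfl⟩ := desc_field ι hm (I := bc (residue L) (bc (algebraMap R L) I)) ht
    (by rwa [bc_bc, bc_bc, RingHom.comp_assoc, h1])
  obtain ⟨t1, h4, h5, rfl⟩ := loc_local hm hL.1 hL.2.2.1 h2 h3
  refine spread_chart hI.2.1 P h4 h5 γ ?_
  rw [← notMem_maximalIdeal, ← residue_eq_zero_iff]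
  intro h0
  apply hγ
  have : ht.1.lift = ι.comp ((residue L).comp h4.lift) := UR_ext (by
    rw [Good.lift_tU, RingHom.coe_comp, RingHom.coe_comp, Function.comp_assoc,
      Function.comp_assoc, Good.lift_tU])
  rw [this, RingHom.comp_apply, RingHom.comp_apply, h0, map_zero]

lemma exists_fg_sub {R' : Type} [CommRing R'] (φ : R →+* R') {J : Ideal (A R)} (hJ : IsHomog J)
    {I' : Ideal (A R')} (hI' : I'.FG) (h : I' ≤ bc φ J) :
    ∃ I0 ≤ J, IsHomog I0 ∧ I0.FG ∧ I' ≤ bc φ I0 := by
  classical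
  obtain ⟨s, rfl⟩ := hI'
  rw [hJ.eq_span, bc, Ideal.map_span, Ideal.span_le] at h
  obtain ⟨T, hT, h1⟩ := Submodule.subset_span_finite_of_subset_span h
  obtain ⟨T', hT', rfl⟩ := Finset.subset_set_image_iff.1 hT
  refine ⟨Ideal.span T', Ideal.span_le.2 fun f hf => (hT' hf).1,
    isHomog_span fun f hf => (hT' hf).2, ⟨T', rfl⟩, ?_⟩
  rw [bc, Ideal.map_span, Ideal.span_le, ← Finset.coe_image]
  exact h1

lemma exists_notMem {T : Type} {a : T → R} (h : Ideal.span (Set.range a) = ⊤) {P : Ideal R}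
    (hP : P ≠ ⊤) : ∃ t, a t ∉ P := by
  by_contra h1
  push Not at h1
  exact hP (top_le_iff.1 (h ▸ Ideal.span_le.2 (by rintro _ ⟨t, rfl⟩; exact h1 t)))

lemma glue_ideal {T : Type} [Finite T] (a : T → R)
    (c : ∀ t, Ideal (A (Localization.Away (a t))))
    (h : ∀ (t t' : T) (R' : Type) [CommRing R'] (φ : Localization.Away (a t) →+* R')
      (φ' : Localization.Away (a t') →+* R'),
      φ.comp (algebraMap R _) = φ'.comp (algebraMap R _) → bc φ (c t) = bc φ' (c t')) :
    ∃ c0 : Ideal (A R), ∀ t, bc (algebraMap R _) c0 = c t := by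
  classical
  cases nonempty_fintype T
  refine ⟨⨅ t, (c t).comap (MvPolynomial.map (algebraMap R _)), fun t => le_antisymm
    (Ideal.map_le_iff_le_comap.2 (iInf_le _ t)) fun f' hf' => ?_⟩
  obtain ⟨u, hu, f, hf⟩ := clear_fin (Submonoid.powers (a t)) (fun _ : Unit => f')
  have h1 : ∀ t', ∃ n : ℕ, MvPolynomial.map (algebraMap R _) (C (a t ^ n) * f ()) ∈ c t' := by
    intro t'
    let b := algebraMap R (Localization.Away (a t')) (a t)
    let φ' := algebraMap (Localization.Away (a t')) (Localization.Away b)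
    have hb : IsUnit ((φ'.comp (algebraMap R _)) (a t)) :=
      IsLocalization.Away.algebraMap_isUnit (S := Localization.Away b) b
    have h2 := IsLocalization.Away.lift_comp (S := Localization.Away (a t)) (a t) hb
    generalize IsLocalization.Away.lift (S := Localization.Away (a t)) (a t) hb = φ at h2
    have h3 := h t t' _ _ φ' h2
    have h4 : MvPolynomial.map φ' (MvPolynomial.map (algebraMap R _) (f ())) ∈ bc φ' (c t') := by
      rw [← h3, map_map, ← h2, ← map_map, hf]
      exact Ideal.mem_map_of_mem _ (Ideal.mul_mem_left _ _ hf')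
    obtain ⟨_, ⟨n, rfl⟩, h5⟩ := spread (Submonoid.powers b) h4
    exact ⟨n, by simpa [b] using h5⟩
  choose n hn using h1
  have h2 : C (a t ^ (∑ t', n t')) * f () ∈
      ⨅ t, (c t).comap (MvPolynomial.map (algebraMap R _) : A R →+* _) := by
    refine Ideal.mem_iInf.2 fun t' => ?_
    rw [← Finset.add_sum_erase _ _ (Finset.mem_univ t'), add_comm, pow_add, map_mul, mul_assoc]
    exact Ideal.mul_mem_left _ _ (hn t')
  have h3 := Ideal.mem_map_of_mem
    (MvPolynomial.map (algebraMap R (Localization.Away (a t))) : A R →+* _) h2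
  rw [map_mul, map_C, hf] at h3
  exact mem_of_C_mul (IsLocalization.map_units _ ⟨u, hu⟩)
    (mem_of_C_mul (IsLocalization.map_units _ (⟨_, _, rfl⟩ : Submonoid.powers (a t))) h3)

theorem glue_family {d : ℕ} {g : ℤ} {T : Type} [Finite T] (a : T → R)
    (ha : Ideal.span (Set.range a) = ⊤) (I : ∀ t, Ideal (A (Localization.Away (a t))))
    (hI : ∀ t, IsFamily d g (I t)) (c : Fin 4 → Ideal (A R))
    (h : ∀ t i, bc (algebraMap R _) (c i) = chart (I t) i) :
    ∃ I0, IsFamily d g I0 ∧ ∀ i, chart I0 i = c i := by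
  have h1 : ∀ t, I t ≤ bc (algebraMap R _) (sat c) := fun t =>
    (hI t).1.le_of_homog fun n f' hf' hn => by
      obtain ⟨u, hu, f, hf⟩ := clear_fin (Submonoid.powers (a t)) (fun _ : Unit => f')
      have h2 : MvPolynomial.map (algebraMap R _) (homogeneousComponent n (f ())) =
          C (algebraMap R _ u) * f' := by
        rw [← map_comp, hf, homogeneousComponent_eq_self (by simpa using hn.C_mul _)]
      obtain ⟨v, hv, h3⟩ := spread_fin (R' := Localization.Away (a t)) (Submonoid.powers (a t))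
        (J := c) (f := fun _ => homogeneousComponent n (f ())) fun i => by
          rw [h, h2]; exact Ideal.mul_mem_left _ _ (le_chart _ i hf')
      have h4 := Ideal.mem_map_of_mem
        (MvPolynomial.map (algebraMap R (Localization.Away (a t))) : A R →+* _)
        ((mem_sat ((homogeneousComponent_isHomogeneous n (f ())).C_mul v)).2 h3)
      rw [map_mul, map_C, h2] at h4
      exact mem_of_C_mul (IsLocalization.map_units _ ⟨u, hu⟩)
        (mem_of_C_mul (IsLocalization.map_units _ ⟨v, hv⟩) h4)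
  choose J h2 h3 h4 h5 using fun t => exists_fg_sub _ (sat_homog c) (hI t).2.1 (h1 t)
  let I0 := ⨆ t, J t
  have hle : I0 ≤ sat c := iSup_le h2
  have hom : IsHomog I0 := fun f hf n => by
    induction hf using Submodule.iSup_induction' with
    | mem t f hf => exact le_iSup J t (h3 t f hf n)
    | zero => simp
    | add x y _ _ hx hy => rw [map_add]; exact add_mem hx hy
  have h6 : ∀ t, SameSub (bc (algebraMap R _) I0) (I t) := fun t i => le_antisymm
    (sup_le (h t i ▸ Ideal.map_mono (hle.trans (sat_le c i))) le_sup_right)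
    (sup_le_sup_right ((h5 t).trans (Ideal.map_mono (le_iSup J t))) _)
  have h7 : ∀ t i, bc (algebraMap R (Localization.Away (a t))) (chart I0 i) =
      bc (algebraMap R _) (c i) := fun t i => by
    rw [h, bc, chart_map]; exact h6 t i
  have h8 : ∀ i, chart I0 i = c i := fun i => le_antisymm
    (le_of_away fun P hP => (exists_notMem ha hP.ne_top).elim fun t ht => ⟨_, ht, (h7 t i).le⟩)
    (le_of_away fun P hP => (exists_notMem ha hP.ne_top).elim fun t ht => ⟨_, ht, (h7 t i).ge⟩)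
  refine ⟨I0, ⟨hom, Submodule.fg_iSup _ h4, fun i => flat_of_local fun P hP => ?_, fun q => ?_⟩,
    h8⟩
  · obtain ⟨t, ht⟩ := exists_notMem ha hP.ne_top
    have hu := IsLocalization.map_units (Localization.AtPrime P) (⟨a t, ht⟩ : P.primeCompl)
    rw [← IsLocalization.Away.lift_comp (S := Localization.Away (a t)) (a t) hu, ← bc_bc, h7, h]
    exact flat_bc _ ((hI t).2.2.1 i)
  · obtain ⟨t, ht⟩ := exists_notMem ha q.2.ne_top
    have hu : IsUnit (algebraMap R q.asIdeal.ResidueField (a t)) :=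
      Ne.isUnit fun h0 => ht (Ideal.algebraMap_residueField_eq_zero.1 h0)
    have h9 := (hI t).hp (IsLocalization.Away.lift (a t) hu)
    have h10 := h9.of_same ((hI t).1.map _) ((hom.map _).map _)
      (fun i => ((h6 t).map (IsLocalization.Away.lift (a t) hu) i).symm)
    rwa [← bc, ← bc, bc_bc, IsLocalization.Away.lift_comp] at h10

end Pool.Agent.MP_eba2ed_ag

end

section

/-! Existence of the Hilbert scheme. -/

namespace Pool.Agent.MP_eba2ed_ag

open MvPolynomial CategoryTheory AlgebraicGeometry _root_.Pool.Agent.MP_eba2ed_ag.Rep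

/-- The Hilbert functor. -/
noncomputable def HF (d : ℕ) (g : ℤ) : Fn where
  obj R := {c : Fin 4 → Ideal (A R) // ∃ I, IsFamily d g I ∧ ∀ i, chart I i = c i}
  mp φ c := ⟨fun i => bc φ.hom (c.1 i), by
    obtain ⟨I, hI, h⟩ := c.2
    exact ⟨bc φ.hom I, hI.map _, fun i =>
      (chart_map φ.hom I i).symm.trans (congrArg (bc φ.hom) (h i))⟩⟩
  mp_id R c := Subtype.ext (funext fun i => bc_id _)
  mp_comp φ ψ c := Subtype.ext (funext fun i => (bc_bc _ _ _).symm)

noncomputable def pt {d : ℕ} {g : ℤ} {R : CommRingCat.{0}} {I : Ideal (A R)}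
    (h : IsFamily d g I) : (HF d g).obj R := ⟨chart I, I, h, fun _ => rfl⟩

lemma exists_pt {d : ℕ} {g : ℤ} {R : CommRingCat.{0}} (c : (HF d g).obj R) :
    ∃ (I : Ideal (A R)) (h : IsFamily d g I), pt h = c := by
  obtain ⟨I, hI, h⟩ := c.2
  exact ⟨I, hI, Subtype.ext (funext h)⟩

lemma mp_pt {d : ℕ} {g : ℤ} {R R' : CommRingCat.{0}} (φ : R ⟶ R') {I : Ideal (A R)}
    (h : IsFamily d g I) : (HF d g).mp φ (pt h) = pt (h.map φ.hom) :=
  Subtype.ext (funext fun i => chart_map φ.hom I i)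

lemma pt_eq {d : ℕ} {g : ℤ} {R : CommRingCat.{0}} {I J : Ideal (A R)} (h : IsFamily d g I)
    (h' : IsFamily d g J) : pt h = pt h' ↔ SameSub I J :=
  ⟨fun e i => congrFun (congrArg Subtype.val e) i, fun e => Subtype.ext (funext e)⟩

/-- The data of a chart. -/
structure Ch (d : ℕ) (g : ℤ) : Type where
  m : ℕ
  B : Set Mono
  γ : UR m B
  kb : KB m
  num : Num d g m B
  kos : ∀ (K : Type) [Field K] (ψ : UR m B →+* K), ψ γ ≠ 0 →
    ∀ n, m ≤ n → Kos (bc ψ (Jt (tU m B))) n

variable {d : ℕ} {g : ℤ}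

noncomputable abbrev Ch.ring (α : Ch d g) : CommRingCat.{0} := .of (Localization.Away α.γ)

noncomputable def Ch.t (α : Ch d g) : Mons α.m × Mons α.m → α.ring :=
  algebraMap (UR α.m α.B) (Localization.Away α.γ) ∘ tU α.m α.B

lemma Ch.unit (α : Ch d g) : IsUnit (algebraMap (UR α.m α.B) (Localization.Away α.γ) α.γ) :=
  IsLocalization.Away.algebraMap_isUnit α.γ

lemma Ch.nice (α : Ch d g) : Nice α.B α.t := by
  refine ⟨(good_tU _ _).map _, fun K _ ψ n hn => ?_⟩
  have := α.kos K (ψ.comp (algebraMap _ _)) (α.unit.map ψ).ne_zero n hn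
  rwa [bc_Jt] at this

lemma Ch.fam (α : Ch d g) : IsFamily d g (Jt α.t) := α.nice.family α.kb α.num

lemma Ch.lift_eq (α : Ch d g) {R : Type} [CommRing R] (ψ : α.ring →+* R)
    (h : Good α.B (ψ ∘ α.t)) : h.lift = ψ.comp (algebraMap _ _) :=
  UR_ext (by rw [Good.lift_tU]; rfl)

lemma Ch.exists_hom (α : Ch d g) {R : Type} [CommRing R] {t : Mons α.m × Mons α.m → R}
    (h : Good α.B t) (hu : IsUnit (h.lift α.γ)) : ∃ χ : α.ring →+* R, χ ∘ α.t = t := by
  refine ⟨IsLocalization.Away.lift α.γ hu, ?_⟩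
  rw [Ch.t, ← Function.comp_assoc, ← RingHom.coe_comp, IsLocalization.Away.lift_comp,
    Good.lift_tU]

lemma Ch.isChart (α : Ch d g) : IsChart (HF d g) α.ring (pt α.fam) where
  mono R φ ψ e := by
    rw [mp_pt, mp_pt, pt_eq, bc_Jt, bc_Jt] at e
    have := nice_unique α.kb (α.nice.map φ.hom) (α.nice.map ψ.hom) e
    ext1
    exact IsLocalization.ringHom_ext (Submonoid.powers α.γ) (UR_ext this)
  loc R K hK c φ ψ e := by
    obtain ⟨I, hI, rfl⟩ := exists_pt c
    let := hK.toField
    rw [mp_pt, mp_pt, pt_eq, bc_Jt] at e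
    obtain ⟨a, ha, t, ht, h1, h2⟩ := loc_chart α.kb hI φ.hom (α.nice.map ψ.hom) e α.γ (by
      rw [α.lift_eq]
      exact (α.unit.map ψ.hom).ne_zero)
    obtain ⟨χ, rfl⟩ := α.exists_hom ht h2
    refine ⟨a, ha, CommRingCat.ofHom χ, ?_⟩
    rw [mp_pt, mp_pt, pt_eq, bc_Jt]
    exact h1

lemma HF_cover (K : CommRingCat.{0}) (hK : IsField K) (c : (HF d g).obj K) :
    ∃ (α : Ch d g) (ψ : α.ring ⟶ K), c = (HF d g).mp ψ (pt α.fam) := by
  obtain ⟨I, hI, rfl⟩ := exists_pt c
  let := hK.toField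
  have hP := hI.hp (RingHom.id K)
  rw [bc_id] at hP
  obtain ⟨m, B, t, h1, h2, h3, h4⟩ := cover_field hI.1 hP
  obtain ⟨γ, h5, h6⟩ := kos_open (good_tU m B).homog (m := m) (fun L _ _ φ h => by
    rw [bc_Jt] at h ⊢
    exact ((good_tU m B).map φ).proj h1 h) h3.1.lift (fun n hn => by
      rw [bc_Jt, Good.lift_tU]
      exact h3.kos h1 n hn)
  let α : Ch d g := ⟨m, B, γ, h1, h2, h6⟩
  obtain ⟨χ, h7⟩ := α.exists_hom h3.1 h5.isUnit
  refine ⟨α, CommRingCat.ofHom χ, ?_⟩
  rw [mp_pt, pt_eq, bc_Jt]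
  exact h7 ▸ h4

/-- Existence of the Hilbert scheme of projective three-space over the integers. -/
theorem exists_hilbertScheme (d : ℕ) (g : ℤ) : ∃ H : Scheme.{0}, IsHilbertScheme d g H := by
  obtain ⟨H, fam, h1, h2⟩ := exists_rep (F := HF d g) (A := Ch.ring) (ξ := fun α => pt α.fam)
    (fun R c c' h => by
      refine Subtype.ext (funext fun i => le_antisymm (le_of_away fun P hP => ?_)
        (le_of_away fun P hP => ?_))
      · obtain ⟨a, ha, e⟩ := h ⟨P, hP⟩
        exact ⟨a, ha, (congrFun (congrArg Subtype.val e) i).le⟩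
      · obtain ⟨a, ha, e⟩ := h ⟨P, hP⟩
        exact ⟨a, ha, (congrFun (congrArg Subtype.val e) i).ge⟩)
    Ch.isChart HF_cover (fun R T _ a ha c hc => by
      choose c0 h0 using fun i => glue_ideal a (fun t => (c t).1 i) (fun t t' R' _ φ φ' e =>
        congrFun (congrArg Subtype.val (hc t t' (.of R') (CommRingCat.ofHom φ)
          (CommRingCat.ofHom φ') (CommRingCat.hom_ext e))) i)
      choose I hI h using fun t => (c t).2
      exact ⟨⟨c0, glue_family a ha I hI c0 fun t i => (h0 i t).trans (h t i).symm⟩,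
        fun t => Subtype.ext (funext fun i => h0 i t)⟩)
  choose J hJ h3 using fun (R : CommRingCat.{0}) (s : Spec R ⟶ H) => exists_pt (fam R s)
  refine ⟨H, J, hJ, fun R R' φ s => ?_, fun R s t e => ?_, fun R I hI => ?_⟩
  · rw [← pt_eq (hJ _ _) ((hJ R s).map φ.hom), ← mp_pt φ (hJ R s), h3, h3, h1]
  · apply (h2 R).1
    rw [← h3, ← h3, pt_eq]
    exact e
  · obtain ⟨s, hs⟩ := (h2 R).2 (pt hI)
    exact ⟨s, by rw [← pt_eq (hJ _ _) hI, h3, hs]⟩

end Pool.Agent.MP_eba2ed_ag

end
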