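import Pool.Agent.Mg.Feba2ed.Gaccdfb

/-! The Koszul differential on the four variables. -/

namespace Pool.Agent.MP_eba2ed_ag

open MvPolynomial Module

abbrev TT : Type := Finset (Fin 4)

/-- Exterior multiplication by the `i`-th basis vector. -/
def ex (i : Fin 4) : Matrix TT TT ℤ := fun T U =>
  if i ∉ U ∧ T = insert i U then (-1) ^ (U.filter (· < i)).card else 0

lemma ex_anti : ∀ i j : Fin 4, ∀ T U : TT, (ex i * ex j + ex j * ex i) T U = 0 := by
  decide +kernel

lemma ex_sq : ∀ i : Fin 4, ∀ T U : TT, (ex i * ex i) T U = 0 := by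
  decide +kernel

lemma ex_hom : ∀ i j : Fin 4, ∀ T U : TT, (ex i * (ex j).transpose + (ex j).transpose * ex i) T U =
    if i = j ∧ T = U then 1 else 0 := by
  decide +kernel

lemma ex_card : ∀ i : Fin 4, ∀ T U : TT, ex i T U ≠ 0 → T.card = U.card + 1 := by
  decide +kernel

lemma ex_single : ∀ i : Fin 4, ∀ U : TT, ex i {i} U = if U = ∅ then 1 else 0 := by
  decide +kernel

lemma ex_single' : ∀ i j : Fin 4, ∀ U : TT, i ≠ j → ex i {j} U = 0 := by
  decide +kernel

end Pool.Agent.MP_eba2ed_ag
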