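import Pool.Agent.MP_eba2ed_ag.Defs

section

/-! Basic facts on homogeneous ideals and Hilbert functions. -/

namespace Pool.Agent.MP_eba2ed_ag

open MvPolynomial Module

attribute [local instance] MvPolynomial.gradedAlgebra

abbrev A (R : Type) [CommRing R] : Type := MvPolynomial (Fin 4) R

noncomputable abbrev Hn (R : Type) [CommRing R] (n : ℕ) : Submodule R (A R) :=
  homogeneousSubmodule (Fin 4) R n

noncomputable abbrev irr (R : Type) [CommRing R] : Ideal (A R) := idealOfVars (Fin 4) R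

section ring
variable {R : Type} [CommRing R]

lemma isHomog_iff (I : Ideal (A R)) :
    IsHomog I ↔ I.IsHomogeneous (homogeneousSubmodule (Fin 4) R) := by
  constructor
  · intro h n f hf
    have := h f hf n
    rwa [← MvPolynomial.decomposition.decompose'_apply] at this
  · intro h f hf n
    exact homogeneousComponent_mem_of_mem h hf n

lemma IsHomog.sup {I J : Ideal (A R)} (hI : IsHomog I) (hJ : IsHomog J) : IsHomog (I ⊔ J) := by
  rw [isHomog_iff] at *; exact hI.sup hJ

lemma IsHomog.inf {I J : Ideal (A R)} (hI : IsHomog I) (hJ : IsHomog J) : IsHomog (I ⊓ J) := by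
  rw [isHomog_iff] at *; exact hI.inf hJ

lemma IsHomog.mul {I J : Ideal (A R)} (hI : IsHomog I) (hJ : IsHomog J) : IsHomog (I * J) := by
  rw [isHomog_iff] at *; exact hI.mul hJ

lemma isHomog_top : IsHomog (⊤ : Ideal (A R)) := fun _ _ _ => trivial

lemma IsHomog.pow {I : Ideal (A R)} (hI : IsHomog I) (m : ℕ) : IsHomog (I ^ m) := by
  induction m with
  | zero => simpa using isHomog_top
  | succ m ih => rw [pow_succ]; exact ih.mul hI

lemma isHomog_span {s : Set (A R)} (h : ∀ f ∈ s, ∃ n, f.IsHomogeneous n) :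
    IsHomog (Ideal.span s) := by
  rw [isHomog_iff]
  exact Ideal.homogeneous_span _ s (fun f hf => h f hf)

lemma isHomog_span_singleton {f : A R} {n : ℕ} (h : f.IsHomogeneous n) :
    IsHomog (Ideal.span {f}) :=
  isHomog_span (fun g hg => ⟨n, by rw [Set.mem_singleton_iff.1 hg]; exact h⟩)

lemma isHomog_iInf {ι : Sort*} {Q : ι → Ideal (A R)} (h : ∀ i, IsHomog (Q i)) :
    IsHomog (⨅ i, Q i) := by
  intro f hf n
  rw [Ideal.mem_iInf] at hf ⊢
  exact fun i => h i f (hf i) n

lemma isHomog_finset_inf {ι : Type*} (s : Finset ι) {Q : ι → Ideal (A R)}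
    (h : ∀ i ∈ s, IsHomog (Q i)) : IsHomog (s.inf Q) := by
  intro f hf n
  rw [Submodule.mem_finsetInf] at hf ⊢
  exact fun i hi => h i hi f (hf i hi) n

lemma IsHomog.mem_of_comp {I : Ideal (A R)} {f : A R}
    (h : ∀ n, homogeneousComponent n f ∈ I) : f ∈ I := by
  rw [← sum_homogeneousComponent f]
  exact Ideal.sum_mem _ (fun n _ => h n)

/-- To prove an inclusion of a homogeneous ideal it suffices to look at homogeneous elements. -/
lemma IsHomog.le_of_homog {I J : Ideal (A R)} (hI : IsHomog I)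
    (h : ∀ n, ∀ f ∈ I, f.IsHomogeneous n → f ∈ J) : I ≤ J := by
  intro f hf
  exact IsHomog.mem_of_comp (fun n => h n _ (hI f hf n) (homogeneousComponent_isHomogeneous n f))

lemma IsHomog.exists_homog_notMem {I J : Ideal (A R)} (hI : IsHomog I) (h : ¬ I ≤ J) :
    ∃ n, ∃ f ∈ I, f.IsHomogeneous n ∧ f ∉ J := by
  by_contra hc
  push Not at hc
  exact h (hI.le_of_homog hc)

/-- A linear map shifting degrees by `e` commutes with homogeneous components. -/
lemma comp_shift {σ τ : Type*} {S : Type*} [CommRing S] (L : MvPolynomial σ R →+ MvPolynomial τ S)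
    (e : ℕ) (hL : ∀ n, ∀ f : MvPolynomial σ R, f.IsHomogeneous n → (L f).IsHomogeneous (n + e))
    (f : MvPolynomial σ R) (n : ℕ) :
    homogeneousComponent (n + e) (L f) = L (homogeneousComponent n f) := by
  conv_lhs => rw [← sum_homogeneousComponent f, map_sum, map_sum]
  rw [Finset.sum_eq_single n]
  · exact homogeneousComponent_eq_self (hL n _ (homogeneousComponent_isHomogeneous n f))
  · intro m _ hm
    rw [homogeneousComponent_of_mem (n := m + e) (hL m _ (homogeneousComponent_isHomogeneous m f))]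
    rw [if_neg (by omega)]
  · intro hn
    rw [homogeneousComponent_eq_zero n f (by simp at hn; omega)]
    simp

lemma comp_mul_homog {f : A R} {e : ℕ} (hf : f.IsHomogeneous e) (u : A R) (n : ℕ) :
    homogeneousComponent (n + e) (u * f) = homogeneousComponent n u * f :=
  comp_shift (AddMonoidHom.mulRight f) e (fun _ _ hg => hg.mul hf) u n

lemma IsHomog.colon {I : Ideal (A R)} (hI : IsHomog I) {f : A R} {e : ℕ}
    (hf : f.IsHomogeneous e) : IsHomog (Submodule.colon I {f}) := by
  intro u hu n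
  rw [Submodule.mem_colon_singleton, smul_eq_mul] at hu ⊢
  rw [← comp_mul_homog hf]
  exact hI _ hu _

lemma map_comp {S : Type} [CommRing S] (φ : R →+* S) (f : A R) (n : ℕ) :
    homogeneousComponent n (MvPolynomial.map φ f) = MvPolynomial.map φ (homogeneousComponent n f) :=
  comp_shift (MvPolynomial.map φ : A R →+* A S).toAddMonoidHom 0
    (fun _ _ hg => by simpa using hg.map φ) f n

lemma IsHomog.comap {S : Type} [CommRing S] (φ : R →+* S) {I : Ideal (A S)} (hI : IsHomog I) :
    IsHomog (I.comap (MvPolynomial.map φ : A R →+* A S)) := by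
  intro f hf n
  rw [Ideal.mem_comap] at hf ⊢
  rw [← map_comp]
  exact hI _ hf n

lemma IsHomog.eq_span {I : Ideal (A R)} (hI : IsHomog I) :
    I = Ideal.span {f | f ∈ I ∧ ∃ n, f.IsHomogeneous n} := by
  apply le_antisymm
  · exact hI.le_of_homog (fun n f hf hn => Ideal.subset_span ⟨hf, n, hn⟩)
  · exact Ideal.span_le.2 (fun f hf => hf.1)

lemma IsHomog.map {S : Type} [CommRing S] (φ : R →+* S) {I : Ideal (A R)} (hI : IsHomog I) :
    IsHomog (I.map (MvPolynomial.map φ : A R →+* A S)) := by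
  rw [hI.eq_span, Ideal.map_span]
  apply isHomog_span
  rintro _ ⟨f, ⟨-, n, hn⟩, rfl⟩
  exact ⟨n, hn.map φ⟩

lemma mem_irr_pow {f : A R} {n M : ℕ} (hf : f.IsHomogeneous n) (h : M ≤ n) : f ∈ irr R ^ M := by
  rw [mem_pow_idealOfVars_iff']
  intro x hx
  exact hf.coeff_eq_zero (by omega)

lemma X_mem_irr (i : Fin 4) : (X i : A R) ∈ irr R := Ideal.subset_span ⟨i, rfl⟩

lemma irr_le_iff {I : Ideal (A R)} : irr R ≤ I ↔ ∀ i, X i ∈ I := by
  rw [irr, idealOfVars, Ideal.span_le, Set.range_subset_iff]; rfl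

lemma comp_eq_zero_of_mem_irr_pow {f : A R} {n M : ℕ} (hf : f ∈ irr R ^ M) (h : n < M) :
    homogeneousComponent n f = 0 := by
  rw [mem_pow_idealOfVars_iff] at hf
  apply homogeneousComponent_eq_zero'
  intro d hd
  have := hf d hd
  omega

/-- If `J` is homogeneous and contains the elements of `I` of degree at least `N`, then it contains
`irr ^ N * I`. -/
lemma irr_pow_mul_le {I J : Ideal (A R)} (hI : IsHomog I) {N : ℕ}
    (h : ∀ n, N ≤ n → ∀ f ∈ I, f.IsHomogeneous n → f ∈ J) : irr R ^ N * I ≤ J := by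
  intro f hf
  have hf1 : f ∈ I := Ideal.mul_le_right (I := irr R ^ N) (J := I) hf
  have hf2 : f ∈ irr R ^ N := Ideal.mul_le_left (I := irr R ^ N) (J := I) hf
  apply IsHomog.mem_of_comp
  intro n
  by_cases hn : N ≤ n
  · exact h n hn _ (hI f hf1 n) (homogeneousComponent_isHomogeneous n f)
  · rw [comp_eq_zero_of_mem_irr_pow hf2 (by omega)]
    exact zero_mem _

/-- If a power of the irrelevant ideal multiplies a finitely generated `D` into a homogeneous `C`,
then the elements of `D` of large degree lie in `C`. -/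
lemma eventually_mem_of_irr_pow_mul_le {C D : Ideal (A R)} (hC : IsHomog C) (hD : D.FG) {M : ℕ}
    (h : irr R ^ M * D ≤ C) :
    ∃ N, ∀ n, N ≤ n → ∀ f ∈ D, f.IsHomogeneous n → f ∈ C := by
  classical
  obtain ⟨s, rfl⟩ := hD
  refine ⟨M + s.sup totalDegree + 1, fun n hn f hf hfn => ?_⟩
  obtain ⟨c, -, rfl⟩ := Submodule.mem_span_finset.1 hf
  rw [← homogeneousComponent_eq_self hfn, map_sum]
  refine Ideal.sum_mem _ (fun g hg => ?_)
  have hsplit : c g = (∑ j ∈ Finset.range M, homogeneousComponent j (c g)) +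
      (c g - ∑ j ∈ Finset.range M, homogeneousComponent j (c g)) := by ring
  rw [hsplit, add_smul, map_add]
  refine Ideal.add_mem _ ?_ ?_
  · rw [homogeneousComponent_eq_zero]
    · exact zero_mem _
    · have h1 : (∑ j ∈ Finset.range M, homogeneousComponent j (c g)).totalDegree ≤ M := by
        refine (totalDegree_finsetSum _ _).trans (Finset.sup_le fun j hj => ?_)
        exact (homogeneousComponent_isHomogeneous j _).totalDegree_le.trans
          (Finset.mem_range.1 hj).le
      have h2 : g.totalDegree ≤ s.sup totalDegree := Finset.le_sup hg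
      have h3 := totalDegree_mul (∑ j ∈ Finset.range M, homogeneousComponent j (c g)) g
      rw [smul_eq_mul]
      omega
  · apply hC
    apply h
    rw [smul_eq_mul]
    refine Ideal.mul_mem_mul ?_ (Ideal.subset_span hg)
    rw [mem_pow_idealOfVars_iff']
    intro x hx
    simp only [coeff_sub, coeff_sum, coeff_homogeneousComponent]
    rw [Finset.sum_eq_single (Finsupp.degree x)]
    · simp
    · intro b _ hb
      rw [if_neg (Ne.symm hb)]
    · intro hb
      exact absurd (Finset.mem_range.2 hx) hb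

/-- Homogenisation: a homogeneous element of the chart ideal lies in the saturation. -/
lemma exists_X_pow_mul_mem {J : Ideal (A R)} (hJ : IsHomog J) {i : Fin 4} {f : A R} {n : ℕ}
    (hf : f.IsHomogeneous n) (h : f ∈ chart J i) : ∃ M : ℕ, X i ^ M * f ∈ J := by
  classical
  let L := Localization.Away (X i : A R)
  let t : L := IsLocalization.Away.invSelf (X i : A R)
  let θ : A R →+* L := eval₂Hom ((algebraMap (A R) L).comp C) (fun j => algebraMap (A R) L (X j) * t)
  have hθ : ∀ (m : ℕ) (g : A R), g.IsHomogeneous m → θ g = algebraMap (A R) L g * t ^ m := by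
    intro m g hg
    conv_lhs => rw [g.as_sum]
    conv_rhs => rw [g.as_sum]
    rw [map_sum, map_sum, Finset.sum_mul]
    refine Finset.sum_congr rfl (fun d hd => ?_)
    have hdeg : d.degree = m := by
      by_contra hne
      exact (mem_support_iff.1 hd) (hg.coeff_eq_zero hne)
    rw [monomial_eq, map_mul, map_mul, ← hdeg]
    simp only [θ, coe_eval₂Hom, eval₂_C, RingHom.coe_comp, Function.comp_apply, Finsupp.prod,
      map_prod, map_pow, eval₂_X, mul_pow, Finset.prod_mul_distrib, Finset.prod_pow_eq_pow_sum]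
    rw [mul_assoc]
    rfl
  have h1 : θ (X i - 1) = 0 := by
    rw [map_sub, hθ 1 _ (isHomogeneous_X R i), map_one, pow_one]
    rw [IsLocalization.Away.mul_invSelf, sub_self]
  have h2 : ∀ a ∈ J, θ a ∈ J.map (algebraMap (A R) L) := by
    intro a ha
    rw [← sum_homogeneousComponent a, map_sum]
    refine Ideal.sum_mem _ (fun m _ => ?_)
    rw [hθ m _ (homogeneousComponent_isHomogeneous m a)]
    exact Ideal.mul_mem_right _ _ (Ideal.mem_map_of_mem _ (hJ a ha m))
  have h3 : θ f ∈ J.map (algebraMap (A R) L) := by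
    obtain ⟨a, ha, b, hb, rfl⟩ := Submodule.mem_sup.1 h
    obtain ⟨c, rfl⟩ := Ideal.mem_span_singleton'.1 hb
    rw [map_add, map_mul, h1, mul_zero, add_zero]
    exact h2 a ha
  have h4 : algebraMap (A R) L f ∈ J.map (algebraMap (A R) L) := by
    have := Ideal.mul_mem_right (algebraMap (A R) L (X i) ^ n) _ h3
    rw [hθ n f hf, mul_assoc, ← mul_pow, mul_comm t, IsLocalization.Away.mul_invSelf] at this
    simpa using this
  obtain ⟨m, hm⟩ := (IsLocalization.algebraMap_mem_map_algebraMap_iff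
    (Submonoid.powers (X i : A R)) L J f).1 h4
  obtain ⟨⟨M, rfl⟩, hm⟩ := hm
  exact ⟨M, hm⟩

end ring

section field
variable {k : Type} [Field k]

instance finite_Hn (n : ℕ) : Module.Finite k (Hn k n) :=
  Module.Finite.iff_fg.2 (homogeneousSubmodule_fg _ _ n)

/-- degree `n` piece of an ideal -/
noncomputable def pc (I : Ideal (A k)) (n : ℕ) : Submodule k (A k) :=
  I.restrictScalars k ⊓ Hn k n

lemma mem_pc {I : Ideal (A k)} {n : ℕ} {f : A k} : f ∈ pc I n ↔ f ∈ I ∧ f.IsHomogeneous n :=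
  Iff.rfl

lemma pc_le (I : Ideal (A k)) (n : ℕ) : pc I n ≤ Hn k n := inf_le_right

instance finite_pc (I : Ideal (A k)) (n : ℕ) : Module.Finite k (pc I n) :=
  Submodule.finiteDimensional_of_le (pc_le I n)

lemma finrank_map_add {W : Type*} [AddCommGroup W] [Module k W] (E : A k →ₗ[k] W)
    (U : Submodule k (A k)) [Module.Finite k U] :
    finrank k (U.map E) + finrank k ↥(LinearMap.ker E ⊓ U) = finrank k U := by
  have h := LinearMap.finrank_range_add_finrank_ker (E.domRestrict U)
  rw [LinearMap.range_domRestrict, LinearMap.ker_domRestrict] at h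
  rw [← h]
  congr 1
  have : (LinearMap.ker E ⊓ U).comap U.subtype = (LinearMap.ker E).comap U.subtype := by
    ext x; simp
  rw [← this]
  exact (Submodule.comapSubtypeEquivOfLe inf_le_right).finrank_eq.symm

lemma hf_add_dm (I : Ideal (A k)) (n : ℕ) :
    hilbFun I n + finrank k (pc I n) = finrank k (Hn k n) := by
  rw [← finrank_map_add (Ideal.Quotient.mkₐ k I).toLinearMap (Hn k n)]
  have : LinearMap.ker (Ideal.Quotient.mkₐ k I).toLinearMap = I.restrictScalars k := by
    ext f; simp [Ideal.Quotient.eq_zero_iff_mem]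
  rw [this]
  rfl

lemma hf_eq_of_map {W : Type*} [AddCommGroup W] [Module k W] (E : A k →ₗ[k] W)
    (I : Ideal (A k)) (n : ℕ) (h : ∀ f : A k, f.IsHomogeneous n → (f ∈ I ↔ E f = 0)) :
    hilbFun I n = finrank k ((Hn k n).map E) := by
  have h1 := hf_add_dm I n
  have h2 := finrank_map_add E (Hn k n)
  have : pc I n = LinearMap.ker E ⊓ Hn k n := by
    ext f
    simp only [mem_pc, Submodule.mem_inf, LinearMap.mem_ker, mem_homogeneousSubmodule]
    constructor
    · rintro ⟨a, b⟩; exact ⟨(h f b).1 a, b⟩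
    · rintro ⟨a, b⟩; exact ⟨(h f b).2 a, b⟩
  rw [this] at h1
  omega

lemma hf_ge_of_map {W : Type*} [AddCommGroup W] [Module k W] (E : A k →ₗ[k] W)
    (I : Ideal (A k)) (n : ℕ) (h : ∀ f ∈ I, f.IsHomogeneous n → E f = 0) :
    finrank k ((Hn k n).map E) ≤ hilbFun I n := by
  have h1 := hf_add_dm I n
  have h2 := finrank_map_add E (Hn k n)
  have h3 : pc I n ≤ LinearMap.ker E ⊓ Hn k n := fun f hf => ⟨h f hf.1 hf.2, hf.2⟩
  have : Module.Finite k ↥(LinearMap.ker E ⊓ Hn k n) :=
    Submodule.finiteDimensional_of_le inf_le_right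
  have := Submodule.finrank_mono h3
  omega

lemma hf_le_of_pc_le {I J : Ideal (A k)} {n : ℕ} (h : ∀ f ∈ I, f.IsHomogeneous n → f ∈ J) :
    hilbFun J n ≤ hilbFun I n := by
  have h1 := hf_add_dm I n
  have h2 := hf_add_dm J n
  have : pc I n ≤ pc J n := fun f hf => ⟨h f hf.1 hf.2, hf.2⟩
  have := Submodule.finrank_mono this
  omega

lemma hf_anti {I J : Ideal (A k)} (h : I ≤ J) (n : ℕ) : hilbFun J n ≤ hilbFun I n :=
  hf_le_of_pc_le (fun _ hf _ => h hf)

lemma hf_lt_of_exists {I J : Ideal (A k)} {n : ℕ} (h : ∀ f ∈ I, f.IsHomogeneous n → f ∈ J)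
    {f : A k} (hJ : f ∈ J) (hf : f.IsHomogeneous n) (hI : f ∉ I) :
    hilbFun J n < hilbFun I n := by
  have h1 := hf_add_dm I n
  have h2 := hf_add_dm J n
  have : pc I n < pc J n := by
    refine lt_of_le_of_ne (fun f hf => ⟨h f hf.1 hf.2, hf.2⟩) (fun he => hI ?_)
    have : f ∈ pc J n := ⟨hJ, hf⟩
    rw [← he] at this
    exact this.1
  have := Submodule.finrank_lt_finrank_of_lt this
  omega

lemma mem_of_hf_le {I J : Ideal (A k)} {n : ℕ} (h : ∀ f ∈ I, f.IsHomogeneous n → f ∈ J)
    (hle : hilbFun I n ≤ hilbFun J n) {f : A k} (hJ : f ∈ J) (hf : f.IsHomogeneous n) : f ∈ I := by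
  by_contra hI
  have := hf_lt_of_exists h hJ hf hI
  omega

lemma hf_top (n : ℕ) : hilbFun (⊤ : Ideal (A k)) n = 0 := by
  have h1 := hf_add_dm (⊤ : Ideal (A k)) n
  have : pc (⊤ : Ideal (A k)) n = Hn k n := by
    ext f; simp [mem_pc]
  rw [this] at h1
  omega

lemma hf_eq_zero_iff {I : Ideal (A k)} {n : ℕ} :
    hilbFun I n = 0 ↔ ∀ f : A k, f.IsHomogeneous n → f ∈ I := by
  constructor
  · intro h f hf
    exact mem_of_hf_le (J := ⊤) (fun _ _ _ => trivial) (by omega) trivial hf
  · intro h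
    have := hf_le_of_pc_le (I := ⊤) (J := I) (n := n) (fun f _ hf => h f hf)
    rw [hf_top] at this
    omega

lemma hf_eq_zero_of_irr_pow_le {I : Ideal (A k)} {M n : ℕ} (h : irr k ^ M ≤ I) (hn : M ≤ n) :
    hilbFun I n = 0 :=
  hf_eq_zero_iff.2 (fun _ hf => h (mem_irr_pow hf hn))

lemma hf_pos {I : Ideal (A k)} {n : ℕ} {f : A k} (hf : f.IsHomogeneous n) (hI : f ∉ I) :
    1 ≤ hilbFun I n := by
  by_contra h
  exact hI (hf_eq_zero_iff.1 (by omega) f hf)

lemma hf_inf_add_sup {I J : Ideal (A k)} (hI : IsHomog I) (hJ : IsHomog J) (n : ℕ) :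
    hilbFun (I ⊓ J) n + hilbFun (I ⊔ J) n = hilbFun I n + hilbFun J n := by
  have h1 := hf_add_dm I n
  have h2 := hf_add_dm J n
  have h3 := hf_add_dm (I ⊓ J) n
  have h4 := hf_add_dm (I ⊔ J) n
  have h5 := Submodule.finrank_sup_add_finrank_inf_eq (pc I n) (pc J n)
  have e1 : pc (I ⊓ J) n = pc I n ⊓ pc J n := by
    ext f; simp only [mem_pc, Submodule.mem_inf]; tauto
  have e2 : pc (I ⊔ J) n = pc I n ⊔ pc J n := by
    apply le_antisymm
    · rintro f ⟨hf, hn⟩
      obtain ⟨a, ha, b, hb, rfl⟩ := Submodule.mem_sup.1 hf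
      rw [← homogeneousComponent_eq_self hn, map_add]
      exact Submodule.add_mem_sup ⟨hI a ha n, homogeneousComponent_isHomogeneous n a⟩
        ⟨hJ b hb n, homogeneousComponent_isHomogeneous n b⟩
    · exact sup_le (fun f hf => ⟨Ideal.mem_sup_left hf.1, hf.2⟩)
        (fun f hf => ⟨Ideal.mem_sup_right hf.1, hf.2⟩)
  rw [e1] at h3; rw [e2] at h4
  omega

lemma hf_inf_le {I J : Ideal (A k)} (hI : IsHomog I) (hJ : IsHomog J) (n : ℕ) :
    hilbFun (I ⊓ J) n ≤ hilbFun I n + hilbFun J n := by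
  have := hf_inf_add_sup hI hJ n
  omega

/-- The basic rank computation for multiplication by a homogeneous element. -/
lemma finrank_sup_mul (I H : Ideal (A k)) {f : A k} {e : ℕ} (hf : f.IsHomogeneous e) (n : ℕ) :
    finrank k ↥(pc I (n + e) ⊔ (pc H n).map (LinearMap.mulRight k f)) +
      finrank k (pc (Submodule.colon I {f} ⊓ H) n) =
      finrank k (pc I (n + e)) + finrank k (pc H n) := by
  let q := (Ideal.Quotient.mkₐ k I).toLinearMap
  have hq : LinearMap.ker q = I.restrictScalars k := by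
    ext g; simp [q, Ideal.Quotient.eq_zero_iff_mem]
  have h1 := finrank_map_add (q ∘ₗ LinearMap.mulRight k f) (pc H n)
  have h2 := finrank_map_add q (pc I (n + e) ⊔ (pc H n).map (LinearMap.mulRight k f))
  have e1 : LinearMap.ker (q ∘ₗ LinearMap.mulRight k f) ⊓ pc H n =
      pc (Submodule.colon I {f} ⊓ H) n := by
    ext g
    simp only [Submodule.mem_inf, LinearMap.mem_ker, mem_pc, Submodule.mem_colon_singleton,
      LinearMap.comp_apply, LinearMap.mulRight_apply, smul_eq_mul]
    have : q (g * f) = 0 ↔ g * f ∈ I := by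
      rw [← LinearMap.mem_ker, hq]; rfl
    rw [this]; tauto
  have e2 : LinearMap.ker q ⊓ (pc I (n + e) ⊔ (pc H n).map (LinearMap.mulRight k f)) =
      pc I (n + e) := by
    apply le_antisymm
    · rintro g ⟨hg, hg'⟩
      rw [hq] at hg
      refine ⟨hg, ?_⟩
      have : pc I (n + e) ⊔ (pc H n).map (LinearMap.mulRight k f) ≤ Hn k (n + e) := by
        refine sup_le (pc_le _ _) ?_
        rintro _ ⟨u, hu, rfl⟩
        exact IsHomogeneous.mul hu.2 hf
      exact this hg'
    · refine le_inf ?_ le_sup_left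
      rw [hq]; exact inf_le_left
  have e3 : (pc I (n + e) ⊔ (pc H n).map (LinearMap.mulRight k f)).map q =
      (pc H n).map (q ∘ₗ LinearMap.mulRight k f) := by
    rw [Submodule.map_sup, Submodule.map_comp]
    have : (pc I (n + e)).map q = ⊥ := by
      rw [← LinearMap.le_ker_iff_map, hq]; exact inf_le_left
    rw [this, bot_sup_eq]
  rw [e1] at h1; rw [e2, e3] at h2
  omega

lemma hf_colon {I : Ideal (A k)} (hI : IsHomog I) {f : A k} {e : ℕ} (hf : f.IsHomogeneous e)
    (n : ℕ) :
    hilbFun I (n + e) = hilbFun (I ⊔ Ideal.span {f}) (n + e) +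
      hilbFun (Submodule.colon I {f}) n := by
  have h := finrank_sup_mul I ⊤ hf n
  have h1 := hf_add_dm I (n + e)
  have h2 := hf_add_dm (I ⊔ Ideal.span {f}) (n + e)
  have h3 := hf_add_dm (Submodule.colon I {f}) n
  have h4 := hf_add_dm (⊤ : Ideal (A k)) n
  rw [hf_top] at h4
  rw [inf_top_eq] at h
  have e1 : pc I (n + e) ⊔ (pc ⊤ n).map (LinearMap.mulRight k f) =
      pc (I ⊔ Ideal.span {f}) (n + e) := by
    apply le_antisymm
    · refine sup_le (fun g hg => ⟨Ideal.mem_sup_left hg.1, hg.2⟩) ?_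
      rintro _ ⟨u, hu, rfl⟩
      exact ⟨Ideal.mem_sup_right (Ideal.mul_mem_left _ _ (Ideal.mem_span_singleton_self f)),
        IsHomogeneous.mul hu.2 hf⟩
    · rintro g ⟨hg, hn⟩
      obtain ⟨a, ha, b, hb, rfl⟩ := Submodule.mem_sup.1 hg
      obtain ⟨c, rfl⟩ := Ideal.mem_span_singleton'.1 hb
      rw [← homogeneousComponent_eq_self hn, map_add, comp_mul_homog hf]
      exact Submodule.add_mem_sup ⟨hI a ha _, homogeneousComponent_isHomogeneous _ a⟩
        ⟨_, ⟨trivial, homogeneousComponent_isHomogeneous n c⟩, rfl⟩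
  rw [e1] at h
  omega

lemma hf_nzd {I : Ideal (A k)} (hI : IsHomog I) {f : A k} {e : ℕ} (hf : f.IsHomogeneous e)
    (hnzd : ∀ u, u * f ∈ I → u ∈ I) (n : ℕ) :
    hilbFun I (n + e) = hilbFun (I ⊔ Ideal.span {f}) (n + e) + hilbFun I n := by
  rw [hf_colon hI hf n]
  congr 2
  ext u
  rw [Submodule.mem_colon_singleton, smul_eq_mul]
  exact ⟨hnzd u, fun h => Ideal.mul_mem_right _ _ h⟩

lemma hf_sandwich {I H C : Ideal (A k)} (hIH : I ≤ H) {u : A k} {e : ℕ}
    (hu : u.IsHomogeneous e) (hnzd : ∀ f, f * u ∈ I → f ∈ I) (n : ℕ)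
    (hIC : ∀ f ∈ I, f.IsHomogeneous (n + e) → f ∈ C) (huH : ∀ f ∈ H, f * u ∈ C) :
    hilbFun C (n + e) + hilbFun I n ≤ hilbFun I (n + e) + hilbFun H n := by
  have h := finrank_sup_mul I H hu n
  have h1 := hf_add_dm I (n + e)
  have h2 := hf_add_dm C (n + e)
  have h3 := hf_add_dm I n
  have h4 := hf_add_dm H n
  have e0 : Submodule.colon I {u} ⊓ H = I := by
    apply le_antisymm
    · intro f hf
      exact hnzd f (by simpa using hf.1)
    · exact le_inf (fun f hf => by simpa using Ideal.mul_mem_right _ _ hf) hIH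
  rw [e0] at h
  have e1 : pc I (n + e) ⊔ (pc H n).map (LinearMap.mulRight k u) ≤ pc C (n + e) := by
    refine sup_le (fun g hg => ⟨hIC g hg.1 hg.2, hg.2⟩) ?_
    rintro _ ⟨f, hf, rfl⟩
    exact ⟨huH f hf.1, IsHomogeneous.mul hf.2 hu⟩
  have := Submodule.finrank_mono e1
  omega

end field

end Pool.Agent.MP_eba2ed_ag

end

section

/-! An integral projective curve of degree `δ` has Hilbert function at most `δ n + 1`. -/

namespace Pool.Agent.MP_eba2ed_ag

open MvPolynomial Module

variable {K : Type} [Field K]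

/-- evaluation at the points of a finite set -/
noncomputable def evT (T : Finset (Fin 4 → K)) : A K →ₗ[K] (T → K) :=
  LinearMap.pi (fun v => (aeval (v : Fin 4 → K) : A K →ₐ[K] K).toLinearMap)

lemma evT_apply (T : Finset (Fin 4 → K)) (f : A K) (v : T) :
    evT T f v = aeval (v : Fin 4 → K) f := rfl

lemma evT_surj (T : Finset (Fin 4 → K)) (i : Fin 4) (hT : ∀ v ∈ T, v i = 1) {m : ℕ}
    (hm : T.card ≤ m) : (Hn K m).map (evT T) = ⊤ := by
  classical
  have hsep : ∀ v v' : Fin 4 → K, v ≠ v' → ∃ j, v j ≠ v' j := fun v v' h => Function.ne_iff.1 h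
  choose! j hj using hsep
  rw [eq_top_iff, ← (Pi.basisFun K T).span_eq, Submodule.span_le]
  rintro _ ⟨v, rfl⟩
  let g : A K := X i ^ (m - (T.erase v).card) *
    ∏ w ∈ T.erase v, (X (j v w) - C (w (j v w)) * X i)
  have hg : g.IsHomogeneous m := by
    have h1 : (∏ w ∈ T.erase v, (X (j v w) - C (w (j v w)) * X i : A K)).IsHomogeneous
        (∑ w ∈ T.erase v, 1) :=
      IsHomogeneous.prod _ _ _ (fun w _ => (isHomogeneous_X K _).sub (isHomogeneous_C_mul_X _ _))
    have h2 := (isHomogeneous_X_pow (R := K) i (m - (T.erase v).card)).mul h1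
    have h3 : (T.erase v).card ≤ T.card := Finset.card_erase_le
    have h4 : m - (T.erase v).card + ∑ w ∈ T.erase v, 1 = m := by
      simp only [Finset.sum_const, smul_eq_mul, mul_one]
      omega
    rwa [h4] at h2
  have hval : ∀ u : T, aeval (u : Fin 4 → K) g =
      ∏ w ∈ T.erase v, ((u : Fin 4 → K) (j v w) - w (j v w)) := by
    intro u
    simp [g, hT u u.2]
  have hv : aeval (v : Fin 4 → K) g ≠ 0 := by
    rw [hval, Finset.prod_ne_zero_iff]
    intro w hw
    exact sub_ne_zero.2 (hj v w (Finset.ne_of_mem_erase hw).symm)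
  refine ⟨(aeval (v : Fin 4 → K) g)⁻¹ • g, Submodule.smul_mem _ _ hg, ?_⟩
  ext u
  rw [map_smul, Pi.smul_apply, evT_apply, Pi.basisFun_apply]
  by_cases huv : u = v
  · subst huv
    rw [Pi.single_eq_same, smul_eq_mul, inv_mul_cancel₀ hv]
  · have h0 : ∏ w ∈ T.erase v, ((u : Fin 4 → K) (j v w) - w (j v w)) = 0 :=
      Finset.prod_eq_zero (i := (u : Fin 4 → K))
        (Finset.mem_erase.2 ⟨fun h => huv (Subtype.ext h), u.2⟩) (sub_self _)
    rw [Pi.single_eq_of_ne huv, hval u, h0, smul_zero]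

theorem bezout [IsAlgClosed K] {P : Ideal (A K)} (hP : P.IsPrime) (hh : IsHomog P) {δ c N : ℕ}
    (hb : ∀ m, N ≤ m → hilbFun P m ≤ δ * m + c) {n : ℕ} (hn : 1 ≤ n) :
    hilbFun P n ≤ δ * n + 1 := by
  classical
  by_contra hcon
  have hi : ∃ i, X i ∉ P := by
    by_contra hall
    push Not at hall
    have := hf_eq_zero_of_irr_pow_le (I := P) (M := 1) (by simpa using irr_le_iff.2 hall) hn
    omega
  obtain ⟨i, hi⟩ := hi
  let Z : Set (Fin 4 → K) := zeroLocus K (chart P i)
  have hZ1 : ∀ v ∈ Z, v i = 1 := by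
    intro v hv
    have := (mem_zeroLocus_iff.1 hv) (X i - 1)
      (Ideal.mem_sup_right (Ideal.mem_span_singleton_self _))
    simpa [sub_eq_zero] using this
  have hZ2 : ∀ v ∈ Z, ∀ f ∈ P, aeval v f = 0 :=
    fun v hv f hf => (mem_zeroLocus_iff.1 hv) f (Ideal.mem_sup_left hf)
  have hT : ∃ T : Finset (Fin 4 → K), (T : Set (Fin 4 → K)) ⊆ Z ∧ T.card ≤ δ * n + 1 ∧
      (Z ⊆ T ∨ T.card = δ * n + 1) := by
    by_cases hfin : Z.Finite
    · by_cases hc : hfin.toFinset.card ≤ δ * n + 1
      · exact ⟨hfin.toFinset, by simp, hc, Or.inl (by simp)⟩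
      · obtain ⟨T, hT, hc'⟩ := Finset.exists_subset_card_eq (s := hfin.toFinset) (n := δ * n + 1)
          (by omega)
        exact ⟨T, fun v hv => by simpa using hT hv, hc'.le, Or.inr hc'⟩
    · obtain ⟨T, hT, hc'⟩ := Set.Infinite.exists_subset_card_eq hfin (δ * n + 1)
      exact ⟨T, hT, hc'.le, Or.inr hc'⟩
  obtain ⟨T, hTZ, hTc, hT⟩ := hT
  have hPT : ∀ f ∈ P, evT T f = 0 := by
    intro f hf
    ext v
    exact hZ2 v (hTZ v.2) f hf
  have hf : ∃ f : A K, f.IsHomogeneous n ∧ f ∉ P ∧ evT T f = 0 := by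
    by_contra hall
    push Not at hall
    have h1 := hf_eq_of_map (evT T) P n (fun f hf => ⟨hPT f, fun h => by
      by_contra hfP; exact hall f hf hfP h⟩)
    have h2 := Submodule.finrank_le ((Hn K n).map (evT T))
    simp only [finrank_fintype_fun_eq_card, Fintype.card_coe] at h2
    omega
  obtain ⟨f, hfn, hfP, hfT⟩ := hf
  rcases hT with hT | hT
  · have h1 : f ∈ vanishingIdeal K Z := by
      rw [mem_vanishingIdeal_iff]
      intro v hv
      exact congrFun hfT ⟨v, hT hv⟩
    rw [vanishingIdeal_zeroLocus_eq_radical] at h1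
    obtain ⟨r, hr⟩ := h1
    obtain ⟨M, hM⟩ := exists_X_pow_mul_mem hh (hfn.pow r) hr
    rcases hP.mem_or_mem hM with h | h
    · exact hi (hP.mem_of_pow_mem _ h)
    · exact hfP (hP.mem_of_pow_mem _ h)
  · have hstep : ∀ m, T.card ≤ m → hilbFun P m + (δ * n + 1) ≤ hilbFun P (m + n) := by
      intro m hm
      have h1 := hf_nzd hh hfn (fun u hu => (hP.mem_or_mem hu).resolve_right hfP) m
      have h2 := hf_ge_of_map (evT T) (P ⊔ Ideal.span {f}) (m + n) (by
        intro g hg _
        obtain ⟨a, ha, b, hb, rfl⟩ := Submodule.mem_sup.1 hg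
        obtain ⟨c, rfl⟩ := Ideal.mem_span_singleton'.1 hb
        rw [map_add, hPT a ha, zero_add]
        ext v
        have := congrFun hfT v
        rw [evT_apply] at this ⊢
        rw [map_mul, this]
        simp)
      rw [evT_surj T i (fun v hv => hZ1 v (hTZ hv)) (by omega)] at h2
      simp only [finrank_top, finrank_fintype_fun_eq_card, Fintype.card_coe] at h2
      omega
    have hind : ∀ r, r * (δ * n + 1) ≤ hilbFun P (N + T.card + r * n) := by
      intro r
      induction r with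
      | zero => simp
      | succ r ih =>
        have := hstep (N + T.card + r * n) (by omega)
        have e : N + T.card + (r + 1) * n = N + T.card + r * n + n := by ring
        rw [e]
        nlinarith
    have h1 := hind (δ * (N + T.card) + c + 1)
    have h2 := hb (N + T.card + (δ * (N + T.card) + c + 1) * n) (by omega)
    nlinarith

end Pool.Agent.MP_eba2ed_ag

end
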