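import Pool.Agent.Mg.Feba2ed.G98a566

section

/-! The Koszul complex of a quotient of the polynomial ring, degree by degree. -/

namespace Pool.Agent.MP_eba2ed_ag

open MvPolynomial Module

section act
variable (S : Type) [CommRing S] (V : Type) [AddCommGroup V] [Module S V]

/-- Action of an integer matrix on vectors. -/
def act (M : Matrix TT TT ℤ) : (TT → V) →ₗ[S] (TT → V) where
  toFun y T := ∑ U, M T U • y U
  map_add' y z := by ext T; simp [Finset.sum_add_distrib]
  map_smul' s y := by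
    ext T
    simp only [Pi.smul_apply, RingHom.id_apply, Finset.smul_sum]
    exact Finset.sum_congr rfl fun U _ => smul_comm _ _ _

variable {S V}

lemma act_apply (M : Matrix TT TT ℤ) (y : TT → V) (T : TT) :
    act S V M y T = ∑ U, M T U • y U := rfl

lemma act_mul (M N : Matrix TT TT ℤ) : act S V M * act S V N = act S V (M * N) := by
  apply LinearMap.ext; intro y; ext T
  simp only [Module.End.mul_apply, act_apply, Matrix.mul_apply, Finset.smul_sum, Finset.sum_smul,
    mul_smul]
  exact Finset.sum_comm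

lemma act_add (M N : Matrix TT TT ℤ) : act S V M + act S V N = act S V (M + N) := by
  apply LinearMap.ext; intro y; ext T
  simp [act_apply, add_smul, Finset.sum_add_distrib]

lemma act_ex_anti (i j : Fin 4) :
    act S V (ex j) * act S V (ex i) = - (act S V (ex i) * act S V (ex j)) := by
  rw [eq_neg_iff_add_eq_zero, add_comm, act_mul, act_mul, act_add]
  apply LinearMap.ext; intro y; ext T
  simp [act_apply, ex_anti, -Matrix.add_apply]

lemma act_ex_sq (i : Fin 4) : act S V (ex i) * act S V (ex i) = 0 := by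
  rw [act_mul]
  apply LinearMap.ext; intro y; ext T
  simp [act_apply, ex_sq]

lemma act_ex_hom (i j : Fin 4) : act S V (ex i) * act S V (ex j).transpose +
    act S V (ex j).transpose * act S V (ex i) = if i = j then 1 else 0 := by
  rw [act_mul, act_mul, act_add]
  apply LinearMap.ext; intro y; ext T
  by_cases h : i = j <;> simp [act_apply, ex_hom, h, -Matrix.add_apply]

end act

section kd
variable (R : Type) [CommRing R] (V : Type) [AddCommGroup V] [Module (A R) V]

/-- The Koszul differential. -/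
noncomputable def kd : (TT → V) →ₗ[A R] (TT → V) := ∑ i, (X i : A R) • act (A R) V (ex i)

/-- The homotopy for multiplication by `X j`. -/
noncomputable def kh (j : Fin 4) : (TT → V) →ₗ[A R] (TT → V) := act (A R) V (ex j).transpose

variable {R V}

lemma kd_apply (y : TT → V) (T : TT) :
    kd R V y T = ∑ i, ∑ U, ex i T U • (X i : A R) • y U := by
  simp only [kd, LinearMap.sum_apply, Finset.sum_apply, LinearMap.smul_apply, Pi.smul_apply,
    act_apply, Finset.smul_sum]
  exact Finset.sum_congr rfl fun i _ => Finset.sum_congr rfl fun U _ => smul_comm _ _ _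

lemma kd_kd (y : TT → V) : kd R V (kd R V y) = 0 := by
  have : kd R V * kd R V = 0 := by
    simp only [kd, Fin.sum_univ_four, add_mul, mul_add, smul_mul_smul_comm, act_ex_sq,
      act_ex_anti 0 1, act_ex_anti 0 2, act_ex_anti 0 3, act_ex_anti 1 2, act_ex_anti 1 3,
      act_ex_anti 2 3]
    module
  exact congr($this y)

lemma kd_kh (j : Fin 4) (y : TT → V) :
    kd R V (kh R V j y) + kh R V j (kd R V y) = (X j : A R) • y := by
  have : kd R V * kh R V j + kh R V j * kd R V = (X j : A R) • 1 := by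
    simp only [kd, kh, Finset.sum_mul, Finset.mul_sum, smul_mul_assoc, mul_smul_comm,
      ← Finset.sum_add_distrib, ← smul_add, act_ex_hom]
    rw [Finset.sum_eq_single j] <;> simp +contextual
  exact congr($this y)

lemma kd_nat {R' V' : Type} [CommRing R'] [AddCommGroup V'] [Module (A R') V'] {F : Type*}
    [FunLike F V V'] [AddMonoidHomClass F V V'] (φ : F)
    (h : ∀ i v, φ ((X i : A R) • v) = (X i : A R') • φ v) (y : TT → V) (T : TT) :
    φ (kd R V y T) = kd R' V' (fun U => φ (y U)) T := by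
  simp only [kd_apply, map_sum, map_zsmul, h]

lemma kd_single (v : V) (i : Fin 4) : kd R V (Pi.single ∅ v) {i} = (X i : A R) • v := by
  rw [kd_apply, Finset.sum_eq_single i]
  · simp [ex_single]
  · intro j _ hj
    simp [ex_single' j i _ hj]
  · simp

/-- Restriction to the components with `card T + 1 = j`. -/
def cut (j : ℕ) (y : TT → V) : TT → V := fun T => if T.card + 1 = j then y T else 0

lemma kd_cut (j : ℕ) (y : TT → V) : kd R V (cut j y) = cut (j + 1) (kd R V y) := by
  ext T
  simp only [kd_apply, cut]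
  split_ifs with h
  · refine Finset.sum_congr rfl fun i _ => Finset.sum_congr rfl fun U _ => ?_
    by_cases h0 : ex i T U = 0
    · simp [h0]
    · have := ex_card i T U h0
      rw [if_pos (by omega)]
  · refine Finset.sum_eq_zero fun i _ => Finset.sum_eq_zero fun U _ => ?_
    by_cases h0 : ex i T U = 0
    · simp [h0]
    · have := ex_card i T U h0
      rw [if_neg (by omega)]
      simp

omit [CommRing R] [Module (A R) V] in
lemma sum_cut (y : TT → V) : ∑ j ∈ Finset.range 5, cut (j + 1) y = y := by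
  ext T
  have : T.card ≤ 4 := by simpa using Finset.card_le_univ T
  rw [Finset.sum_apply, Finset.sum_eq_single T.card]
  · simp [cut]
  · intro b _ hb
    simp [cut, Ne.symm hb]
  · intro h
    simp at h
    omega

end kd

variable {R : Type} [CommRing R]

/-- Vectors of forms of total degree `n`. -/
def Lam (n : ℕ) (y : TT → A R) : Prop := ∀ T, (y T).IsHomogeneous (n + T.card)

lemma Lam.kd {n : ℕ} {y : TT → A R} (hy : Lam n y) : Lam n (kd R (A R) y) := by
  intro T
  rw [kd_apply]
  refine IsHomogeneous.sum _ _ _ fun i _ => IsHomogeneous.sum _ _ _ fun U _ => ?_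
  by_cases h0 : ex i T U = 0
  · simp [h0, isHomogeneous_zero]
  · have := ex_card i T U h0
    have h1 : (X i * y U).IsHomogeneous (n + T.card) := by
      have := (isHomogeneous_X R i).mul (hy U)
      rwa [show 1 + (n + U.card) = n + T.card by omega] at this
    exact (Hn R (n + T.card)).toAddSubgroup.zsmul_mem h1 _

lemma Lam.kh {n : ℕ} {y : TT → A R} (hy : Lam n y) (j : Fin 4) :
    Lam (n + 1) (kh R (A R) j y) := by
  intro T
  rw [MP_eba2ed_ag.kh, act_apply]
  refine IsHomogeneous.sum _ _ _ fun U _ => ?_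
  by_cases h0 : ex j U T = 0
  · simp [h0, isHomogeneous_zero]
  · have := ex_card j U T h0
    have h1 : (y U).IsHomogeneous (n + 1 + T.card) := by
      have := hy U
      rwa [show n + U.card = n + 1 + T.card by omega] at this
    exact (Hn R (n + 1 + T.card)).toAddSubgroup.zsmul_mem h1 _

lemma Lam.cut {n : ℕ} {y : TT → A R} (hy : Lam n y) (j : ℕ) : Lam n (cut j y) := by
  intro T
  unfold MP_eba2ed_ag.cut
  split_ifs
  · exact hy T
  · exact isHomogeneous_zero _ _ _

lemma Lam.sub {n : ℕ} {y z : TT → A R} (hy : Lam n y) (hz : Lam n z) : Lam n (y - z) :=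
  fun T => (hy T).sub (hz T)

/-- The projection to total degree `n`. -/
noncomputable def prj (n : ℕ) (y : TT → A R) : TT → A R :=
  fun T => homogeneousComponent (n + T.card) (y T)

lemma lam_prj (n : ℕ) (y : TT → A R) : Lam n (prj n y) :=
  fun _ => homogeneousComponent_isHomogeneous _ _

lemma Lam.prj_eq {n : ℕ} {y : TT → A R} (hy : Lam n y) : prj n y = y :=
  funext fun T => homogeneousComponent_eq_self (hy T)

lemma Lam.prj_ne {n m : ℕ} {y : TT → A R} (hy : Lam n y) (h : m ≠ n) : prj m y = 0 := by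
  funext T
  rw [prj, homogeneousComponent_of_mem (hy T), if_neg (by omega)]
  rfl

lemma kd_prj (n : ℕ) (y : TT → A R) : kd R (A R) (prj n y) = prj n (kd R (A R) y) := by
  funext T
  simp only [kd_apply, prj, map_sum, map_zsmul]
  refine Finset.sum_congr rfl fun i _ => Finset.sum_congr rfl fun U _ => ?_
  by_cases h0 : ex i T U = 0
  · simp [h0]
  · have := ex_card i T U h0
    rw [show n + T.card = n + U.card + 1 by omega, smul_eq_mul, smul_eq_mul, mul_comm (X i),
      mul_comm (X i), comp_mul_homog (isHomogeneous_X R i)]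

/-- Exactness of the Koszul complex of `A R ⧸ J` in total degree `n`. -/
def Kos (J : Ideal (A R)) (n : ℕ) : Prop :=
  ∀ z : TT → A R, Lam n z → (∀ T, kd R (A R) z T ∈ J) →
    ∃ y, Lam n y ∧ ∀ T, z T - kd R (A R) y T ∈ J

lemma Kos.congr {J J' : Ideal (A R)} {n : ℕ} (h : Kos J n)
    (e : ∀ k, n ≤ k → ∀ f : A R, f.IsHomogeneous k → (f ∈ J ↔ f ∈ J')) : Kos J' n := by
  intro z hz hd
  obtain ⟨y, hy, h1⟩ := h z hz (fun T => (e _ (by omega) _ (hz.kd T)).2 (hd T))
  exact ⟨y, hy, fun T => (e _ (by omega) _ ((hz.sub hy.kd) T)).1 (h1 T)⟩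

/-- It is enough to find a preimage of any degree. -/
lemma kos_of {J : Ideal (A R)} (hJ : IsHomog J) {n : ℕ} {z : TT → A R} (hz : Lam n z)
    {y : TT → A R} (h : ∀ T, z T - kd R (A R) y T ∈ J) :
    ∃ y, Lam n y ∧ ∀ T, z T - kd R (A R) y T ∈ J := by
  refine ⟨prj n y, lam_prj n y, fun T => ?_⟩
  have := hJ _ (h T) (n + T.card)
  rwa [map_sub, homogeneousComponent_eq_self (hz T), ← prj, ← kd_prj] at this

/-- Exactness at the first spot. -/
lemma Kos.sat {J : Ideal (A R)} {n : ℕ} (h : Kos J n) {f : A R} (hf : f.IsHomogeneous n)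
    (hX : ∀ i, X i * f ∈ J) : f ∈ J := by
  classical
  obtain ⟨y, -, h1⟩ := h (Pi.single ∅ f) (fun T => by
    by_cases hT : T = ∅
    · subst hT; simpa using hf
    · simp [hT, isHomogeneous_zero]) (fun T => by
    rw [kd_apply]
    refine Ideal.sum_mem _ fun i _ => Ideal.sum_mem _ fun U _ => zsmul_mem ?_ _
    by_cases hU : U = ∅
    · subst hU; simpa using hX i
    · simp [hU])
  have h2 : kd R (A R) y ∅ = 0 := by
    rw [kd_apply]
    refine Finset.sum_eq_zero fun i _ => Finset.sum_eq_zero fun U _ => ?_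
    by_cases h0 : ex i ∅ U = 0
    · simp [h0]
    · have := ex_card i ∅ U h0
      simp at this
  simpa [h2] using h1 ∅

end Pool.Agent.MP_eba2ed_ag

end

section

/-! Koszul exactness: large degrees, localisation, descent along field extensions. -/

namespace Pool.Agent.MP_eba2ed_ag

open MvPolynomial Module

variable {R : Type} [CommRing R]

/-- Base change of an ideal. -/
noncomputable abbrev bc {R' : Type} [CommRing R'] (φ : R →+* R') (J : Ideal (A R)) :
    Ideal (A R') := J.map (MvPolynomial.map φ : A R →+* A R')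

lemma bc_bc {R' R'' : Type} [CommRing R'] [CommRing R''] (φ : R →+* R') (ψ : R' →+* R'')
    (J : Ideal (A R)) : bc ψ (bc φ J) = bc (ψ.comp φ) J := by
  rw [bc, bc, Ideal.map_map]
  congr 1
  exact RingHom.ext fun f => MvPolynomial.map_map _ _ f

lemma bc_id (J : Ideal (A R)) : bc (RingHom.id R) J = J := by
  have : (MvPolynomial.map (RingHom.id R) : A R →+* A R) = RingHom.id _ :=
    RingHom.ext fun f => MvPolynomial.map_id f
  rw [bc, this, Ideal.map_id]

lemma map_kd {R' : Type} [CommRing R'] (φ : R →+* R') (y : TT → A R) (T : TT) :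
    MvPolynomial.map φ (kd R (A R) y T) = kd R' (A R') (fun U => MvPolynomial.map φ (y U)) T :=
  kd_nat (MvPolynomial.map φ : A R →+* A R') (fun i v => by simp) y T

/-- Boundaries modulo `J`. -/
noncomputable def Bd (J : Ideal (A R)) : Submodule (A R) (TT → A R) :=
  LinearMap.range (kd R (A R)) ⊔ Submodule.pi Set.univ (fun _ => J)

lemma mem_Bd {J : Ideal (A R)} {z : TT → A R} :
    z ∈ Bd J ↔ ∃ y, ∀ T, z T - kd R (A R) y T ∈ J := by
  constructor
  · intro h
    obtain ⟨_, ⟨y, rfl⟩, w, hw, rfl⟩ := Submodule.mem_sup.1 h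
    exact ⟨y, fun T => by simpa using hw T trivial⟩
  · rintro ⟨y, h⟩
    exact Submodule.mem_sup.2 ⟨_, ⟨y, rfl⟩, z - kd R (A R) y, fun T _ => h T, by simp⟩

lemma prj_mem_Bd {J : Ideal (A R)} (hJ : IsHomog J) {z : TT → A R} (hz : z ∈ Bd J) (n : ℕ) :
    prj n z ∈ Bd J := by
  obtain ⟨y, h⟩ := mem_Bd.1 hz
  refine mem_Bd.2 ⟨prj n y, fun T => ?_⟩
  have := hJ _ (h T) (n + T.card)
  rwa [map_sub, ← prj, ← prj, ← kd_prj] at this

lemma kos_iff_Bd {J : Ideal (A R)} (hJ : IsHomog J) {n : ℕ} :
    Kos J n ↔ ∀ z : TT → A R, Lam n z → (∀ T, kd R (A R) z T ∈ J) → z ∈ Bd J := by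
  constructor
  · intro h z hz hd
    obtain ⟨y, -, h1⟩ := h z hz hd
    exact mem_Bd.2 ⟨y, h1⟩
  · intro h z hz hd
    obtain ⟨y, h1⟩ := mem_Bd.1 (h z hz hd)
    exact kos_of hJ hz h1

lemma smul_cycle {J : Ideal (A R)} {z : TT → A R} (hd : ∀ T, kd R (A R) z T ∈ J) (a : A R) :
    a • z - (C (constantCoeff a) : A R) • z ∈ Bd J := by
  have h1 : irr R ≤ Submodule.colon (Bd J) {z} := by
    rw [irr_le_iff]
    intro i
    rw [Submodule.mem_colon_singleton, ← kd_kh]
    refine Submodule.add_mem_sup ⟨_, rfl⟩ fun T _ => ?_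
    rw [kh, act_apply]
    exact Ideal.sum_mem _ fun U _ => zsmul_mem (hd U) _
  rw [← sub_smul, ← Submodule.mem_colon_singleton]
  apply h1
  rw [irr, idealOfVars, ← Set.image_univ, mem_ideal_span_X_image]
  intro m hm
  by_contra h
  push Not at h
  have : m = 0 := Finsupp.ext fun i => h i trivial
  subst this
  simp [constantCoeff_eq] at hm

lemma prj_add (n : ℕ) (y z : TT → A R) : prj n (y + z) = prj n y + prj n z := by
  funext T; simp [prj]

lemma exists_gen [IsNoetherianRing R] (J : Ideal (A R)) (m : ℕ) :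
    ∃ s : Finset (TT → A R), (∀ z ∈ s, ∃ n, m ≤ n ∧ Lam n z ∧ ∀ T, kd R (A R) z T ∈ J) ∧
      ∀ n, m ≤ n → ∀ z, Lam n z → (∀ T, kd R (A R) z T ∈ J) →
        z ∈ Submodule.span (A R) (s : Set (TT → A R)) := by
  let Z : Set (TT → A R) := {z | ∃ n, m ≤ n ∧ Lam n z ∧ ∀ T, kd R (A R) z T ∈ J}
  obtain ⟨s, hs, h⟩ := (Submodule.fg_span_iff_fg_span_finset_subset (R := A R) Z).1
    (IsNoetherian.noetherian _)
  exact ⟨s, fun z hz => hs hz, fun n hn z hz hd => h ▸ Submodule.subset_span ⟨n, hn, hz, hd⟩⟩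

/-- The Koszul complex is exact in large degrees. -/
theorem kos_large [IsNoetherianRing R] {J : Ideal (A R)} (hJ : IsHomog J) :
    ∃ N, ∀ n, N ≤ n → Kos J n := by
  obtain ⟨s, hs, hgen⟩ := exists_gen J 0
  choose! deg _ hdeg hcyc using hs
  refine ⟨s.sup deg + 1, fun n hn => (kos_iff_Bd hJ).2 fun z hz hd => ?_⟩
  have key : ∀ w ∈ Submodule.span (A R) (s : Set (TT → A R)), ∀ a : A R, prj n (a • w) ∈ Bd J := by
    intro w hw
    induction hw using Submodule.span_induction with
    | mem x hx =>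
      intro a
      have h1 := prj_mem_Bd hJ (smul_cycle (hcyc x hx) a) n
      have h2 : Lam (deg x) ((C (constantCoeff a) : A R) • x) := fun T => by
        simpa using (isHomogeneous_C _ (constantCoeff a)).mul (hdeg x hx T)
      have h3 : deg x ≤ s.sup deg := Finset.le_sup hx
      rw [← sub_add_cancel (a • x) ((C (constantCoeff a) : A R) • x), prj_add,
        h2.prj_ne (by omega), add_zero]
      exact h1
    | zero => intro a; rw [smul_zero, Lam.prj_eq (y := 0) (fun T => isHomogeneous_zero _ _ _)]; simp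
    | add x y _ _ hx hy => intro a; rw [smul_add, prj_add]; exact add_mem (hx a) (hy a)
    | smul c x _ hx => intro a; rw [smul_smul]; exact hx _
  have := key z (hgen n (Nat.zero_le _) z hz hd) 1
  rwa [one_smul, hz.prj_eq] at this

section loc

attribute [local instance] MvPolynomial.algebraMvPolynomial

variable (M : Submonoid R) {R' : Type} [CommRing R'] [Algebra R R'] [IsLocalization M R']

lemma spread {J : Ideal (A R)} {f : A R}
    (h : MvPolynomial.map (algebraMap R R') f ∈ bc (algebraMap R R') J) :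
    ∃ t ∈ M, C t * f ∈ J := by
  obtain ⟨_, ⟨c, hc, rfl⟩, hcf⟩ := (IsLocalization.algebraMap_mem_map_algebraMap_iff
    (M.map (C (σ := Fin 4))) (A R') J f).1 h
  exact ⟨c, hc, hcf⟩

lemma spread_fin {ι : Type*} [Finite ι] {J : ι → Ideal (A R)} {f : ι → A R}
    (h : ∀ i, MvPolynomial.map (algebraMap R R') (f i) ∈ bc (algebraMap R R') (J i)) :
    ∃ t ∈ M, ∀ i, C t * f i ∈ J i := by
  classical
  cases nonempty_fintype ι
  choose t ht h using fun i => spread M (h i)
  refine ⟨∏ i, t i, prod_mem fun i _ => ht i, fun i => ?_⟩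
  rw [← Finset.prod_erase_mul _ _ (Finset.mem_univ i), map_mul, mul_assoc]
  exact Ideal.mul_mem_left _ _ (h i)

lemma clear_fin {ι : Type*} [Finite ι] (f' : ι → A R') :
    ∃ u ∈ M, ∃ f : ι → A R, ∀ i, MvPolynomial.map (algebraMap R R') (f i) =
      C (algebraMap R R' u) * f' i := by
  obtain ⟨⟨_, u, hu, rfl⟩, h⟩ := IsLocalization.exist_integer_multiples_of_finite
    (M.map (C (σ := Fin 4))) f'
  choose f hf using h
  refine ⟨u, hu, f, fun i => ?_⟩
  have := hf i
  rw [Algebra.smul_def] at this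
  simpa using this

lemma loc_down {J : Ideal (A R)} {z : TT → A R}
    (h : (fun T => MvPolynomial.map (algebraMap R R') (z T)) ∈ Bd (bc (algebraMap R R') J)) :
    ∃ t ∈ M, (C t : A R) • z ∈ Bd J := by
  obtain ⟨y', hy'⟩ := mem_Bd.1 h
  obtain ⟨u, hu, y, hy⟩ := clear_fin M y'
  obtain ⟨v, hv, h1⟩ := spread_fin (R' := R') M (J := fun _ : TT => J)
    (f := fun T => C u * z T - kd R (A R) y T) (fun T => by
      have e : (fun U => MvPolynomial.map (algebraMap R R') (y U)) =
        (C (algebraMap R R' u) : A R') • y' := funext hy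
      rw [map_sub, map_kd, e, map_smul, map_mul, map_C, Pi.smul_apply, smul_eq_mul, ← mul_sub]
      exact Ideal.mul_mem_left _ _ (hy' T))
  refine ⟨v * u, mul_mem hv hu, mem_Bd.2 ⟨(C v : A R) • y, fun T => ?_⟩⟩
  have := h1 T
  rw [map_smul]
  simpa [mul_sub, mul_assoc] using this

include M in
lemma loc_up {J : Ideal (A R)} (hJ : IsHomog J) {n : ℕ}
    (h : ∀ z, Lam n z → (∀ T, kd R (A R) z T ∈ J) →
      ∃ t, IsUnit (algebraMap R R' t) ∧ (C t : A R) • z ∈ Bd J) :
    Kos (bc (algebraMap R R') J) n := by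
  refine (kos_iff_Bd (hJ.map _)).2 fun z' hz' hd => ?_
  obtain ⟨u, hu, z0, hz0⟩ := clear_fin M z'
  have hz : ∀ T, MvPolynomial.map (algebraMap R R') (prj n z0 T) =
      C (algebraMap R R' u) * z' T := by
    intro T
    rw [prj, ← map_comp, hz0, homogeneousComponent_eq_self]
    simpa using (isHomogeneous_C _ _).mul (hz' T)
  have e : (fun U => MvPolynomial.map (algebraMap R R') (prj n z0 U)) =
    (C (algebraMap R R' u) : A R') • z' := funext hz
  obtain ⟨v, hv, h1⟩ := spread_fin (R' := R') M (J := fun _ : TT => J)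
    (f := fun T => kd R (A R) (prj n z0) T) (fun T => by
      rw [map_kd, e, map_smul]
      exact Ideal.mul_mem_left _ _ (hd T))
  obtain ⟨t, ht, h2⟩ := h ((C v : A R) • prj n z0)
    (fun T => by simpa using (isHomogeneous_C _ v).mul (lam_prj n z0 T))
    (fun T => by rw [map_smul]; exact h1 T)
  obtain ⟨y, hy⟩ := mem_Bd.1 h2
  have h3 : (C (algebraMap R R' t * (algebraMap R R' v * algebraMap R R' u)) : A R') • z' ∈
      Bd (bc (algebraMap R R') J) := by
    refine mem_Bd.2 ⟨fun U => MvPolynomial.map (algebraMap R R') (y U), fun T => ?_⟩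
    have := Ideal.mem_map_of_mem (MvPolynomial.map (algebraMap R R') : A R →+* A R') (hy T)
    rw [map_sub, map_kd] at this
    simpa [hz, mul_assoc] using this
  have h4 : IsUnit (C (algebraMap R R' t * (algebraMap R R' v * algebraMap R R' u)) : A R') :=
    (ht.mul ((IsLocalization.map_units R' ⟨v, hv⟩).mul
      (IsLocalization.map_units R' ⟨u, hu⟩))).map _
  exact (Submodule.smul_mem_iff_of_isUnit _ h4).1 h3

/-- Generic exactness. -/
lemma generic_kos [IsNoetherianRing R] {J : Ideal (A R)} {m : ℕ}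
    (h : ∀ n, m ≤ n → Kos (bc (algebraMap R R') J) n) :
    ∃ t ∈ M, ∀ n, m ≤ n → ∀ z, Lam n z → (∀ T, kd R (A R) z T ∈ J) → (C t : A R) • z ∈ Bd J := by
  classical
  obtain ⟨s, hs, hgen⟩ := exists_gen J m
  have h1 : ∀ z ∈ s, ∃ t ∈ M, (C t : A R) • z ∈ Bd J := by
    intro z hz
    obtain ⟨n, hn, hz, hd⟩ := hs z hz
    apply loc_down (R' := R') M
    obtain ⟨y, -, hy⟩ := h n hn (fun T => MvPolynomial.map (algebraMap R R') (z T))
      (fun T => (hz T).map _) (fun T => by
        rw [← map_kd]; exact Ideal.mem_map_of_mem _ (hd T))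
    exact mem_Bd.2 ⟨y, hy⟩
  choose! t ht h1 using h1
  refine ⟨∏ z ∈ s, t z, prod_mem ht, fun n hn z hz hd => ?_⟩
  have h2 := hgen n hn z hz hd
  clear hz hd
  induction h2 using Submodule.span_induction with
  | mem x hx =>
    rw [← Finset.prod_erase_mul _ _ hx, map_mul, mul_smul]
    exact Submodule.smul_mem _ _ (h1 x hx)
  | zero => simp
  | add x y _ _ hx hy => rw [smul_add]; exact add_mem hx hy
  | smul c x _ hx => rw [smul_comm]; exact Submodule.smul_mem _ _ hx

end loc

lemma mem_span_of_mem_bc {R' : Type} [CommRing R'] (φ : R →+* R') {I : Ideal (A R)} {f : A R'}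
    (hf : f ∈ bc φ I) : f ∈ Submodule.span R' (MvPolynomial.map φ '' (I : Set (A R))) := by
  have hX : ∀ i, ∀ x ∈ Submodule.span R' (MvPolynomial.map φ '' (I : Set (A R))),
      X i * x ∈ Submodule.span R' (MvPolynomial.map φ '' (I : Set (A R))) := by
    intro i x hx
    induction hx using Submodule.span_induction with
    | mem x hx =>
      obtain ⟨a, ha, rfl⟩ := hx
      exact Submodule.subset_span ⟨X i * a, Ideal.mul_mem_left _ _ ha, by simp⟩
    | zero => simp
    | add x y _ _ hx hy => rw [mul_add]; exact add_mem hx hy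
    | smul c x _ hx => rw [mul_smul_comm]; exact Submodule.smul_mem _ _ hx
  have hc : ∀ c : A R', ∀ x ∈ Submodule.span R' (MvPolynomial.map φ '' (I : Set (A R))),
      c * x ∈ Submodule.span R' (MvPolynomial.map φ '' (I : Set (A R))) := by
    intro c
    induction c using MvPolynomial.induction_on with
    | C a => intro x hx; rw [← smul_eq_C_mul]; exact Submodule.smul_mem _ _ hx
    | add p q hp hq => intro x hx; rw [add_mul]; exact add_mem (hp x hx) (hq x hx)
    | mul_X p i hp => intro x hx; rw [mul_assoc]; exact hp _ (hX i x hx)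
  induction hf using Submodule.span_induction with
  | mem x hx => exact Submodule.subset_span hx
  | zero => simp
  | add x y _ _ hx hy => exact add_mem hx hy
  | smul c x _ hx => exact hc c x hx

section field
variable {k K : Type} [Field k] [Field K]

/-- A coefficientwise retraction of a field extension. -/
lemma exists_retraction (φ : k →+* K) : ∃ L : A K →+ A k,
    (∀ f, L (MvPolynomial.map φ f) = f) ∧ (∀ i f, L (X i * f) = X i * L f) ∧
    (∀ f, (L f).support ⊆ f.support) ∧ ∀ (I : Ideal (A k)), ∀ f ∈ bc φ I, L f ∈ I := by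
  classical
  let := φ.toAlgebra
  obtain ⟨l, hl⟩ := (Algebra.linearMap k K).exists_leftInverse_of_injective
    (LinearMap.ker_eq_bot.2 φ.injective)
  have hl' : ∀ a, l (φ a) = a := fun a => congr($hl a)
  let L0 : A K → A k := fun f => ∑ m ∈ f.support, monomial m (l (coeff m f))
  have hL : ∀ f m, coeff m (L0 f) = l (coeff m f) := by
    intro f m
    simp only [L0, coeff_sum, coeff_monomial]
    rw [Finset.sum_ite_eq']
    split_ifs with h
    · rfl
    · rw [notMem_support_iff.1 h, map_zero]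
  let L : A K →+ A k :=
    { toFun := L0
      map_zero' := by ext m; simp [hL]
      map_add' := fun f g => by ext m; simp [hL] }
  have hL' : ∀ f m, coeff m (L f) = l (coeff m f) := hL
  refine ⟨L, fun f => ?_, fun i f => ?_, fun f m hm => ?_, fun I f hf => ?_⟩
  · ext m; rw [hL', coeff_map, hl']
  · ext m
    rw [hL', coeff_X_mul', coeff_X_mul', hL']
    split_ifs <;> simp
  · rw [MvPolynomial.mem_support_iff] at hm ⊢
    intro h0
    rw [hL', h0, map_zero] at hm
    exact hm rfl
  · have h1 : ∀ c : K, L (c • f) ∈ I := by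
      have := mem_span_of_mem_bc φ hf
      clear hf
      induction this using Submodule.span_induction with
      | mem x hx =>
        obtain ⟨a, ha, rfl⟩ := hx
        intro c
        have : L (c • MvPolynomial.map φ a) = C (l c) * a := by
          ext m
          rw [hL', coeff_smul, coeff_map, coeff_C_mul, smul_eq_mul, mul_comm, mul_comm (l c),
            ← smul_eq_mul (coeff m a), ← map_smul]
          rfl
        rw [this]
        exact Ideal.mul_mem_left _ _ ha
      | zero => simp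
      | add x y _ _ hx hy => intro c; rw [smul_add, map_add]; exact add_mem (hx c) (hy c)
      | smul c x _ hx => intro c'; rw [smul_smul]; exact hx _
    simpa using h1 1

lemma homog_of_support {R R' : Type} [CommRing R] [CommRing R'] {f : A R} {g : A R'} {n : ℕ}
    (h : f.support ⊆ g.support) (hg : g.IsHomogeneous n) : f.IsHomogeneous n :=
  fun _ hm => hg (MvPolynomial.mem_support_iff.1 (h (MvPolynomial.mem_support_iff.2 hm)))

lemma Kos.descend (φ : k →+* K) {J : Ideal (A k)} {n : ℕ} (h : Kos (bc φ J) n) : Kos J n := by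
  obtain ⟨L, h1, h2, h3, h4⟩ := exists_retraction φ
  intro z hz hd
  obtain ⟨y, hy, h5⟩ := h (fun T => MvPolynomial.map φ (z T)) (fun T => (hz T).map _)
    (fun T => by rw [← map_kd]; exact Ideal.mem_map_of_mem _ (hd T))
  refine ⟨fun T => L (y T), fun T => homog_of_support (h3 _) (hy T), fun T => ?_⟩
  have := h4 J _ (h5 T)
  rwa [map_sub, h1, kd_nat (R' := k) L (fun i v => h2 i v)] at this

lemma mem_of_map_mem_bc (φ : k →+* K) {J : Ideal (A k)} {f : A k}
    (h : MvPolynomial.map φ f ∈ bc φ J) : f ∈ J := by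
  obtain ⟨L, h1, -, -, h4⟩ := exists_retraction φ
  rw [← h1 f]
  exact h4 J _ h

end field

end Pool.Agent.MP_eba2ed_ag

end

section

/-! The Koszul complex as a complex of modules over the base ring. -/

namespace Pool.Agent.MP_eba2ed_ag

open MvPolynomial Module

variable {R : Type} [CommRing R]

/-- The degree `k` part of `A R ⧸ J`. -/
noncomputable def Mn (J : Ideal (A R)) (k : ℕ) : Submodule R (A R ⧸ J) :=
  (Hn R k).map (Ideal.Quotient.mkₐ R J).toLinearMap

lemma mem_Mn {J : Ideal (A R)} {k : ℕ} {x : A R ⧸ J} :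
    x ∈ Mn J k ↔ ∃ f : A R, f.IsHomogeneous k ∧ Ideal.Quotient.mk J f = x := Iff.rfl

instance (n : ℕ) : Module.Finite R (Hn R n) :=
  Module.Finite.iff_fg.2 (homogeneousSubmodule_fg _ _ n)

instance (J : Ideal (A R)) (k : ℕ) : Module.Finite R (Mn J k) := by
  unfold Mn; infer_instance

/-- The terms of the Koszul complex in total degree `n`. -/
noncomputable def EE (J : Ideal (A R)) (n j : ℕ) : Submodule R (TT → A R ⧸ J) :=
  Submodule.pi Set.univ (fun T => if T.card + 1 = j then Mn J (n + T.card) else ⊥)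

lemma mem_EE {J : Ideal (A R)} {n j : ℕ} {y : TT → A R ⧸ J} :
    y ∈ EE J n j ↔ ∀ T, y T ∈ Mn J (n + T.card) ∧ (T.card + 1 ≠ j → y T = 0) := by
  rw [EE, Submodule.mem_pi]
  refine forall_congr' fun T => ?_
  by_cases h : T.card + 1 = j
  · simp [h]
  · simp only [Set.mem_univ, h, if_false, Submodule.mem_bot, forall_const, ne_eq,
      not_false_eq_true, iff_and_self]
    intro h0
    rw [h0]
    exact zero_mem _

noncomputable abbrev dq (J : Ideal (A R)) : (TT → A R ⧸ J) →ₗ[R] (TT → A R ⧸ J) :=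
  (kd R (A R ⧸ J)).restrictScalars R

noncomputable def mkv (J : Ideal (A R)) (y : TT → A R) : TT → A R ⧸ J :=
  fun T => Ideal.Quotient.mk J (y T)

lemma dq_mkv (J : Ideal (A R)) (y : TT → A R) : dq J (mkv J y) = mkv J (kd R (A R) y) :=
  funext fun T => (kd_nat (Ideal.Quotient.mk J) (fun _ _ => rfl) y T).symm

lemma mkv_cut (J : Ideal (A R)) (j : ℕ) (y : TT → A R) : mkv J (cut j y) = cut j (mkv J y) := by
  funext T
  simp only [mkv, cut]
  split_ifs <;> simp

lemma mkv_eq_iff {J : Ideal (A R)} {y z : TT → A R} :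
    mkv J y = mkv J z ↔ ∀ T, y T - z T ∈ J := by
  simp [funext_iff, mkv, Ideal.Quotient.eq]

lemma mkv_eq_zero {J : Ideal (A R)} {y : TT → A R} : mkv J y = 0 ↔ ∀ T, y T ∈ J := by
  simp [funext_iff, mkv, Ideal.Quotient.eq_zero_iff_mem]

lemma mkv_mem_EE (J : Ideal (A R)) {n : ℕ} {y : TT → A R} (hy : Lam n y) (j : ℕ) :
    mkv J (cut j y) ∈ EE J n j :=
  mem_EE.2 fun T => ⟨⟨_, hy.cut j T, rfl⟩, fun h => by simp [mkv, cut, h]⟩

lemma EE_lift {J : Ideal (A R)} {n j : ℕ} {z : TT → A R ⧸ J} (hz : z ∈ EE J n j) :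
    ∃ y, Lam n y ∧ cut j y = y ∧ mkv J y = z := by
  rw [mem_EE] at hz
  choose y hy h using fun T => (hz T).1
  have hy' : Lam n y := hy
  refine ⟨cut j y, hy'.cut j, ?_, ?_⟩
  · funext T; simp only [cut]; split_ifs <;> rfl
  · funext T
    simp only [mkv, cut]
    split_ifs with h1
    · exact h T
    · rw [(hz T).2 h1, map_zero]

lemma dq_EE {J : Ideal (A R)} {n j : ℕ} {z : TT → A R ⧸ J} (hz : z ∈ EE J n j) :
    dq J z ∈ EE J n (j + 1) := by
  obtain ⟨y, hy, h1, rfl⟩ := EE_lift hz
  rw [dq_mkv, ← h1, kd_cut]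
  exact mkv_mem_EE J hy.kd _

lemma map_dq_le (J : Ideal (A R)) (n j : ℕ) : (EE J n j).map (dq J) ≤ EE J n (j + 1) := by
  rintro _ ⟨z, hz, rfl⟩
  exact dq_EE hz

lemma dq_dq (J : Ideal (A R)) (z : TT → A R ⧸ J) : dq J (dq J z) = 0 := kd_kd z

lemma EE_zero (J : Ideal (A R)) (n : ℕ) : EE J n 0 = ⊥ := by
  rw [eq_bot_iff]
  intro z hz
  funext T
  exact (mem_EE.1 hz T).2 (by omega)

lemma EE_big (J : Ideal (A R)) (n : ℕ) {j : ℕ} (hj : 6 ≤ j) : EE J n j = ⊥ := by
  rw [eq_bot_iff]
  intro z hz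
  funext T
  have : T.card ≤ 4 := by simpa using Finset.card_le_univ T
  exact (mem_EE.1 hz T).2 (by omega)

lemma Kos.spot {J : Ideal (A R)} {n : ℕ} (h : Kos J n) (j : ℕ) :
    EE J n (j + 1) ⊓ LinearMap.ker (dq J) = (EE J n j).map (dq J) := by
  apply le_antisymm
  · rintro z ⟨hz, hd⟩
    obtain ⟨y, hy, h1, rfl⟩ := EE_lift hz
    have hd' : dq J (mkv J y) = 0 := hd
    rw [dq_mkv, mkv_eq_zero] at hd'
    obtain ⟨w, hw, h2⟩ := h y hy hd'
    refine ⟨mkv J (cut j w), mkv_mem_EE J hw j, ?_⟩
    rw [dq_mkv, kd_cut, mkv_cut, ← mkv_eq_iff.2 h2, ← mkv_cut, h1]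
  · rintro _ ⟨z, hz, rfl⟩
    exact ⟨dq_EE hz, dq_dq J z⟩

lemma kos_of_spot {J : Ideal (A R)} {n : ℕ}
    (h : ∀ j, EE J n (j + 1) ⊓ LinearMap.ker (dq J) ≤ (EE J n j).map (dq J)) : Kos J n := by
  intro z hz hd
  have h1 : ∀ j, ∃ y, Lam n y ∧ ∀ T, cut (j + 1) z T - kd R (A R) y T ∈ J := by
    intro j
    obtain ⟨w, hw, h2⟩ := h j (x := mkv J (cut (j + 1) z)) ⟨mkv_mem_EE J hz _, by
      change dq J _ = 0
      rw [dq_mkv, kd_cut, mkv_cut, mkv_eq_zero.2 hd]
      funext T
      simp [cut]⟩
    obtain ⟨y, hy, -, rfl⟩ := EE_lift hw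
    rw [dq_mkv] at h2
    exact ⟨y, hy, mkv_eq_iff.1 h2.symm⟩
  choose y hy h1 using h1
  refine ⟨∑ j ∈ Finset.range 5, y j, fun T => ?_, fun T => ?_⟩
  · rw [Finset.sum_apply]
    exact IsHomogeneous.sum _ _ _ fun j _ => hy j T
  · conv => enter [2, 1]; rw [← sum_cut z]
    rw [map_sum, Finset.sum_apply, Finset.sum_apply, ← Finset.sum_sub_distrib]
    exact Ideal.sum_mem _ fun j _ => h1 j T

/-- The terms of the complex are powers of the graded pieces. -/
noncomputable def EEequiv (J : Ideal (A R)) (n j : ℕ) :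
    EE J n (j + 1) ≃ₗ[R] ({T : TT // T.card = j} → Mn J (n + j)) where
  toFun y T := ⟨y.1 T.1, by have := (mem_EE.1 y.2 T.1).1; rwa [T.2] at this⟩
  map_add' _ _ := rfl
  map_smul' _ _ := rfl
  invFun x := ⟨fun T => if h : T.card = j then (x ⟨T, h⟩ : A R ⧸ J) else 0, mem_EE.2 fun T => by
    constructor
    · split_ifs with h
      · rw [h]; exact (x ⟨T, h⟩).2
      · exact zero_mem _
    · intro h
      exact dif_neg (by omega)⟩
  left_inv y := by
    ext T
    by_cases h : T.card = j
    · simp [h]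
    · simp [h, (mem_EE.1 y.2 T).2 (by omega)]
  right_inv x := by
    ext T
    simp [T.2]

instance (J : Ideal (A R)) (n j : ℕ) : Module.Finite R (EE J n j) := by
  cases j with
  | zero => rw [EE_zero]; infer_instance
  | succ j => exact Module.Finite.equiv (EEequiv J n j).symm

lemma proj_EE {J : Ideal (A R)} {n j : ℕ} (h : Projective R (Mn J (n + j))) :
    Projective R (EE J n (j + 1)) := by
  classical
  have : Projective R ({T : TT // T.card = j} → Mn J (n + j)) :=
    .of_equiv (DFinsupp.linearEquivFunOnFintype (R := R)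
      (M := fun _ : {T : TT // T.card = j} => Mn J (n + j)))
  exact .of_equiv (EEequiv J n j).symm

lemma euler {k : Type} [Field k] {J : Ideal (A k)} {n : ℕ} (h : Kos J n) :
    hilbFun J n + 6 * hilbFun J (n + 2) + hilbFun J (n + 4) =
      4 * hilbFun J (n + 1) + 4 * hilbFun J (n + 3) := by
  have h1 : ∀ j, finrank k ((EE J n (j + 1)).map (dq J)) + finrank k ((EE J n j).map (dq J)) =
      Nat.choose 4 j * hilbFun J (n + j) := by
    intro j
    have h2 := LinearMap.finrank_range_add_finrank_ker ((dq J).domRestrict (EE J n (j + 1)))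
    rw [LinearMap.range_domRestrict, LinearMap.ker_domRestrict, (EEequiv J n j).finrank_eq,
      finrank_pi_fintype, Finset.sum_const, Finset.card_univ, Fintype.card_finset_len,
      Fintype.card_fin, smul_eq_mul] at h2
    rw [← h.spot j]
    refine Eq.trans ?_ h2
    congr 1
    rw [← (Submodule.comapSubtypeEquivOfLe (inf_le_left (a := EE J n (j + 1))
      (b := LinearMap.ker (dq J)))).finrank_eq, Submodule.comap_inf,
      Submodule.comap_subtype_self, top_inf_eq]
  have h0 : finrank k ((EE J n 0).map (dq J)) = 0 := by simp [EE_zero]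
  have h5 : finrank k ((EE J n 5).map (dq J)) = 0 := by
    have := map_dq_le J n 5
    rw [EE_big J n le_rfl, le_bot_iff] at this
    simp [this]
  have a0 := h1 0
  have a1 := h1 1
  have a2 := h1 2
  have a3 := h1 3
  have a4 := h1 4
  simp only [Nat.choose, add_zero, Nat.reduceAdd] at a0 a1 a2 a3 a4
  omega

section basechange

variable {R' : Type} [CommRing R'] [Algebra R R']

noncomputable def qm (R' : Type) [CommRing R'] [Algebra R R'] (J : Ideal (A R)) :
    (A R ⧸ J) →ₗ[R] (A R' ⧸ bc (algebraMap R R') J) :=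
  (Ideal.quotientMapₐ (bc (algebraMap R R') J) (mapAlgHom (Algebra.ofId R R'))
    Ideal.le_comap_map).toLinearMap

lemma qm_mk (J : Ideal (A R)) (f : A R) : qm R' J (Ideal.Quotient.mk J f) =
    Ideal.Quotient.mk _ (MvPolynomial.map (algebraMap R R') f) := rfl

attribute [local instance] MvPolynomial.algebraMvPolynomial in
lemma isBaseChange_poly (R' : Type) [CommRing R'] [Algebra R R'] :
    IsBaseChange R' (mapAlgHom (σ := Fin 4) (Algebra.ofId R R')).toLinearMap :=
  Algebra.IsPushout.out (R := R) (S := R') (R' := A R) (S' := A R')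

lemma isBaseChange_qm (R' : Type) [CommRing R'] [Algebra R R'] (J : Ideal (A R)) :
    IsBaseChange R' (qm R' J) := by
  refine IsBaseChange.of_right_exact R'
    (Finsupp.mapRange.linearMap (α := J) (mapAlgHom (σ := Fin 4) (Algebra.ofId R R')).toLinearMap)
    (mapAlgHom (σ := Fin 4) (Algebra.ofId R R')).toLinearMap (qm R' J)
    (f := (Finsupp.linearCombination (A R) (fun a : J => (a : A R))).restrictScalars R)
    (g := (Ideal.Quotient.mkₐ R J).toLinearMap)
    (f' := (Finsupp.linearCombination (A R')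
      (fun a : J => MvPolynomial.map (algebraMap R R') (a : A R))).restrictScalars R')
    (g' := (Ideal.Quotient.mkₐ R' (bc (algebraMap R R') J)).toLinearMap) ?_ ?_
    (IsBaseChange.finsuppPow _ (isBaseChange_poly R')) (isBaseChange_poly R') ?_
    Ideal.Quotient.mk_surjective ?_ Ideal.Quotient.mk_surjective
  · apply Finsupp.lhom_ext
    intro a f
    simp
  · rfl
  · intro f
    change Ideal.Quotient.mk J f = 0 ↔ f ∈ LinearMap.range
      (Finsupp.linearCombination (A R) (fun a : J => (a : A R)))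
    rw [Finsupp.range_linearCombination, Ideal.Quotient.eq_zero_iff_mem]
    simp
  · intro f
    change Ideal.Quotient.mk _ f = 0 ↔ f ∈ LinearMap.range
      (Finsupp.linearCombination (A R')
        (fun a : J => MvPolynomial.map (algebraMap R R') (a : A R)))
    rw [Finsupp.range_linearCombination, Ideal.Quotient.eq_zero_iff_mem, bc, Ideal.map,
      Set.image_eq_range]
    rfl

end basechange

end Pool.Agent.MP_eba2ed_ag

end

section

/-! Base change of Koszul exactness, and exactness over local rings. -/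

namespace Pool.Agent.MP_eba2ed_ag

open MvPolynomial Module IsLocalRing

section general
variable {R Λ : Type} [CommRing R] [AddCommGroup Λ] [Module R Λ]

lemma exists_sec (E : Submodule R Λ) (d : Λ →ₗ[R] Λ) [Projective R (E.map d)] :
    ∃ s : E.map d →ₗ[R] Λ, (∀ x, s x ∈ E) ∧ ∀ x, d (s x) = x := by
  obtain ⟨s, hs⟩ := projective_lifting_property (d.submoduleMap E) LinearMap.id
    (LinearMap.submoduleMap_surjective d E)
  exact ⟨E.subtype ∘ₗ s, fun x => (s x).2, fun x => congrArg Subtype.val congr($hs x)⟩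

/-- The retraction onto the kernel. -/
lemma exists_retr (E : Submodule R Λ) (d : Λ →ₗ[R] Λ) [Projective R (E.map d)] :
    ∃ r : E →ₗ[R] ↥(E ⊓ LinearMap.ker d), ∀ x (hx : x ∈ E), d x = 0 → (r ⟨x, hx⟩ : Λ) = x := by
  obtain ⟨s, h1, h2⟩ := exists_sec E d
  refine ⟨(E.subtype - s ∘ₗ d.submoduleMap E).codRestrict _ (fun x => ⟨sub_mem x.2 (h1 _), ?_⟩),
    fun x hx h0 => ?_⟩
  · simp [h2]
  · have : d.submoduleMap E ⟨x, hx⟩ = 0 := Subtype.ext h0
    simp [this]

lemma proj_ker (E : Submodule R Λ) (d : Λ →ₗ[R] Λ) [Projective R (E.map d)] [Projective R E] :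
    Projective R ↥(E ⊓ LinearMap.ker d) := by
  obtain ⟨r, hr⟩ := exists_retr E d
  refine .of_split (Submodule.inclusion inf_le_left) r ?_
  ext x
  exact hr x x.2.1 x.2.2

lemma proj_quot {C E : Type} [AddCommGroup C] [Module R C] [AddCommGroup E] [Module R E]
    [Projective R E] (f : C →ₗ[R] E) (g : E →ₗ[R] C) (h : g ∘ₗ f = LinearMap.id) :
    Projective R (E ⧸ LinearMap.range f) := by
  refine .of_split ((LinearMap.range f).liftQ (LinearMap.id - f ∘ₗ g) ?_)
    (LinearMap.range f).mkQ ?_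
  · rintro _ ⟨c, rfl⟩
    have : g (f c) = c := congr($h c)
    simp [this]
  · ext x
    simp

variable [IsLocalRing R]

lemma split_of_fibre {C E : Type} [AddCommGroup C] [Module R C] [AddCommGroup E] [Module R E]
    [Module.Finite R C] [Module.Finite R E] [Projective R E] (f : C →ₗ[R] E)
    (h : ∀ c, f c ∈ maximalIdeal R • (⊤ : Submodule R E) →
      c ∈ maximalIdeal R • (⊤ : Submodule R C)) : ∃ g, g ∘ₗ f = LinearMap.id := by
  have : Module.Free R E := Module.free_of_flat_of_isLocalRing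
  rw [IsLocalRing.split_injective_iff_lTensor_residueField_injective, injective_iff_map_eq_zero]
  intro x hx
  obtain ⟨c, rfl⟩ := TensorProduct.mk_surjective R C (ResidueField R) residue_surjective x
  have h1 : f c ∈ LinearMap.ker (TensorProduct.mk R (R ⧸ maximalIdeal R) E 1) := hx
  rw [LinearMap.ker_tensorProductMk] at h1
  have h2 := h c h1
  rw [← LinearMap.ker_tensorProductMk] at h2
  exact h2

omit [IsLocalRing R] in
lemma mem_smul_top_iff' {I : Ideal R} {E : Submodule R Λ} {x : E} :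
    x ∈ I • (⊤ : Submodule R E) ↔ (x : Λ) ∈ I • E := Submodule.mem_smul_top_iff I E x

lemma spot_local (E0 E1 E2 : Submodule R Λ) (d : Λ →ₗ[R] Λ)
    (h0 : E0.map d ≤ E1 ⊓ LinearMap.ker d) (h1 : E1.map d ≤ E2) [Module.Finite R E1]
    [Module.Finite R E2] [Projective R E2]
    (hf : ∀ z ∈ E1, d z ∈ maximalIdeal R • E2 → z ∈ E0.map d ⊔ maximalIdeal R • E1) :
    E1 ⊓ LinearMap.ker d ≤ E0.map d ∧
      E0.map d ⊓ maximalIdeal R • E1 ≤ maximalIdeal R • E0.map d ∧
      Projective R (E2 ⧸ (E1.map d).comap E2.subtype) := by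
  let N : Submodule R E1 := (E0.map d).comap E1.subtype
  let d1 : E1 →ₗ[R] E2 := d.restrict (fun x hx => h1 ⟨x, hx, rfl⟩)
  let f : (E1 ⧸ N) →ₗ[R] E2 := N.liftQ d1 (fun x hx => Subtype.ext (h0 hx).2)
  obtain ⟨g, hg⟩ := split_of_fibre f (by
    intro c hc
    obtain ⟨z, rfl⟩ := N.mkQ_surjective c
    obtain ⟨a, ha, b, hb, hab⟩ := Submodule.mem_sup.1 (hf z z.2 (mem_smul_top_iff'.1 hc))
    have hb' : b ∈ E1 := Submodule.smul_le_right hb
    have e : N.mkQ z = N.mkQ ⟨b, hb'⟩ := by
      rw [Submodule.mkQ_apply, Submodule.mkQ_apply, Submodule.Quotient.eq]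
      change (z : Λ) - b ∈ E0.map d
      rw [← hab]; simpa using ha
    rw [e, ← Submodule.range_mkQ N, ← Submodule.map_top, ← Submodule.map_smul'']
    exact ⟨_, mem_smul_top_iff'.2 hb, rfl⟩)
  have hinj : Function.Injective f :=
    Function.LeftInverse.injective (g := g) (fun c => congr($hg c))
  have hker : E1 ⊓ LinearMap.ker d ≤ E0.map d := by
    rintro x ⟨hx, hd⟩
    have : N.mkQ ⟨x, hx⟩ = 0 := hinj (by rw [map_zero]; exact Subtype.ext hd)
    exact (Submodule.Quotient.mk_eq_zero N).1 this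
  have hr : LinearMap.range f = (E1.map d).comap E2.subtype := by
    ext x
    constructor
    · rintro ⟨c, rfl⟩
      obtain ⟨z, rfl⟩ := N.mkQ_surjective c
      exact ⟨z, z.2, rfl⟩
    · rintro ⟨z, hz, e⟩
      exact ⟨N.mkQ ⟨z, hz⟩, Subtype.ext e⟩
  refine ⟨hker, ?_, hr ▸ proj_quot f g hg⟩
  have hC : Projective R (E1 ⧸ N) := .of_split f g hg
  have : Projective R (E1.map d) := by
    refine .of_equiv ((LinearEquiv.ofInjective f hinj).trans ((LinearEquiv.ofEq _ _ hr).trans
      (Submodule.comapSubtypeEquivOfLe h1)))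
  obtain ⟨r, hr⟩ := exists_retr E1 d
  rintro x ⟨hx0, hx1⟩
  have hx : x ∈ E1 := (h0 hx0).1
  rw [← hr x hx (h0 hx0).2]
  have h2 : r ⟨x, hx⟩ ∈ maximalIdeal R • (⊤ : Submodule R ↥(E1 ⊓ LinearMap.ker d)) := by
    have h3 := Submodule.mem_map_of_mem (f := r) ((mem_smul_top_iff' (x := ⟨x, hx⟩)).2 hx1)
    rw [Submodule.map_smul''] at h3
    exact Submodule.smul_mono le_rfl le_top h3
  exact Submodule.smul_mono le_rfl hker (mem_smul_top_iff'.1 h2)

end general

variable {R : Type} [CommRing R]

/-- Homogeneous components on the quotient by a homogeneous ideal. -/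
noncomputable def cq {J : Ideal (A R)} (hJ : IsHomog J) (k : ℕ) : (A R ⧸ J) →ₗ[R] (A R ⧸ J) :=
  (J.restrictScalars R).liftQ ((Ideal.Quotient.mkₐ R J).toLinearMap ∘ₗ homogeneousComponent k)
    (fun f hf => Ideal.Quotient.eq_zero_iff_mem.2 (hJ f hf k)) ∘ₗ
    (Submodule.Quotient.restrictScalarsEquiv R J).symm.toLinearMap

lemma cq_mk {J : Ideal (A R)} (hJ : IsHomog J) (k : ℕ) (f : A R) :
    cq hJ k (Ideal.Quotient.mk J f) = Ideal.Quotient.mk J (homogeneousComponent k f) := rfl

/-- The projection onto a term of the Koszul complex. -/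
noncomputable def pq {J : Ideal (A R)} (hJ : IsHomog J) (n j : ℕ) :
    (TT → A R ⧸ J) →ₗ[R] (TT → A R ⧸ J) :=
  LinearMap.pi fun T => if T.card + 1 = j then cq hJ (n + T.card) ∘ₗ LinearMap.proj T else 0

lemma mkv_surj (J : Ideal (A R)) : Function.Surjective (mkv J) := by
  intro x
  choose y hy using fun T => Ideal.Quotient.mk_surjective (x T)
  exact ⟨y, funext hy⟩

lemma pq_mkv {J : Ideal (A R)} (hJ : IsHomog J) (n j : ℕ) (y : TT → A R) :
    pq hJ n j (mkv J y) = mkv J (cut j (prj n y)) := by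
  funext T
  simp only [pq, LinearMap.pi_apply, mkv, cut]
  split_ifs
  · rfl
  · simp

lemma pq_mem {J : Ideal (A R)} (hJ : IsHomog J) (n j : ℕ) (x : TT → A R ⧸ J) :
    pq hJ n j x ∈ EE J n j := by
  obtain ⟨y, rfl⟩ := mkv_surj J x
  rw [pq_mkv]
  exact mkv_mem_EE J (lam_prj n y) j

lemma pq_eq {J : Ideal (A R)} (hJ : IsHomog J) {n j : ℕ} {x : TT → A R ⧸ J}
    (hx : x ∈ EE J n j) : pq hJ n j x = x := by
  obtain ⟨y, hy, h1, rfl⟩ := EE_lift hx
  rw [pq_mkv, hy.prj_eq, h1]

lemma dq_pq {J : Ideal (A R)} (hJ : IsHomog J) (n j : ℕ) (x : TT → A R ⧸ J) :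
    dq J (pq hJ n j x) = pq hJ n (j + 1) (dq J x) := by
  obtain ⟨y, rfl⟩ := mkv_surj J x
  rw [pq_mkv, dq_mkv, dq_mkv, pq_mkv, kd_cut, kd_prj]

lemma Kos.proj_im {J : Ideal (A R)} {n : ℕ} (h : Kos J n)
    (hp : ∀ k, n ≤ k → Projective R (Mn J k)) (j : ℕ) :
    Projective R ((EE J n j).map (dq J)) := by
  have key : ∀ i j, 5 ≤ j + i → Projective R ((EE J n j).map (dq J)) := by
    intro i
    induction i with
    | zero =>
      intro j hj
      have := map_dq_le J n j
      rw [EE_big J n (j := j + 1) (by omega), le_bot_iff] at this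
      rw [this]
      infer_instance
    | succ i ih =>
      intro j hj
      have h1 := ih (j + 1) (by omega)
      have h2 : Projective R (EE J n (j + 1)) := proj_EE (hp _ (by omega))
      rw [← h.spot j]
      exact proj_ker _ _
  exact key 5 j (by omega)

lemma Kos.homotopy {J : Ideal (A R)} (hJ : IsHomog J) {n : ℕ} (h : Kos J n)
    (hp : ∀ k, n ≤ k → Projective R (Mn J k)) :
    ∃ H : ℕ → (TT → A R ⧸ J) →ₗ[R] (TT → A R ⧸ J), (∀ j x, H j x ∈ EE J n j) ∧
      ∀ j x, dq J (H j x) + H (j + 1) (dq J x) = pq hJ n (j + 1) x := by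
  have h1 := fun j => @exists_sec _ _ _ _ _ (EE J n j) (dq J) (h.proj_im hp j)
  choose s hs1 hs2 using h1
  let dp : ∀ j, (TT → A R ⧸ J) →ₗ[R] (EE J n j).map (dq J) := fun j =>
    (dq J ∘ₗ pq hJ n j).codRestrict _ (fun x => ⟨_, pq_mem hJ n j x, rfl⟩)
  let r : ∀ j, (TT → A R ⧸ J) →ₗ[R] (EE J n j).map (dq J) := fun j =>
    (pq hJ n (j + 1) - s (j + 1) ∘ₗ dp (j + 1)).codRestrict _ (fun x => by
      rw [← h.spot j]
      refine ⟨sub_mem (pq_mem hJ n _ x) (hs1 _ _), ?_⟩
      simp only [SetLike.mem_coe, LinearMap.mem_ker, LinearMap.sub_apply, LinearMap.comp_apply,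
        map_sub, hs2]
      exact sub_self _)
  refine ⟨fun j => s j ∘ₗ r j, fun j x => hs1 _ _, fun j x => ?_⟩
  have e : r (j + 1) (dq J x) = dp (j + 1) x := by
    have e1 : dp (j + 1 + 1) (dq J x) = 0 := by
      apply Subtype.ext
      change dq J (pq hJ n (j + 1 + 1) (dq J x)) = 0
      rw [← dq_pq, dq_dq]
    apply Subtype.ext
    change pq hJ n (j + 1 + 1) (dq J x) - s _ (dp (j + 1 + 1) (dq J x)) =
      dq J (pq hJ n (j + 1) x)
    rw [e1, map_zero, sub_zero, dq_pq]
  rw [LinearMap.comp_apply, LinearMap.comp_apply, hs2, e]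
  exact sub_add_cancel _ _

/-- An exact Koszul complex of projective modules stays exact after base change. -/
theorem Kos.baseChange {R' : Type} [CommRing R'] (φ : R →+* R') {J : Ideal (A R)}
    (hJ : IsHomog J) {n : ℕ} (h : Kos J n) (hp : ∀ k, n ≤ k → Projective R (Mn J k)) :
    Kos (bc φ J) n := by
  let := φ.toAlgebra
  change Kos (bc (algebraMap R R') J) n
  set J' := bc (algebraMap R R') J
  have hJ' : IsHomog J' := hJ.map _
  obtain ⟨H, h1, h2⟩ := h.homotopy hJ hp
  let q : (TT → A R ⧸ J) →ₗ[R] (TT → A R' ⧸ J') := (qm R' J).compLeft TT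
  have hq : IsBaseChange R' q := IsBaseChange.finitePow TT (isBaseChange_qm R' J)
  have hqm : ∀ y, q (mkv J y) = mkv J' (fun T => MvPolynomial.map (algebraMap R R') (y T)) :=
    fun _ => rfl
  have hqd : ∀ x, q (dq J x) = dq J' (q x) := by
    intro x
    obtain ⟨y, rfl⟩ := mkv_surj J x
    rw [dq_mkv, hqm, hqm, dq_mkv]
    simp only [map_kd]
  have hqp : ∀ j x, q (pq hJ n j x) = pq hJ' n j (q x) := by
    intro j x
    obtain ⟨y, rfl⟩ := mkv_surj J x
    rw [pq_mkv, hqm, hqm, pq_mkv]
    congr 1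
    funext T
    simp only [cut, prj, map_comp]
    split_ifs <;> simp
  let H' : ℕ → (TT → A R' ⧸ J') →ₗ[R'] (TT → A R' ⧸ J') := fun j => hq.lift (q ∘ₗ H j)
  have h3 : ∀ j, pq hJ' n j ∘ₗ H' j = H' j := by
    intro j
    refine hq.algHom_ext _ _ fun x => ?_
    simp only [H', LinearMap.comp_apply, hq.lift_eq]
    rw [← hqp, pq_eq hJ (h1 j x)]
  have h4 : ∀ j, dq J' ∘ₗ H' j + H' (j + 1) ∘ₗ dq J' = pq hJ' n (j + 1) := by
    intro j
    refine hq.algHom_ext _ _ fun x => ?_
    simp only [H', LinearMap.add_apply, LinearMap.comp_apply, hq.lift_eq, ← hqd, ← hqp]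
    rw [← map_add, h2]
  refine kos_of_spot fun j z hz => ⟨H' j z, ?_, ?_⟩
  · rw [← h3]; exact pq_mem hJ' n j _
  · have := congr($(h4 j) z)
    have hz2 : dq J' z = 0 := hz.2
    simpa only [LinearMap.add_apply, LinearMap.comp_apply, hz2, map_zero, add_zero,
      pq_eq hJ' hz.1] using this

end Pool.Agent.MP_eba2ed_ag

end

section

/-! Koszul complexes over a local ring: lifting from the closed fibre. -/

namespace Pool.Agent.MP_eba2ed_ag

open MvPolynomial Module IsLocalRing

variable {R : Type} [CommRing R]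

lemma exists_sum_X {J : Ideal (A R)} (hJ : IsHomog J) {f : A R} {k : ℕ}
    (hf : f.IsHomogeneous (k + 1)) (h : f ∈ irr R * J) :
    ∃ w : Fin 4 → A R, (∀ i, w i ∈ J ∧ (w i).IsHomogeneous k) ∧ f = ∑ i, X i * w i := by
  have h1 : ∃ w : Fin 4 → A R, (∀ i, w i ∈ J) ∧ f = ∑ i, X i * w i := by
    clear hf
    induction h using Submodule.mul_induction_on' with
    | mem_mul_mem a ha b hb =>
      obtain ⟨c, rfl⟩ := Ideal.mem_span_range_iff_exists_fun.1 ha
      refine ⟨fun i => c i * b, fun i => Ideal.mul_mem_left _ _ hb, ?_⟩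
      rw [Finset.sum_mul]
      exact Finset.sum_congr rfl fun i _ => by ring
    | add a _ b _ ha hb =>
      obtain ⟨w, h1, rfl⟩ := ha
      obtain ⟨w', h2, rfl⟩ := hb
      exact ⟨w + w', fun i => add_mem (h1 i) (h2 i), by simp [mul_add, Finset.sum_add_distrib]⟩
  obtain ⟨w, h1, h2⟩ := h1
  refine ⟨fun i => homogeneousComponent k (w i),
    fun i => ⟨hJ _ (h1 i) k, homogeneousComponent_isHomogeneous _ _⟩, ?_⟩
  rw [← homogeneousComponent_eq_self hf, h2, map_sum]
  refine Finset.sum_congr rfl fun i _ => ?_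
  rw [mul_comm, comp_mul_homog (isHomogeneous_X R i), mul_comm]

lemma lam_single {n k : ℕ} {U : TT} {f : A R} (hf : f.IsHomogeneous k) (h : k = n + U.card) :
    Lam n (Pi.single U f) := by
  intro T
  by_cases hT : T = U
  · subst hT; simpa [h] using hf
  · simp [hT, isHomogeneous_zero]

lemma top_bd {n : ℕ} {w : Fin 4 → A R} (hw : ∀ i, (w i).IsHomogeneous (n + 4)) :
    ∃ y, Lam (n + 1) y ∧ cut 4 y = y ∧ kd R (A R) y = Pi.single Finset.univ (∑ i, X i * w i) ∧
      ∀ J : Ideal (A R), (∀ i, w i ∈ J) → ∀ T, y T ∈ J := by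
  let y : TT → A R := ∑ i, kh R (A R) i (Pi.single Finset.univ (w i))
  have h1 : ∀ v : A R, cut 5 (Pi.single (Finset.univ : TT) v) = Pi.single Finset.univ v := by
    intro v
    funext T
    by_cases hT : T = Finset.univ
    · subst hT; simp [cut]
    · simp [cut, hT]
  have h2 : ∀ v : A R, kd R (A R) (Pi.single (Finset.univ : TT) v) = 0 := by
    intro v
    rw [← h1, kd_cut]
    funext T
    have : T.card ≤ 4 := by simpa using Finset.card_le_univ T
    rw [cut, if_neg (by omega)]
    rfl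
  have h3 : kd R (A R) y = Pi.single Finset.univ (∑ i, X i * w i) := by
    rw [map_sum]
    funext T
    rw [Finset.sum_apply]
    have : ∀ i, kd R (A R) (kh R (A R) i (Pi.single Finset.univ (w i))) =
        (X i : A R) • (Pi.single Finset.univ (w i) : TT → A R) := by
      intro i
      rw [← kd_kh, h2, map_zero, add_zero]
    simp only [this]
    by_cases hT : T = Finset.univ
    · subst hT; simp
    · simp [hT]
  have h4 : Lam (n + 1) y := fun T => by
    simp only [y]
    rw [Finset.sum_apply]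
    exact IsHomogeneous.sum _ _ _ fun i _ => (lam_single (hw i) (by simp)).kh i T
  refine ⟨cut 4 y, h4.cut 4, ?_, by rw [kd_cut, h3, h1], fun J hJ T => ?_⟩
  · funext T; simp only [cut]; split_ifs <;> rfl
  · simp only [cut]
    split_ifs
    · simp only [y]
      rw [Finset.sum_apply]
      refine Ideal.sum_mem _ fun i _ => ?_
      rw [kh, act_apply]
      refine Ideal.sum_mem _ fun U _ => zsmul_mem ?_ _
      by_cases hU : U = Finset.univ
      · subst hU; simpa using hJ i
      · simp [hU]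
    · exact zero_mem _

lemma eq_single_of_cut {y : TT → A R} (h : cut 5 y = y) :
    y = Pi.single Finset.univ (y Finset.univ) := by
  funext T
  by_cases hT : T = Finset.univ
  · subst hT; simp
  · rw [← h, cut, if_neg, Pi.single_eq_of_ne hT]
    intro h1
    exact hT (Finset.eq_univ_of_card T (by simp; omega))

lemma mem_smul_EE {J : Ideal (A R)} {I : Ideal R} {n j : ℕ} {y : TT → A R ⧸ J}
    (h : ∀ T, (T.card + 1 = j → y T ∈ I • Mn J (n + T.card)) ∧ (T.card + 1 ≠ j → y T = 0)) :
    y ∈ I • EE J n j := by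
  rw [← Finset.univ_sum_single y]
  refine Submodule.sum_mem _ fun T _ => ?_
  by_cases hT : T.card + 1 = j
  · have h1 := Submodule.mem_map_of_mem (f := LinearMap.single R (fun _ : TT => A R ⧸ J) T)
      ((h T).1 hT)
    rw [Submodule.map_smul''] at h1
    refine Submodule.smul_mono le_rfl ?_ h1
    rintro _ ⟨x, hx, rfl⟩
    refine mem_EE.2 fun U => ?_
    by_cases hU : U = T
    · subst hU; simpa [hT] using hx
    · simp [hU]
  · rw [(h T).2 hT]; simp

lemma apply_mem_smul {J : Ideal (A R)} {I : Ideal R} {n j : ℕ} {y : TT → A R ⧸ J}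
    (h : y ∈ I • EE J n j) (T : TT) : y T ∈ I • Mn J (n + T.card) := by
  have h1 := Submodule.mem_map_of_mem (f := LinearMap.proj (R := R)
    (φ := fun _ : TT => A R ⧸ J) T) h
  rw [Submodule.map_smul''] at h1
  refine Submodule.smul_mono le_rfl ?_ h1
  rintro _ ⟨x, hx, rfl⟩
  exact (mem_EE.1 hx T).1

lemma lift_homog {R' : Type} [CommRing R'] {φ : R →+* R'} (hφ : Function.Surjective φ)
    {g : A R'} {k : ℕ} (hg : g.IsHomogeneous k) :
    ∃ f : A R, f.IsHomogeneous k ∧ MvPolynomial.map φ f = g := by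
  obtain ⟨f, rfl⟩ := map_surjective φ hφ g
  exact ⟨homogeneousComponent k f, homogeneousComponent_isHomogeneous k f, by
    rw [← map_comp, homogeneousComponent_eq_self hg]⟩

variable [IsLocalRing R]

lemma ker_mem {g : A R} (N : Submodule R (A R))
    (hN : ∀ m ∈ g.support, monomial m (1 : R) ∈ N) (h : MvPolynomial.map (residue R) g = 0) :
    g ∈ maximalIdeal R • N := by
  rw [g.as_sum]
  refine Submodule.sum_mem _ fun m hm => ?_
  rw [← mul_one (coeff m g), ← smul_eq_mul, ← smul_monomial]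
  refine Submodule.smul_mem_smul ?_ (hN m hm)
  rw [← residue_eq_zero_iff, ← coeff_map, h, coeff_zero]

lemma ker_mem_Hn {g : A R} {k : ℕ} (hg : g.IsHomogeneous k)
    (h : MvPolynomial.map (residue R) g = 0) : g ∈ maximalIdeal R • Hn R k := by
  refine ker_mem _ (fun m hm => isHomogeneous_monomial _ ?_) h
  by_contra hne
  exact (MvPolynomial.mem_support_iff.1 hm) (hg.coeff_eq_zero hne)

/-- Forms of degree `k` whose reduction lies in `Jb` lie in `J` up to the maximal ideal. -/
def Lifts (J : Ideal (A R)) (Jb : Ideal (A (ResidueField R))) (k : ℕ) : Prop :=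
  ∀ f : A R, f.IsHomogeneous k → MvPolynomial.map (residue R) f ∈ Jb →
    Ideal.Quotient.mk J f ∈ maximalIdeal R • Mn J k

lemma lifts_of {J : Ideal (A R)} {f a : A R} {k : ℕ} (hf : f.IsHomogeneous k)
    (ha : a.IsHomogeneous k) (haJ : a ∈ J)
    (h : MvPolynomial.map (residue R) a = MvPolynomial.map (residue R) f) :
    Ideal.Quotient.mk J f ∈ maximalIdeal R • Mn J k := by
  have h1 := ker_mem_Hn (hf.sub ha) (by rw [map_sub, h, sub_self])
  have h2 := Submodule.mem_map_of_mem (f := (Ideal.Quotient.mkₐ R J).toLinearMap) h1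
  rw [Submodule.map_smul''] at h2
  have : Ideal.Quotient.mk J f = (Ideal.Quotient.mkₐ R J).toLinearMap (f - a) := by
    simp [Ideal.Quotient.eq_zero_iff_mem.2 haJ]
  rw [this]
  exact h2

lemma exists_lift_bc {J : Ideal (A R)} (hJ : IsHomog J) {g : A (ResidueField R)} {k : ℕ}
    (hg : g.IsHomogeneous k) (h : g ∈ bc (residue R) J) :
    ∃ a : A R, a.IsHomogeneous k ∧ a ∈ J ∧ MvPolynomial.map (residue R) a = g := by
  obtain ⟨a, ha, rfl⟩ := (Ideal.mem_map_iff_of_surjective _
    (map_surjective (residue R) residue_surjective)).1 h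
  exact ⟨homogeneousComponent k a, homogeneousComponent_isHomogeneous k a, hJ a ha k, by
    rw [← map_comp, homogeneousComponent_eq_self hg]⟩

lemma lifts_bc {J : Ideal (A R)} (hJ : IsHomog J) (k : ℕ) : Lifts J (bc (residue R) J) k := by
  intro f hf h
  obtain ⟨a, h1, h2, h3⟩ := exists_lift_bc hJ (hf.map _) h
  exact lifts_of hf h1 h2 h3

lemma red_mem {J : Ideal (A R)} {Jb : Ideal (A (ResidueField R))} (hle : bc (residue R) J ≤ Jb)
    {N : Submodule R (A R ⧸ J)} {f : A R} (h : Ideal.Quotient.mk J f ∈ maximalIdeal R • N) :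
    MvPolynomial.map (residue R) f ∈ Jb := by
  let ρ := Ideal.quotientMap Jb (MvPolynomial.map (residue R) : A R →+* _)
    (Ideal.map_le_iff_le_comap.1 hle)
  have : ∀ x ∈ maximalIdeal R • N, ρ x = 0 := by
    intro x hx
    refine Submodule.smul_induction_on hx (fun a ha v _ => ?_) (fun x y hx hy => ?_)
    · obtain ⟨g, rfl⟩ := Ideal.Quotient.mk_surjective v
      change Ideal.Quotient.mk Jb (MvPolynomial.map (residue R) (a • g)) = 0
      rw [smul_eq_C_mul, map_mul, map_C, (residue_eq_zero_iff a).2 ha]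
      simp
    · rw [map_add, hx, hy, add_zero]
  exact Ideal.Quotient.eq_zero_iff_mem.1 (this _ h)

lemma fibre {J : Ideal (A R)} {Jb : Ideal (A (ResidueField R))} (hle : bc (residue R) J ≤ Jb)
    {n : ℕ} (hK : Kos Jb n) (j : ℕ) (hL : Lifts J Jb (n + j)) :
    ∀ z ∈ EE J n (j + 1), dq J z ∈ maximalIdeal R • EE J n (j + 2) →
      z ∈ (EE J n j).map (dq J) ⊔ maximalIdeal R • EE J n (j + 1) := by
  intro z hz hd
  obtain ⟨y, hy, h1, rfl⟩ := EE_lift hz
  rw [dq_mkv] at hd
  obtain ⟨wb, hwb, h2⟩ := hK (fun T => MvPolynomial.map (residue R) (y T))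
    (fun T => (hy T).map _) (fun T => by
      rw [← map_kd]; exact red_mem hle (apply_mem_smul hd T))
  choose w hw h3 using fun T => lift_homog (φ := residue R) residue_surjective (hwb T)
  have hw' : Lam n w := hw
  have h4 : dq J (mkv J (cut j w)) ∈ EE J n (j + 1) := dq_EE (mkv_mem_EE J hw' j)
  refine Submodule.mem_sup.2 ⟨_, ⟨_, mkv_mem_EE J hw' j, rfl⟩,
    mkv J y - dq J (mkv J (cut j w)), mem_smul_EE fun T => ⟨fun hT => ?_, fun hT => ?_⟩, by simp⟩
  · have hT' : T.card = j := by omega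
    rw [dq_mkv, kd_cut]
    have e : (mkv J y - mkv J (cut (j + 1) (kd R (A R) w))) T =
        Ideal.Quotient.mk J (y T - kd R (A R) w T) := by
      simp [mkv, cut, hT]
    rw [e, hT']
    refine hL _ (hT' ▸ (hy.sub hw'.kd) T) ?_
    rw [map_sub, map_kd]
    simp only [h3]
    exact h2 T
  · rw [Pi.sub_apply, (mem_EE.1 hz T).2 hT, (mem_EE.1 h4 T).2 hT, sub_zero]

omit [IsLocalRing R] in
lemma map_dq_le' (J : Ideal (A R)) (n j : ℕ) :
    (EE J n j).map (dq J) ≤ EE J n (j + 1) ⊓ LinearMap.ker (dq J) := by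
  rintro _ ⟨z, hz, rfl⟩
  exact ⟨dq_EE hz, dq_dq J z⟩

/-- Exactness over a local ring from exactness of the closed fibre. -/
theorem kos_of_fibre {J : Ideal (A R)} (hJ : IsHomog J) {n : ℕ}
    (hp : ∀ k, n ≤ k → Projective R (Mn J k)) (hK : Kos (bc (residue R) J) n) : Kos J n := by
  refine kos_of_spot fun j => ?_
  have : Projective R (EE J n (j + 1 + 1)) := proj_EE (hp _ (by omega))
  exact (spot_local (EE J n j) (EE J n (j + 1)) (EE J n (j + 1 + 1)) (dq J) (map_dq_le' J n j)
    (map_dq_le J n _) (fibre le_rfl hK j (lifts_bc hJ _))).1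

/-- Going up one degree. -/
theorem proj_up {J : Ideal (A R)} (hJ : IsHomog J) {n : ℕ} (h0 : Kos (⊥ : Ideal (A R)) (n + 1))
    (hK : Kos (bc (residue R) J) (n + 1)) (hp : Projective R (Mn J (n + 4)))
    (hgen : ∀ f ∈ J, f.IsHomogeneous (n + 5) → f ∈ irr R * J) :
    Projective R (Mn J (n + 5)) := by
  have h1 : Projective R (EE J (n + 1) (3 + 1)) := proj_EE hp
  have h2 := (spot_local (EE J (n + 1) 2) (EE J (n + 1) 3) (EE J (n + 1) (3 + 1)) (dq J)
    (map_dq_le' J _ 2) (map_dq_le J _ _) (fibre le_rfl hK 2 (lifts_bc hJ _))).2.2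
  let d1 : EE J (n + 1) (3 + 1) →ₗ[R] EE J (n + 1) (4 + 1) := (dq J).restrict (fun x hx => dq_EE hx)
  have hs : Function.Surjective d1 := by
    rintro ⟨x, hx⟩
    obtain ⟨y, hy, h3, rfl⟩ := EE_lift hx
    have h4 : (y Finset.univ).IsHomogeneous (n + 4 + 1) := by simpa [add_right_comm] using hy Finset.univ
    obtain ⟨w, hw, h5⟩ := exists_sum_X isHomog_top h4 (by
      rw [Ideal.mul_top]; simpa using mem_irr_pow (M := 1) h4 (by omega))
    obtain ⟨u, hu, h6, h7, -⟩ := top_bd fun i => (hw i).2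
    refine ⟨⟨mkv J u, h6 ▸ mkv_mem_EE J hu 4⟩, Subtype.ext ?_⟩
    change dq J (mkv J u) = mkv J y
    rw [dq_mkv, h7, ← h5, ← eq_single_of_cut h3]
  have hk : ((EE J (n + 1) 3).map (dq J)).comap (EE J (n + 1) (3 + 1)).subtype =
      LinearMap.ker d1 := by
    ext ⟨x, hx⟩
    constructor
    · intro h
      exact Subtype.ext (map_dq_le' J _ 3 h).2
    · intro h
      obtain ⟨y, hy, h3, rfl⟩ := EE_lift hx
      have h4 : dq J (mkv J y) = 0 := congrArg Subtype.val h
      rw [dq_mkv, mkv_eq_zero] at h4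
      have h5 : (kd R (A R) y Finset.univ).IsHomogeneous (n + 4 + 1) := by
        simpa [add_right_comm] using hy.kd Finset.univ
      obtain ⟨w, hw, h6⟩ := exists_sum_X hJ h5 (hgen _ (h4 _) h5)
      obtain ⟨u, hu, h7, h8, h9⟩ := top_bd fun i => (hw i).2
      have h10 : kd R (A R) (y - u) = 0 := by
        rw [map_sub, h8, ← h6, ← eq_single_of_cut (by rw [← kd_cut, h3]), sub_self]
      obtain ⟨v, hv, h11⟩ := h0 (y - u) (hy.sub hu) (fun T => by rw [h10]; rfl)
      refine ⟨mkv J (cut 3 v), mkv_mem_EE J hv 3, ?_⟩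
      change dq J (mkv J (cut 3 v)) = mkv J y
      have h12 : kd R (A R) v = y - u := funext fun T => (sub_eq_zero.1 (h11 T)).symm
      rw [dq_mkv, kd_cut, h12, mkv_eq_iff]
      intro T
      have h13 := congrFun h3 T
      simp only [cut] at h13 ⊢
      split_ifs at h13 ⊢
      · simpa using h9 J (fun i => (hw i).1) T
      · simp [← h13]
  rw [hk] at h2
  have h3 : Projective R (EE J (n + 1) (4 + 1)) := .of_equiv (d1.quotKerEquivOfSurjective hs)
  have h4 : Projective R ({T : TT // T.card = 4} → Mn J (n + 1 + 4)) :=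
    .of_equiv (EEequiv J (n + 1) 4)
  exact .of_split (LinearMap.pi fun _ => LinearMap.id)
    (LinearMap.proj (R := R) (φ := fun _ : {T : TT // T.card = 4} => Mn J (n + 1 + 4))
      ⟨Finset.univ, by simp⟩) rfl

/-- Going down one degree. -/
theorem lifts_down {J : Ideal (A R)} {Jb : Ideal (A (ResidueField R))}
    (hle : bc (residue R) J ≤ Jb) {n : ℕ}
    (hs : ∀ f : A R, f.IsHomogeneous n → (∀ i, X i * f ∈ J) → f ∈ J) (hK : Kos Jb n)
    (hL : Lifts J Jb (n + 1)) (hp : Projective R (Mn J (n + 2))) : Lifts J Jb n := by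
  have h1 : Projective R (EE J n (2 + 1)) := proj_EE hp
  have h2 := (spot_local (EE J n 1) (EE J n 2) (EE J n (2 + 1)) (dq J)
    (map_dq_le' J _ 1) (map_dq_le J _ _) (fibre hle hK 1 hL)).2.1
  have hinj : ∀ u ∈ EE J n 1, dq J u = 0 → u = 0 := by
    intro u hu h
    obtain ⟨y, hy, h3, rfl⟩ := EE_lift hu
    have h4 : y = Pi.single ∅ (y ∅) := by
      funext T
      by_cases hT : T = ∅
      · subst hT; simp
      · rw [← h3, cut, if_neg (by simpa using hT), Pi.single_eq_of_ne hT]
    rw [dq_mkv, mkv_eq_zero] at h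
    have h5 : y ∅ ∈ J := hs _ (by simpa using hy ∅) fun i => by
      have := h {i}
      rwa [h4, kd_single] at this
    rw [mkv_eq_zero]
    intro T
    rw [h4]
    by_cases hT : T = ∅
    · subst hT; simpa using h5
    · simp [hT]
  intro f hf hfb
  have hl : Lam n (Pi.single ∅ f) := lam_single hf (by simp)
  have hx : mkv J (cut 1 (Pi.single ∅ f)) ∈ EE J n 1 := mkv_mem_EE J hl 1
  have h3 : dq J (mkv J (cut 1 (Pi.single ∅ f))) ∈ maximalIdeal R • EE J n 2 := by
    refine mem_smul_EE fun T => ⟨fun hT => ?_, (mem_EE.1 (dq_EE hx) T).2⟩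
    have hT' : T.card = 1 := by omega
    rw [dq_mkv, hT']
    have h7 := (hl.cut 1).kd T
    rw [hT'] at h7
    refine hL _ h7 ?_
    rw [map_kd, kd_apply]
    refine Ideal.sum_mem _ fun i _ => Ideal.sum_mem _ fun U _ =>
      zsmul_mem (Ideal.mul_mem_left _ _ ?_) _
    by_cases hU : U = ∅
    · subst hU; simpa [cut] using hfb
    · simp [cut, hU]
  have h4 := h2 ⟨⟨_, hx, rfl⟩, h3⟩
  rw [← Submodule.map_smul''] at h4
  obtain ⟨x', hx', h5⟩ := h4
  have h6 := hinj _ (sub_mem (Submodule.smul_le_right hx') hx) (by rw [map_sub, h5, sub_self])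
  rw [sub_eq_zero] at h6
  have := apply_mem_smul hx' ∅
  rw [h6] at this
  simpa [mkv, cut] using this

end Pool.Agent.MP_eba2ed_ag

end

section

/-! Monomial bases modulo an ideal, generic freeness, openness of Koszul exactness. -/

namespace Pool.Agent.MP_eba2ed_ag

open MvPolynomial Module IsLocalRing

abbrev Mono : Type := Fin 4 →₀ ℕ

variable {R : Type} [CommRing R]

/-- The monomials of `B` form a basis of the degree `k` part of `A R ⧸ J`. -/
structure BasisMod (J : Ideal (A R)) (B : Set Mono) (k : ℕ) : Prop where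
  deg : ∀ b ∈ B, b.degree = k
  span : ∀ f : A R, f.IsHomogeneous k → ∃ g ∈ restrictSupport R B, f - g ∈ J
  indep : ∀ g ∈ restrictSupport R B, g ∈ J → g = 0

lemma degree_of_mem {f : A R} {k : ℕ} (hf : f.IsHomogeneous k) {m : Mono} (hm : m ∈ f.support) :
    m.degree = k := by
  by_contra hne
  exact (MvPolynomial.mem_support_iff.1 hm) (hf.coeff_eq_zero hne)

lemma homog_of_restrict {B : Set Mono} {k : ℕ} (h : ∀ b ∈ B, b.degree = k) {g : A R}
    (hg : g ∈ restrictSupport R B) : g.IsHomogeneous k := by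
  rw [g.as_sum]
  exact IsHomogeneous.sum _ _ _ fun m hm => isHomogeneous_monomial _ (h m (hg hm))

lemma map_mem_restrict {R' : Type} [CommRing R'] (φ : R →+* R') {B : Set Mono} {g : A R}
    (hg : g ∈ restrictSupport R B) : MvPolynomial.map φ g ∈ restrictSupport R' B :=
  fun _ hm => hg (support_map_subset φ g hm)

noncomputable def BasisMod.equiv {J : Ideal (A R)} {B : Set Mono} {k : ℕ} (h : BasisMod J B k) :
    restrictSupport R B ≃ₗ[R] Mn J k :=
  LinearEquiv.ofBijective (((Ideal.Quotient.mkₐ R J).toLinearMap ∘ₗ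
    (restrictSupport R B).subtype).codRestrict (Mn J k)
      (fun g => mem_Mn.2 ⟨g, homog_of_restrict h.deg g.2, rfl⟩)) (by
    constructor
    · rw [injective_iff_map_eq_zero]
      intro g hg
      exact Subtype.ext (h.indep g g.2 (Ideal.Quotient.eq_zero_iff_mem.1 (congrArg Subtype.val hg)))
    · rintro ⟨_, f, hf, rfl⟩
      obtain ⟨g, hg, h1⟩ := h.span f hf
      exact ⟨⟨g, hg⟩, Subtype.ext (Ideal.Quotient.eq.2 h1).symm⟩)

lemma BasisMod.proj {J : Ideal (A R)} {B : Set Mono} {k : ℕ} (h : BasisMod J B k) :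
    Projective R (Mn J k) := by
  have : Module.Free R (restrictSupport R B) := .of_basis (basisRestrictSupport R B)
  exact .of_equiv h.equiv

lemma BasisMod.hf {K : Type} [Field K] {J : Ideal (A K)} {B : Set Mono} {k : ℕ}
    (h : BasisMod J B k) : hilbFun J k = Nat.card B := by
  change finrank K (Mn J k) = _
  rw [← h.equiv.finrank_eq, finrank_eq_nat_card_basis (basisRestrictSupport K B)]

lemma BasisMod.congr {J J' : Ideal (A R)} {B : Set Mono} {k : ℕ} (h : BasisMod J B k)
    (e : ∀ f : A R, f.IsHomogeneous k → (f ∈ J ↔ f ∈ J')) : BasisMod J' B k where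
  deg := h.deg
  span f hf := by
    obtain ⟨g, hg, h1⟩ := h.span f hf
    exact ⟨g, hg, (e _ (hf.sub (homog_of_restrict h.deg hg))).1 h1⟩
  indep g hg h1 := h.indep g hg ((e _ (homog_of_restrict h.deg hg)).2 h1)

lemma indep_iff {V : Type} [AddCommGroup V] [Module R V] (L : A R →ₗ[R] V) (B : Set Mono) :
    LinearIndepOn R (fun m => L (monomial m 1)) B ↔
      ∀ g ∈ restrictSupport R B, L g = 0 → g = 0 := by
  have key : ∀ g : A R, Finsupp.linearCombination R (fun m => L (monomial m 1))
      ((basisMonomials (Fin 4) R).repr g) = L g := by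
    intro g
    conv_rhs => rw [← (basisMonomials (Fin 4) R).linearCombination_repr g]
    rw [Finsupp.apply_linearCombination]
    rfl
  rw [linearIndepOn_iff]
  constructor
  · intro h g hg h0
    have := h ((basisMonomials (Fin 4) R).repr g) hg (by rw [key, h0])
    simpa using this
  · intro h l hl h0
    obtain ⟨g, rfl⟩ := (basisMonomials (Fin 4) R).repr.surjective l
    rw [key] at h0
    rw [h g hl h0, map_zero]

lemma exists_basisMod {K : Type} [Field K] (J : Ideal (A K)) (k : ℕ) : ∃ B, BasisMod J B k := by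
  let L := (Ideal.Quotient.mkₐ K J).toLinearMap
  obtain ⟨B, hB, -, h1, h2⟩ := exists_linearIndepOn_extension
    (linearIndepOn_empty K (fun m : Mono => L (monomial m 1)))
    (Set.empty_subset {m : Mono | m.degree = k})
  refine ⟨B, hB, fun f hf => ?_, fun g hg h => (indep_iff L B).1 h2 g hg
    (Ideal.Quotient.eq_zero_iff_mem.2 h)⟩
  have h3 : L f ∈ (restrictSupport K B).map L := by
    rw [restrictSupport_eq_span, Submodule.map_span, ← Set.image_comp, f.as_sum, map_sum]
    refine Submodule.sum_mem _ fun m hm => ?_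
    rw [← mul_one (coeff m f), ← smul_eq_mul, ← smul_monomial, map_smul]
    exact Submodule.smul_mem _ _ (h1 ⟨m, degree_of_mem hf hm, rfl⟩)
  obtain ⟨g, hg, h4⟩ := h3
  exact ⟨g, hg, Ideal.Quotient.eq.1 h4.symm⟩

/-- The linear map with prescribed values on the monomials. -/
noncomputable def rd (r : Mono → A R) : A R →ₗ[R] A R := (basisMonomials (Fin 4) R).constr R r

lemma rd_monomial (r : Mono → A R) (m : Mono) (c : R) : rd r (monomial m c) = C c * r m := by
  rw [← mul_one c, ← smul_eq_mul, ← smul_monomial, map_smul, smul_eq_C_mul, smul_eq_mul, mul_one]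
  congr 1
  exact (basisMonomials (Fin 4) R).constr_basis R r m

lemma rd_eq (r : Mono → A R) (f : A R) : rd r f = ∑ m ∈ f.support, C (coeff m f) * r m := by
  conv_lhs => rw [f.as_sum, map_sum]
  simp only [rd_monomial]

lemma map_rd {R' : Type} [CommRing R'] (φ : R →+* R') (r : Mono → A R) (f : A R) :
    MvPolynomial.map φ (rd r f) =
      rd (fun m => MvPolynomial.map φ (r m)) (MvPolynomial.map φ f) := by
  induction f using MvPolynomial.induction_on' with
  | monomial m c => simp [rd_monomial]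
  | add p q hp hq => simp [hp, hq]

lemma rd_mem {r : Mono → A R} {N : Submodule R (A R)} {f : A R} (h : ∀ m ∈ f.support, r m ∈ N) :
    rd r f ∈ N := by
  rw [rd_eq]
  exact Submodule.sum_mem _ fun m hm => by
    rw [← smul_eq_C_mul]; exact Submodule.smul_mem _ _ (h m hm)

lemma sub_rd_mem {r : Mono → A R} {N : Submodule R (A R)} {f : A R}
    (h : ∀ m ∈ f.support, monomial m 1 - r m ∈ N) : f - rd r f ∈ N := by
  rw [rd_eq]
  conv => enter [2, 1]; rw [f.as_sum]
  rw [← Finset.sum_sub_distrib]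
  refine Submodule.sum_mem _ fun m hm => ?_
  have := Submodule.smul_mem _ (coeff m f) (h m hm)
  rwa [smul_sub, smul_monomial, smul_eq_mul, mul_one, smul_eq_C_mul] at this

lemma rd_self {r : Mono → A R} {f : A R} (h : ∀ m ∈ f.support, r m = monomial m 1) :
    rd r f = f := by
  have : f - rd r f ∈ (⊥ : Submodule R (A R)) := sub_rd_mem fun m hm => by simp [h m hm]
  exact (sub_eq_zero.1 this).symm

lemma BasisMod.map {R' : Type} [CommRing R'] (φ : R →+* R') {J : Ideal (A R)} (hJ : IsHomog J)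
    {B : Set Mono} {k : ℕ} (h : BasisMod J B k) : BasisMod (bc φ J) B k := by
  classical
  have h1 : ∀ m : Mono, ∃ g ∈ restrictSupport R B,
      homogeneousComponent k (monomial m 1) - g ∈ J :=
    fun m => h.span _ (homogeneousComponent_isHomogeneous _ _)
  choose r hr h1 using h1
  have h2 : ∀ m : Mono, m.degree = k → monomial m 1 - r m ∈ J := by
    intro m hm
    have := h1 m
    rwa [homogeneousComponent_eq_self (isHomogeneous_monomial _ hm)] at this
  have h3 : ∀ f : A R, homogeneousComponent k f - rd r f ∈ J := by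
    intro f
    induction f using MvPolynomial.induction_on' with
    | monomial m c =>
      have := J.mul_mem_left (C c) (h1 m)
      rwa [mul_sub, ← rd_monomial, ← smul_eq_C_mul, ← map_smul, smul_monomial, smul_eq_mul,
        mul_one] at this
    | add p q hp hq =>
      have := add_mem hp hq
      rw [map_add, map_add]
      convert this using 1
      ring
  have h4 : ∀ f ∈ J, rd r f = 0 := by
    intro f hf
    refine h.indep _ (rd_mem fun m _ => hr m) ?_
    simpa using sub_mem (hJ f hf k) (h3 f)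
  refine ⟨h.deg, fun f hf => ⟨rd (fun m => MvPolynomial.map φ (r m)) f,
    rd_mem fun m _ => map_mem_restrict φ (hr m), ?_⟩, fun g hg hgJ => ?_⟩
  · refine sub_rd_mem (N := (bc φ J).restrictScalars R') fun m hm => ?_
    simpa using Ideal.mem_map_of_mem (MvPolynomial.map φ : A R →+* A R')
      (h2 m (degree_of_mem hf hm))
  · have h5 : rd (fun m => MvPolynomial.map φ (r m)) g = g := rd_self fun m hm => by
      have hm' : (monomial m (1 : R)) ∈ restrictSupport R B :=
        (monomial_mem_restrictSupport R).2 (Or.inl (hg hm))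
      have := h.indep _ (sub_mem hm' (hr m)) (h2 m (h.deg m (hg hm)))
      rw [← sub_eq_zero.1 this]
      simp
    rw [← h5]
    have h6 := mem_span_of_mem_bc φ hgJ
    clear h5 hgJ hg
    induction h6 using Submodule.span_induction with
    | mem x hx =>
      obtain ⟨a, ha, rfl⟩ := hx
      rw [← map_rd, h4 a ha, map_zero]
    | zero => simp
    | add x y _ _ hx hy => rw [map_add, hx, hy, add_zero]
    | smul c x _ hx => rw [map_smul, hx, smul_zero]

/-- Generic freeness of the graded pieces. -/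
theorem generic_free {D : Type} [CommRing D] [IsDomain D] {J : Ideal (A D)} (hJ : IsHomog J) :
    ∃ f : D, f ≠ 0 ∧ ∀ (R' : Type) [CommRing R'] (φ : D →+* R'), IsUnit (φ f) →
      ∀ k, Projective R' (Mn (bc φ J) k) := by
  classical
  let mo : MonomialOrder (Fin 4) := MonomialOrder.lex
  let P : Mono → Prop := fun m => ∃ g ∈ J, g ≠ 0 ∧ mo.degree g = m
  have hfin : {m | Minimal P m}.Finite :=
    WellQuasiOrderedLE.finite_of_isAntichain (setOfPred_minimal_antichain P)
  have := hfin.fintype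
  choose g hgJ hg0 hg using fun m : {m | Minimal P m} => m.2.prop
  let f : D := ∏ m, mo.leadingCoeff (g m)
  have hf : f ≠ 0 := Finset.prod_ne_zero_iff.2 fun m _ => mo.leadingCoeff_ne_zero_iff.2 (hg0 m)
  let D' := Localization.Away f
  let α := algebraMap D D'
  have hα : Function.Injective α := IsLocalization.injective D'
    (powers_le_nonZeroDivisors_of_noZeroDivisors hf)
  have hsupp : ∀ p : A D, (MvPolynomial.map α p).support = p.support :=
    fun p => support_map_of_injective p hα
  have hdeg : ∀ p : A D, mo.degree (MvPolynomial.map α p) = mo.degree p := fun p => by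
    simp only [MonomialOrder.degree, hsupp]
  have key : ∀ k, BasisMod (bc α J) {m | m.degree = k ∧ ∀ m', Minimal P m' → ¬ m' ≤ m} k := by
    intro k
    refine ⟨fun b hb => hb.1, fun p hp => ?_, fun p hp hpJ => ?_⟩
    · obtain ⟨c, r, h1, -, h2⟩ := mo.div (b := fun m => MvPolynomial.map α (g m)) (fun m => by
        rw [MonomialOrder.leadingCoeff, hdeg, coeff_map]
        exact IsLocalization.Away.isUnit_of_dvd f (Finset.dvd_prod_of_mem _ (Finset.mem_univ m))) p
      refine ⟨homogeneousComponent k r, fun m hm => ⟨degree_of_mem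
        (homogeneousComponent_isHomogeneous k r) hm, fun m' hm' => ?_⟩, ?_⟩
      · have h3 : m ∈ r.support := by
          have hm2 : coeff m (homogeneousComponent k r) ≠ 0 := MvPolynomial.mem_support_iff.1 hm
          rw [coeff_homogeneousComponent] at hm2
          exact MvPolynomial.mem_support_iff.2 fun h0 => hm2 (by simp [h0])
        have := h2 m h3 ⟨m', hm'⟩
        rwa [hdeg, hg] at this
      · have h3 : p - r ∈ bc α J := by
          rw [h1, add_sub_cancel_right, Finsupp.linearCombination_apply]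
          exact Ideal.sum_mem _ fun m _ => Ideal.mul_mem_left _ _ (Ideal.mem_map_of_mem _ (hgJ m))
        have := (hJ.map α) _ h3 k
        rwa [map_sub, homogeneousComponent_eq_self hp] at this
    · obtain ⟨u, hu, p0, hp0⟩ := clear_fin (Submonoid.powers f) (fun _ : Unit => p)
      obtain ⟨v, hv, h1⟩ := spread (R' := D') (Submonoid.powers f) (J := J) (f := p0 ()) (by
        rw [hp0]; exact Ideal.mul_mem_left _ _ hpJ)
      have h2 : MvPolynomial.map α (C v * p0 ()) = (α v * α u) • p := by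
        rw [map_mul, hp0, map_C, smul_eq_C_mul, map_mul, mul_assoc]
      have h3 : C v * p0 () = 0 := by
        by_contra h0
        obtain ⟨m', hle, hm'⟩ := exists_minimal_le_of_wellFoundedLT P _ ⟨_, h1, h0, rfl⟩
        have h4 := mo.degree_mem_support h0
        rw [← hsupp, h2] at h4
        exact (hp (support_smul h4)).2 m' hm' hle
      rw [h3, map_zero] at h2
      exact (((IsLocalization.map_units D' ⟨v, hv⟩).mul
        (IsLocalization.map_units D' ⟨u, hu⟩)).smul_eq_zero).1 h2.symm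
  refine ⟨f, hf, fun R' _ φ hφ k => ?_⟩
  have := ((key k).map (IsLocalization.Away.lift f hφ) (hJ.map α)).proj
  rwa [bc_bc, IsLocalization.Away.lift_comp] at this

lemma kos_field_iff {K K' : Type} [Field K] [Field K'] (ψ : R →+* K) (ψ' : R →+* K')
    (e : ∀ a, ψ a = 0 ↔ ψ' a = 0) {J : Ideal (A R)} (hJ : IsHomog J) {n : ℕ}
    (h : Kos (bc ψ J) n) : Kos (bc ψ' J) n := by
  have := RingHom.ker_isPrime ψ
  let q := RingHom.ker ψ
  let ι : q.ResidueField →+* K := Ideal.ResidueField.lift q ψ le_rfl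
    (fun a ha => Ne.isUnit ha)
  let ι' : q.ResidueField →+* K' := Ideal.ResidueField.lift q ψ' (fun a ha => (e a).1 ha)
    (fun a ha => Ne.isUnit fun h0 => ha ((e a).2 h0))
  have h1 : ι.comp (algebraMap R _) = ψ := by ext; simp [ι]
  have h2 : ι'.comp (algebraMap R _) = ψ' := by ext; simp [ι']
  rw [← h1, ← bc_bc] at h
  rw [← h2, ← bc_bc]
  exact (h.descend ι).baseChange ι' (hJ.map _) (fun _ _ => inferInstance)

/-- Openness of the locus where the Koszul complexes of the fibres are exact. -/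
theorem kos_open [IsNoetherianRing R] {J : Ideal (A R)} (hJ : IsHomog J) {m : ℕ}
    (H : ∀ (L : Type) [CommRing L] [IsLocalRing L] (φ : R →+* L),
      (∀ n, m ≤ n → Kos (bc (residue L) (bc φ J)) n) → ∀ k, m ≤ k → Projective L (Mn (bc φ J) k))
    {K : Type} [Field K] (ψ : R →+* K) (hψ : ∀ n, m ≤ n → Kos (bc ψ J) n) :
    ∃ γ : R, ψ γ ≠ 0 ∧ ∀ (K' : Type) [Field K'] (ψ' : R →+* K'), ψ' γ ≠ 0 →
      ∀ n, m ≤ n → Kos (bc ψ' J) n := by
  classical
  let W : Ideal R → Prop := fun q => ∀ (K' : Type) [Field K'] (ψ' : R →+* K'),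
    RingHom.ker ψ' = q → ∀ n, m ≤ n → Kos (bc ψ' J) n
  have hgen : ∀ q q' : Ideal R, q.IsPrime → q' ≤ q → W q → W q' := by
    intro q q' hq hle hW K' _ ψ' hψ' n hn
    let L := Localization.AtPrime q
    have h1 : ∀ n, m ≤ n → Kos (bc (residue L) (bc (algebraMap R L) J)) n := by
      intro n hn
      rw [bc_bc]
      refine hW _ _ ?_ n hn
      ext a
      exact Ideal.algebraMap_residueField_eq_zero
    have h2 := H L (algebraMap R L) h1
    have h3 := kos_of_fibre (hJ.map _) (fun k hk => h2 k (hn.trans hk)) (h1 n hn)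
    let χ : L →+* K' := IsLocalization.lift (M := q.primeCompl) (g := ψ')
      (fun s => Ne.isUnit fun h0 => s.2 (hle (hψ' ▸ h0)))
    have := h3.baseChange χ (hJ.map _) (fun k hk => h2 k (hn.trans hk))
    rwa [bc_bc, IsLocalization.lift_comp] at this
  have hgeneric : ∀ q : Ideal R, q.IsPrime → W q → ∃ f ∉ q, ∀ q', q ≤ q' → f ∉ q' → W q' := by
    intro q hq hW
    let D := R ⧸ q
    let J0 := bc (Ideal.Quotient.mk q) J
    have hJ0 : IsHomog J0 := hJ.map _
    obtain ⟨f1, hf1, h1⟩ := generic_free hJ0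
    obtain ⟨f2, hf2, h2⟩ := generic_kos (R' := FractionRing D) (nonZeroDivisors D) (J := J0)
      (m := m) (fun n hn => by
        rw [bc_bc]
        refine hW _ _ ?_ n hn
        ext a
        simp [RingHom.mem_ker, D, Ideal.Quotient.eq_zero_iff_mem])
    obtain ⟨f, hf⟩ := Ideal.Quotient.mk_surjective (f1 * f2)
    let D' := Localization.Away (f1 * f2)
    refine ⟨f, fun h => ?_, fun q' hle hf' K' _ ψ' hψ' n hn => ?_⟩
    · exact mul_ne_zero hf1 (nonZeroDivisors.ne_zero hf2)
        (hf ▸ Ideal.Quotient.eq_zero_iff_mem.2 h)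
    · have h3 : Kos (bc (algebraMap D D') J0) n := loc_up (Submonoid.powers (f1 * f2)) hJ0
        fun z hz hd => ⟨f2, IsLocalization.Away.isUnit_of_dvd (f1 * f2) (dvd_mul_left _ _),
          h2 n hn z hz hd⟩
      let χ0 : D →+* K' := Ideal.Quotient.lift q ψ' (fun a ha => (hψ' ▸ hle ha : a ∈ RingHom.ker ψ'))
      have h4 : IsUnit (χ0 (f1 * f2)) := by
        rw [← hf]
        exact Ne.isUnit fun h0 => hf' (hψ' ▸ h0)
      have := h3.baseChange (IsLocalization.Away.lift (f1 * f2) h4) (hJ0.map _) (fun k _ =>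
        h1 D' _ (IsLocalization.Away.isUnit_of_dvd (f1 * f2) (dvd_mul_right _ _)) k)
      rwa [bc_bc, IsLocalization.Away.lift_comp, bc_bc] at this
  have hx : W (RingHom.ker ψ) := fun K' _ ψ' hψ' n hn =>
    kos_field_iff ψ ψ' (fun a => by rw [← RingHom.mem_ker, ← hψ', RingHom.mem_ker]) hJ (hψ n hn)
  let b : Ideal R := sInf {q | q.IsPrime ∧ ¬ W q}
  have hb : ¬ b ≤ RingHom.ker ψ := by
    intro hle
    have := RingHom.ker_isPrime ψ
    obtain ⟨q, hq, hq'⟩ := Ideal.exists_minimalPrimes_le hle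
    have hqp : q.IsPrime := hq.1.1
    obtain ⟨f, hf, h1⟩ := hgeneric q hqp (hgen _ _ this hq' hx)
    have hfin := Ideal.finite_minimalPrimes_of_isNoetherianRing R b
    have h2 : ∀ p ∈ hfin.toFinset.erase q, ∃ g ∈ p, g ∉ q := by
      intro p hp
      rw [Finset.mem_erase, Set.Finite.mem_toFinset] at hp
      by_contra h
      push Not at h
      exact hp.1 (le_antisymm h (hq.2 hp.2.1 h))
    choose! g hg1 hg2 using h2
    have h3 : f * ∏ p ∈ hfin.toFinset.erase q, g p ∈ b := by
      refine Submodule.mem_sInf.2 fun z hz => ?_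
      have := hz.1
      obtain ⟨p, hp, hpz⟩ := Ideal.exists_minimalPrimes_le (I := b) (J := z) (sInf_le hz)
      by_cases hpq : p = q
      · subst hpq
        refine Ideal.mul_mem_right _ _ ?_
        by_contra h
        exact hz.2 (h1 z hpz h)
      · have hp' : p ∈ hfin.toFinset.erase q := by simpa [hpq] using hp
        exact Ideal.mul_mem_left _ _ (Ideal.prod_mem _ hp' (hpz (hg1 p hp')))
    rcases hqp.mem_or_mem (hq.1.2 h3) with h | h
    · exact hf h
    · obtain ⟨p, hp, h⟩ := Ideal.IsPrime.prod_mem_iff.1 h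
      exact hg2 p hp h
  obtain ⟨γ, h1, h2⟩ := Set.not_subset.1 hb
  refine ⟨γ, h2, fun K' _ ψ' hγ => ?_⟩
  by_contra h
  exact hγ (Submodule.mem_sInf.1 h1 (RingHom.ker ψ') ⟨RingHom.ker_isPrime ψ', fun hW =>
    h (hW K' ψ' rfl)⟩)

end Pool.Agent.MP_eba2ed_ag

end
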